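import Mathlib
import Pool.Agent.Lib_helper18.TF.Defs

/-!
# TF, part C: the cells (Matomäki-Radziwiłł)

Paper: team store `E1_helper18.md`, part II, with Lipschitz functions instead of the error region.
-/

set_option autoImplicit false

namespace Pool.Agent.TF

open Pool.Agent.T2 Filter Topology

/-! ### Definitions -/

/-- the number of scales -/
noncomputable def JJ (β τ x : ℝ) : ℕ := ⌊(β - 2 * τ) * Real.log x / Real.log 2⌋₊

/-- the scales -/
noncomputable def YY (β τ x : ℝ) (j : ℕ) : ℝ := 2 ^ j * x ^ (1 - β + τ)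

open Classical in
/-- the indicator function of a cell -/
noncomputable def cf (L M : ℕ) (B : ℝ) (i : ℕ) (r : ℤ) (b : ℤ) : ℝ :=
  if b ∈ Cell L M B i r then 1 else 0

/-- the smooth version of the sum over a cell -/
noncomputable def SC (ψ f : ℝ → ℝ) (om : ℕ → ℝ) (σ : ℤ) (x B Y : ℝ) (M : ℕ) (r : ℤ) : ℝ :=
  ∑ p ∈ pr1 Y (2 * Y), om p * ∑ z ∈ Bl (2 * x ^ 2 / Y),
    gl z * ((if (M : ℤ) ∣ σ * (pel p * z).im - r then 1 else 0) *
      (ψ (((σ * (pel p * z).im : ℤ) : ℝ) / B) * f (((pel p * z).re : ℝ) / x)))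

/-- the part of `SC` with content `g`, over primitive elements `w` of norm at most `Z` -/
noncomputable def SG (ψ f : ℝ → ℝ) (om : ℕ → ℝ) (σ : ℤ) (x B Y : ℝ) (M : ℕ) (r : ℤ) (g : ℕ)
    (Z : ℝ) : ℝ :=
  ∑ p ∈ pr1 Y (2 * Y), om p * ∑ w ∈ PB Z,
    gl w * ((if (M : ℤ) ∣ σ * (pel p * ((g : G) * w)).im - r then 1 else 0) *
      (ψ (((σ * (pel p * ((g : G) * w)).im : ℤ) : ℝ) / B) *
        f (((pel p * ((g : G) * w)).re : ℝ) / x)))

/-- the cutoff function in polar coordinates: `u = |ζ| / x`, `t = arg ζ * x / B` -/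
noncomputable def Ps (ψ f : ℝ → ℝ) (σ : ℤ) (x B u t : ℝ) : ℝ :=
  ψ ((σ : ℝ) * (u * (x / B) * Real.sin (t * B / x))) * f (u * Real.cos (t * B / x))

open Classical in
/-- the region which contains everything -/
noncomputable def Rg (T x B : ℝ) : Finset G :=
  (Bl (16 * x ^ 2)).filter (fun ζ => 0 < ζ.re ∧ |(ζ.im : ℝ)| ≤ T * B)

/-- representatives of the residue classes modulo `M` -/
noncomputable def Cls (M : ℕ) : Finset G :=
  ((Finset.range M) ×ˢ (Finset.range M)).image (fun t => (⟨(t.1 : ℤ), (t.2 : ℤ)⟩ : G))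

open Classical in
/-- the primes of a slice -/
noncomputable def Sub (M : ℕ) (c : G) (N a : ℕ) (Y : ℝ) : Finset ℕ :=
  (pr1 Y (2 * Y)).filter (fun p => (M : G) ∣ pel p - c ∧ ⌈(N : ℝ) * p / Y⌉₊ = a)

open Classical in
/-- the primitive elements of a class modulo `M` with norm in `(a Y, b Y]` -/
noncomputable def Slc (M : ℕ) (c : G) (a b Y : ℝ) : Finset G :=
  (PB (b * Y)).filter (fun w => a * Y < (nn w : ℝ) ∧ (M : G) ∣ w - c)

/-- the slice number `b` (of width `1/N` in `g² nn w / Y`) -/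
noncomputable def Sl (M : ℕ) (c : G) (N g b : ℕ) (Y : ℝ) : Finset G :=
  Slc M c (((b : ℝ) - 1) / (N * g ^ 2)) ((b : ℝ) / (N * g ^ 2)) Y

/-- the variance of a set -/
noncomputable def SV (S : Finset G) (k : ℝ) : ℝ :=
  ∑ w ∈ S, ∑ w' ∈ S, gl w * gl w' * hat (ag w w' / k)

/-- the bilinear sum with a hat -/
noncomputable def TS (om : ℕ → ℝ) (Q : Finset ℕ) (S : Finset G) (k : ℝ) (s : ℤ) : ℝ :=
  ∑ p ∈ Q, om p * ∑ w ∈ S, gl w * hat ((ag (star (pel p)) w - s * k) / k)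

end Pool.Agent.TF
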