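import Mathlib
import Pool.Agent.Lib_helper18.TFF.DefsC

/-!
# TF, part F: the theorem

Paper: team store `E1_helper18.md`, part F, with the weights `log p / log x`.
-/

set_option autoImplicit false

namespace Pool.Agent.TF

open Pool.Agent.T2 Filter Topology

/-! ### Definitions -/

/-- the cutoff function -/
noncomputable def fc (δ t : ℝ) : ℝ := max 0 (min 1 (min ((t - δ) / δ) ((1 - t) / δ)))

/-- the weight of a prime -/
noncomputable def lw (x : ℝ) (p : ℕ) : ℝ := min 1 (Real.log p / Real.log x)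

open Classical in
/-- the weighted number of the prime elements dividing `z`, with norm in the window -/
noncomputable def VV (β τ x : ℝ) (z : G) : ℝ :=
  ∑ j ∈ Finset.range (JJ β τ x), ∑ p ∈ pr1 (YY β τ x j) (2 * YY β τ x j),
    lw x p * ((if pel p ∣ z then 1 else 0) + (if star (pel p) ∣ z then 1 else 0))

/-- the weighted sum for one `b` -/
noncomputable def EE (β τ δ x : ℝ) (b : ℤ) : ℝ :=
  ∑ n ∈ Finset.Icc 1 ⌊x⌋₊, fc δ ((n : ℝ) / x) *
    (gl (⟨(n : ℤ), b⟩ : G) * VV β τ x (⟨(n : ℤ), b⟩ : G))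

end Pool.Agent.TF
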