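import Mathlib
import Pool.Agent.Lib_helper18.TF.Defs
import Pool.Agent.Lib_helper10.T2F.BAS
import Pool.Agent.Lib_helper10.T2F.PEL
import Pool.Agent.Lib_helper10.T2F.CNT
import Pool.Agent.Lib_helper10.T2F.SLW
import Pool.Agent.Lib_helper10.T2F.SLG
import Pool.Agent.Lib_helper10.T2F.MER
import Pool.Agent.Lib_helper10.T2F.DSR
import Pool.Agent.Lib_helper73.Var.LS
import Pool.Agent.Lib_helper18.TFF.DefsF
import Pool.Agent.Lib_helper18.TFF.F1

/-! # TF, block F2: the total weight, upper bound -/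

set_option autoImplicit false

namespace Pool.Agent.TF

open Pool.Agent.T2 Filter Topology

theorem f2_nn_prod {ι : Type} (s : Finset ι) (f : ι → G) :
    nn (∏ i ∈ s, f i) = ∏ i ∈ s, nn (f i) := by
  classical
  induction s using Finset.induction_on with
  | empty => simpa using pel_nn_one isUnit_one
  | insert a s ha ih => rw [Finset.prod_insert ha, Finset.prod_insert ha, nn_mul, ih]

/-- the two prime elements of norm `p` -/
noncomputable def f2_f (i : ℕ × Bool) : G := cond i.2 (pel i.1) (star (pel i.1))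

theorem f2_prime {i : ℕ × Bool} (h : i.1.Prime) (h4 : i.1 % 4 = 1) : Prime (f2_f i) := by
  rcases i with ⟨p, _ | _⟩
  · exact pel_star_prime h h4
  · exact pel_prime h h4

theorem f2_nn {i : ℕ × Bool} (h : i.1.Prime) (h4 : i.1 % 4 = 1) : nn (f2_f i) = i.1 := by
  rcases i with ⟨p, _ | _⟩
  · show nn (star (pel p)) = p
    rw [nn_star]
    exact (pel_spec h h4).1
  · exact (pel_spec h h4).1

theorem f2_inj {i j : ℕ × Bool} (hi : i.1.Prime) (hi4 : i.1 % 4 = 1) (hj : j.1.Prime)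
    (hj4 : j.1 % 4 = 1) (h : f2_f i ∣ f2_f j) : i = j := by
  have h1 : i.1 = j.1 := by
    have h2 := pel_nn_dvd h
    rw [f2_nn hi hi4, f2_nn hj hj4] at h2
    exact (Nat.prime_dvd_prime_iff_eq hi hj).1 h2
  have h3 : Associated (f2_f i) (f2_f j) :=
    ((f2_prime hi hi4).dvd_prime_iff_associated (f2_prime hj hj4)).1 h
  rcases i with ⟨p, _ | _⟩ <;> rcases j with ⟨q, _ | _⟩
  · exact Prod.ext h1 rfl
  · exact absurd h3.symm (pel_not_star hj hj4 hi hi4)
  · exact absurd h3 (pel_not_star hi hi4 hj hj4)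
  · exact Prod.ext h1 rfl

theorem f2_bound (s : Finset (ℕ × Bool)) (z : G) (hz : z ≠ 0)
    (h : ∀ i ∈ s, i.1.Prime ∧ i.1 % 4 = 1 ∧ f2_f i ∣ z) :
    ∑ i ∈ s, Real.log (i.1 : ℝ) ≤ Real.log (nn z) := by
  have h1 : ∏ i ∈ s, f2_f i ∣ z := by
    refine Finset.prod_dvd_of_coprime ?_ fun i hi => (h i hi).2.2
    intro i hi j hj hij
    have hi' := h i hi
    have hj' := h j hj
    exact ((f2_prime hi'.1 hi'.2.1).irreducible.coprime_iff_not_dvd).2
      fun hd => hij (f2_inj hi'.1 hi'.2.1 hj'.1 hj'.2.1 hd)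
  have h2 := pel_nn_dvd h1
  rw [f2_nn_prod] at h2
  have h3 : ∏ i ∈ s, nn (f2_f i) = ∏ i ∈ s, i.1 :=
    Finset.prod_congr rfl fun i hi => f2_nn (h i hi).1 (h i hi).2.1
  rw [h3] at h2
  have h4 := Nat.le_of_dvd (nn_pos.2 hz) h2
  have h5 : ∑ i ∈ s, Real.log (i.1 : ℝ) = Real.log (∏ i ∈ s, (i.1 : ℝ)) := by
    rw [Real.log_prod]
    intro i hi
    exact_mod_cast (h i hi).1.ne_zero
  rw [h5]
  refine Real.log_le_log ?_ ?_
  · refine Finset.prod_pos fun i hi => ?_
    exact_mod_cast (h i hi).1.pos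
  · exact_mod_cast h4

theorem f2_mem_pr1 {P Q : ℝ} {p : ℕ} (h : p ∈ pr1 P Q) :
    p.Prime ∧ p % 4 = 1 ∧ P < (p : ℝ) ∧ (p : ℝ) ≤ Q := by
  classical
  unfold pr1 at h
  exact (Finset.mem_filter.1 h).2

theorem f2_disj {β τ x : ℝ} (hx : 0 < x) {j k : ℕ} (hjk : j < k) :
    Disjoint (pr1 (YY β τ x j) (2 * YY β τ x j)) (pr1 (YY β τ x k) (2 * YY β τ x k)) := by
  rw [Finset.disjoint_left]
  intro p hp hq
  have h1 := (f2_mem_pr1 hp).2.2.2
  have h2 := (f2_mem_pr1 hq).2.2.1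
  have h3 : 2 * YY β τ x j ≤ YY β τ x k := by
    unfold YY
    have hc : 0 < x ^ (1 - β + τ) := Real.rpow_pos_of_pos hx _
    have h4 : (2 : ℝ) ^ (j + 1) ≤ 2 ^ k := pow_le_pow_right₀ (by norm_num) hjk
    calc 2 * (2 ^ j * x ^ (1 - β + τ)) = 2 ^ (j + 1) * x ^ (1 - β + τ) := by ring
      _ ≤ 2 ^ k * x ^ (1 - β + τ) := mul_le_mul_of_nonneg_right h4 hc.le
  linarith

theorem mass_upper_pr {β τ x : ℝ} (hτ : 0 < τ) (hβ : 2 * τ < β) (hβ1 : β < 1) (hx : 2 ≤ x)
    (n b : ℤ) (hn : 1 ≤ n) (hnx : (n : ℝ) ≤ x) (hb : 1 ≤ b) (hbx : (b : ℝ) ≤ x) :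
    0 ≤ VV β τ x ⟨n, b⟩ ∧ VV β τ x ⟨n, b⟩ ≤ 2 + 1 / Real.log x := by
  classical
  have hx1 : 1 < x := by linarith
  have hx0 : 0 < x := by linarith
  have hlog : 0 < Real.log x := Real.log_pos hx1
  have hz0 : (⟨n, b⟩ : G) ≠ 0 := by
    intro h
    have h1 := congrArg Zsqrtd.re h
    change n = 0 at h1
    omega
  have hnn : Real.log (nn (⟨n, b⟩ : G) : ℝ) ≤ 2 * Real.log x + 1 := by
    have h1 := bas_cast_real (⟨n, b⟩ : G)
    change (nn (⟨n, b⟩ : G) : ℝ) = (n : ℝ) ^ 2 + (b : ℝ) ^ 2 at h1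
    have hn' : (1 : ℝ) ≤ n := by exact_mod_cast hn
    have hb' : (1 : ℝ) ≤ b := by exact_mod_cast hb
    have h2 : (nn (⟨n, b⟩ : G) : ℝ) ≤ 2 * x ^ 2 := by
      rw [h1]
      nlinarith
    have h3 : (0 : ℝ) < (nn (⟨n, b⟩ : G) : ℝ) := by
      rw [h1]
      positivity
    calc Real.log (nn (⟨n, b⟩ : G) : ℝ) ≤ Real.log (2 * x ^ 2) := Real.log_le_log h3 h2
      _ = Real.log 2 + 2 * Real.log x := by
          rw [Real.log_mul (by norm_num) (by positivity), Real.log_pow]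
          norm_num
      _ ≤ 2 * Real.log x + 1 := by
          have := Real.log_two_lt_d9
          linarith
  generalize (⟨n, b⟩ : G) = z at *
  constructor
  · unfold VV
    refine Finset.sum_nonneg fun j _ => Finset.sum_nonneg fun p _ => ?_
    refine mul_nonneg (lw_bound hx1 p).1 (add_nonneg ?_ ?_)
    · split_ifs <;> norm_num
    · split_ifs <;> norm_num
  · set P : Finset ℕ := (Finset.range (JJ β τ x)).biUnion
      (fun j => pr1 (YY β τ x j) (2 * YY β τ x j)) with hP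
    have hPm : ∀ p ∈ P, p.Prime ∧ p % 4 = 1 := by
      intro p hp
      obtain ⟨j, -, hj⟩ := Finset.mem_biUnion.1 hp
      exact ⟨(f2_mem_pr1 hj).1, (f2_mem_pr1 hj).2.1⟩
    have h1 : VV β τ x z = ∑ i ∈ P ×ˢ (Finset.univ : Finset Bool),
        lw x i.1 * (if f2_f i ∣ z then 1 else 0) := by
      rw [Finset.sum_product, hP, Finset.sum_biUnion]
      · unfold VV
        refine Finset.sum_congr rfl fun j _ => Finset.sum_congr rfl fun p _ => ?_
        rw [Fintype.sum_bool, mul_add]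
        rfl
      · intro j _ k _ hjk
        rcases lt_or_gt_of_ne hjk with h | h
        · exact f2_disj hx0 h
        · exact (f2_disj hx0 h).symm
    set I : Finset (ℕ × Bool) := (P ×ˢ (Finset.univ : Finset Bool)).filter
      (fun i => f2_f i ∣ z) with hI
    have h2 : VV β τ x z = ∑ i ∈ I, lw x i.1 := by
      rw [h1, hI, Finset.sum_filter]
      refine Finset.sum_congr rfl fun i _ => ?_
      split_ifs <;> simp
    have h3 : ∀ i ∈ I, i.1.Prime ∧ i.1 % 4 = 1 ∧ f2_f i ∣ z := by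
      intro i hi
      obtain ⟨hi1, hi2⟩ := Finset.mem_filter.1 hi
      have := hPm i.1 (Finset.mem_product.1 hi1).1
      exact ⟨this.1, this.2, hi2⟩
    have h4 := f2_bound I z hz0 h3
    calc VV β τ x z = ∑ i ∈ I, lw x i.1 := h2
      _ ≤ ∑ i ∈ I, Real.log (i.1 : ℝ) / Real.log x :=
          Finset.sum_le_sum fun i _ => (lw_bound hx1 i.1).2.2.1
      _ = (∑ i ∈ I, Real.log (i.1 : ℝ)) / Real.log x := by rw [Finset.sum_div]
      _ ≤ (2 * Real.log x + 1) / Real.log x := by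
          gcongr
          exact h4.trans hnn
      _ = 2 + 1 / Real.log x := by
          field_simp

end Pool.Agent.TF

namespace Pool.Agent.TF

theorem mass_upper : type_of% @mass_upper_pr := @mass_upper_pr

end Pool.Agent.TF
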