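import Mathlib
import Pool.Agent.Lib_helper18.TF.Defs
import Pool.Agent.Lib_helper10.T2F.BAS
import Pool.Agent.Lib_helper10.T2F.PEL
import Pool.Agent.Lib_helper10.T2F.CNT
import Pool.Agent.Lib_helper10.T2F.SLW
import Pool.Agent.Lib_helper10.T2F.SLG
import Pool.Agent.Lib_helper10.T2F.MER
import Pool.Agent.Lib_helper10.T2F.DSR
import Pool.Agent.Lib_helper73.Var.LS
import Pool.Agent.Lib_helper18.TFF.DefsF
import Pool.Agent.Lib_helper10.T2F.AFR
import Pool.Agent.Lib_helper18.TFF.C1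
import Pool.Agent.Lib_helper18.TFF.F1

/-!
# TF, block F3: the total weight, lower bound
-/

set_option autoImplicit false

namespace Pool.Agent.TF

open Pool.Agent.T2 Filter Topology

private theorem f3_star_dvd (v z : G) : star v ∣ z ↔ v ∣ star z := by
  constructor
  · rintro ⟨w, rfl⟩
    exact ⟨star w, by rw [StarMul.star_mul, star_star, mul_comm]⟩
  · rintro ⟨w, hw⟩
    refine ⟨star w, ?_⟩
    have := congrArg star hw
    rw [star_star, StarMul.star_mul, mul_comm] at this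
    exact this

/-- the divisibility is a congruence -/
private theorem f3_class {p : ℕ} (hp : p.Prime) (h4 : p % 4 = 1) (b : ℤ) (v : G)
    (hv : v = pel p ∨ v = star (pel p)) :
    ∃ n₀ : ℤ, ∀ n : ℤ, (p : ℤ) ∣ n - n₀ → v ∣ (⟨n, b⟩ : G) := by
  obtain ⟨h1, h2, h3⟩ := pel_spec hp h4
  have hpi : Prime (p : ℤ) := Nat.prime_iff_prime_int.mp hp
  have hnn : (p : ℤ) = (pel p).re ^ 2 + (pel p).im ^ 2 := by rw [← nn_cast, h1]
  have hcop : IsCoprime ((pel p).im) (p : ℤ) := by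
    rw [isCoprime_comm, Prime.coprime_iff_not_dvd hpi]
    intro h
    have h5 := Int.le_of_dvd h2 h
    nlinarith
  obtain ⟨s, t, hst⟩ := hcop
  -- s * im + t * p = 1
  have key : ∀ c : ℤ, ∀ n : ℤ, (p : ℤ) ∣ n - s * c → (p : ℤ) ∣ c - (pel p).im * n := by
    intro c n hn
    obtain ⟨k, hk⟩ := hn
    refine ⟨t * c - (pel p).im * k, ?_⟩
    have : n = s * c + p * k := by linarith
    rw [this]
    linear_combination (-c) * hst
  rcases hv with rfl | rfl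
  · refine ⟨s * ((pel p).re * b), fun n hn => ?_⟩
    rw [pel_dvd hp h4]
    exact key _ n hn
  · refine ⟨s * ((pel p).re * (-b)), fun n hn => ?_⟩
    rw [f3_star_dvd, pel_dvd hp h4]
    exact key _ n hn

open Classical in
theorem class_count_pr {δ x : ℝ} (hδ : 0 < δ) (hδ1 : δ ≤ 1 / 4) (hx : 1 ≤ x) {p : ℕ} (hp : p.Prime)
    (h4 : p % 4 = 1) (b : ℤ) (v : G) (hv : v = pel p ∨ v = star (pel p)) :
    (1 - 3 * δ) * x / p - 1 ≤ ∑ n ∈ Finset.Icc 1 ⌊x⌋₊, fc δ ((n : ℝ) / x) *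
      (if v ∣ (⟨(n : ℤ), b⟩ : G) then 1 else 0) := by
  obtain ⟨n₀, hn₀⟩ := f3_class hp h4 b v hv
  have hx0 : 0 < x := by linarith
  have hp0 : (0 : ℝ) < p := by exact_mod_cast hp.pos
  obtain ⟨hc1, -, hc3⟩ := fc_cut hδ hδ1
  set k0 : ℤ := ⌈(2 * δ * x - n₀) / p⌉ with hk0
  set k1 : ℤ := ⌊((1 - δ) * x - n₀) / p⌋ with hk1
  set S : Finset ℕ := (Finset.Icc 1 ⌊x⌋₊).filter (fun n : ℕ => 2 * δ * x ≤ n ∧ (n : ℝ) ≤ (1 - δ) * x ∧
    (p : ℤ) ∣ (n : ℤ) - n₀) with hS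
  have h1 : ((S.card : ℕ) : ℝ) ≤ ∑ n ∈ Finset.Icc 1 ⌊x⌋₊, fc δ ((n : ℝ) / x) *
      (if v ∣ (⟨(n : ℤ), b⟩ : G) then 1 else 0) := by
    have h2 : ∑ n ∈ S, (1 : ℝ) ≤ ∑ n ∈ S, fc δ ((n : ℝ) / x) *
        (if v ∣ (⟨(n : ℤ), b⟩ : G) then 1 else 0) := by
      apply Finset.sum_le_sum
      intro n hn
      rw [hS, Finset.mem_filter] at hn
      obtain ⟨-, ha, hb, hd⟩ := hn
      rw [if_pos (hn₀ _ hd), mul_one, hc3]
      · rw [le_div_iff₀ hx0]; linarith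
      · rw [div_le_iff₀ hx0]; linarith
    rw [Finset.sum_const, nsmul_eq_mul, mul_one] at h2
    refine h2.trans (Finset.sum_le_sum_of_subset_of_nonneg (Finset.filter_subset _ _) ?_)
    intro n _ _
    apply mul_nonneg (hc1.nonneg _)
    split_ifs
    · exact zero_le_one
    · exact le_refl _
  have h2 : (Finset.Icc k0 k1).card ≤ S.card := by
    have hmem : ∀ k ∈ Finset.Icc k0 k1, 2 * δ * x ≤ ((n₀ + p * k : ℤ) : ℝ) ∧
        ((n₀ + p * k : ℤ) : ℝ) ≤ (1 - δ) * x := by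
      intro k hk
      rw [Finset.mem_Icc, hk0, hk1, Int.ceil_le, Int.le_floor, div_le_iff₀ hp0,
        le_div_iff₀ hp0] at hk
      push_cast
      constructor <;> nlinarith [hk.1, hk.2]
    apply Finset.card_le_card_of_injOn (fun k : ℤ => (n₀ + p * k).toNat)
    · intro k hk
      have hk' := hmem k hk
      have hpos : 0 < n₀ + p * k := by
        have : (0 : ℝ) < ((n₀ + p * k : ℤ) : ℝ) := lt_of_lt_of_le (by positivity) hk'.1
        exact_mod_cast this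
      have hcast : (((n₀ + p * k).toNat : ℕ) : ℤ) = n₀ + p * k := Int.toNat_of_nonneg hpos.le
      have hcast2 : (((n₀ + p * k).toNat : ℕ) : ℝ) = ((n₀ + p * k : ℤ) : ℝ) := by
        rw [← hcast]; push_cast; rfl
      simp only [hS, Finset.coe_filter, Finset.mem_Icc, Set.mem_ofPred_eq]
      rw [hcast2, hcast]
      refine ⟨⟨?_, ?_⟩, hk'.1, hk'.2, ?_⟩
      · have : (1 : ℤ) ≤ (((n₀ + p * k).toNat : ℕ) : ℤ) := by rw [hcast]; omega
        exact_mod_cast this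
      · apply Nat.le_floor
        rw [hcast2]
        nlinarith [hk'.2]
      · exact ⟨k, by ring⟩
    · intro k hk l hl hkl
      have hk' := hmem k hk
      have hl' := hmem l hl
      have hpos : 0 < n₀ + p * k := by
        have : (0 : ℝ) < ((n₀ + p * k : ℤ) : ℝ) := lt_of_lt_of_le (by positivity) hk'.1
        exact_mod_cast this
      have hpos' : 0 < n₀ + p * l := by
        have : (0 : ℝ) < ((n₀ + p * l : ℤ) : ℝ) := lt_of_lt_of_le (by positivity) hl'.1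
        exact_mod_cast this
      have h5 : n₀ + p * k = n₀ + p * l := by
        have h6 : (n₀ + p * k).toNat = (n₀ + p * l).toNat := hkl
        rw [← Int.toNat_of_nonneg hpos.le, h6, Int.toNat_of_nonneg hpos'.le]
      have h6 : (p : ℤ) * k = p * l := by linarith
      exact mul_left_cancel₀ (by exact_mod_cast hp.ne_zero) h6
  have h3 : (k1 - k0 + 1 : ℝ) ≤ ((Finset.Icc k0 k1).card : ℝ) := by
    rw [Int.card_Icc]
    have : (k1 + 1 - k0 : ℤ) ≤ ((k1 + 1 - k0).toNat : ℤ) := Int.self_le_toNat _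
    have h4 : ((k1 + 1 - k0 : ℤ) : ℝ) ≤ (((k1 + 1 - k0).toNat : ℤ) : ℝ) := by exact_mod_cast this
    push_cast at h4
    linarith
  have h5 : ((1 - δ) * x - n₀) / p - 1 < k1 := Int.sub_one_lt_floor _
  have h6 : (k0 : ℝ) < (2 * δ * x - n₀) / p + 1 := Int.ceil_lt_add_one _
  have h7 : (1 - 3 * δ) * x / p = ((1 - δ) * x - n₀) / p - (2 * δ * x - n₀) / p := by ring
  have h8 : ((Finset.Icc k0 k1).card : ℝ) ≤ S.card := by exact_mod_cast h2
  rw [h7]
  linarith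

/-- `pr1` is additive -/
private theorem f3_pr1 (f : ℕ → ℝ) {P Q R : ℝ} (hPQ : P ≤ Q) (hQR : Q ≤ R) :
    ∑ p ∈ pr1 P Q, f p + ∑ p ∈ pr1 Q R, f p = ∑ p ∈ pr1 P R, f p := by
  have hmem : ∀ A B : ℝ, ∀ p : ℕ, p ∈ pr1 A B ↔
      (p.Prime ∧ p % 4 = 1 ∧ A < (p : ℝ) ∧ (p : ℝ) ≤ B) := by
    intro A B p
    unfold pr1
    rw [Finset.mem_filter, Finset.mem_range]
    constructor
    · exact fun h => h.2
    · intro h
      refine ⟨?_, h⟩
      exact Nat.lt_succ_of_le (Nat.le_floor h.2.2.2)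
  rw [← Finset.sum_union]
  · congr 1
    ext p
    rw [Finset.mem_union, hmem, hmem, hmem]
    constructor
    · rintro (⟨h1, h2, h3, h4⟩ | ⟨h1, h2, h3, h4⟩)
      · exact ⟨h1, h2, h3, h4.trans hQR⟩
      · exact ⟨h1, h2, lt_of_le_of_lt hPQ h3, h4⟩
    · rintro ⟨h1, h2, h3, h4⟩
      rcases le_or_gt (p : ℝ) Q with h | h
      · exact Or.inl ⟨h1, h2, h3, h⟩
      · exact Or.inr ⟨h1, h2, h, h4⟩
  · rw [Finset.disjoint_left]
    intro p h1 h2
    rw [hmem] at h1 h2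
    exact absurd h1.2.2.2 (not_le.2 h2.2.2.1)

private theorem f3_mem {A B : ℝ} {p : ℕ} (h : p ∈ pr1 A B) :
    p.Prime ∧ p % 4 = 1 ∧ A < (p : ℝ) ∧ (p : ℝ) ≤ B := by
  unfold pr1 at h
  exact (Finset.mem_filter.1 h).2

private theorem f3_tele (f : ℕ → ℝ) (Y : ℕ → ℝ) (h0 : ∀ j, 0 ≤ Y j) (h : ∀ j, Y (j + 1) = 2 * Y j)
    (J : ℕ) : ∑ j ∈ Finset.range J, ∑ p ∈ pr1 (Y j) (2 * Y j), f p = ∑ p ∈ pr1 (Y 0) (Y J), f p := by
  have hmono : ∀ j, Y 0 ≤ Y j := by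
    intro j
    induction j with
    | zero => exact le_refl _
    | succ j ih => rw [h]; linarith [h0 j]
  induction J with
  | zero =>
    rw [Finset.sum_range_zero]
    symm
    apply Finset.sum_eq_zero
    intro p hp
    have := f3_mem hp
    exact absurd this.2.2.2 (not_le.2 this.2.2.1)
  | succ J ih =>
    rw [Finset.sum_range_succ, ih, ← h J]
    exact f3_pr1 f (hmono J) (by rw [h]; linarith [h0 J])

private theorem f3_card {A B : ℝ} (hB : 0 ≤ B) : ((pr1 A B).card : ℝ) ≤ B := by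
  have h : pr1 A B ⊆ Finset.Icc 1 ⌊B⌋₊ := by
    intro p hp
    have := f3_mem hp
    rw [Finset.mem_Icc]
    exact ⟨this.1.one_lt.le, Nat.le_floor this.2.2.2⟩
  have h1 := Finset.card_le_card h
  rw [Nat.card_Icc, Nat.add_sub_cancel] at h1
  calc ((pr1 A B).card : ℝ) ≤ (⌊B⌋₊ : ℝ) := by exact_mod_cast h1
    _ ≤ B := Nat.floor_le hB

theorem mass_lower_pr {β τ δ : ℝ} (hτ : 0 < τ) (hβ : 2 * τ < β) (hβ1 : β < 1) (hδ : 0 < δ)
    (hδ1 : δ ≤ 1 / 4) {ε : ℝ} (hε : 0 < ε) : ∃ x₀ : ℝ, ∀ x : ℝ, x₀ ≤ x → ∀ b : ℤ,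
      ((β - 2 * τ) * (1 - 3 * δ) - ε) * x ≤ ∑ n ∈ Finset.Icc 1 ⌊x⌋₊, fc δ ((n : ℝ) / x) *
        VV β τ x (⟨(n : ℤ), b⟩ : G) := by
  classical
  obtain ⟨C, hC1, hC⟩ := mertens4
  have e1 : ∀ᶠ x : ℝ in atTop, 2 ≤ x := eventually_ge_atTop 2
  have e2 : ∀ᶠ x : ℝ in atTop, 2 ≤ x ^ (1 - β + τ) :=
    (tendsto_rpow_atTop (by linarith)).eventually_ge_atTop 2
  have e3 : ∀ᶠ x : ℝ in atTop, (Real.log 2 + 2 * C) / (ε / 2) ≤ Real.log x :=
    Real.tendsto_log_atTop.eventually_ge_atTop _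
  have e4 : ∀ᶠ x : ℝ in atTop, x ^ (-τ) ≤ ε / 4 :=
    (tendsto_rpow_neg_atTop hτ).eventually_le_const (by linarith)
  obtain ⟨x₀, hx₀⟩ := eventually_atTop.1 (e1.and (e2.and (e3.and e4)))
  refine ⟨x₀, fun x hx b => ?_⟩
  obtain ⟨hx2, hxY, hxL, hxτ⟩ := hx₀ x hx
  have hx0 : 0 < x := by linarith
  have hlog : 0 < Real.log x := Real.log_pos (by linarith)
  obtain ⟨s1, s2, s3, s4, -⟩ := scales hτ hβ hβ1 (by linarith : (1 : ℝ) ≤ x)
  have hYpos : ∀ j, 0 < YY β τ x j := fun j =>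
    lt_of_lt_of_le (Real.rpow_pos_of_pos hx0 _) (s2 j)
  set J := JJ β τ x with hJ
  set U := pr1 (YY β τ x 0) (YY β τ x J) with hU
  have hYJ : YY β τ x J ≤ x ^ (1 - τ) := s3 J le_rfl
  have hxpow : x ^ (1 - τ) = x * x ^ (-τ) := by
    rw [show (1 - τ : ℝ) = 1 + -τ by ring, Real.rpow_add hx0, Real.rpow_one]
  have hxle : x ^ (1 - τ) ≤ x := by
    rw [hxpow]
    have : x ^ (-τ) ≤ 1 := Real.rpow_le_one_of_one_le_of_nonpos (by linarith) (by linarith)
    nlinarith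
  -- exchange of the sums
  have hsw : ∑ n ∈ Finset.Icc 1 ⌊x⌋₊, fc δ ((n : ℝ) / x) * VV β τ x (⟨(n : ℤ), b⟩ : G) =
      ∑ p ∈ U, lw x p * ((∑ n ∈ Finset.Icc 1 ⌊x⌋₊, fc δ ((n : ℝ) / x) *
        (if pel p ∣ (⟨(n : ℤ), b⟩ : G) then 1 else 0)) +
        ∑ n ∈ Finset.Icc 1 ⌊x⌋₊, fc δ ((n : ℝ) / x) *
        (if star (pel p) ∣ (⟨(n : ℤ), b⟩ : G) then 1 else 0)) := by
    unfold VV
    rw [← f3_tele _ (YY β τ x) (fun j => (hYpos j).le) s1 J]
    simp only [Finset.mul_sum]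
    rw [Finset.sum_comm]
    refine Finset.sum_congr rfl fun j _ => ?_
    rw [Finset.sum_comm]
    refine Finset.sum_congr rfl fun p _ => ?_
    rw [← Finset.sum_add_distrib, Finset.mul_sum]
    refine Finset.sum_congr rfl fun n _ => ?_
    ring
  rw [hsw]
  have hlw : ∀ p ∈ U, lw x p = Real.log p / Real.log x ∧ (p : ℝ) ≤ x ∧ p.Prime ∧ p % 4 = 1 := by
    intro p hp
    have hm := f3_mem hp
    have hpx : (p : ℝ) ≤ x := hm.2.2.2.trans (hYJ.trans hxle)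
    exact ⟨(lw_bound (by linarith) p).2.2.2 hpx, hpx, hm.1, hm.2.1⟩
  have hlow : ∑ p ∈ U, lw x p * (2 * ((1 - 3 * δ) * x / p - 1)) ≤
      ∑ p ∈ U, lw x p * ((∑ n ∈ Finset.Icc 1 ⌊x⌋₊, fc δ ((n : ℝ) / x) *
        (if pel p ∣ (⟨(n : ℤ), b⟩ : G) then 1 else 0)) +
        ∑ n ∈ Finset.Icc 1 ⌊x⌋₊, fc δ ((n : ℝ) / x) *
        (if star (pel p) ∣ (⟨(n : ℤ), b⟩ : G) then 1 else 0)) := by
    apply Finset.sum_le_sum
    intro p hp
    obtain ⟨-, -, hpp, h4⟩ := hlw p hp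
    apply mul_le_mul_of_nonneg_left _ (lw_bound (by linarith) p).1
    have a1 := class_count_pr hδ hδ1 (by linarith : (1 : ℝ) ≤ x) hpp h4 b (pel p) (Or.inl rfl)
    have a2 := class_count_pr hδ hδ1 (by linarith : (1 : ℝ) ≤ x) hpp h4 b (star (pel p))
      (Or.inr rfl)
    have : 2 * ((1 - 3 * δ) * x / p - 1) = ((1 - 3 * δ) * x / p - 1) + ((1 - 3 * δ) * x / p - 1) := by
      ring
    rw [this]
    convert add_le_add a1 a2
  refine le_trans ?_ hlow
  have hsplit : ∑ p ∈ U, lw x p * (2 * ((1 - 3 * δ) * x / p - 1)) =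
      2 * (1 - 3 * δ) * x / Real.log x * ∑ p ∈ U, Real.log p / p - 2 * ∑ p ∈ U, lw x p := by
    rw [Finset.mul_sum, Finset.mul_sum, ← Finset.sum_sub_distrib]
    refine Finset.sum_congr rfl fun p hp => ?_
    rw [(hlw p hp).1]
    have hp0 : (p : ℝ) ≠ 0 := by exact_mod_cast (hlw p hp).2.2.1.ne_zero
    field_simp
  rw [hsplit]
  have hM := hC (YY β τ x 0) (YY β τ x J) (hxY.trans (s2 0)) (by
    have hmono : ∀ j, YY β τ x 0 ≤ YY β τ x j := by
      intro j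
      induction j with
      | zero => exact le_refl _
      | succ j ih => rw [s1]; linarith [hYpos j]
    exact hmono J)
  have hY0 : YY β τ x 0 = x ^ (1 - β + τ) := by unfold YY; rw [pow_zero, one_mul]
  have hlr : (β - 2 * τ) * Real.log x - Real.log 2 ≤ Real.log (YY β τ x J / YY β τ x 0) := by
    have h1 : x ^ (1 - τ) / 2 / x ^ (1 - β + τ) ≤ YY β τ x J / YY β τ x 0 := by
      rw [hY0]
      apply div_le_div_of_nonneg_right _ (Real.rpow_pos_of_pos hx0 _).le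
      linarith
    have h2 : Real.log (x ^ (1 - τ) / 2 / x ^ (1 - β + τ)) =
        (β - 2 * τ) * Real.log x - Real.log 2 := by
      rw [Real.log_div (by positivity) (by positivity), Real.log_div (by positivity) (by norm_num),
        Real.log_rpow hx0, Real.log_rpow hx0]
      ring
    rw [← h2]
    exact Real.log_le_log (by positivity) h1
  have hsum2 : ∑ p ∈ U, lw x p ≤ ε / 4 * x := by
    calc ∑ p ∈ U, lw x p ≤ ∑ p ∈ U, (1 : ℝ) :=
          Finset.sum_le_sum fun p _ => (lw_bound (by linarith) p).2.1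
      _ = (U.card : ℝ) := by rw [Finset.sum_const, nsmul_eq_mul, mul_one]
      _ ≤ YY β τ x J := f3_card (hYpos J).le
      _ ≤ x ^ (1 - τ) := hYJ
      _ = x * x ^ (-τ) := hxpow
      _ ≤ x * (ε / 4) := mul_le_mul_of_nonneg_left hxτ hx0.le
      _ = ε / 4 * x := by ring
  have hsum1 : (β - 2 * τ) / 2 * Real.log x - Real.log 2 / 2 - C ≤ ∑ p ∈ U, Real.log p / p := by
    refine le_trans ?_ hM
    nlinarith
  have hD : 0 ≤ 2 * (1 - 3 * δ) * x / Real.log x := by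
    apply div_nonneg _ hlog.le
    apply mul_nonneg _ hx0.le
    linarith
  have hfin : 2 * (1 - 3 * δ) * x / Real.log x *
      ((β - 2 * τ) / 2 * Real.log x - Real.log 2 / 2 - C) =
      (β - 2 * τ) * (1 - 3 * δ) * x - (1 - 3 * δ) * x * ((Real.log 2 + 2 * C) / Real.log x) := by
    field_simp
    ring
  have hsm : (Real.log 2 + 2 * C) / Real.log x ≤ ε / 2 := by
    rw [div_le_iff₀ hlog]
    rw [div_le_iff₀ (by linarith)] at hxL
    linarith
  have hlog2 : 0 ≤ Real.log 2 := Real.log_nonneg (by norm_num)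
  have hsm0 : 0 ≤ (Real.log 2 + 2 * C) / Real.log x := by positivity
  have h13 : (1 - 3 * δ) * x * ((Real.log 2 + 2 * C) / Real.log x) ≤ x * (ε / 2) := by
    apply mul_le_mul _ hsm hsm0 hx0.le
    nlinarith
  have := mul_le_mul_of_nonneg_left hsum1 hD
  rw [hfin] at this
  nlinarith




end Pool.Agent.TF

namespace Pool.Agent.TF

theorem class_count : type_of% @class_count_pr := @class_count_pr
theorem mass_lower : type_of% @mass_lower_pr := @mass_lower_pr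

end Pool.Agent.TF
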