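import Mathlib
import Pool.Agent.Lib_helper18.TF.Defs
import Pool.Agent.Lib_helper10.T2F.BAS
import Pool.Agent.Lib_helper10.T2F.PEL
import Pool.Agent.Lib_helper10.T2F.CNT
import Pool.Agent.Lib_helper10.T2F.SLW
import Pool.Agent.Lib_helper10.T2F.SLG
import Pool.Agent.Lib_helper10.T2F.MER
import Pool.Agent.Lib_helper10.T2F.DSR
import Pool.Agent.Lib_helper73.Var.LS
import Pool.Agent.Lib_helper18.TFF.DefsF
import Pool.Agent.Lib_helper18.TFF.F1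

set_option autoImplicit false

namespace Pool.Agent.TF

open Pool.Agent.T2 Filter Topology

open Classical in
theorem f4_bij (v : G) (hv : v ≠ 0) (Z : ℝ) (N : ℕ) (Bb : ℤ) (F : G → ℝ)
    (h1 : ∀ ζ : G, F ζ ≠ 0 → 1 ≤ ζ.re ∧ ζ.re ≤ N ∧ 1 ≤ ζ.im ∧ ζ.im ≤ Bb)
    (h2 : ∀ z : G, F (v * z) ≠ 0 → z ∈ Bl Z) :
    ∑ b ∈ Finset.Icc 1 Bb, ∑ n ∈ Finset.Icc 1 N,
      F (⟨(n : ℤ), b⟩ : G) * (if v ∣ (⟨(n : ℤ), b⟩ : G) then 1 else 0) =
      ∑ z ∈ Bl Z, F (v * z) := by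
  rw [← Finset.sum_product']
  symm
  refine Finset.sum_bij_ne_zero (fun z _ _ => ((v * z).im, (v * z).re.toNat)) ?_ ?_ ?_ ?_
  · intro z hz hne
    obtain ⟨a1, a2, a3, a4⟩ := h1 _ hne
    rw [Finset.mem_product, Finset.mem_Icc, Finset.mem_Icc]
    refine ⟨⟨a3, a4⟩, ?_, ?_⟩
    · show 1 ≤ (v * z).re.toNat
      omega
    · show (v * z).re.toNat ≤ N
      omega
  · intro z hz hne z' hz' hne' heq
    obtain ⟨a1, -, -, -⟩ := h1 _ hne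
    obtain ⟨b1, -, -, -⟩ := h1 _ hne'
    have e1 : (v * z).im = (v * z').im := congrArg Prod.fst heq
    have e2 : (v * z).re.toNat = (v * z').re.toNat := congrArg Prod.snd heq
    have e3 : (v * z).re = (v * z').re := by omega
    have e4 : v * z = v * z' := Zsqrtd.ext e3 e1
    exact mul_left_cancel₀ hv e4
  · rintro ⟨b, n⟩ hbn hne
    have hd : v ∣ (⟨(n : ℤ), b⟩ : G) := by
      by_contra h
      apply hne
      simp only [if_neg h, mul_zero]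
    obtain ⟨z, hz⟩ := hd
    have hF : F (v * z) ≠ 0 := by
      intro h
      apply hne
      show F (⟨(n : ℤ), b⟩ : G) * _ = 0
      rw [hz, h, zero_mul]
    refine ⟨z, h2 z hF, hF, ?_⟩
    rw [← hz]
    simp
  · intro z hz hne
    obtain ⟨a1, a2, a3, a4⟩ := h1 _ hne
    have e : (⟨(((v * z).re.toNat : ℕ) : ℤ), (v * z).im⟩ : G) = v * z := by
      apply Zsqrtd.ext
      · show (((v * z).re.toNat : ℕ) : ℤ) = (v * z).re
        omega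
      · rfl
    show F (v * z) = F (⟨(((v * z).re.toNat : ℕ) : ℤ), (v * z).im⟩ : G) * _
    rw [e, if_pos (dvd_mul_right v z), mul_one]

theorem f4_swap {A : Finset ℤ} {N : Finset ℕ} {J : Finset ℕ} {P : ℕ → Finset ℕ}
    (T : ℤ → ℕ → ℕ → ℕ → ℝ) :
    ∑ b ∈ A, ∑ n ∈ N, ∑ j ∈ J, ∑ p ∈ P j, T b n j p =
      ∑ j ∈ J, ∑ p ∈ P j, ∑ b ∈ A, ∑ n ∈ N, T b n j p := by
  calc ∑ b ∈ A, ∑ n ∈ N, ∑ j ∈ J, ∑ p ∈ P j, T b n j p
      = ∑ b ∈ A, ∑ j ∈ J, ∑ n ∈ N, ∑ p ∈ P j, T b n j p := by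
        apply Finset.sum_congr rfl
        intro b _
        exact Finset.sum_comm
    _ = ∑ j ∈ J, ∑ b ∈ A, ∑ n ∈ N, ∑ p ∈ P j, T b n j p := Finset.sum_comm
    _ = ∑ j ∈ J, ∑ b ∈ A, ∑ p ∈ P j, ∑ n ∈ N, T b n j p := by
        apply Finset.sum_congr rfl
        intro j _
        apply Finset.sum_congr rfl
        intro b _
        exact Finset.sum_comm
    _ = ∑ j ∈ J, ∑ p ∈ P j, ∑ b ∈ A, ∑ n ∈ N, T b n j p := by
        apply Finset.sum_congr rfl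
        intro j _
        exact Finset.sum_comm

/-- the summand -/
noncomputable def f4F (δ x : ℝ) (c : ℤ → ℝ) (ζ : G) : ℝ :=
  c ζ.im * (fc δ ((ζ.re : ℝ) / x) * gl ζ)

theorem f4_supp {β δ x : ℝ} (hδ : 0 < δ) (hδ1 : δ ≤ 1 / 4) (hx : 2 ≤ x) (c : ℤ → ℝ)
    (hc : ∀ b, c b ≠ 0 → 1 ≤ b ∧ (b : ℝ) ≤ x ^ β) (ζ : G) (h : f4F δ x c ζ ≠ 0) :
    0 < (ζ.re : ℝ) ∧ (ζ.re : ℝ) < x ∧ 1 ≤ ζ.im ∧ (ζ.im : ℝ) ≤ x ^ β := by
  have hx0 : 0 < x := by linarith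
  have h1 : c ζ.im ≠ 0 := by
    intro h0
    apply h
    unfold f4F
    rw [h0, zero_mul]
  have h2 : fc δ ((ζ.re : ℝ) / x) ≠ 0 := by
    intro h0
    apply h
    unfold f4F
    rw [h0, zero_mul, mul_zero]
  obtain ⟨a1, a2⟩ := (fc_cut hδ hδ1).2.1 _ h2
  obtain ⟨b1, b2⟩ := hc _ h1
  refine ⟨?_, ?_, b1, b2⟩
  · rw [lt_div_iff₀ hx0] at a1
    have : 0 < δ * x := by positivity
    linarith
  · rw [div_lt_one hx0] at a2
    exact a2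

theorem f4_Bl {β δ x Y : ℝ} (hβ1 : β < 1) (hδ : 0 < δ) (hδ1 : δ ≤ 1 / 4) (hx : 2 ≤ x)
    (hY : 0 < Y) (c : ℤ → ℝ)
    (hc : ∀ b, c b ≠ 0 → 1 ≤ b ∧ (b : ℝ) ≤ x ^ β) {p : ℕ} (hp : Y < (p : ℝ)) (v z : G)
    (hv : nn v = p) (h : f4F δ x c (v * z) ≠ 0) : z ∈ Bl (2 * x ^ 2 / Y) := by
  obtain ⟨a1, a2, a3, a4⟩ := f4_supp hδ hδ1 hx c hc _ h
  have hp0 : (0 : ℝ) < p := by linarith
  have hb : ((v * z).im : ℝ) ≤ x := by
    refine a4.trans ?_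
    calc x ^ β ≤ x ^ (1 : ℝ) := Real.rpow_le_rpow_of_exponent_le (by linarith) hβ1.le
      _ = x := Real.rpow_one x
  have a3' : (1 : ℝ) ≤ ((v * z).im : ℝ) := by exact_mod_cast a3
  have hn : ((nn (v * z) : ℕ) : ℝ) = ((v * z).re : ℝ) ^ 2 + ((v * z).im : ℝ) ^ 2 := by
    have := nn_cast (v * z)
    exact_mod_cast congrArg (fun t : ℤ => (t : ℝ)) this
  have hn2 : ((nn (v * z) : ℕ) : ℝ) ≤ 2 * x ^ 2 := by
    rw [hn]
    nlinarith
  rw [nn_mul, hv] at hn2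
  push_cast at hn2
  rw [mem_Bl]
  constructor
  · rintro rfl
    rw [mul_zero] at a1
    simp at a1
  · rw [le_div_iff₀ hY]
    have hz0 : (0 : ℝ) ≤ (nn z : ℝ) := Nat.cast_nonneg _
    nlinarith

open Classical in
theorem f4_one {β δ x Y : ℝ} (hβ1 : β < 1) (hδ : 0 < δ) (hδ1 : δ ≤ 1 / 4) (hx : 2 ≤ x)
    (hY : 0 < Y) (c : ℤ → ℝ)
    (hc : ∀ b, c b ≠ 0 → 1 ≤ b ∧ (b : ℝ) ≤ x ^ β) {p : ℕ} (hp : Y < (p : ℝ)) (v : G)
    (hv : nn v = p) :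
    ∑ b ∈ Finset.Icc 1 ⌊x ^ β⌋, ∑ n ∈ Finset.Icc 1 ⌊x⌋₊,
      f4F δ x c (⟨(n : ℤ), b⟩ : G) * (if v ∣ (⟨(n : ℤ), b⟩ : G) then 1 else 0) =
      ∑ z ∈ Bl (2 * x ^ 2 / Y), f4F δ x c (v * z) := by
  have hp0 : (0 : ℝ) < p := by linarith
  have hv0 : v ≠ 0 := by
    rw [← nn_pos, hv]
    exact_mod_cast hp0
  apply f4_bij v hv0
  · intro ζ h
    obtain ⟨a1, a2, a3, a4⟩ := f4_supp hδ hδ1 hx c hc _ h
    have a1' : 0 < ζ.re := by exact_mod_cast a1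
    refine ⟨by omega, ?_, a3, Int.le_floor.2 a4⟩
    have : ζ.re ≤ ⌊x⌋ := Int.le_floor.2 a2.le
    rw [Int.natCast_floor_eq_floor (by linarith)]
    exact this
  · intro z h
    exact f4_Bl hβ1 hδ hδ1 hx hY c hc hp v z hv h

theorem f4_pel {δ x Y : ℝ} (c : ℤ → ℝ)
    {p : ℕ} (hp : p.Prime) (h4 : p % 4 = 1) :
    ∑ z ∈ Bl (2 * x ^ 2 / Y), f4F δ x c (pel p * z) =
      -∑ z ∈ Bl (2 * x ^ 2 / Y),
        gl z * c (1 * (pel p * z).im) * fc δ (((pel p * z).re : ℝ) / x) := by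
  rw [← Finset.sum_neg_distrib]
  apply Finset.sum_congr rfl
  intro z _
  unfold f4F
  rw [gl_mul, pel_gl hp h4, one_mul]
  ring

theorem f4_star {δ x Y : ℝ} (c : ℤ → ℝ)
    {p : ℕ} (hp : p.Prime) (h4 : p % 4 = 1) :
    ∑ z ∈ Bl (2 * x ^ 2 / Y), f4F δ x c (star (pel p) * z) =
      -∑ z ∈ Bl (2 * x ^ 2 / Y),
        gl z * c (-1 * (pel p * z).im) * fc δ (((pel p * z).re : ℝ) / x) := by
  rw [← Finset.sum_neg_distrib]
  refine Finset.sum_nbij' (fun z => star z) (fun z => star z) ?_ ?_ ?_ ?_ ?_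
  · intro z hz
    rw [mem_Bl] at hz ⊢
    exact ⟨star_ne_zero.2 hz.1, by rw [nn_star]; exact hz.2⟩
  · intro z hz
    rw [mem_Bl] at hz ⊢
    exact ⟨star_ne_zero.2 hz.1, by rw [nn_star]; exact hz.2⟩
  · intro z _
    exact star_star z
  · intro z _
    exact star_star z
  · intro z _
    have e : star (pel p) * z = star (pel p * star z) := by
      rw [star_mul', star_star]
    unfold f4F
    rw [e, gl_star, gl_mul, pel_gl hp h4]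
    have e1 : (star (pel p * star z)).im = -1 * (pel p * star z).im := by
      rw [Zsqrtd.im_star]; ring
    have e2 : (star (pel p * star z)).re = (pel p * star z).re := Zsqrtd.re_star _
    rw [e1, e2]
    ring

theorem bilinear_id_pr {β τ δ x : ℝ} (hτ : 0 < τ) (hβ : 2 * τ < β) (hβ1 : β < 1) (hδ : 0 < δ)
    (hδ1 : δ ≤ 1 / 4) (hx : 2 ≤ x) (c : ℤ → ℝ) (hc : ∀ b, c b ≠ 0 → 1 ≤ b ∧ (b : ℝ) ≤ x ^ β) :
    ∑ b ∈ Finset.Icc 1 ⌊x ^ β⌋, c b * EE β τ δ x b =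
      -∑ j ∈ Finset.range (JJ β τ x), (SS (fc δ) (lw x) 1 x (YY β τ x j) c +
        SS (fc δ) (lw x) (-1) x (YY β τ x j) c) := by
  classical
  have e1 : ∑ b ∈ Finset.Icc 1 ⌊x ^ β⌋, c b * EE β τ δ x b =
      ∑ b ∈ Finset.Icc 1 ⌊x ^ β⌋, ∑ n ∈ Finset.Icc 1 ⌊x⌋₊, ∑ j ∈ Finset.range (JJ β τ x),
        ∑ p ∈ pr1 (YY β τ x j) (2 * YY β τ x j),
          lw x p * (f4F δ x c (⟨(n : ℤ), b⟩ : G) *
            (if pel p ∣ (⟨(n : ℤ), b⟩ : G) then 1 else 0) +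
            f4F δ x c (⟨(n : ℤ), b⟩ : G) *
            (if star (pel p) ∣ (⟨(n : ℤ), b⟩ : G) then 1 else 0)) := by
    apply Finset.sum_congr rfl
    intro b _
    unfold EE
    rw [Finset.mul_sum]
    apply Finset.sum_congr rfl
    intro n _
    unfold VV
    rw [Finset.mul_sum, Finset.mul_sum, Finset.mul_sum]
    apply Finset.sum_congr rfl
    intro j _
    rw [Finset.mul_sum, Finset.mul_sum, Finset.mul_sum]
    apply Finset.sum_congr rfl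
    intro p _
    unfold f4F
    simp only [Int.cast_natCast]
    ring
  rw [e1, f4_swap, ← Finset.sum_neg_distrib]
  apply Finset.sum_congr rfl
  intro j _
  unfold SS
  rw [← Finset.sum_add_distrib, ← Finset.sum_neg_distrib]
  apply Finset.sum_congr rfl
  intro p hp
  unfold pr1 at hp
  rw [Finset.mem_filter] at hp
  obtain ⟨-, hp1, hp4, hp5, -⟩ := hp
  have hY : 0 < YY β τ x j := by
    unfold YY
    have : 0 < x := by linarith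
    positivity
  have e2 : ∀ b : ℤ, ∑ n ∈ Finset.Icc 1 ⌊x⌋₊,
      lw x p * (f4F δ x c (⟨(n : ℤ), b⟩ : G) *
            (if pel p ∣ (⟨(n : ℤ), b⟩ : G) then 1 else 0) +
            f4F δ x c (⟨(n : ℤ), b⟩ : G) *
            (if star (pel p) ∣ (⟨(n : ℤ), b⟩ : G) then 1 else 0)) =
      lw x p * (∑ n ∈ Finset.Icc 1 ⌊x⌋₊, f4F δ x c (⟨(n : ℤ), b⟩ : G) *
            (if pel p ∣ (⟨(n : ℤ), b⟩ : G) then 1 else 0)) +
      lw x p * (∑ n ∈ Finset.Icc 1 ⌊x⌋₊, f4F δ x c (⟨(n : ℤ), b⟩ : G) *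
            (if star (pel p) ∣ (⟨(n : ℤ), b⟩ : G) then 1 else 0)) := by
    intro b
    rw [Finset.mul_sum, Finset.mul_sum, ← Finset.sum_add_distrib]
    apply Finset.sum_congr rfl
    intro n _
    ring
  rw [Finset.sum_congr rfl (fun b _ => e2 b), Finset.sum_add_distrib, ← Finset.mul_sum,
    ← Finset.mul_sum, f4_one hβ1 hδ hδ1 hx hY c hc hp5 (pel p) (pel_spec hp1 hp4).1,
    f4_one hβ1 hδ hδ1 hx hY c hc hp5 (star (pel p))
      (by rw [nn_star]; exact (pel_spec hp1 hp4).1),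
    f4_pel c hp1 hp4, f4_star c hp1 hp4]
  ring



end Pool.Agent.TF

namespace Pool.Agent.TF

theorem bilinear_id : type_of% @bilinear_id_pr := @bilinear_id_pr

end Pool.Agent.TF
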