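import Mathlib
import Pool.Agent.Lib_helper18.TF.Defs
import Pool.Agent.Lib_helper10.T2F.BAS
import Pool.Agent.Lib_helper10.T2F.PEL
import Pool.Agent.Lib_helper10.T2F.CNT
import Pool.Agent.Lib_helper10.T2F.SLW
import Pool.Agent.Lib_helper10.T2F.SLG
import Pool.Agent.Lib_helper10.T2F.MER
import Pool.Agent.Lib_helper10.T2F.DSR
import Pool.Agent.Lib_helper73.Var.LS
import Pool.Agent.Lib_helper18.TFF.DefsC

/-!
# TF, block C1: the scales and the multiplicity (helper45)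
-/

set_option autoImplicit false

namespace Pool.Agent.TF

open Pool.Agent.T2 Filter Topology

/-- the identity behind the number of scales -/
theorem c1_log2_pos : (0 : ℝ) < Real.log 2 := Real.log_pos (by norm_num)

theorem c1_half_lt : (1 / 2 : ℝ) < Real.log 2 := by
  have := Real.log_two_gt_d9
  linarith

theorem c1_two_pow (j : ℕ) : ((2 : ℝ) ^ j) = Real.exp (j * Real.log 2) := by
  rw [mul_comm, Real.exp_mul, Real.exp_log (by norm_num)]
  simp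

theorem scales_pr {β τ x : ℝ} (hτ : 0 < τ) (hβ : 2 * τ < β) (hβ1 : β < 1) (hx : 1 ≤ x) :
    (∀ j, YY β τ x (j + 1) = 2 * YY β τ x j) ∧ (∀ j, x ^ (1 - β + τ) ≤ YY β τ x j) ∧
    (∀ j, j ≤ JJ β τ x → YY β τ x j ≤ x ^ (1 - τ)) ∧
    x ^ (1 - τ) ≤ 2 * YY β τ x (JJ β τ x) ∧ (JJ β τ x : ℝ) ≤ 2 * Real.log x := by
  have hx0 : (0 : ℝ) < x := by linarith
  have hl : 0 ≤ Real.log x := Real.log_nonneg hx
  have h2 := c1_log2_pos
  have h12 := c1_half_lt
  have hA : 0 ≤ (β - 2 * τ) * Real.log x / Real.log 2 :=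
    div_nonneg (mul_nonneg (by linarith) hl) h2.le
  have hsplit : x ^ (1 - τ) = x ^ (β - 2 * τ) * x ^ (1 - β + τ) := by
    rw [← Real.rpow_add hx0]
    congr 1
    ring
  have hxe : x ^ (β - 2 * τ) = Real.exp ((β - 2 * τ) * Real.log x) := by
    rw [Real.rpow_def_of_pos hx0, mul_comm]
  have hp : 0 < x ^ (1 - β + τ) := Real.rpow_pos_of_pos hx0 _
  refine ⟨?_, ?_, ?_, ?_, ?_⟩
  · intro j
    unfold YY
    rw [pow_succ]
    ring
  · intro j
    unfold YY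
    have h1 : (1 : ℝ) ≤ 2 ^ j := one_le_pow₀ (by norm_num)
    nlinarith
  · intro j hj
    unfold YY
    rw [hsplit]
    apply mul_le_mul_of_nonneg_right _ hp.le
    rw [hxe, c1_two_pow]
    apply Real.exp_le_exp.mpr
    have h3 : (j : ℝ) ≤ (β - 2 * τ) * Real.log x / Real.log 2 := by
      have h4 : (j : ℝ) ≤ (JJ β τ x : ℝ) := by exact_mod_cast hj
      exact h4.trans (Nat.floor_le hA)
    rwa [le_div_iff₀ h2] at h3
  · unfold YY
    rw [hsplit]
    have h3 : x ^ (β - 2 * τ) ≤ 2 * 2 ^ (JJ β τ x) := by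
      rw [hxe, ← pow_succ', c1_two_pow]
      apply Real.exp_le_exp.mpr
      have h4 : (β - 2 * τ) * Real.log x / Real.log 2 < (JJ β τ x : ℝ) + 1 :=
        Nat.lt_floor_add_one _
      rw [div_lt_iff₀ h2] at h4
      push_cast
      exact h4.le
    calc x ^ (β - 2 * τ) * x ^ (1 - β + τ) ≤ (2 * 2 ^ (JJ β τ x)) * x ^ (1 - β + τ) :=
          mul_le_mul_of_nonneg_right h3 hp.le
      _ = 2 * (2 ^ (JJ β τ x) * x ^ (1 - β + τ)) := by ring
  · have h3 : (JJ β τ x : ℝ) ≤ (β - 2 * τ) * Real.log x / Real.log 2 := Nat.floor_le hA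
    refine h3.trans ?_
    rw [div_le_iff₀ h2]
    have h4 : (β - 2 * τ) * Real.log x ≤ 1 * Real.log x :=
      mul_le_mul_of_nonneg_right (by linarith) hl
    nlinarith

/-- membership in `pr1` -/
theorem c1_mem_pr1 {P Q : ℝ} {p : ℕ} (h : p ∈ pr1 P Q) :
    p.Prime ∧ p % 4 = 1 ∧ P < (p : ℝ) ∧ (p : ℝ) ≤ Q := by
  unfold pr1 at h
  exact (Finset.mem_filter.mp h).2

theorem c1_yy_mono {β τ x : ℝ} (hx : 0 < x) {i j : ℕ} (h : i < j) :
    2 * YY β τ x i ≤ YY β τ x j := by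
  unfold YY
  have hp : 0 < x ^ (1 - β + τ) := Real.rpow_pos_of_pos hx _
  have h1 : (2 : ℝ) ^ (i + 1) ≤ 2 ^ j := pow_le_pow_right₀ (by norm_num) h
  have h2 : (2 : ℝ) ^ (i + 1) * x ^ (1 - β + τ) ≤ 2 ^ j * x ^ (1 - β + τ) :=
    mul_le_mul_of_nonneg_right h1 hp.le
  calc 2 * (2 ^ i * x ^ (1 - β + τ)) = (2 : ℝ) ^ (i + 1) * x ^ (1 - β + τ) := by
        rw [pow_succ]; ring
    _ ≤ _ := h2

/-- distinct prime divisors above a bound -/
theorem c1_prod_bound (U : Finset ℕ) (n : ℕ) (hn : n ≠ 0) (hU : ∀ p ∈ U, p.Prime ∧ p ∣ n)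
    {T : ℝ} (hT : 0 ≤ T) (hp : ∀ p ∈ U, T ≤ (p : ℝ)) : T ^ U.card ≤ (n : ℝ) := by
  have h1 : (∏ p ∈ U, p) ∣ n :=
    Finset.prod_primes_dvd n (fun p hp => (hU p hp).1.prime) (fun p hp => (hU p hp).2)
  have h2 : (∏ p ∈ U, p) ≤ n := Nat.le_of_dvd (Nat.pos_of_ne_zero hn) h1
  have h3 : ((∏ p ∈ U, p : ℕ) : ℝ) ≤ n := by exact_mod_cast h2
  rw [Nat.cast_prod] at h3
  refine le_trans ?_ h3
  rw [← Finset.prod_const]
  exact Finset.prod_le_prod (fun _ _ => hT) hp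

open Classical in
theorem c1_card_le {R : Finset G} {D : ℝ} {v : G} (hv : v ≠ 0) :
    ((Bl D).filter (fun z => v * z ∈ R)).card ≤ (R.filter (fun ζ => v ∣ ζ)).card := by
  apply Finset.card_le_card_of_injOn (fun z => v * z)
  · intro z hz
    rw [Finset.mem_coe, Finset.mem_filter] at hz
    rw [Finset.mem_coe, Finset.mem_filter]
    exact ⟨hz.2, dvd_mul_right _ _⟩
  · intro z _ w _ h
    exact mul_left_cancel₀ hv h

open Classical in
theorem mult_count_pr {β τ : ℝ} (hτ : 0 < τ) (hβ : 2 * τ < β) (hβ1 : β < 1) : ∃ C : ℝ, 1 ≤ C ∧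
    ∀ x : ℝ, 2 ≤ x → ∀ (D : ℕ → ℝ) (R : Finset G),
      (∀ ζ ∈ R, ζ ≠ 0 ∧ (nn ζ : ℝ) ≤ 16 * x ^ 2) →
      ∑ j ∈ Finset.range (JJ β τ x), ∑ p ∈ pr1 (YY β τ x j) (2 * YY β τ x j),
        (((Bl (D j)).filter (fun z => pel p * z ∈ R)).card : ℝ) ≤ C * R.card := by
  have hb : 0 < 1 - β := by linarith
  refine ⟨6 / (1 - β), ?_, ?_⟩
  · rw [le_div_iff₀ hb]
    linarith
  intro x hx D R hR
  have hx0 : (0 : ℝ) < x := by linarith
  have hx1 : (1 : ℝ) ≤ x := by linarith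
  -- step 1
  have h1 : ∑ j ∈ Finset.range (JJ β τ x), ∑ p ∈ pr1 (YY β τ x j) (2 * YY β τ x j),
        (((Bl (D j)).filter (fun z => pel p * z ∈ R)).card : ℝ) ≤
      ∑ j ∈ Finset.range (JJ β τ x), ∑ p ∈ pr1 (YY β τ x j) (2 * YY β τ x j),
        ∑ ζ ∈ R, (if pel p ∣ ζ then (1 : ℝ) else 0) := by
    refine Finset.sum_le_sum (fun j _ => Finset.sum_le_sum (fun p hp => ?_))
    obtain ⟨hpp, h4, -, -⟩ := c1_mem_pr1 hp
    have h2 := c1_card_le (R := R) (D := D j) (pel_prime hpp h4).ne_zero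
    rw [Finset.sum_boole]
    exact_mod_cast h2
  refine h1.trans ?_
  have h2 : ∑ j ∈ Finset.range (JJ β τ x), ∑ p ∈ pr1 (YY β τ x j) (2 * YY β τ x j),
        ∑ ζ ∈ R, (if pel p ∣ ζ then (1 : ℝ) else 0) =
      ∑ ζ ∈ R, ∑ j ∈ Finset.range (JJ β τ x), ∑ p ∈ pr1 (YY β τ x j) (2 * YY β τ x j),
        (if pel p ∣ ζ then (1 : ℝ) else 0) := by
    rw [Finset.sum_comm (s := R)]
    exact Finset.sum_congr rfl (fun j _ => Finset.sum_comm)
  rw [h2]
  have h3 : ∀ ζ ∈ R, ∑ j ∈ Finset.range (JJ β τ x), ∑ p ∈ pr1 (YY β τ x j) (2 * YY β τ x j),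
        (if pel p ∣ ζ then (1 : ℝ) else 0) ≤ 6 / (1 - β) := by
    intro ζ hζ
    obtain ⟨hζ0, hζ1⟩ := hR ζ hζ
    have h4 : ∑ j ∈ Finset.range (JJ β τ x), ∑ p ∈ pr1 (YY β τ x j) (2 * YY β τ x j),
        (if pel p ∣ ζ then (1 : ℝ) else 0) =
        ((((Finset.range (JJ β τ x)).biUnion (fun j =>
          (pr1 (YY β τ x j) (2 * YY β τ x j)).filter (fun p => pel p ∣ ζ))).card : ℕ) : ℝ) := by
      rw [Finset.card_biUnion]
      · push_cast
        refine Finset.sum_congr rfl (fun j _ => ?_)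
        rw [Finset.sum_boole]
      · intro i _ j _ hij
        rw [Function.onFun, Finset.disjoint_left]
        intro p hp hp'
        obtain ⟨-, -, hp1, hp2⟩ := c1_mem_pr1 (Finset.mem_filter.mp hp).1
        obtain ⟨-, -, hp3, hp4⟩ := c1_mem_pr1 (Finset.mem_filter.mp hp').1
        rcases lt_or_gt_of_ne hij with h | h
        · have := c1_yy_mono (β := β) (τ := τ) hx0 h
          linarith
        · have := c1_yy_mono (β := β) (τ := τ) hx0 h
          linarith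
    rw [h4]
    set U := (Finset.range (JJ β τ x)).biUnion (fun j =>
          (pr1 (YY β τ x j) (2 * YY β τ x j)).filter (fun p => pel p ∣ ζ)) with hU
    have h5 : ∀ p ∈ U, p.Prime ∧ p ∣ nn ζ ∧ x ^ (1 - β) ≤ (p : ℝ) := by
      intro p hp
      rw [hU, Finset.mem_biUnion] at hp
      obtain ⟨j, -, hp⟩ := hp
      rw [Finset.mem_filter] at hp
      obtain ⟨hpp, h4, hp1, -⟩ := c1_mem_pr1 hp.1
      refine ⟨hpp, ?_, ?_⟩
      · have h6 := pel_nn_dvd hp.2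
        rwa [(pel_spec hpp h4).1] at h6
      · have h7 := (scales_pr (x := x) hτ hβ hβ1 hx1).2.1 j
        have h8 : x ^ (1 - β) ≤ x ^ (1 - β + τ) :=
          Real.rpow_le_rpow_of_exponent_le hx1 (by linarith)
        linarith
    have hn0 : nn ζ ≠ 0 := (nn_pos.mpr hζ0).ne'
    have hxp : 0 ≤ x ^ (1 - β) := Real.rpow_nonneg hx0.le _
    have h6 := c1_prod_bound U (nn ζ) hn0 (fun p hp => ⟨(h5 p hp).1, (h5 p hp).2.1⟩) hxp
      (fun p hp => (h5 p hp).2.2)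
    have h7 : (16 : ℝ) * x ^ 2 ≤ x ^ (6 : ℝ) := by
      have h8 : (2 : ℝ) ^ 4 ≤ x ^ 4 := pow_le_pow_left₀ (by norm_num) hx 4
      have h9 : x ^ (6 : ℝ) = x ^ 4 * x ^ 2 := by
        rw [← pow_add]
        exact_mod_cast Real.rpow_natCast x 6
      rw [h9]
      apply mul_le_mul_of_nonneg_right _ (by positivity)
      linarith
    have h8 : x ^ ((1 - β) * (U.card : ℝ)) ≤ x ^ (6 : ℝ) := by
      rw [Real.rpow_mul hx0.le, Real.rpow_natCast]
      linarith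
    have h9 : (1 - β) * (U.card : ℝ) ≤ 6 :=
      (Real.rpow_le_rpow_left_iff (by linarith : (1 : ℝ) < x)).mp h8
    rw [le_div_iff₀ hb]
    linarith
  calc ∑ ζ ∈ R, ∑ j ∈ Finset.range (JJ β τ x), ∑ p ∈ pr1 (YY β τ x j) (2 * YY β τ x j),
        (if pel p ∣ ζ then (1 : ℝ) else 0) ≤ ∑ ζ ∈ R, 6 / (1 - β) := Finset.sum_le_sum h3
    _ = 6 / (1 - β) * R.card := by
        rw [Finset.sum_const, nsmul_eq_mul, mul_comm]




end Pool.Agent.TF

namespace Pool.Agent.TF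

theorem scales : type_of% @scales_pr := @scales_pr
theorem mult_count : type_of% @mult_count_pr := @mult_count_pr

end Pool.Agent.TF
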