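import Mathlib
import Pool.Agent.Lib_helper18.TF.Defs
import Pool.Agent.Lib_helper10.T2F.BAS
import Pool.Agent.Lib_helper10.T2F.PEL
import Pool.Agent.Lib_helper10.T2F.CNT
import Pool.Agent.Lib_helper10.T2F.SLW
import Pool.Agent.Lib_helper10.T2F.SLG
import Pool.Agent.Lib_helper10.T2F.MER
import Pool.Agent.Lib_helper10.T2F.DSR
import Pool.Agent.Lib_helper73.Var.LS

namespace Pool.Agent.TF

open Pool.Agent.T2

theorem i1_nn_intCast (m : ℤ) : nn ((m : ℤ) : G) = m.natAbs ^ 2 := by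
  have h : ((nn ((m : ℤ) : G) : ℕ) : ℤ) = ((m.natAbs ^ 2 : ℕ) : ℤ) := by
    rw [nn_cast]
    simp
  exact_mod_cast h

theorem i1_dvd {p : ℕ} (hp : p.Prime) (h4 : p % 4 = 1) (w : G) (hw : (pel p * w).im = 0) :
    (p : ℤ) ∣ (pel p * w).re := by
  have hnn := (pel_spec hp h4).1
  have h1 : pel p * w = (((pel p * w).re : ℤ) : G) := by
    apply Zsqrtd.ext
    · simp
    · rw [hw]; simp
  have h2 : nn (pel p * w) = (pel p * w).re.natAbs ^ 2 := by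
    conv_lhs => rw [h1]
    exact i1_nn_intCast _
  rw [nn_mul, hnn] at h2
  have h3 : p ∣ (pel p * w).re.natAbs ^ 2 := by
    rw [← h2]; exact dvd_mul_right _ _
  have h5 := hp.dvd_of_dvd_pow h3
  exact Int.natCast_dvd.2 h5

theorem box_count_pr {p : ℕ} (hp : p.Prime) (h4 : p % 4 = 1) (σ : ℤ) (hσ : σ = 1 ∨ σ = -1)
    (B x : ℝ) (hB : 0 ≤ B) (hx : 0 ≤ x) (S : Finset G)
    (hS : ∀ z ∈ S, 1 ≤ σ * (pel p * z).im ∧ ((σ * (pel p * z).im : ℤ) : ℝ) ≤ B ∧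
      0 < (pel p * z).re ∧ (((pel p * z).re : ℤ) : ℝ) ≤ x) :
    (S.card : ℝ) ≤ B * (x / p + 1) := by
  have hnn := (pel_spec hp h4).1
  have hp0 : pel p ≠ 0 := by
    intro h
    rw [h] at hnn
    have h0 : nn (0 : G) = 0 := by simp [nn]
    rw [h0] at hnn
    exact hp.ne_zero hnn.symm
  have hpp : (0 : ℝ) < p := by exact_mod_cast hp.pos
  have hpz : (0 : ℤ) < p := by exact_mod_cast hp.pos
  have hmaps : ∀ z ∈ S, ((σ * (pel p * z).im, (pel p * z).re / (p : ℤ)) : ℤ × ℤ) ∈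
      Finset.Icc (1 : ℤ) ⌊B⌋ ×ˢ Finset.Icc (0 : ℤ) ⌊x / p⌋ := by
    intro z hz
    obtain ⟨h1, h2, h3, h5⟩ := hS z hz
    simp only [Finset.mem_product, Finset.mem_Icc]
    refine ⟨⟨h1, Int.le_floor.2 h2⟩, Int.ediv_nonneg h3.le hpz.le, ?_⟩
    rw [Int.le_floor, le_div_iff₀ hpp]
    have h6 : (pel p * z).re / (p : ℤ) * (p : ℤ) ≤ (pel p * z).re := Int.ediv_mul_le _ hpz.ne'
    have h7 : (((pel p * z).re / (p : ℤ) * (p : ℤ) : ℤ) : ℝ) ≤ (((pel p * z).re : ℤ) : ℝ) := by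
      exact_mod_cast h6
    rw [Int.cast_mul, Int.cast_natCast] at h7
    exact h7.trans h5
  have hinj : Set.InjOn (fun z : G => ((σ * (pel p * z).im, (pel p * z).re / (p : ℤ)) : ℤ × ℤ))
      (S : Set G) := by
    intro z _ z' _ h
    simp only [Prod.mk.injEq] at h
    obtain ⟨h1, h2⟩ := h
    have h3 : (pel p * z).im = (pel p * z').im := by
      rcases hσ with rfl | rfl
      · linarith
      · linarith
    have h5 : (p : ℤ) ∣ (pel p * z).re - (pel p * z').re := by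
      have h6 := i1_dvd hp h4 (z - z') (by rw [mul_sub, Zsqrtd.im_sub, h3, sub_self])
      rwa [mul_sub, Zsqrtd.re_sub] at h6
    have h6 : (pel p * z).re % (p : ℤ) = (pel p * z').re % (p : ℤ) :=
      Int.emod_eq_emod_iff_emod_sub_eq_zero.2 (Int.emod_eq_zero_of_dvd h5)
    have h7 : (pel p * z).re = (pel p * z').re := by
      rw [← Int.mul_ediv_add_emod (pel p * z).re p, ← Int.mul_ediv_add_emod (pel p * z').re p, h2, h6]
    have h8 : pel p * z = pel p * z' := Zsqrtd.ext h7 h3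
    exact mul_left_cancel₀ hp0 h8
  have hc := Finset.card_le_card_of_injOn _ hmaps hinj
  rw [Finset.card_product, Int.card_Icc, Int.card_Icc] at hc
  have hB0 : (0 : ℤ) ≤ ⌊B⌋ := Int.floor_nonneg.2 hB
  have hx0 : (0 : ℤ) ≤ ⌊x / p⌋ := Int.floor_nonneg.2 (by positivity)
  have hc2 : (S.card : ℝ) ≤ (((⌊B⌋ + 1 - 1).toNat * (⌊x / p⌋ + 1 - 0).toNat : ℕ) : ℝ) := by
    exact_mod_cast hc
  refine hc2.trans ?_
  rw [Nat.cast_mul]
  have e1 : (((⌊B⌋ + 1 - 1).toNat : ℕ) : ℝ) = (⌊B⌋ : ℝ) := by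
    have : (((⌊B⌋ + 1 - 1).toNat : ℕ) : ℤ) = ⌊B⌋ := by
      rw [Int.toNat_of_nonneg (by linarith)]; ring
    exact_mod_cast this
  have e2 : (((⌊x / p⌋ + 1 - 0).toNat : ℕ) : ℝ) = (⌊x / p⌋ : ℝ) + 1 := by
    have : (((⌊x / p⌋ + 1 - 0).toNat : ℕ) : ℤ) = ⌊x / p⌋ + 1 := by
      rw [Int.toNat_of_nonneg (by linarith)]; ring
    exact_mod_cast this
  rw [e1, e2]
  apply mul_le_mul (Int.floor_le B) _ _ hB
  · linarith [Int.floor_le (x / (p : ℝ))]
  · have : (0 : ℝ) ≤ (⌊x / p⌋ : ℝ) := by exact_mod_cast hx0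
    linarith



end Pool.Agent.TF

namespace Pool.Agent.TF

theorem box_count : type_of% @box_count_pr := @box_count_pr

end Pool.Agent.TF
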