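import Mathlib
import Pool.Agent.Lib_helper18.TF.Defs
import Pool.Agent.Lib_helper10.T2F.BAS
import Pool.Agent.Lib_helper10.T2F.PEL
import Pool.Agent.Lib_helper10.T2F.CNT
import Pool.Agent.Lib_helper10.T2F.SLW
import Pool.Agent.Lib_helper10.T2F.SLG
import Pool.Agent.Lib_helper10.T2F.MER
import Pool.Agent.Lib_helper10.T2F.DSR
import Pool.Agent.Lib_helper73.Var.LS

namespace Pool.Agent.TF

open Pool.Agent.T2

theorem i2_nn (v : G) : (nn v : ℤ) = v.re * v.re + v.im * v.im := by
  have h : v.norm = v.re * v.re + v.im * v.im := by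
    rw [Zsqrtd.norm_def]; ring
  have h0 : 0 ≤ v.norm := by rw [h]; nlinarith [mul_self_nonneg v.re, mul_self_nonneg v.im]
  unfold nn
  rw [Int.natAbs_of_nonneg h0, h]

theorem i2_re (v z : G) : (v * z).re = v.re * z.re - v.im * z.im := by
  rw [Zsqrtd.re_mul]; ring

theorem i2_im (v z : G) : (v * z).im = v.re * z.im + v.im * z.re := by
  rw [Zsqrtd.im_mul]

theorem lattice_pr {v w : G} (hv : Prm v) (hw : Prm w) (hD : det v w ≠ 0) : ∃ κ : ℤ,
    IsCoprime κ (det v w) ∧ ∀ b b' : ℤ,
      (∃ z : G, (v * z).im = b ∧ (w * z).im = b') ↔ det v w ∣ b' - κ * b := by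
  obtain ⟨al, ga, h1⟩ := Int.isCoprime_iff_gcd_eq_one.2 hv
  obtain ⟨be, de, h2⟩ := Int.isCoprime_iff_gcd_eq_one.2 hw
  have e1 : w.re = (al * w.re + ga * w.im) * v.re - ga * det v w := by
    unfold det; linear_combination (-w.re) * h1
  have e2 : w.im = (al * w.re + ga * w.im) * v.im + al * det v w := by
    unfold det; linear_combination (-w.im) * h1
  refine ⟨al * w.re + ga * w.im, ?_, fun b b' => ⟨?_, ?_⟩⟩
  · refine ⟨be * v.re + de * v.im, de * al - be * ga, ?_⟩
    linear_combination h2 + (-be) * e1 + (-de) * e2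
  · rintro ⟨z, rfl, rfl⟩
    rw [i2_im, i2_im]
    refine ⟨al * z.re - ga * z.im, ?_⟩
    linear_combination z.im * e1 + z.re * e2
  · rintro ⟨t, ht⟩
    refine ⟨⟨v.re * t + ga * b, - v.im * t + al * b⟩, ?_, ?_⟩
    · rw [i2_im]
      linear_combination b * h1
    · rw [i2_im]
      simp only
      unfold det at ht
      linear_combination -ht

theorem lattice_inj_pr {v w z z' : G} (hD : det v w ≠ 0) (h1 : (v * z).im = (v * z').im)
    (h2 : (w * z).im = (w * z').im) : z = z' := by
  rw [i2_im, i2_im] at h1 h2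
  have ex : det v w * z.re = det v w * z'.re := by
    unfold det; linear_combination v.re * h2 - w.re * h1
  have ey : det v w * z.im = det v w * z'.im := by
    unfold det; linear_combination w.im * h1 - v.im * h2
  exact Zsqrtd.ext (mul_left_cancel₀ hD ex) (mul_left_cancel₀ hD ey)

theorem re_left_pr (v w z : G) :
    det v w * (v * z).re = (nn v : ℤ) * (w * z).im - ip v w * (v * z).im := by
  rw [i2_nn, i2_re, i2_im, i2_im]; unfold det ip; ring

theorem re_right_pr (v w z : G) :
    det v w * (w * z).re = ip v w * (w * z).im - (nn w : ℤ) * (v * z).im := by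
  rw [i2_nn, i2_re, i2_im, i2_im]; unfold det ip; ring

theorem nn_det_pr (v w z : G) :
    (nn z : ℤ) * det v w = (v * z).re * (w * z).im - (v * z).im * (w * z).re := by
  rw [i2_nn, i2_re, i2_im, i2_im, i2_re]; unfold det; ring







end Pool.Agent.TF

namespace Pool.Agent.TF

theorem lattice : type_of% @lattice_pr := @lattice_pr
theorem lattice_inj : type_of% @lattice_inj_pr := @lattice_inj_pr
theorem re_left : type_of% @re_left_pr := @re_left_pr
theorem re_right : type_of% @re_right_pr := @re_right_pr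
theorem nn_det : type_of% @nn_det_pr := @nn_det_pr

end Pool.Agent.TF
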