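import Mathlib
import Pool.Agent.Lib_helper18.TF.Defs
import Pool.Agent.Lib_helper10.T2F.BAS
import Pool.Agent.Lib_helper10.T2F.PEL
import Pool.Agent.Lib_helper10.T2F.CNT
import Pool.Agent.Lib_helper10.T2F.SLW
import Pool.Agent.Lib_helper10.T2F.SLG
import Pool.Agent.Lib_helper10.T2F.MER
import Pool.Agent.Lib_helper10.T2F.DSR

namespace Pool.Agent.TF

open Pool.Agent.T2

theorem p1_prod (s : Finset ℕ) : 1 ≤ ∏ p ∈ s, (1 + 1 / (p : ℝ)) := by
  induction s using Finset.induction_on with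
  | empty => simp
  | insert a s ha ih =>
    rw [Finset.prod_insert ha]
    have h1 : (1 : ℝ) ≤ 1 + 1 / (a : ℝ) := by
      have : (0 : ℝ) ≤ 1 / (a : ℝ) := by positivity
      linarith
    exact one_le_mul_of_one_le_of_one_le h1 ih

theorem hh_one_le_pr (n : ℕ) : 1 ≤ hh n := p1_prod _

theorem hh_mul_le_pr (a b : ℕ) (ha : a ≠ 0) (hb : b ≠ 0) : hh (a * b) ≤ hh a * hh b := by
  unfold hh
  rw [Nat.primeFactors_mul ha hb, ← Finset.prod_union_inter]
  have h1 := p1_prod (a.primeFactors ∪ b.primeFactors)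
  have h2 := p1_prod (a.primeFactors ∩ b.primeFactors)
  exact le_mul_of_one_le_right (by linarith) h2

theorem hh_mono_pr {a b : ℕ} (h : a ∣ b) (hb : b ≠ 0) : hh a ≤ hh b := by
  unfold hh
  rw [← Finset.prod_sdiff (Nat.primeFactors_mono h hb)]
  have h1 := p1_prod (b.primeFactors \ a.primeFactors)
  have h2 := p1_prod a.primeFactors
  exact le_mul_of_one_le_left (by linarith) h1

theorem hh_sq_pr (a : ℕ) : hh (a ^ 2) = hh a := by
  unfold hh
  rw [Nat.primeFactors_pow a two_ne_zero]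

theorem hh_small_pr : ∃ C : ℝ, 1 ≤ C ∧ ∀ q : ℕ, 1 ≤ q → hh q ^ 4 ≤ C * Real.sqrt q := by
  refine ⟨6 ^ 5, by norm_num, fun q hq => ?_⟩
  have key : ∀ p ∈ q.primeFactors, (1 + 1 / (p : ℝ)) ^ 4 ≤
      (if p < 5 then (6 : ℝ) else 1) * Real.sqrt p := by
    intro p hp
    have hpp := Nat.prime_of_mem_primeFactors hp
    have hp2 : (2 : ℝ) ≤ p := by exact_mod_cast hpp.two_le
    have hs1 : (1 : ℝ) ≤ Real.sqrt p := by
      rw [Real.one_le_sqrt]
      linarith
    have h0 : (0 : ℝ) ≤ 1 + 1 / (p : ℝ) := by positivity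
    split_ifs with h
    · have h1 : 1 + 1 / (p : ℝ) ≤ 3 / 2 := by
        have : 1 / (p : ℝ) ≤ 1 / 2 := one_div_le_one_div_of_le (by norm_num) hp2
        linarith
      calc (1 + 1 / (p : ℝ)) ^ 4 ≤ (3 / 2) ^ 4 := pow_le_pow_left₀ h0 h1 4
        _ ≤ 6 * 1 := by norm_num
        _ ≤ 6 * Real.sqrt p := by linarith
    · have h5 : (5 : ℝ) ≤ p := by
        push Not at h
        exact_mod_cast h
      have h1 : 1 + 1 / (p : ℝ) ≤ 6 / 5 := by
        have : 1 / (p : ℝ) ≤ 1 / 5 := one_div_le_one_div_of_le (by norm_num) h5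
        linarith
      rw [one_mul]
      calc (1 + 1 / (p : ℝ)) ^ 4 ≤ (6 / 5) ^ 4 := pow_le_pow_left₀ h0 h1 4
        _ ≤ Real.sqrt 5 := by
            apply Real.le_sqrt_of_sq_le
            norm_num
        _ ≤ Real.sqrt p := Real.sqrt_le_sqrt h5
  calc hh q ^ 4 = ∏ p ∈ q.primeFactors, (1 + 1 / (p : ℝ)) ^ 4 := by
        unfold hh
        rw [Finset.prod_pow]
    _ ≤ ∏ p ∈ q.primeFactors, (if p < 5 then (6 : ℝ) else 1) * Real.sqrt p :=
        Finset.prod_le_prod (fun p _ => by positivity) key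
    _ = (∏ p ∈ q.primeFactors, if p < 5 then (6 : ℝ) else 1) *
          ∏ p ∈ q.primeFactors, Real.sqrt p := Finset.prod_mul_distrib
    _ ≤ 6 ^ 5 * Real.sqrt q := by
        have h1 : (∏ p ∈ q.primeFactors, if p < 5 then (6 : ℝ) else 1) ≤ 6 ^ 5 := by
          rw [← Finset.prod_filter, Finset.prod_const]
          apply pow_le_pow_right₀ (by norm_num)
          have h2 : (q.primeFactors.filter (fun p => p < 5)) ⊆ Finset.range 5 := by
            intro p hp
            rw [Finset.mem_filter] at hp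
            exact Finset.mem_range.2 hp.2
          simpa using Finset.card_le_card h2
        have h2 : ∏ p ∈ q.primeFactors, Real.sqrt (p : ℝ) ≤ Real.sqrt q := by
          have h3 : ∏ p ∈ q.primeFactors, Real.sqrt (p : ℝ) =
              Real.sqrt ((∏ p ∈ q.primeFactors, p : ℕ) : ℝ) := by
            rw [Nat.cast_prod]
            exact (Real.sqrt_prod _ (fun p _ => Nat.cast_nonneg p)).symm
          rw [h3]
          apply Real.sqrt_le_sqrt
          exact_mod_cast Nat.le_of_dvd hq (Nat.prod_primeFactors_dvd q)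
        have h3 : (0 : ℝ) ≤ ∏ p ∈ q.primeFactors, Real.sqrt (p : ℝ) :=
          Finset.prod_nonneg fun p _ => Real.sqrt_nonneg _
        calc _ ≤ 6 ^ 5 * ∏ p ∈ q.primeFactors, Real.sqrt (p : ℝ) :=
              mul_le_mul_of_nonneg_right h1 h3
          _ ≤ _ := mul_le_mul_of_nonneg_left h2 (by norm_num)







end Pool.Agent.TF

namespace Pool.Agent.TF

theorem hh_one_le : type_of% @hh_one_le_pr := @hh_one_le_pr
theorem hh_mul_le : type_of% @hh_mul_le_pr := @hh_mul_le_pr
theorem hh_mono : type_of% @hh_mono_pr := @hh_mono_pr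
theorem hh_sq : type_of% @hh_sq_pr := @hh_sq_pr
theorem hh_small : type_of% @hh_small_pr := @hh_small_pr

end Pool.Agent.TF
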