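import Mathlib
import Pool.Agent.Lib_helper18.TF.Defs
import Pool.Agent.Lib_helper10.T2F.BAS
import Pool.Agent.Lib_helper10.T2F.PEL
import Pool.Agent.Lib_helper10.T2F.CNT
import Pool.Agent.Lib_helper10.T2F.SLW
import Pool.Agent.Lib_helper10.T2F.SLG
import Pool.Agent.Lib_helper10.T2F.MER
import Pool.Agent.Lib_helper10.T2F.DSR
import Pool.Agent.Lib_helper18.TFF.P1

/-!
# Block P2 of project TF (MP_892e4c_nt): the mean value of `hh ^ 2`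
-/

namespace Pool.Agent.TF

open Pool.Agent.T2

theorem p2_sq (k : ℕ) : hh k ^ 2 ≤ ∏ p ∈ k.primeFactors, (1 + 3 / (p : ℝ)) := by
  unfold hh
  rw [← Finset.prod_pow]
  refine Finset.prod_le_prod (fun p _ => by positivity) fun p hp => ?_
  have hp1 : (1 : ℝ) ≤ p := by exact_mod_cast (Nat.prime_of_mem_primeFactors hp).one_le
  have h1 : 1 / (p : ℝ) ≤ 1 := by
    rw [div_le_one (by linarith)]
    exact hp1
  have h0 : 0 ≤ 1 / (p : ℝ) := by positivity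
  have h2 : 3 / (p : ℝ) = 3 * (1 / (p : ℝ)) := by ring
  rw [h2]
  nlinarith

theorem p2_expand (N k : ℕ) (hk : k ∈ Finset.Ioc 0 N) :
    hh k ^ 2 ≤ ∑ s ∈ (Nat.primesBelow (N + 1)).powerset,
      if (∏ p ∈ s, p) ∣ k then ∏ p ∈ s, (3 / (p : ℝ)) else 0 := by
  classical
  rw [Finset.mem_Ioc] at hk
  refine (p2_sq k).trans ?_
  rw [Finset.prod_one_add]
  rw [← Finset.sum_filter]
  refine Finset.sum_le_sum_of_subset_of_nonneg ?_ fun s _ _ =>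
    Finset.prod_nonneg fun p _ => by positivity
  intro s hs
  rw [Finset.mem_powerset] at hs
  rw [Finset.mem_filter, Finset.mem_powerset]
  constructor
  · intro p hp
    have hp1 := hs hp
    rw [Nat.mem_primeFactors] at hp1
    rw [Nat.mem_primesBelow]
    exact ⟨Nat.lt_succ_of_le ((Nat.le_of_dvd hk.1 hp1.2.1).trans hk.2), hp1.1⟩
  · exact (Finset.prod_dvd_prod_of_subset s k.primeFactors (fun p => p) hs).trans
      (Nat.prod_primeFactors_dvd k)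

theorem p2_sum (N : ℕ) : ∑ k ∈ Finset.Ioc 0 N, hh k ^ 2 ≤
    N * ∏ p ∈ Nat.primesBelow (N + 1), (1 + 3 / (p : ℝ) ^ 2) := by
  classical
  have h1 : ∑ k ∈ Finset.Ioc 0 N, hh k ^ 2 ≤ ∑ k ∈ Finset.Ioc 0 N,
      ∑ s ∈ (Nat.primesBelow (N + 1)).powerset,
        if (∏ p ∈ s, p) ∣ k then ∏ p ∈ s, (3 / (p : ℝ)) else 0 :=
    Finset.sum_le_sum fun k hk => p2_expand N k hk
  refine h1.trans ?_
  rw [Finset.sum_comm, Finset.prod_one_add, Finset.mul_sum]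
  refine Finset.sum_le_sum fun s hs => ?_
  rw [← Finset.sum_filter, Finset.sum_const, Nat.Ioc_filter_dvd_card_eq_div, nsmul_eq_mul]
  have hprod : (∏ p ∈ s, (3 / (p : ℝ) ^ 2)) =
      (∏ p ∈ s, (3 / (p : ℝ))) * (1 / ((∏ p ∈ s, p : ℕ) : ℝ)) := by
    rw [Nat.cast_prod, one_div, ← Finset.prod_inv_distrib, ← Finset.prod_mul_distrib]
    refine Finset.prod_congr rfl fun p _ => ?_
    rcases eq_or_ne (p : ℝ) 0 with h | h
    · rw [h]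
      simp
    · field_simp
  rw [hprod]
  have h2 : ((N / (∏ p ∈ s, p) : ℕ) : ℝ) ≤ N * (1 / ((∏ p ∈ s, p : ℕ) : ℝ)) := by
    have h3 := @Nat.cast_div_le ℝ _ _ _ N (∏ p ∈ s, p)
    calc ((N / (∏ p ∈ s, p) : ℕ) : ℝ) ≤ (N : ℝ) / ((∏ p ∈ s, p : ℕ) : ℝ) := h3
      _ = _ := by ring
  have h4 : 0 ≤ ∏ p ∈ s, (3 / (p : ℝ)) := Finset.prod_nonneg fun p _ => by positivity
  calc ((N / (∏ p ∈ s, p) : ℕ) : ℝ) * ∏ p ∈ s, (3 / (p : ℝ)) ≤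
      (N * (1 / ((∏ p ∈ s, p : ℕ) : ℝ))) * ∏ p ∈ s, (3 / (p : ℝ)) :=
        mul_le_mul_of_nonneg_right h2 h4
    _ = _ := by ring

theorem p2_euler (N : ℕ) : ∏ p ∈ Nat.primesBelow (N + 1), (1 + 3 / (p : ℝ) ^ 2) ≤
    Real.exp 3 := by
  have h1 : ∏ p ∈ Nat.primesBelow (N + 1), (1 + 3 / (p : ℝ) ^ 2) ≤
      ∏ p ∈ Nat.primesBelow (N + 1), Real.exp (3 / (p : ℝ) ^ 2) := by
    refine Finset.prod_le_prod (fun p _ => by positivity) fun p _ => ?_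
    rw [add_comm]
    exact Real.add_one_le_exp _
  refine h1.trans ?_
  rw [← Real.exp_sum]
  apply Real.exp_le_exp.mpr
  rcases Nat.eq_zero_or_pos N with h0 | h0
  · subst h0
    have : Nat.primesBelow (0 + 1) = ∅ := by decide
    rw [this]
    norm_num
  have h2 : ∑ p ∈ Nat.primesBelow (N + 1), 3 / (p : ℝ) ^ 2 ≤
      ∑ i ∈ Finset.Ioc 1 N, 3 / (i : ℝ) ^ 2 := by
    refine Finset.sum_le_sum_of_subset_of_nonneg ?_ fun i _ _ => by positivity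
    intro p hp
    rw [Nat.mem_primesBelow] at hp
    rw [Finset.mem_Ioc]
    exact ⟨hp.2.one_lt, Nat.lt_succ_iff.mp hp.1⟩
  refine h2.trans ?_
  have h3 := sum_Ioc_inv_sq_le_sub (α := ℝ) (k := 1) (n := N) one_ne_zero h0
  have h4 : ∑ i ∈ Finset.Ioc 1 N, 3 / (i : ℝ) ^ 2 =
      3 * ∑ i ∈ Finset.Ioc 1 N, ((i : ℝ) ^ 2)⁻¹ := by
    rw [Finset.mul_sum]
    exact Finset.sum_congr rfl fun i _ => by rw [div_eq_mul_inv]
  rw [h4]
  have h5 : (0 : ℝ) ≤ (N : ℝ)⁻¹ := by positivity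
  simp only [Nat.cast_one, inv_one] at h3
  linarith

theorem hh_avg_pr : ∃ C : ℝ, 1 ≤ C ∧ ∀ (g : ℕ) (X : ℝ), 1 ≤ g → 0 ≤ X →
    ∑ k ∈ Finset.Icc 1 ⌊X⌋₊, hh (g * k) ^ 2 ≤ C * hh g ^ 2 * X := by
  refine ⟨Real.exp 3, Real.one_le_exp (by norm_num), fun g X hg hX => ?_⟩
  have h1 : ∑ k ∈ Finset.Icc 1 ⌊X⌋₊, hh (g * k) ^ 2 ≤
      ∑ k ∈ Finset.Icc 1 ⌊X⌋₊, hh g ^ 2 * hh k ^ 2 := by
    refine Finset.sum_le_sum fun k hk => ?_
    rw [Finset.mem_Icc] at hk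
    rw [← mul_pow]
    have h0 : 0 ≤ hh (g * k) := zero_le_one.trans (hh_one_le _)
    exact pow_le_pow_left₀ h0 (hh_mul_le g k (by omega) (by omega)) 2
  refine h1.trans ?_
  rw [← Finset.mul_sum]
  have h2 : ∑ k ∈ Finset.Icc 1 ⌊X⌋₊, hh k ^ 2 ≤ Real.exp 3 * X := by
    have h3 : Finset.Icc 1 ⌊X⌋₊ = Finset.Ioc 0 ⌊X⌋₊ := by
      ext k
      rw [Finset.mem_Icc, Finset.mem_Ioc]
      omega
    rw [h3]
    refine (p2_sum ⌊X⌋₊).trans ?_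
    have h4 := Nat.floor_le hX
    have h5 := p2_euler ⌊X⌋₊
    have h6 : (0 : ℝ) ≤ ⌊X⌋₊ := Nat.cast_nonneg _
    calc (⌊X⌋₊ : ℝ) * ∏ p ∈ Nat.primesBelow (⌊X⌋₊ + 1), (1 + 3 / (p : ℝ) ^ 2) ≤
        (⌊X⌋₊ : ℝ) * Real.exp 3 := mul_le_mul_of_nonneg_left h5 h6
      _ ≤ X * Real.exp 3 := mul_le_mul_of_nonneg_right h4 (Real.exp_pos 3).le
      _ = _ := by ring
  calc hh g ^ 2 * ∑ k ∈ Finset.Icc 1 ⌊X⌋₊, hh k ^ 2 ≤ hh g ^ 2 * (Real.exp 3 * X) :=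
      mul_le_mul_of_nonneg_left h2 (sq_nonneg _)
    _ = _ := by ring



end Pool.Agent.TF

namespace Pool.Agent.TF

theorem hh_avg : type_of% @hh_avg_pr := @hh_avg_pr

end Pool.Agent.TF
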