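import Mathlib
import Pool.Agent.Lib_helper18.TF.Defs
import Pool.Agent.Lib_helper10.T2F.BAS
import Pool.Agent.Lib_helper10.T2F.PEL
import Pool.Agent.Lib_helper10.T2F.CNT
import Pool.Agent.Lib_helper10.T2F.SLW
import Pool.Agent.Lib_helper10.T2F.SLG
import Pool.Agent.Lib_helper10.T2F.MER
import Pool.Agent.Lib_helper10.T2F.DSR

namespace Pool.Agent.TF

open Pool.Agent.T2

theorem dirichlet_vec_pr (v : G) (hv : 0 < v.im) (hv' : v.im < v.re) (N : ℕ) (hN : 1 ≤ N) :
    ∃ k h : ℕ, 1 ≤ k ∧ k ≤ N ∧ h ≤ k ∧ Nat.Coprime k h ∧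
      |(det v (vec k h) : ℝ)| ≤ (v.re : ℝ) / (N + 1) := by
  have hre : (0 : ℝ) < v.re := by
    have : (0 : ℤ) < v.re := lt_trans hv hv'
    exact_mod_cast this
  have him : (0 : ℝ) < v.im := by exact_mod_cast hv
  have hlt : (v.im : ℝ) < v.re := by exact_mod_cast hv'
  obtain ⟨j, k, hk0, hkN, hjk⟩ :=
    Real.exists_int_int_abs_mul_sub_le ((v.im : ℝ) / v.re) (show 0 < N by omega)
  have hkR : (0 : ℝ) < k := by exact_mod_cast hk0
  have hNR : (1 : ℝ) ≤ N := by exact_mod_cast hN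
  have hN1 : (1 : ℝ) / ((N : ℝ) + 1) < 1 := by
    rw [div_lt_one (by linarith)]
    linarith
  have hxi0 : 0 < (v.im : ℝ) / v.re := div_pos him hre
  have hxi1 : (v.im : ℝ) / v.re < 1 := (div_lt_one hre).2 hlt
  have habs := abs_le.1 hjk
  have hj0 : 0 ≤ j := by
    have h1 : (-1 : ℝ) < j := by
      have := mul_pos hkR hxi0
      linarith [habs.2]
    have : (-1 : ℤ) < j := by exact_mod_cast h1
    omega
  have hjk' : j ≤ k := by
    have h1 : (j : ℝ) < k + 1 := by
      have : (k : ℝ) * ((v.im : ℝ) / v.re) ≤ k := by nlinarith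
      linarith [habs.1]
    have : j < k + 1 := by exact_mod_cast h1
    omega
  obtain ⟨a, ha⟩ : ∃ a : ℕ, (a : ℤ) = k := ⟨k.toNat, Int.toNat_of_nonneg hk0.le⟩
  obtain ⟨b, hb⟩ : ∃ b : ℕ, (b : ℤ) = j := ⟨j.toNat, Int.toNat_of_nonneg hj0⟩
  subst ha
  subst hb
  have ha0 : 0 < a := by exact_mod_cast hk0
  have hg0 : 0 < Nat.gcd a b := Nat.gcd_pos_of_pos_left _ ha0
  refine ⟨a / Nat.gcd a b, b / Nat.gcd a b, ?_, ?_, ?_, ?_, ?_⟩
  · exact Nat.div_pos (Nat.gcd_le_left _ ha0) hg0
  · refine le_trans (Nat.div_le_self _ _) ?_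
    exact_mod_cast hkN
  · exact Nat.div_le_div_right (by exact_mod_cast hjk')
  · exact Nat.coprime_div_gcd_div_gcd hg0
  · have e1 : (Nat.gcd a b : ℝ) * ((a / Nat.gcd a b : ℕ) : ℝ) = a := by
      exact_mod_cast Nat.mul_div_cancel' (Nat.gcd_dvd_left a b)
    have e2 : (Nat.gcd a b : ℝ) * ((b / Nat.gcd a b : ℕ) : ℝ) = b := by
      exact_mod_cast Nat.mul_div_cancel' (Nat.gcd_dvd_right a b)
    set g : ℕ := Nat.gcd a b with hg
    set k' : ℕ := a / g with hk'
    set h' : ℕ := b / g with hh'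
    have hgR : (1 : ℝ) ≤ g := by exact_mod_cast hg0
    have e3 : ((det v (vec k' h') : ℤ) : ℝ) = (v.re : ℝ) * h' - v.im * k' := by
      simp [det, vec]
    rw [e3]
    have e4 : (v.re : ℝ) * h' - v.im * k' = -(v.re * ((k' : ℝ) * ((v.im : ℝ) / v.re) - h')) := by
      field_simp
      ring
    rw [e4, abs_neg, abs_mul, abs_of_pos hre, mul_comm, mul_comm]
    have e5 : (g : ℝ) * |(k' : ℝ) * ((v.im : ℝ) / v.re) - h'| ≤ 1 / ((N : ℝ) + 1) := by
      have : (g : ℝ) * |(k' : ℝ) * ((v.im : ℝ) / v.re) - h'| =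
          |((a : ℤ) : ℝ) * ((v.im : ℝ) / v.re) - ((b : ℤ) : ℝ)| := by
        have hgabs : (g : ℝ) = |(g : ℝ)| := (abs_of_nonneg (by linarith)).symm
        calc (g : ℝ) * |(k' : ℝ) * ((v.im : ℝ) / v.re) - h'|
            = |(g : ℝ)| * |(k' : ℝ) * ((v.im : ℝ) / v.re) - h'| := by rw [← hgabs]
          _ = |(g : ℝ) * ((k' : ℝ) * ((v.im : ℝ) / v.re) - h')| := (abs_mul _ _).symm
          _ = |((a : ℤ) : ℝ) * ((v.im : ℝ) / v.re) - ((b : ℤ) : ℝ)| := by
              congr 1
              push_cast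
              rw [← e1, ← e2]
              ring
      rw [this]
      exact hjk
    have e6 : |(k' : ℝ) * ((v.im : ℝ) / v.re) - h'| ≤ 1 / ((N : ℝ) + 1) := by
      refine le_trans ?_ e5
      exact le_mul_of_one_le_left (abs_nonneg _) hgR
    calc (v.re : ℝ) * |(k' : ℝ) * ((v.im : ℝ) / v.re) - h'|
        ≤ v.re * (1 / ((N : ℝ) + 1)) := mul_le_mul_of_nonneg_left e6 hre.le
      _ = (v.re : ℝ) / (N + 1) := by ring

theorem p8_nn (z : G) : (nn z : ℤ) = z.re * z.re + z.im * z.im := by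
  unfold nn
  have : 0 ≤ z.norm := GaussianInt.norm_nonneg z
  rw [Int.natAbs_of_nonneg this, Zsqrtd.norm_def]
  ring

theorem plu_a_pr (v w e : G) :
    (nn v : ℤ) * det w e = ip v w * det v e - det v w * ip v e := by
  rw [p8_nn]
  unfold det ip
  ring

theorem plu_b_pr (v w e : G) :
    (nn e : ℤ) * det v w = det v e * ip w e - ip v e * det w e := by
  rw [p8_nn]
  unfold det ip
  ring

theorem plu_dvd_pr {v w e : G} (hv : Prm v) {g : ℤ} (h1 : g ∣ det v e) (h2 : g ∣ det v w) :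
    g ∣ det w e := by
  unfold Prm at hv
  have hb := Int.gcd_eq_gcd_ab v.re v.im
  rw [hv] at hb
  obtain ⟨s, hs⟩ := h1
  obtain ⟨t, ht⟩ := h2
  set a := Int.gcdA v.re v.im
  set b := Int.gcdB v.re v.im
  have hb' : v.re * a + v.im * b = 1 := by
    have : ((1 : ℕ) : ℤ) = 1 := rfl
    rw [this] at hb
    exact hb.symm
  have key : det w e = det v e * (w.re * a + w.im * b) - det v w * (e.re * a + e.im * b) := by
    have h0 : det w e = det w e * (v.re * a + v.im * b) := by rw [hb', mul_one]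
    rw [h0]
    unfold det
    ring
  rw [key, hs, ht]
  refine ⟨s * (w.re * a + w.im * b) - t * (e.re * a + e.im * b), ?_⟩
  ring

theorem plu_class_pr {v w w₁ e : G} {q : ℕ} (hq : 1 ≤ q) (he : Prm e) (h1 : (q : ℤ) ∣ det v w)
    (h2 : (q : ℤ) ∣ det v w₁) (h3 : det w e = det w₁ e) :
    ((q / Int.gcd (det v e) q : ℕ) : G) ∣ w - w₁ := by
  have h0 : det e (w - w₁) = 0 := by
    have : det e (w - w₁) = -(det w e - det w₁ e) := by
      unfold det
      simp only [Zsqrtd.re_sub, Zsqrtd.im_sub]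
      ring
    rw [this, h3, sub_self, neg_zero]
  obtain ⟨s, hs⟩ : ∃ s : ℤ, w - w₁ = (s : G) * e := by
    unfold Prm at he
    have hb := Int.gcd_eq_gcd_ab e.re e.im
    rw [he] at hb
    set a := Int.gcdA e.re e.im
    set b := Int.gcdB e.re e.im
    have hb' : e.re * a + e.im * b = 1 := by
      have : ((1 : ℕ) : ℤ) = 1 := rfl
      rw [this] at hb
      exact hb.symm
    set z := w - w₁ with hz
    have h0' : e.re * z.im - e.im * z.re = 0 := h0
    refine ⟨z.re * a + z.im * b, ?_⟩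
    apply Zsqrtd.ext
    · have e1 : ((((z.re * a + z.im * b : ℤ) : G) * e).re) = (z.re * a + z.im * b) * e.re := by
        simp
      rw [e1]
      have : z.re = z.re * (e.re * a + e.im * b) := by rw [hb', mul_one]
      calc z.re = z.re * (e.re * a + e.im * b) := this
        _ = (z.re * a + z.im * b) * e.re - b * (e.re * z.im - e.im * z.re) := by ring
        _ = (z.re * a + z.im * b) * e.re := by rw [h0', mul_zero, sub_zero]
    · have e1 : ((((z.re * a + z.im * b : ℤ) : G) * e).im) = (z.re * a + z.im * b) * e.im := by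
        simp
      rw [e1]
      have : z.im = z.im * (e.re * a + e.im * b) := by rw [hb', mul_one]
      calc z.im = z.im * (e.re * a + e.im * b) := this
        _ = (z.re * a + z.im * b) * e.im + a * (e.re * z.im - e.im * z.re) := by ring
        _ = (z.re * a + z.im * b) * e.im := by rw [h0', mul_zero, add_zero]
  have hsd : (q : ℤ) ∣ s * det v e := by
    have : s * det v e = det v w - det v w₁ := by
      have e1 : det v (w - w₁) = det v w - det v w₁ := by
        unfold det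
        simp only [Zsqrtd.re_sub, Zsqrtd.im_sub]
        ring
      rw [← e1, hs]
      unfold det
      simp
      ring
    rw [this]
    exact dvd_sub h1 h2
  have hg0 : 0 < Int.gcd (det v e) q := Int.gcd_pos_of_ne_zero_right _ (by omega)
  have hgd : Int.gcd (det v e) q ∣ q := by
    have := Int.gcd_dvd_right (det v e) (q : ℤ)
    exact_mod_cast this
  have hdiv : ((q / Int.gcd (det v e) q : ℕ) : ℤ) ∣ s := by
    set g := Int.gcd (det v e) q with hg
    obtain ⟨q', hq'⟩ := hgd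
    have hq'' : q / g = q' := by
      rw [hq', Nat.mul_div_cancel_left _ hg0]
    rw [hq'']
    obtain ⟨d', hd'⟩ := Int.gcd_dvd_left (det v e) (q : ℤ)
    rw [← hg] at hd'
    have hqz : (q : ℤ) = (g : ℤ) * q' := by exact_mod_cast hq'
    have hcop : IsCoprime (d' : ℤ) (q' : ℤ) := by
      rw [Int.isCoprime_iff_gcd_eq_one]
      have h5 : Int.gcd (det v e) (q : ℤ) = g * Int.gcd d' q' := by
        rw [hqz, hd']
        rw [Int.gcd_mul_left]
        simp
      rw [← hg] at h5
      have h6 : g * 1 = g * Int.gcd d' q' := by rw [mul_one]; exact h5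
      exact (Nat.eq_of_mul_eq_mul_left hg0 h6).symm
    rw [hd', hqz] at hsd
    have h7 : (q' : ℤ) ∣ s * d' := by
      have hg0' : (g : ℤ) ≠ 0 := by exact_mod_cast hg0.ne'
      refine (mul_dvd_mul_iff_left hg0').1 ?_
      have : (g : ℤ) * (s * d') = s * ((g : ℤ) * d') := by ring
      rw [this]
      exact hsd
    exact hcop.symm.dvd_of_dvd_mul_right h7
  rw [hs]
  obtain ⟨t, ht⟩ := hdiv
  refine ⟨(t : G) * e, ?_⟩
  rw [ht, Int.cast_mul, Int.cast_natCast]
  ring







end Pool.Agent.TF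

namespace Pool.Agent.TF

theorem dirichlet_vec : type_of% @dirichlet_vec_pr := @dirichlet_vec_pr
theorem plu_a : type_of% @plu_a_pr := @plu_a_pr
theorem plu_b : type_of% @plu_b_pr := @plu_b_pr
theorem plu_dvd : type_of% @plu_dvd_pr := @plu_dvd_pr
theorem plu_class : type_of% @plu_class_pr := @plu_class_pr

end Pool.Agent.TF
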