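import Mathlib
import Pool.Agent.Lib_helper18.TF.Defs
import Pool.Agent.Lib_helper10.T2F.BAS
import Pool.Agent.Lib_helper10.T2F.PEL
import Pool.Agent.Lib_helper10.T2F.CNT
import Pool.Agent.Lib_helper10.T2F.SLW
import Pool.Agent.Lib_helper10.T2F.SLG
import Pool.Agent.Lib_helper10.T2F.MER
import Pool.Agent.Lib_helper10.T2F.DSR
import Pool.Agent.Lib_helper18.TFF.P1
import Pool.Agent.Lib_helper18.TFF.P2
import Pool.Agent.Lib_helper18.TFF.P8
import Pool.Agent.Lib_helper18.TFF.P9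

namespace Pool.Agent.TF

open Pool.Agent.T2

theorem p10_hh_nonneg (n : ℕ) : 0 ≤ hh n := zero_le_one.trans (hh_one_le n)

/-- the sum over the multiples of one sign -/
theorem p10_half {C : ℝ} (hC : ∀ (g : ℕ) (X : ℝ), 1 ≤ g → 0 ≤ X →
    ∑ k ∈ Finset.Icc 1 ⌊X⌋₊, hh (g * k) ^ 2 ≤ C * hh g ^ 2 * X) (g : ℕ) (hg : 1 ≤ g) (R : ℝ)
    (hR : 0 ≤ R) (L : Finset ℤ) (hL : ∀ l ∈ L, l ≠ 0 ∧ (g : ℤ) ∣ l ∧ |(l : ℝ)| ≤ R)
    (hinj : Set.InjOn Int.natAbs (L : Set ℤ)) :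
    ∑ l ∈ L, hh l.natAbs ^ 2 ≤ C * hh g ^ 2 * (R / g) := by
  classical
  have hg' : (0 : ℝ) < g := by exact_mod_cast hg
  have hX : 0 ≤ R / g := by positivity
  refine le_trans ?_ (hC g (R / g) hg hX)
  have h1 : ∑ l ∈ L, hh l.natAbs ^ 2 = ∑ n ∈ L.image Int.natAbs, hh n ^ 2 :=
    (Finset.sum_image (f := fun n : ℕ => hh n ^ 2) hinj).symm
  have h2 : ∑ k ∈ Finset.Icc 1 ⌊R / g⌋₊, hh (g * k) ^ 2 =
      ∑ n ∈ (Finset.Icc 1 ⌊R / g⌋₊).image (fun k => g * k), hh n ^ 2 := by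
    refine (Finset.sum_image (f := fun n : ℕ => hh n ^ 2) ?_).symm
    intro a _ b _ hab
    exact Nat.eq_of_mul_eq_mul_left (by omega) hab
  rw [h1, h2]
  refine Finset.sum_le_sum_of_subset_of_nonneg ?_ fun n _ _ => sq_nonneg _
  intro n hn
  obtain ⟨l, hl, rfl⟩ := Finset.mem_image.1 hn
  obtain ⟨h3, h4, h5⟩ := hL l hl
  obtain ⟨k, hk⟩ := Int.natCast_dvd.1 h4
  rw [Finset.mem_image]
  refine ⟨k, ?_, hk.symm⟩
  have hk0 : k ≠ 0 := by
    rintro rfl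
    rw [mul_zero] at hk
    exact h3 (Int.natAbs_eq_zero.1 hk)
  rw [Finset.mem_Icc]
  refine ⟨Nat.one_le_iff_ne_zero.2 hk0, Nat.le_floor ?_⟩
  rw [le_div_iff₀ hg']
  have h6 : |(l : ℝ)| = (g : ℝ) * k := by
    rw [← Int.cast_abs, Int.abs_eq_natAbs, hk]
    push_cast
    ring
  rw [h6] at h5
  linarith

/-- the sum over all the multiples -/
theorem p10_sum {C : ℝ} (hC : ∀ (g : ℕ) (X : ℝ), 1 ≤ g → 0 ≤ X →
    ∑ k ∈ Finset.Icc 1 ⌊X⌋₊, hh (g * k) ^ 2 ≤ C * hh g ^ 2 * X) (g : ℕ) (hg : 1 ≤ g) (R : ℝ)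
    (hR : 0 ≤ R) (L : Finset ℤ) (hL : ∀ l ∈ L, l ≠ 0 ∧ (g : ℤ) ∣ l ∧ |(l : ℝ)| ≤ R) :
    ∑ l ∈ L, hh l.natAbs ^ 2 ≤ 2 * C * hh g ^ 2 * (R / g) := by
  classical
  rw [← Finset.sum_filter_add_sum_filter_not L (fun l : ℤ => 0 < l)]
  have h1 := p10_half hC g hg R hR (L.filter (fun l : ℤ => 0 < l))
    (fun l hl => hL l (Finset.mem_filter.1 hl).1) (by
      intro a ha b hb hab
      rw [Finset.mem_coe, Finset.mem_filter] at ha hb
      have := ha.2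
      have := hb.2
      omega)
  have h2 := p10_half hC g hg R hR (L.filter (fun l : ℤ => ¬ 0 < l))
    (fun l hl => hL l (Finset.mem_filter.1 hl).1) (by
      intro a ha b hb hab
      rw [Finset.mem_coe, Finset.mem_filter] at ha hb
      have := ha.2
      have := hb.2
      omega)
  linarith

theorem p10_prm {v : G} (hv : (nn v).Prime) : Prm v := by
  unfold Prm
  set d := Int.gcd v.re v.im with hd
  have h1 : (d : ℤ) ∣ v.re := Int.gcd_dvd_left ..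
  have h2 : (d : ℤ) ∣ v.im := Int.gcd_dvd_right ..
  have h3 : (d : ℤ) * d ∣ (nn v : ℤ) := by
    rw [nn_cast]
    obtain ⟨a, ha⟩ := h1
    obtain ⟨b, hb⟩ := h2
    exact ⟨a ^ 2 + b ^ 2, by rw [ha, hb]; ring⟩
  have h4 : d * d ∣ nn v := by exact_mod_cast h3
  exact Nat.isUnit_iff.1 ((Irreducible.squarefree hv.prime.irreducible) d h4)

theorem p10_vec (k h : ℕ) : (nn (vec k h) : ℤ) = (k : ℤ) ^ 2 + (h : ℤ) ^ 2 := by
  rw [nn_cast]
  rfl

theorem p10_ne {w e : G} (hw : (nn w).Prime) (he : 1 ≤ nn e) (hlt : nn e < nn w) :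
    det w e ≠ 0 := by
  intro h0
  have h1 := ip_sq_add w e
  rw [h0] at h1
  have h2 : (nn w : ℤ) ∣ ip w e ^ 2 := ⟨nn e, by linarith⟩
  have hp : Prime (nn w : ℤ) := Nat.prime_iff_prime_int.1 hw
  obtain ⟨c, hc⟩ := hp.dvd_of_dvd_pow h2
  rw [hc] at h1
  have h3 : (nn w : ℤ) ≠ 0 := hp.ne_zero
  have h4 : (nn e : ℤ) = nn w * c ^ 2 := by
    have : (nn w : ℤ) * nn e = nn w * (nn w * c ^ 2) := by rw [h1]; ring
    exact mul_left_cancel₀ h3 this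
  have h5 : (nn w : ℤ) ∣ nn e := ⟨c ^ 2, h4⟩
  have h6 : nn w ∣ nn e := by exact_mod_cast h5
  have := Nat.le_of_dvd (by omega) h6
  omega

theorem p10_ip_le (u v : G) {A : ℝ} (hA : 0 ≤ A) (h : (nn u : ℝ) * nn v ≤ A ^ 2) :
    |(ip u v : ℝ)| ≤ A := by
  have h1 : ((nn u : ℝ) * nn v) = (ip u v : ℝ) ^ 2 + (det u v : ℝ) ^ 2 := by
    exact_mod_cast ip_sq_add u v
  have h2 : (ip u v : ℝ) ^ 2 ≤ A ^ 2 := by nlinarith [sq_nonneg (det u v : ℝ)]
  exact abs_le_of_sq_le_sq h2 hA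

/-- the bound for the determinant with `e` -/
theorem p10_l {v w e : G} {Y D : ℝ} (hY : 0 < Y) (hD : 0 ≤ D) (hv1 : Y < (nn v : ℝ))
    (hv2 : (nn v : ℝ) ≤ 2 * Y) (hw2 : (nn w : ℝ) ≤ 2 * Y) (hdet : |(det v w : ℝ)| ≤ D) :
    |(det w e : ℝ)| ≤ 2 * |(det v e : ℝ)| +
      D * (Real.sqrt 2 * Real.sqrt (nn e)) / Real.sqrt Y := by
  have h1 : |(ip v w : ℝ)| ≤ 2 * Y := by
    refine p10_ip_le v w (by linarith) ?_
    have : (0 : ℝ) ≤ nn w := by positivity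
    nlinarith
  have hsY : 0 < Real.sqrt Y := Real.sqrt_pos.2 hY
  have hY2 : Real.sqrt Y ^ 2 = Y := Real.sq_sqrt hY.le
  have h2 : |(ip v e : ℝ)| ≤ Real.sqrt 2 * Real.sqrt Y * Real.sqrt (nn e) := by
    refine p10_ip_le v e (by positivity) ?_
    rw [mul_pow, mul_pow, Real.sq_sqrt (by norm_num), hY2, Real.sq_sqrt (by positivity)]
    have : (0 : ℝ) ≤ nn e := by positivity
    nlinarith
  have h3 : (nn v : ℝ) * (det w e : ℝ) =
      (ip v w : ℝ) * (det v e : ℝ) - (det v w : ℝ) * (ip v e : ℝ) := by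
    exact_mod_cast plu_a v w e
  have h4 : (nn v : ℝ) * |(det w e : ℝ)| ≤ 2 * Y * |(det v e : ℝ)| +
      D * (Real.sqrt 2 * Real.sqrt Y * Real.sqrt (nn e)) := by
    have h5 : (nn v : ℝ) * |(det w e : ℝ)| = |(nn v : ℝ) * (det w e : ℝ)| := by
      rw [abs_mul, abs_of_nonneg (by positivity : (0 : ℝ) ≤ (nn v : ℝ))]
    rw [h5, h3]
    refine (abs_sub _ _).trans ?_
    rw [abs_mul, abs_mul]
    exact add_le_add (mul_le_mul_of_nonneg_right h1 (abs_nonneg _))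
      (mul_le_mul hdet h2 (abs_nonneg _) hD)
  have h6 : Y * |(det w e : ℝ)| ≤ (nn v : ℝ) * |(det w e : ℝ)| :=
    mul_le_mul_of_nonneg_right hv1.le (abs_nonneg _)
  have h7 : Y * (2 * |(det v e : ℝ)| + D * (Real.sqrt 2 * Real.sqrt (nn e)) / Real.sqrt Y) =
      2 * Y * |(det v e : ℝ)| + D * (Real.sqrt 2 * Real.sqrt Y * Real.sqrt (nn e)) := by
    have : Y / Real.sqrt Y = Real.sqrt Y := by
      rw [div_eq_iff hsY.ne']
      nlinarith
    have h8 : Y * (D * (Real.sqrt 2 * Real.sqrt (nn e)) / Real.sqrt Y) =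
        D * (Real.sqrt 2 * Real.sqrt (nn e)) * (Y / Real.sqrt Y) := by ring
    rw [mul_add, h8, this]
    ring
  have h9 : Y * |(det w e : ℝ)| ≤
      Y * (2 * |(det v e : ℝ)| + D * (Real.sqrt 2 * Real.sqrt (nn e)) / Real.sqrt Y) := by
    rw [h7]
    linarith
  exact le_of_mul_le_mul_left h9 hY

/-- the product of the two bounds -/
theorem p10_prod {j D Y E : ℝ} (hD : 0 ≤ D) (hY : 0 < Y) (hE : 0 < E) :
    min (2 * D / |j|) (2 * Real.sqrt (2 * Y) / Real.sqrt E) *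
      (2 * |j| + D * (Real.sqrt 2 * Real.sqrt E) / Real.sqrt Y) ≤ 8 * D := by
  set M := min (2 * D / |j|) (2 * Real.sqrt (2 * Y) / Real.sqrt E) with hM
  have hj := abs_nonneg j
  have h1 : M * |j| ≤ 2 * D := by
    refine (mul_le_mul_of_nonneg_right (min_le_left _ _) hj).trans ?_
    rcases hj.eq_or_lt with h | h
    · rw [← h, mul_zero]
      positivity
    · rw [div_mul_cancel₀ _ h.ne']
  have hsY : 0 < Real.sqrt Y := Real.sqrt_pos.2 hY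
  have hsE : 0 < Real.sqrt E := Real.sqrt_pos.2 hE
  have hs2 : Real.sqrt 2 * Real.sqrt 2 = 2 := Real.mul_self_sqrt (by norm_num)
  have h2 : M * (D * (Real.sqrt 2 * Real.sqrt E) / Real.sqrt Y) ≤ 4 * D := by
    refine (mul_le_mul_of_nonneg_right (min_le_right _ _) (by positivity)).trans ?_
    rw [Real.sqrt_mul (by norm_num)]
    have h3 : 2 * (Real.sqrt 2 * Real.sqrt Y) / Real.sqrt E *
        (D * (Real.sqrt 2 * Real.sqrt E) / Real.sqrt Y) =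
        2 * D * (Real.sqrt 2 * Real.sqrt 2) := by
      field_simp
    rw [h3, hs2]
    linarith
  nlinarith

open Classical in
theorem w_count_pr (ε : ℝ) (hε : 0 < ε) : ∃ C Y₀ : ℝ, 1 ≤ C ∧ ∀ Y : ℝ, Y₀ ≤ Y → ∀ D : ℝ,
    Y ^ ε ≤ D → D ≤ Y → ∀ q : ℕ, 1 ≤ q → (q : ℝ) ≤ D ^ (1 / 8 : ℝ) →
    ∀ p ∈ pr1 Y (2 * Y), ∀ k h : ℕ, 1 ≤ k → k ≤ ⌊Real.sqrt (Y / D)⌋₊ → h ≤ k → Nat.Coprime k h →
    |(det (pel p) (vec k h) : ℝ)| ≤ ((pel p).re : ℝ) / (⌊Real.sqrt (Y / D)⌋₊ + 1) →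
    (((pr1 Y (2 * Y)).filter (fun p' =>
      det (pel p) (pel p') ≠ 0 ∧ |(det (pel p) (pel p') : ℝ)| ≤ D ∧
        (q : ℤ) ∣ det (pel p) (pel p'))).card : ℝ) ≤
      C * D / (q * Real.log Y) * hh q ^ 4 * hh (nn (vec k h)) ^ 2 := by
  obtain ⟨C₁, Y₁, hC₁, hline⟩ := w_line ε hε
  obtain ⟨C₂, hC₂, havg⟩ := hh_avg
  have hCC : 1 ≤ 16 * C₁ * C₂ := by nlinarith [mul_nonneg (sub_nonneg.2 hC₁) (sub_nonneg.2 hC₂)]
  refine ⟨16 * C₁ * C₂, max (max Y₁ 3) (3 ^ (1 / ε)), hCC, ?_⟩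
  intro Y hY D hYD hDY q hq hqD p hp k h hk hkN hhk hcop hdet
  have hY₁ : Y₁ ≤ Y := (le_max_left _ _).trans ((le_max_left _ _).trans hY)
  have hY3 : 3 ≤ Y := (le_max_right _ _).trans ((le_max_left _ _).trans hY)
  have hYe : (3 : ℝ) ^ (1 / ε) ≤ Y := (le_max_right _ _).trans hY
  have hY0 : 0 < Y := by linarith
  have hD3 : 3 ≤ D := by
    refine le_trans ?_ hYD
    calc (3 : ℝ) = ((3 : ℝ) ^ (1 / ε)) ^ ε := by
          rw [← Real.rpow_mul (by norm_num), one_div_mul_cancel hε.ne', Real.rpow_one]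
      _ ≤ Y ^ ε := Real.rpow_le_rpow (by positivity) hYe hε.le
  have hD0 : 0 < D := by linarith
  have hlog : 0 < Real.log Y := Real.log_pos (by linarith)
  have hpr : ∀ p' ∈ pr1 Y (2 * Y), (nn (pel p')).Prime ∧ Y < (nn (pel p') : ℝ) ∧
      (nn (pel p') : ℝ) ≤ 2 * Y := by
    intro p' hp'
    unfold pr1 at hp'
    rw [Finset.mem_filter] at hp'
    obtain ⟨_, h1, h2, h3, h4⟩ := hp'
    rw [(pel_spec h1 h2).1]
    exact ⟨h1, h3, h4⟩
  set e := vec k h with he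
  have hE := p10_vec k h
  have hE1 : 1 ≤ nn e := by
    have h1 : (1 : ℤ) ≤ nn e := by
      rw [hE]
      have h2 : (1 : ℤ) ≤ k := by exact_mod_cast hk
      nlinarith [sq_nonneg (h : ℤ)]
    exact_mod_cast h1
  have hE2 : (nn e : ℝ) < Y := by
    have h1 : (nn e : ℝ) = (k : ℝ) ^ 2 + (h : ℝ) ^ 2 := by exact_mod_cast hE
    have h2 : (h : ℝ) ≤ k := by exact_mod_cast hhk
    have h3 : (k : ℝ) ≤ Real.sqrt (Y / D) :=
      le_trans (by exact_mod_cast hkN) (Nat.floor_le (Real.sqrt_nonneg _))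
    have h4 : Real.sqrt (Y / D) ^ 2 = Y / D := Real.sq_sqrt (by positivity)
    have h5 : (k : ℝ) ^ 2 ≤ Y / D := by
      rw [← h4]
      gcongr
    have h6 : (h : ℝ) ^ 2 ≤ (k : ℝ) ^ 2 := by gcongr
    have h7 : Y / D ≤ Y / 3 := by gcongr
    rw [h1]
    linarith
  obtain ⟨hv0, hv1, hv2⟩ := hpr p hp
  set v := pel p with hv
  set j := det v e with hj
  set g := Int.gcd j q with hg
  have hg1 : 1 ≤ g := Int.gcd_pos_of_ne_zero_right _ (by exact_mod_cast (by omega : q ≠ 0))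
  have hg1' : (0 : ℝ) < g := by exact_mod_cast hg1
  have hq' : (0 : ℝ) < q := by exact_mod_cast hq
  set W := (pr1 Y (2 * Y)).filter (fun p' =>
      det v (pel p') ≠ 0 ∧ |(det v (pel p') : ℝ)| ≤ D ∧
        (q : ℤ) ∣ det v (pel p')) with hW
  set R := 2 * |(j : ℝ)| + D * (Real.sqrt 2 * Real.sqrt (nn e)) / Real.sqrt Y with hR
  have hR0 : 0 ≤ R := by positivity
  set L := W.image (fun p' => det (pel p') e) with hL
  have hLp : ∀ l ∈ L, l ≠ 0 ∧ (g : ℤ) ∣ l ∧ |(l : ℝ)| ≤ R := by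
    intro l hl
    obtain ⟨p', hp', rfl⟩ := Finset.mem_image.1 hl
    rw [hW, Finset.mem_filter] at hp'
    obtain ⟨hp1, _, hp3, hp4⟩ := hp'
    obtain ⟨hw0, hw1, hw2⟩ := hpr p' hp1
    refine ⟨p10_ne hw0 hE1 (by
      have : (nn e : ℝ) < nn (pel p') := hE2.trans hw1
      exact_mod_cast this), ?_, ?_⟩
    · refine plu_dvd (p10_prm hv0) (Int.gcd_dvd_left ..) ?_
      exact (Int.gcd_dvd_right ..).trans hp4
    · exact p10_l hY0 hD0.le hv1 hv2 hw2 hp3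
  have hcard : (W.card : ℝ) = ∑ l ∈ L, ((W.filter (fun p' => det (pel p') e = l)).card : ℝ) := by
    rw [← Nat.cast_sum]
    exact congrArg _ (Finset.card_eq_sum_card_image (fun p' => det (pel p') e) W)
  set M := min (2 * D / |(j : ℝ)|) (2 * Real.sqrt (2 * Y) / Real.sqrt (nn e)) with hM
  have hM0 : 0 ≤ M := le_min (by positivity) (by positivity)
  have hterm : ∀ l ∈ L, ((W.filter (fun p' => det (pel p') e = l)).card : ℝ) ≤
      C₁ * (M * g / q) / Real.log Y * (hh q * hh (nn e)) ^ 2 * hh l.natAbs ^ 2 := by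
    intro l hl
    have h1 := hline Y hY₁ D hYD hDY q hq hqD p hp k h hk hkN hhk hcop hdet l (hLp l hl).1
    refine le_trans ?_ (h1.trans (le_of_eq ?_))
    · refine Nat.cast_le.2 (Finset.card_le_card ?_)
      intro p' hp'
      rw [hW, Finset.mem_filter, Finset.mem_filter] at hp'
      rw [Finset.mem_filter]
      exact ⟨hp'.1.1, hp'.2, hp'.1.2⟩
    · rw [mul_pow (hh q * hh (nn (vec k h)))]
      ring
  have hsum := Finset.sum_le_sum hterm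
  rw [← hcard, ← Finset.mul_sum] at hsum
  refine hsum.trans ?_
  have hA : 0 ≤ C₁ * (M * g / q) / Real.log Y * (hh q * hh (nn e)) ^ 2 := by positivity
  refine (mul_le_mul_of_nonneg_left (p10_sum havg g hg1 R hR0 L hLp) hA).trans ?_
  have hgq : hh g ≤ hh q := by
    refine hh_mono ?_ (by omega)
    have : (g : ℤ) ∣ q := Int.gcd_dvd_right ..
    exact_mod_cast this
  have hgq2 : hh g ^ 2 ≤ hh q ^ 2 := by
    have := p10_hh_nonneg g
    gcongr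
  have hMR : M * R ≤ 8 * D := p10_prod hD0.le hY0 (by exact_mod_cast hE1)
  have e1 : C₁ * (M * g / q) / Real.log Y * (hh q * hh (nn e)) ^ 2 *
      (2 * C₂ * hh g ^ 2 * (R / g)) =
      2 * C₁ * C₂ * (M * R) / (q * Real.log Y) * (hh q ^ 2 * hh g ^ 2) * hh (nn e) ^ 2 := by
    field_simp
  have e2 : 16 * C₁ * C₂ * D / (q * Real.log Y) * hh q ^ 4 * hh (nn e) ^ 2 =
      2 * C₁ * C₂ * (8 * D) / (q * Real.log Y) * (hh q ^ 2 * hh q ^ 2) * hh (nn e) ^ 2 := by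
    ring
  rw [e1, e2]
  have hC0 : 0 ≤ 2 * C₁ * C₂ := by positivity
  gcongr

end Pool.Agent.TF

namespace Pool.Agent.TF

theorem w_count : type_of% @w_count_pr := @w_count_pr

end Pool.Agent.TF
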