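import Mathlib
import Pool.Agent.Lib_helper18.TF.Defs
import Pool.Agent.Lib_helper10.T2F.BAS
import Pool.Agent.Lib_helper10.T2F.PEL
import Pool.Agent.Lib_helper10.T2F.CNT
import Pool.Agent.Lib_helper10.T2F.SLW
import Pool.Agent.Lib_helper10.T2F.SLG
import Pool.Agent.Lib_helper10.T2F.MER
import Pool.Agent.Lib_helper10.T2F.DSR

set_option autoImplicit false

namespace Pool.Agent.TF

open Pool.Agent.T2

theorem p4_cast (p : ℕ) (z : G) : ((nn z : ℕ) : ZMod p) = (z.re : ZMod p) ^ 2 + (z.im : ZMod p) ^ 2 := by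
  have h := nn_cast z
  have h2 : (((nn z : ℕ) : ℤ) : ZMod p) = ((z.re ^ 2 + z.im ^ 2 : ℤ) : ZMod p) := by rw [h]
  push_cast at h2
  exact h2

theorem p4_re (u e : G) (s : ℕ) : (u + (s : G) * e).re = u.re + s * e.re := by
  simp [Zsqrtd.re_add, Zsqrtd.re_mul]

theorem p4_im (u e : G) (s : ℕ) : (u + (s : G) * e).im = u.im + s * e.im := by
  simp [Zsqrtd.im_add, Zsqrtd.im_mul]

theorem p4_field {K : Type*} [Field K] (u1 u2 e1 e2 i s : K) (hi : i * i = -1)
    (hA : e1 ^ 2 + e2 ^ 2 ≠ 0) :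
    ((u1 + s * e1) ^ 2 + (u2 + s * e2) ^ 2 = 0) ↔
      (s = (-(u1 * e1 + u2 * e2) + i * (u1 * e2 - u2 * e1)) / (e1 ^ 2 + e2 ^ 2) ∨
        s = (-(u1 * e1 + u2 * e2) - i * (u1 * e2 - u2 * e1)) / (e1 ^ 2 + e2 ^ 2)) := by
  have key : (e1 ^ 2 + e2 ^ 2) * ((u1 + s * e1) ^ 2 + (u2 + s * e2) ^ 2) =
      (s * (e1 ^ 2 + e2 ^ 2) - (-(u1 * e1 + u2 * e2) + i * (u1 * e2 - u2 * e1))) *
      (s * (e1 ^ 2 + e2 ^ 2) - (-(u1 * e1 + u2 * e2) - i * (u1 * e2 - u2 * e1))) := by
    linear_combination (u1 * e2 - u2 * e1) ^ 2 * hi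
  rw [eq_div_iff hA, eq_div_iff hA]
  constructor
  · intro h
    rw [h, mul_zero] at key
    rcases mul_eq_zero.1 key.symm with h1 | h1
    · exact Or.inl (sub_eq_zero.1 h1)
    · exact Or.inr (sub_eq_zero.1 h1)
  · intro h
    have : (e1 ^ 2 + e2 ^ 2) * ((u1 + s * e1) ^ 2 + (u2 + s * e2) ^ 2) = 0 := by
      rw [key]
      rcases h with h1 | h1
      · rw [h1]; ring
      · rw [h1]; ring
    exact (mul_eq_zero.1 this).resolve_left hA

open Classical in
/-- `nn(u + s e)` is a quadratic polynomial in `s` with discriminant `-4 det(u,e)²`, which is a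
nonzero square modulo `p`, and leading coefficient `nn e` -/
theorem line_roots_pr {p : ℕ} (hp : p.Prime) (h4 : p % 4 = 1) (u e : G) (he : ¬ p ∣ nn e)
    (hd : ¬ (p : ℤ) ∣ det u e) :
    ((Finset.range p).filter (fun s : ℕ => p ∣ nn (u + (s : G) * e))).card = 2 := by
  haveI : Fact p.Prime := ⟨hp⟩
  obtain ⟨i, hi⟩ := (ZMod.exists_sq_eq_neg_one_iff (p := p)).2 (by omega)
  have hi' : i * i = -1 := hi.symm
  have hA : ((e.re : ZMod p)) ^ 2 + (e.im : ZMod p) ^ 2 ≠ 0 := by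
    rw [← p4_cast, Ne, ZMod.natCast_eq_zero_iff]
    exact he
  have hD : ((u.re : ZMod p)) * (e.im : ZMod p) - (u.im : ZMod p) * (e.re : ZMod p) ≠ 0 := by
    intro h
    apply hd
    rw [← ZMod.intCast_zmod_eq_zero_iff_dvd]
    unfold det
    push_cast
    exact h
  set x1 : ZMod p := (-((u.re : ZMod p) * (e.re : ZMod p) + (u.im : ZMod p) * (e.im : ZMod p)) +
    i * ((u.re : ZMod p) * (e.im : ZMod p) - (u.im : ZMod p) * (e.re : ZMod p))) /
    ((e.re : ZMod p) ^ 2 + (e.im : ZMod p) ^ 2) with hx1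
  set x2 : ZMod p := (-((u.re : ZMod p) * (e.re : ZMod p) + (u.im : ZMod p) * (e.im : ZMod p)) -
    i * ((u.re : ZMod p) * (e.im : ZMod p) - (u.im : ZMod p) * (e.re : ZMod p))) /
    ((e.re : ZMod p) ^ 2 + (e.im : ZMod p) ^ 2) with hx2
  have hne : x1 ≠ x2 := by
    intro h
    rw [hx1, hx2, div_left_inj' hA] at h
    have h2 : (2 : ZMod p) * (i * ((u.re : ZMod p) * (e.im : ZMod p) -
        (u.im : ZMod p) * (e.re : ZMod p))) = 0 := by
      linear_combination h
    have hi0 : i ≠ 0 := by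
      intro h0
      rw [h0, mul_zero] at hi'
      have : (1 : ZMod p) = 0 := by linear_combination hi'
      exact one_ne_zero this
    have h20 : (2 : ZMod p) ≠ 0 := by
      have h3 : ((2 : ℕ) : ZMod p) ≠ 0 := by
        rw [Ne, ZMod.natCast_eq_zero_iff]
        intro h4'
        have := Nat.le_of_dvd (by norm_num) h4'
        have := hp.two_le
        omega
      exact_mod_cast h3
    rcases mul_eq_zero.1 h2 with h3 | h3
    · exact h20 h3
    · rcases mul_eq_zero.1 h3 with h4 | h4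
      · exact hi0 h4
      · exact hD h4
  have heq : (Finset.range p).filter (fun s : ℕ => p ∣ nn (u + (s : G) * e)) =
      {x1.val, x2.val} := by
    ext s
    rw [Finset.mem_filter, Finset.mem_range, Finset.mem_insert, Finset.mem_singleton]
    have hs : (p ∣ nn (u + (s : G) * e)) ↔ ((s : ZMod p) = x1 ∨ (s : ZMod p) = x2) := by
      rw [← ZMod.natCast_eq_zero_iff, p4_cast, p4_re, p4_im]
      push_cast
      exact p4_field _ _ _ _ i _ hi' hA
    rw [hs]
    constructor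
    · rintro ⟨h1, h2 | h2⟩
      · left
        rw [← h2, ZMod.val_cast_of_lt h1]
      · right
        rw [← h2, ZMod.val_cast_of_lt h1]
    · rintro (h1 | h1)
      · refine ⟨by rw [h1]; exact ZMod.val_lt x1, Or.inl ?_⟩
        rw [h1, ZMod.natCast_zmod_val]
      · refine ⟨by rw [h1]; exact ZMod.val_lt x2, Or.inr ?_⟩
        rw [h1, ZMod.natCast_zmod_val]
  rw [heq]
  apply Finset.card_pair
  intro h
  exact hne (ZMod.val_injective p h)



end Pool.Agent.TF

namespace Pool.Agent.TF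

theorem line_roots : type_of% @line_roots_pr := @line_roots_pr

end Pool.Agent.TF
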