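import Mathlib
import Pool.Agent.Lib_helper18.TF.Defs
import Pool.Agent.Lib_helper10.T2F.BAS
import Pool.Agent.Lib_helper10.T2F.PEL
import Pool.Agent.Lib_helper10.T2F.CNT
import Pool.Agent.Lib_helper10.T2F.SLW
import Pool.Agent.Lib_helper10.T2F.SLG
import Pool.Agent.Lib_helper10.T2F.MER
import Pool.Agent.Lib_helper10.T2F.DSR
import Pool.Agent.Lib_helper18.TFF.P4

/-! Thin families, block P4b: the count on a line -/

namespace Pool.Agent.TF

open Pool.Agent.T2

/-- the quadratic polynomial of a line -/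
theorem p4b_nn (u e : G) (s : ℤ) :
    (nn (u + (s : G) * e) : ℤ) = nn u + 2 * ip u e * s + nn e * s ^ 2 := by
  rw [nn_cast_pr, nn_cast_pr, nn_cast_pr]
  have h1 : (u + (s : G) * e).re = u.re + s * e.re := by simp
  have h2 : (u + (s : G) * e).im = u.im + s * e.im := by simp
  rw [h1, h2]
  unfold ip
  ring

theorem p4b_iff (d : ℕ) (u e : G) (s : ℤ) :
    d ∣ nn (u + (s : G) * e) ↔
      ((nn u : ℤ) : ZMod d) + ((2 * ip u e : ℤ) : ZMod d) * (s : ZMod d) +
        ((nn e : ℤ) : ZMod d) * (s : ZMod d) ^ 2 = 0 := by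
  have h := p4b_nn u e s
  rw [← Int.natCast_dvd_natCast, h, ← ZMod.intCast_zmod_eq_zero_iff_dvd]
  push_cast
  rfl

/-- roots of a quadratic polynomial modulo `d` -/
def p4bR (A B C : ℤ) (d : ℕ) : Type :=
  {x : ZMod d // (A : ZMod d) + (B : ZMod d) * x + (C : ZMod d) * x ^ 2 = 0}

theorem p4b_mul (A B C : ℤ) {m n : ℕ} (h : m.Coprime n) :
    Nat.card (p4bR A B C (m * n)) = Nat.card (p4bR A B C m) * Nat.card (p4bR A B C n) := by
  rw [← Nat.card_prod]
  refine Nat.card_congr ?_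
  let φ := ZMod.chineseRemainder h
  have key : ∀ x : ZMod (m * n), (A : ZMod (m * n)) + (B : ZMod (m * n)) * x +
      (C : ZMod (m * n)) * x ^ 2 = 0 ↔
      ((A : ZMod m) + (B : ZMod m) * (φ x).1 + (C : ZMod m) * (φ x).1 ^ 2 = 0 ∧
       (A : ZMod n) + (B : ZMod n) * (φ x).2 + (C : ZMod n) * (φ x).2 ^ 2 = 0) := by
    intro x
    have h0 : φ ((A : ZMod (m * n)) + (B : ZMod (m * n)) * x + (C : ZMod (m * n)) * x ^ 2) =
        (A : ZMod m × ZMod n) + (B : ZMod m × ZMod n) * φ x + (C : ZMod m × ZMod n) * φ x ^ 2 := by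
      simp only [map_add, map_mul, map_pow, map_intCast]
    rw [← map_eq_zero_iff φ φ.injective, h0, Prod.ext_iff]
    simp
  exact
    { toFun := fun x => (⟨(φ x.1).1, ((key x.1).1 x.2).1⟩, ⟨(φ x.1).2, ((key x.1).1 x.2).2⟩)
      invFun := fun y => ⟨φ.symm (y.1.1, y.2.1), (key _).2 (by
        rw [RingEquiv.apply_symm_apply]
        exact ⟨y.1.2, y.2.2⟩)⟩
      left_inv := fun x => by
        apply Subtype.ext
        simp
      right_inv := fun y => by
        apply Prod.ext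
        · apply Subtype.ext
          simp
        · apply Subtype.ext
          simp }

open Classical in
/-- the number of the roots as the number of the elements of `range d` -/
theorem p4b_range (u e : G) (d : ℕ) (hd : d ≠ 0) :
    ((Finset.range d).filter (fun s : ℕ => d ∣ nn (u + (s : G) * e))).card =
      Nat.card (p4bR (nn u) (2 * ip u e) (nn e) d) := by
  have : NeZero d := ⟨hd⟩
  have hiff : ∀ s : ℕ, d ∣ nn (u + (s : G) * e) ↔
      (((nn u : ℤ) : ZMod d) + ((2 * ip u e : ℤ) : ZMod d) * ((s : ℕ) : ZMod d) +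
        ((nn e : ℤ) : ZMod d) * ((s : ℕ) : ZMod d) ^ 2 = 0) := by
    intro s
    have := p4b_iff d u e (s : ℤ)
    simpa using this
  rw [← Nat.card_eq_finsetCard]
  refine Nat.card_congr ?_
  exact
    { toFun := fun s => ⟨((s.1 : ℕ) : ZMod d), (hiff s.1).1 (Finset.mem_filter.1 s.2).2⟩
      invFun := fun x => ⟨x.1.val, Finset.mem_filter.2 ⟨Finset.mem_range.2 (ZMod.val_lt _), (hiff _).2 (by
        rw [ZMod.natCast_zmod_val]; exact x.2)⟩⟩
      left_inv := fun s => by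
        apply Subtype.ext
        have := Finset.mem_range.1 (Finset.mem_filter.1 s.2).1
        simp [ZMod.val_natCast_of_lt this]
      right_inv := fun x => by
        apply Subtype.ext
        simp }

open Classical in
theorem p4b_card (u e : G) (d : ℕ) (hd : Squarefree d)
    (h : ∀ p ∈ d.primeFactors, p % 4 = 1 ∧ ¬ p ∣ nn e ∧ ¬ (p : ℤ) ∣ det u e) :
    Nat.card (p4bR (nn u) (2 * ip u e) (nn e) d) = 2 ^ d.primeFactors.card := by
  induction d using Nat.recOnPosPrimePosCoprime with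
  | prime_pow p n hp hn =>
    have h1 : n = 1 := by
      by_contra h1
      have h2 : p * p ∣ p ^ n := by
        rw [← pow_two]
        exact pow_dvd_pow p (by omega)
      have := hd p h2
      exact hp.one_lt.ne' (Nat.isUnit_iff.1 this)
    subst h1
    rw [pow_one] at *
    have hm : p ∈ p.primeFactors := by
      rw [hp.primeFactors]
      exact Finset.mem_singleton_self p
    obtain ⟨a1, a2, a3⟩ := h p hm
    rw [hp.primeFactors, Finset.card_singleton, pow_one, ← p4b_range u e p hp.ne_zero]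
    exact line_roots hp a1 u e a2 a3
  | zero => exact absurd hd not_squarefree_zero
  | one =>
    have : Unique (p4bR (nn u) (2 * ip u e) (nn e) 1) :=
      { default := ⟨0, Subsingleton.elim _ _⟩
        uniq := fun x => Subtype.ext (Subsingleton.elim _ _) }
    rw [Nat.card_unique]
    simp
  | coprime m n hm hn hc ih1 ih2 =>
    have hm0 : m ≠ 0 := by omega
    have hn0 : n ≠ 0 := by omega
    rw [p4b_mul _ _ _ hc, ih1 (hd.squarefree_of_dvd (Dvd.intro _ rfl)) (fun p hp => h p (by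
        rw [Nat.primeFactors_mul hm0 hn0]; exact Finset.mem_union_left _ hp)),
      ih2 (hd.squarefree_of_dvd (Dvd.intro_left _ rfl)) (fun p hp => h p (by
        rw [Nat.primeFactors_mul hm0 hn0]; exact Finset.mem_union_right _ hp)),
      ← pow_add, hc.primeFactors_mul, Finset.card_union_of_disjoint hc.disjoint_primeFactors]

/-- one class -/
theorem p4b_class (d : ℕ) (hd : d ≠ 0) (v a b : ℤ) (hab : a ≤ b) :
    |(((Finset.Ioc a b).filter (fun s : ℤ => s ≡ v [ZMOD d])).card : ℝ) - ((b : ℝ) - a) / d| ≤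
      1 := by
  have hd0 : (0 : ℤ) < d := by exact_mod_cast Nat.pos_of_ne_zero hd
  have hd1 : (0 : ℝ) < d := by exact_mod_cast Nat.pos_of_ne_zero hd
  have h := Int.Ioc_filter_modEq_card a b hd0 v
  have hle : ⌊((a : ℚ) - v) / (d : ℤ)⌋ ≤ ⌊((b : ℚ) - v) / (d : ℤ)⌋ := by
    apply Int.floor_le_floor
    have : ((a : ℚ)) ≤ b := by exact_mod_cast hab
    have h2 : (0 : ℚ) < ((d : ℤ) : ℚ) := by exact_mod_cast hd0
    gcongr
  rw [max_eq_left (by omega)] at h
  have hr : (((Finset.Ioc a b).filter (fun s : ℤ => s ≡ v [ZMOD d])).card : ℝ) =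
      ((⌊((b : ℚ) - v) / (d : ℤ)⌋ - ⌊((a : ℚ) - v) / (d : ℤ)⌋ : ℤ) : ℝ) := by
    rw [← h]; simp
  rw [hr]
  have e1 := Int.floor_le (((b : ℚ) - v) / (d : ℤ))
  have e2 := Int.lt_floor_add_one (((b : ℚ) - v) / (d : ℤ))
  have e3 := Int.floor_le (((a : ℚ) - v) / (d : ℤ))
  have e4 := Int.lt_floor_add_one (((a : ℚ) - v) / (d : ℤ))
  have f1 : ((⌊((b : ℚ) - v) / (d : ℤ)⌋ : ℤ) : ℝ) ≤ ((b : ℝ) - v) / d := by
    exact_mod_cast (Rat.cast_le (K := ℝ)).2 e1
  have f2 : ((b : ℝ) - v) / d < ((⌊((b : ℚ) - v) / (d : ℤ)⌋ : ℤ) : ℝ) + 1 := by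
    exact_mod_cast (Rat.cast_lt (K := ℝ)).2 e2
  have f3 : ((⌊((a : ℚ) - v) / (d : ℤ)⌋ : ℤ) : ℝ) ≤ ((a : ℝ) - v) / d := by
    exact_mod_cast (Rat.cast_le (K := ℝ)).2 e3
  have f4 : ((a : ℝ) - v) / d < ((⌊((a : ℚ) - v) / (d : ℤ)⌋ : ℤ) : ℝ) + 1 := by
    exact_mod_cast (Rat.cast_lt (K := ℝ)).2 e4
  have g : ((b : ℝ) - a) / d = ((b : ℝ) - v) / d - ((a : ℝ) - v) / d := by ring
  rw [g, abs_le, Int.cast_sub]
  constructor <;> linarith

open Classical in
theorem line_count_pr (d : ℕ) (hd : Squarefree d) (u e : G)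
    (h : ∀ p ∈ d.primeFactors, p % 4 = 1 ∧ ¬ p ∣ nn e ∧ ¬ (p : ℤ) ∣ det u e) (a b : ℤ)
    (hab : a ≤ b) :
    |(((Finset.Ioc a b).filter (fun s : ℤ => d ∣ nn (u + (s : G) * e))).card : ℝ) -
      2 ^ d.primeFactors.card * ((b : ℝ) - a) / d| ≤ 2 ^ d.primeFactors.card := by
  have hd0 : d ≠ 0 := hd.ne_zero
  have : NeZero d := ⟨hd0⟩
  have hdz : (0 : ℤ) < d := by exact_mod_cast Nat.pos_of_ne_zero hd0
  set R := (Finset.range d).filter (fun s : ℕ => d ∣ nn (u + (s : G) * e)) with hR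
  have hcard : R.card = 2 ^ d.primeFactors.card := by
    rw [hR, p4b_range u e d hd0, p4b_card u e d hd h]
  have hper : ∀ s t : ℤ, s ≡ t [ZMOD d] →
      (d ∣ nn (u + (s : G) * e) ↔ d ∣ nn (u + (t : G) * e)) := by
    intro s t hst
    rw [p4b_iff, p4b_iff, (ZMod.intCast_eq_intCast_iff s t d).2 hst]
  have hdec : ((Finset.Ioc a b).filter (fun s : ℤ => d ∣ nn (u + (s : G) * e))) =
      R.biUnion (fun r => (Finset.Ioc a b).filter (fun s : ℤ => s ≡ (r : ℤ) [ZMOD d])) := by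
    ext s
    simp only [Finset.mem_filter, Finset.mem_biUnion]
    constructor
    · rintro ⟨h1, h2⟩
      have hm : (((s % d).toNat : ℕ) : ℤ) = s % d := Int.toNat_of_nonneg (Int.emod_nonneg _ hdz.ne')
      have hmod : s ≡ (((s % d).toNat : ℕ) : ℤ) [ZMOD d] := by
        rw [hm]
        exact (Int.mod_modEq s d).symm
      refine ⟨(s % d).toNat, ?_, h1, hmod⟩
      rw [hR, Finset.mem_filter, Finset.mem_range]
      refine ⟨?_, ?_⟩
      · have := Int.emod_lt_of_pos s hdz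
        omega
      · have := (hper _ _ hmod).1 h2
        rwa [Int.cast_natCast] at this
    · rintro ⟨r, hr, h1, h2⟩
      refine ⟨h1, (hper _ _ h2).2 ?_⟩
      have := (Finset.mem_filter.1 hr).2
      rwa [Int.cast_natCast]
  have hdisj : ∀ r ∈ R, ∀ r' ∈ R, r ≠ r' → Disjoint
      ((Finset.Ioc a b).filter (fun s : ℤ => s ≡ (r : ℤ) [ZMOD d]))
      ((Finset.Ioc a b).filter (fun s : ℤ => s ≡ (r' : ℤ) [ZMOD d])) := by
    intro r hr r' hr' hne
    rw [Finset.disjoint_left]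
    intro s h1 h2
    have h3 := (Finset.mem_filter.1 h1).2
    have h4 := (Finset.mem_filter.1 h2).2
    have h5 : (r : ℤ) ≡ r' [ZMOD d] := h3.symm.trans h4
    have h6 : r ≡ r' [MOD d] := (Int.natCast_modEq_iff).1 h5
    have h7 := Finset.mem_range.1 (Finset.mem_filter.1 hr).1
    have h8 := Finset.mem_range.1 (Finset.mem_filter.1 hr').1
    exact hne (Nat.ModEq.eq_of_lt_of_lt h6 h7 h8)
  rw [hdec, Finset.card_biUnion hdisj]
  push_cast
  have hc : (2 : ℝ) ^ d.primeFactors.card = (R.card : ℝ) := by rw [hcard]; push_cast; rfl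
  rw [hc]
  have hs : (R.card : ℝ) * ((b : ℝ) - a) / d = ∑ r ∈ R, ((b : ℝ) - a) / d := by
    rw [Finset.sum_const, nsmul_eq_mul]; ring
  rw [hs, ← Finset.sum_sub_distrib]
  calc |∑ r ∈ R, ((((Finset.Ioc a b).filter (fun s : ℤ => s ≡ (r : ℤ) [ZMOD d])).card : ℝ) -
          ((b : ℝ) - a) / d)|
      ≤ ∑ r ∈ R, |((((Finset.Ioc a b).filter (fun s : ℤ => s ≡ (r : ℤ) [ZMOD d])).card : ℝ) -
          ((b : ℝ) - a) / d)| := Finset.abs_sum_le_sum_abs _ _
    _ ≤ ∑ r ∈ R, (1 : ℝ) := by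
        apply Finset.sum_le_sum
        intro r _
        have := p4b_class d hd0 (r : ℤ) a b hab
        convert this using 2
    _ = R.card := by rw [Finset.sum_const, nsmul_eq_mul, mul_one]



end Pool.Agent.TF

namespace Pool.Agent.TF

theorem line_count : type_of% @line_count_pr := @line_count_pr

end Pool.Agent.TF
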