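import Mathlib
import Pool.Agent.Lib_helper18.TF.Defs
import Pool.Agent.Lib_helper10.T2F.BAS
import Pool.Agent.Lib_helper10.T2F.PEL
import Pool.Agent.Lib_helper10.T2F.CNT
import Pool.Agent.Lib_helper10.T2F.SLW
import Pool.Agent.Lib_helper10.T2F.SLG
import Pool.Agent.Lib_helper10.T2F.MER
import Pool.Agent.Lib_helper10.T2F.DSR
import Pool.Agent.Lib_helper18.TFF.P1

namespace Pool.Agent.TF

open Pool.Agent.T2

theorem p5_tel (N : ℕ) : (1 : ℝ) / 2 ≤ ∏ n ∈ Finset.Icc 2 (N + 1), (1 - 1 / (n : ℝ) ^ 2) := by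
  have h : ∀ N : ℕ, ∏ n ∈ Finset.Icc 2 (N + 1), (1 - 1 / (n : ℝ) ^ 2) =
      ((N : ℝ) + 2) / (2 * ((N : ℝ) + 1)) := by
    intro N
    induction N with
    | zero => simp
    | succ N ih =>
      rw [Finset.prod_Icc_succ_top (by omega), ih]
      push_cast
      have h1 : (N : ℝ) + 1 ≠ 0 := by positivity
      have h2 : (N : ℝ) + 1 + 1 ≠ 0 := by positivity
      field_simp
      ring
  rw [h]
  rw [div_le_div_iff₀ (by norm_num) (by positivity)]
  nlinarith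

theorem p5_prod (S : Finset ℕ) (hS : ∀ p ∈ S, 2 ≤ p) :
    (1 : ℝ) / 2 ≤ ∏ n ∈ S, (1 - 1 / (n : ℝ) ^ 2) := by
  have hsub : S ⊆ Finset.Icc 2 (S.sup id + 1) := by
    intro p hp
    rw [Finset.mem_Icc]
    have := Finset.le_sup (f := id) hp
    simp only [id] at this
    exact ⟨hS p hp, by omega⟩
  refine (p5_tel (S.sup id)).trans ?_
  rw [← Finset.prod_sdiff hsub]
  have h0 : ∀ n : ℕ, 2 ≤ n → 0 ≤ 1 - 1 / (n : ℝ) ^ 2 ∧ 1 - 1 / (n : ℝ) ^ 2 ≤ 1 := by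
    intro n hn
    have hn' : (2 : ℝ) ≤ n := by exact_mod_cast hn
    have h1 : 1 / (n : ℝ) ^ 2 ≤ 1 := by
      rw [div_le_one (by positivity)]
      nlinarith
    have h2 : 0 ≤ 1 / (n : ℝ) ^ 2 := by positivity
    constructor <;> linarith
  have h1 : ∏ n ∈ Finset.Icc 2 (S.sup id + 1) \ S, (1 - 1 / (n : ℝ) ^ 2) ≤ 1 :=
    Finset.prod_le_one (fun n hn => (h0 n (Finset.mem_Icc.1 (Finset.mem_sdiff.1 hn).1).1).1)
      (fun n hn => (h0 n (Finset.mem_Icc.1 (Finset.mem_sdiff.1 hn).1).1).2)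
  exact mul_le_of_le_one_left (Finset.prod_nonneg fun n hn => (h0 n (hS n hn)).1) h1

/-- the local density -/
noncomputable def p5_H (p : ℕ) : ℝ :=
  (2 / (p : ℝ) - 1 / (p : ℝ) ^ 2) / (1 - (2 / (p : ℝ) - 1 / (p : ℝ) ^ 2))

/-- the larger local density -/
noncomputable def p5_G (p : ℕ) : ℝ := (2 / (p : ℝ)) / (1 - 2 / (p : ℝ))

theorem p5_den {p : ℕ} (hp : 2 ≤ p) :
    1 - (2 / (p : ℝ) - 1 / (p : ℝ) ^ 2) = (1 - 1 / (p : ℝ)) ^ 2 := by
  have : (p : ℝ) ≠ 0 := by positivity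
  field_simp
  ring

theorem p5_one_sub {p : ℕ} (hp : 2 ≤ p) : 0 < 1 - 1 / (p : ℝ) := by
  have hp' : (2 : ℝ) ≤ p := by exact_mod_cast hp
  rw [sub_pos, div_lt_one (by linarith)]
  linarith

theorem p5_H_nonneg {p : ℕ} (hp : 2 ≤ p) : 0 ≤ p5_H p := by
  unfold p5_H
  rw [p5_den hp]
  have hp' : (2 : ℝ) ≤ p := by exact_mod_cast hp
  refine div_nonneg ?_ (sq_nonneg _)
  rw [sub_nonneg, div_le_div_iff₀ (by positivity) (by positivity)]
  nlinarith

theorem p5_one_add {p : ℕ} (hp : 2 ≤ p) :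
    1 + p5_H p = (1 + 1 / (p : ℝ)) ^ 2 / (1 - 1 / (p : ℝ) ^ 2) ^ 2 := by
  have hp' : (2 : ℝ) ≤ p := by exact_mod_cast hp
  have h1 := p5_one_sub hp
  have h2 : (0 : ℝ) < 1 + 1 / (p : ℝ) := by positivity
  have h3 : (1 - 1 / (p : ℝ) ^ 2) = (1 - 1 / (p : ℝ)) * (1 + 1 / (p : ℝ)) := by
    have : (p : ℝ) ≠ 0 := by positivity
    field_simp
    ring
  have h4 : 2 / (p : ℝ) - 1 / (p : ℝ) ^ 2 = 1 - (1 - 1 / (p : ℝ)) ^ 2 := by
    have := p5_den hp
    linarith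
  unfold p5_H
  rw [h4, h3]
  have h5 := h1.ne'
  have h6 := h2.ne'
  rw [sub_sub_cancel]
  generalize (1 - 1 / (p : ℝ)) = a at *
  generalize (1 + 1 / (p : ℝ)) = b at *
  field_simp
  ring

theorem p5_H_le_G {p : ℕ} (hp : 3 ≤ p) : p5_H p ≤ p5_G p := by
  have hp' : (3 : ℝ) ≤ p := by exact_mod_cast hp
  unfold p5_H p5_G
  have h1 : 2 / (p : ℝ) < 1 := by
    rw [div_lt_one (by linarith)]
    linarith
  have h2 : (0 : ℝ) < 1 / (p : ℝ) ^ 2 := by positivity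
  have h3 : (0 : ℝ) ≤ 2 / (p : ℝ) := by positivity
  exact div_le_div₀ h3 (by linarith) (by linarith) (by linarith)

open Classical in
theorem mass_excl_pr : ∃ c : ℝ, 0 < c ∧ ∀ (R : ℝ) (m : ℕ), 2 ≤ R → m ≠ 0 →
    c * Real.log R / hh m ^ 2 ≤
    ∑ d ∈ (Finset.Icc 1 ⌊R⌋₊).filter (fun d : ℕ => Squarefree d ∧
      ∀ p : ℕ, p.Prime → p ∣ d → p % 4 = 1 ∧ ¬ p ∣ m), ∏ p ∈ d.primeFactors,
        (2 / (p : ℝ)) / (1 - 2 / (p : ℝ)) := by
  obtain ⟨c, hc, hmass⟩ := selberg_mass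
  refine ⟨c / 4, by positivity, fun R m hR hm => ?_⟩
  set N := ⌊R⌋₊ with hN
  set D := (Finset.Icc 1 N).filter (fun d : ℕ => Squarefree d ∧
      ∀ p : ℕ, p.Prime → p ∣ d → p % 4 = 1) with hD
  set E := (Finset.Icc 1 N).filter (fun d : ℕ => Squarefree d ∧
      ∀ p : ℕ, p.Prime → p ∣ d → p % 4 = 1 ∧ ¬ p ∣ m) with hE
  set Q := m.primeFactors.filter (fun p => p % 4 = 1) with hQ
  have h0 : c * Real.log R ≤ ∑ d ∈ D, ∏ p ∈ d.primeFactors, p5_H p := hmass R hR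
  have hDp : ∀ d ∈ D, ∀ p ∈ d.primeFactors, p.Prime ∧ p % 4 = 1 := by
    intro d hd p hp
    have hp1 := Nat.prime_of_mem_primeFactors hp
    exact ⟨hp1, (Finset.mem_filter.1 hd).2.2 p hp1 (Nat.dvd_of_mem_primeFactors hp)⟩
  have hpr : ∀ d ∈ D, ∀ p ∈ d.primeFactors \ m.primeFactors, p.Prime := fun d hd p hp =>
    (hDp d hd p (Finset.mem_sdiff.1 hp).1).1
  -- the map
  have hinj : Set.InjOn (fun d : ℕ => (d.primeFactors ∩ m.primeFactors,
      ∏ p ∈ d.primeFactors \ m.primeFactors, p)) (D : Set ℕ) := by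
    intro d hd d' hd' h
    rw [Finset.mem_coe] at hd hd'
    simp only [Prod.mk.injEq] at h
    have h1 : d.primeFactors \ m.primeFactors = d'.primeFactors \ m.primeFactors := by
      rw [← (slg_rad (hpr d hd)).2, ← (slg_rad (hpr d' hd')).2, h.2]
    have h2 : d.primeFactors = d'.primeFactors := by
      rw [← Finset.sdiff_union_inter d.primeFactors m.primeFactors, h1, h.1,
        Finset.sdiff_union_inter]
    have h3 := (Finset.mem_filter.1 hd).2.1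
    have h4 := (Finset.mem_filter.1 hd').2.1
    rw [← Nat.prod_primeFactors_of_squarefree h3, ← Nat.prod_primeFactors_of_squarefree h4, h2]
  have hmaps : D.image (fun d : ℕ => (d.primeFactors ∩ m.primeFactors,
      ∏ p ∈ d.primeFactors \ m.primeFactors, p)) ⊆ Q.powerset ×ˢ E := by
    intro x hx
    obtain ⟨d, hd, rfl⟩ := Finset.mem_image.1 hx
    obtain ⟨hs1, hs2⟩ := slg_rad (hpr d hd)
    have hd' := Finset.mem_filter.1 hd
    have hd1 := Finset.mem_Icc.1 hd'.1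
    rw [Finset.mem_product]
    refine ⟨?_, ?_⟩
    · rw [Finset.mem_powerset]
      intro p hp
      rw [Finset.mem_inter] at hp
      rw [hQ, Finset.mem_filter]
      exact ⟨hp.2, (hDp d hd p hp.1).2⟩
    · have hdvd : (∏ p ∈ d.primeFactors \ m.primeFactors, p) ∣ d :=
        (Finset.prod_dvd_prod_of_subset _ _ _ Finset.sdiff_subset).trans
          (Nat.prod_primeFactors_dvd d)
      rw [hE, Finset.mem_filter, Finset.mem_Icc]
      refine ⟨⟨Nat.pos_of_ne_zero hs1.ne_zero,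
        (Nat.le_of_dvd (by omega) hdvd).trans hd1.2⟩, hs1, ?_⟩
      intro p hp hpd
      have hp1 : p ∈ d.primeFactors \ m.primeFactors := by
        rw [← hs2]
        exact Nat.mem_primeFactors.2 ⟨hp, hpd, hs1.ne_zero⟩
      rw [Finset.mem_sdiff] at hp1
      refine ⟨(hDp d hd p hp1.1).2, fun hpm => hp1.2 (Nat.mem_primeFactors.2 ⟨hp, hpm, hm⟩)⟩
  have hterm : ∀ d ∈ D, ∏ p ∈ d.primeFactors, p5_H p =
      (∏ p ∈ d.primeFactors ∩ m.primeFactors, p5_H p) *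
        ∏ p ∈ (∏ p ∈ d.primeFactors \ m.primeFactors, p).primeFactors, p5_H p := by
    intro d hd
    rw [(slg_rad (hpr d hd)).2, mul_comm, ← Finset.prod_union
      (Finset.disjoint_of_subset_right Finset.inter_subset_right Finset.sdiff_disjoint),
      Finset.sdiff_union_inter]
  have hEp : ∀ d ∈ E, ∀ p ∈ d.primeFactors, p.Prime ∧ p % 4 = 1 := by
    intro d hd p hp
    have hp1 := Nat.prime_of_mem_primeFactors hp
    exact ⟨hp1, ((Finset.mem_filter.1 hd).2.2 p hp1 (Nat.dvd_of_mem_primeFactors hp)).1⟩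
  have h1 : ∑ d ∈ D, ∏ p ∈ d.primeFactors, p5_H p ≤
      ∑ x ∈ Q.powerset ×ˢ E, (∏ p ∈ x.1, p5_H p) * ∏ p ∈ x.2.primeFactors, p5_H p := by
    rw [Finset.sum_congr rfl hterm]
    rw [← Finset.sum_image (f := fun x : Finset ℕ × ℕ =>
      (∏ p ∈ x.1, p5_H p) * ∏ p ∈ x.2.primeFactors, p5_H p) hinj]
    refine Finset.sum_le_sum_of_subset_of_nonneg hmaps ?_
    intro x hx _
    rw [Finset.mem_product] at hx
    refine mul_nonneg (Finset.prod_nonneg fun p hp => ?_) (Finset.prod_nonneg fun p hp => ?_)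
    · have := Finset.mem_powerset.1 hx.1 hp
      rw [hQ, Finset.mem_filter] at this
      exact p5_H_nonneg (Nat.prime_of_mem_primeFactors this.1).two_le
    · exact p5_H_nonneg (hEp x.2 hx.2 p hp).1.two_le
  have h2 : ∑ x ∈ Q.powerset ×ˢ E, (∏ p ∈ x.1, p5_H p) * ∏ p ∈ x.2.primeFactors, p5_H p =
      (∏ p ∈ Q, (1 + p5_H p)) * ∑ d ∈ E, ∏ p ∈ d.primeFactors, p5_H p := by
    rw [Finset.prod_one_add, Finset.sum_mul_sum, Finset.sum_product]
  have h3 : ∏ p ∈ Q, (1 + p5_H p) ≤ 4 * hh m ^ 2 := by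
    have hQ2 : ∀ p ∈ Q, 2 ≤ p := fun p hp =>
      (Nat.prime_of_mem_primeFactors (Finset.mem_filter.1 hp).1).two_le
    have ha : ∏ p ∈ Q, (1 + p5_H p) = (∏ p ∈ Q, (1 + 1 / (p : ℝ))) ^ 2 /
        (∏ p ∈ Q, (1 - 1 / (p : ℝ) ^ 2)) ^ 2 := by
      rw [Finset.prod_congr rfl fun p hp => p5_one_add (hQ2 p hp), Finset.prod_div_distrib,
        Finset.prod_pow, Finset.prod_pow]
    have hb := p5_prod Q hQ2
    have hd : ∏ p ∈ Q, (1 + 1 / (p : ℝ)) ≤ hh m := by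
      unfold hh
      rw [← Finset.prod_sdiff (Finset.filter_subset (fun p => p % 4 = 1) m.primeFactors)]
      have hs : (1 : ℝ) ≤ ∏ p ∈ m.primeFactors \ m.primeFactors.filter (fun p => p % 4 = 1),
          (1 + 1 / (p : ℝ)) := by
        have hs2 := Finset.prod_le_prod (s := m.primeFactors \
          m.primeFactors.filter (fun p => p % 4 = 1)) (f := fun _ => (1 : ℝ))
          (g := fun p : ℕ => 1 + 1 / (p : ℝ)) (fun _ _ => zero_le_one) (fun p _ => by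
            have : (0 : ℝ) ≤ 1 / (p : ℝ) := by positivity
            linarith)
        rwa [Finset.prod_const_one] at hs2
      exact le_mul_of_one_le_left (Finset.prod_nonneg fun p _ => by positivity) hs
    have he : (0 : ℝ) ≤ ∏ p ∈ Q, (1 + 1 / (p : ℝ)) := Finset.prod_nonneg fun p _ => by positivity
    rw [ha, div_le_iff₀ (by positivity)]
    have hf : (∏ p ∈ Q, (1 + 1 / (p : ℝ))) ^ 2 ≤ hh m ^ 2 := by gcongr
    have hg : (1 : ℝ) / 4 ≤ (∏ p ∈ Q, (1 - 1 / (p : ℝ) ^ 2)) ^ 2 := by nlinarith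
    nlinarith [sq_nonneg (hh m)]
  have h4 : ∑ d ∈ E, ∏ p ∈ d.primeFactors, p5_H p ≤ ∑ d ∈ E, ∏ p ∈ d.primeFactors,
      (2 / (p : ℝ)) / (1 - 2 / (p : ℝ)) := by
    refine Finset.sum_le_sum fun d hd => Finset.prod_le_prod (fun p hp => ?_) (fun p hp => ?_)
    · exact p5_H_nonneg (hEp d hd p hp).1.two_le
    · obtain ⟨h5, h6⟩ := hEp d hd p hp
      have h7 := h5.two_le
      exact p5_H_le_G (by omega)
  have h5 : 0 ≤ ∑ d ∈ E, ∏ p ∈ d.primeFactors, p5_H p :=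
    Finset.sum_nonneg fun d hd => Finset.prod_nonneg fun p hp =>
      p5_H_nonneg (hEp d hd p hp).1.two_le
  have hh1 := hh_one_le m
  rw [div_le_iff₀ (by positivity)]
  have h6 : c * Real.log R ≤ 4 * hh m ^ 2 * ∑ d ∈ E, ∏ p ∈ d.primeFactors, p5_H p := by
    calc c * Real.log R ≤ _ := h0
      _ ≤ _ := h1
      _ = _ := h2
      _ ≤ _ := mul_le_mul_of_nonneg_right h3 h5
  have h7 : 4 * hh m ^ 2 * ∑ d ∈ E, ∏ p ∈ d.primeFactors, p5_H p ≤
      4 * hh m ^ 2 * ∑ d ∈ E, ∏ p ∈ d.primeFactors, (2 / (p : ℝ)) / (1 - 2 / (p : ℝ)) :=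
    mul_le_mul_of_nonneg_left h4 (by positivity)
  linarith

end Pool.Agent.TF

namespace Pool.Agent.TF

theorem mass_excl : type_of% @mass_excl_pr := @mass_excl_pr

end Pool.Agent.TF
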