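import Mathlib
import Pool.Agent.Lib_helper18.TF.Defs
import Pool.Agent.Lib_helper10.T2F.BAS
import Pool.Agent.Lib_helper10.T2F.PEL
import Pool.Agent.Lib_helper10.T2F.CNT
import Pool.Agent.Lib_helper10.T2F.SLW
import Pool.Agent.Lib_helper10.T2F.SLG
import Pool.Agent.Lib_helper10.T2F.MER
import Pool.Agent.Lib_helper10.T2F.DSR
import Pool.Agent.Lib_helper18.TFF.P1
import Pool.Agent.Lib_helper18.TFF.P4b
import Pool.Agent.Lib_helper18.TFF.P5

namespace Pool.Agent.TF

open Pool.Agent.T2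

theorem p6_det (u e : G) (s : ℤ) : det (u + (s : G) * e) e = det u e := by
  unfold det
  simp only [Zsqrtd.re_add, Zsqrtd.im_add, Zsqrtd.re_mul, Zsqrtd.im_mul, Zsqrtd.re_intCast,
    Zsqrtd.im_intCast]
  ring

theorem p6_nn_pos {u e : G} (h : det u e ≠ 0) (s : ℤ) : 1 ≤ nn (u + (s : G) * e) := by
  apply nn_pos.2
  intro h0
  have := p6_det u e s
  rw [h0] at this
  apply h
  rw [← this]
  simp [det]

theorem p6_six {d : ℕ} (hd : Squarefree d) (h : ∀ p ∈ d.primeFactors, p % 4 = 1) :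
    (6 : ℝ) ^ d.primeFactors.card ≤ (d : ℝ) ^ 2 := by
  have h1 : ∏ p ∈ d.primeFactors, (6 : ℝ) ≤ ∏ p ∈ d.primeFactors, ((p : ℝ) ^ 2) := by
    apply Finset.prod_le_prod
    · intro p _
      norm_num
    · intro p hp
      have h2 : p.Prime := Nat.prime_of_mem_primeFactors hp
      have h3 := h p hp
      have h4 : 5 ≤ p := by
        have := h2.two_le
        by_contra hcon
        interval_cases p <;> omega
      have h5 : (5 : ℝ) ≤ p := by exact_mod_cast h4
      nlinarith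
  rw [Finset.prod_const] at h1
  rw [Finset.prod_pow, ← Nat.cast_prod, Nat.prod_primeFactors_of_squarefree hd] at h1
  exact h1

open Classical in
theorem p6_swap (θ : ℕ → ℝ) (N : ℕ) (hθ : ∀ d, θ d ≠ 0 → d ≤ N) (I : Finset ℤ) (f : ℤ → ℕ)
    (hf : ∀ s ∈ I, 1 ≤ f s) :
    ∑ s ∈ I, ∑ d ∈ (f s).divisors, θ d =
      ∑ d ∈ Finset.Icc 1 N, θ d * ((I.filter (fun s => d ∣ f s)).card : ℝ) := by
  have h1 : ∀ s ∈ I, ∑ d ∈ (f s).divisors, θ d =
      ∑ d ∈ Finset.Icc 1 N, if d ∣ f s then θ d else 0 := by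
    intro s hs
    have hs1 := hf s hs
    rw [← Finset.sum_filter]
    symm
    apply Finset.sum_subset_zero_on_sdiff
    · intro d hd
      rw [Finset.mem_filter, Finset.mem_Icc] at hd
      rw [Nat.mem_divisors]
      exact ⟨hd.2, by omega⟩
    · intro d hd
      rw [Finset.mem_sdiff, Finset.mem_filter, Finset.mem_Icc, Nat.mem_divisors] at hd
      by_contra hcon
      have h2 := hθ d hcon
      have h3 : 1 ≤ d := Nat.pos_of_dvd_of_pos hd.1.1 hs1
      exact hd.2 ⟨⟨h3, h2⟩, hd.1.1⟩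
    · intro d _
      rfl
  rw [Finset.sum_congr rfl h1, Finset.sum_comm]
  apply Finset.sum_congr rfl
  intro d _
  rw [← Finset.sum_filter, Finset.sum_const, nsmul_eq_mul, mul_comm]

open Classical in
/-- the number of prime values, by the weights -/
theorem p6_ge (θ : ℕ → ℝ) (h1 : θ 1 = 1) (hpos : ∀ n : ℕ, 1 ≤ n → 0 ≤ ∑ d ∈ n.divisors, θ d)
    (T : ℝ) (hT : ∀ n : ℕ, n.Prime → T < (n : ℝ) → θ n = 0) (I : Finset ℤ) (f : ℤ → ℕ)
    (hf : ∀ s ∈ I, 1 ≤ f s) :
    ((I.filter (fun s => (f s).Prime ∧ T < (f s : ℝ))).card : ℝ) ≤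
      ∑ s ∈ I, ∑ d ∈ (f s).divisors, θ d := by
  calc ((I.filter (fun s => (f s).Prime ∧ T < (f s : ℝ))).card : ℝ)
      = ∑ s ∈ I.filter (fun s => (f s).Prime ∧ T < (f s : ℝ)), ∑ d ∈ (f s).divisors, θ d := by
        rw [Finset.card_eq_sum_ones, Nat.cast_sum]
        apply Finset.sum_congr rfl
        intro s hs
        rw [Finset.mem_filter] at hs
        rw [Nat.Prime.sum_divisors hs.2.1, h1, hT _ hs.2.1 hs.2.2]
        simp
    _ ≤ ∑ s ∈ I, ∑ d ∈ (f s).divisors, θ d := by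
        apply Finset.sum_le_sum_of_subset_of_nonneg (Finset.filter_subset _ _)
        intro s hs _
        exact hpos _ (hf s hs)

theorem p6_error (N : ℕ) : ∑ d ∈ Finset.Icc 1 N, (d : ℝ) ^ 2 ≤ (N : ℝ) ^ 3 := by
  calc ∑ d ∈ Finset.Icc 1 N, (d : ℝ) ^ 2 ≤ ∑ d ∈ Finset.Icc 1 N, (N : ℝ) ^ 2 := by
        apply Finset.sum_le_sum
        intro d hd
        rw [Finset.mem_Icc] at hd
        have : (d : ℝ) ≤ N := by exact_mod_cast hd.2
        gcongr
    _ = (N : ℝ) ^ 3 := by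
        rw [Finset.sum_const, Nat.card_Icc, nsmul_eq_mul, Nat.add_sub_cancel]
        ring

open Classical in
theorem line_sieve_pr : ∃ C : ℝ, 1 ≤ C ∧ ∀ (u e : G) (a b : ℤ) (T : ℝ), nn e ≠ 0 → det u e ≠ 0 →
    2 ≤ T → (b : ℝ) - a ≤ T →
    (((Finset.Ioc a b).filter (fun s : ℤ => (nn (u + (s : G) * e)).Prime ∧
      T < (nn (u + (s : G) * e) : ℝ))).card : ℝ) ≤
      C * T / Real.log T * hh (nn e * (det u e).natAbs) ^ 2 := by
  obtain ⟨c, hc, hmass⟩ := mass_excl
  have hl256 : (0 : ℝ) < Real.log 256 := Real.log_pos (by norm_num)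
  refine ⟨8 / c + 4 + Real.log 256, ?_, ?_⟩
  · have : 0 < 8 / c := by positivity
    linarith
  intro u e a b T hne hdet hT hab
  set m := nn e * (det u e).natAbs with hm
  have hm0 : m ≠ 0 := mul_ne_zero hne (Int.natAbs_ne_zero.2 hdet)
  have hh1 : 1 ≤ hh m := hh_one_le m
  have hh2 : 1 ≤ hh m ^ 2 := by nlinarith
  have hlog : 0 < Real.log T := Real.log_pos (by linarith)
  have hT0 : 0 < T := by linarith
  have hX : 0 ≤ T / Real.log T := by positivity
  have h8c : 0 < 8 / c := by positivity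
  have key : (8 / c + 4 + Real.log 256) * T / Real.log T * hh m ^ 2 =
      8 / c * (T / Real.log T) * hh m ^ 2 + 4 * (T / Real.log T) * hh m ^ 2 +
        Real.log 256 * (T / Real.log T) * hh m ^ 2 := by ring
  rw [key]
  have p1 : 0 ≤ 8 / c * (T / Real.log T) * hh m ^ 2 := by positivity
  have p2 : 0 ≤ 4 * (T / Real.log T) * hh m ^ 2 := by positivity
  have p3 : 0 ≤ Real.log 256 * (T / Real.log T) * hh m ^ 2 := by positivity
  by_cases hab' : b < a
  · rw [Finset.Ioc_eq_empty (by omega)]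
    simp only [Finset.filter_empty, Finset.card_empty, Nat.cast_zero]
    linarith
  push Not at hab'
  by_cases hT' : T < 256
  · have h1 : (((Finset.Ioc a b).filter (fun s : ℤ => (nn (u + (s : G) * e)).Prime ∧
      T < (nn (u + (s : G) * e) : ℝ))).card : ℝ) ≤ T := by
      have h2 : ((Finset.Ioc a b).card : ℝ) = (b : ℝ) - a := by
        rw [Int.card_Ioc]
        have : (((b - a).toNat : ℤ) : ℝ) = ((b - a : ℤ) : ℝ) := by
          rw [Int.toNat_of_nonneg (by omega)]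
        push_cast at this
        exact_mod_cast this
      have h3 : (((Finset.Ioc a b).filter (fun s : ℤ => (nn (u + (s : G) * e)).Prime ∧
        T < (nn (u + (s : G) * e) : ℝ))).card : ℝ) ≤ ((Finset.Ioc a b).card : ℝ) := by
        exact_mod_cast Finset.card_filter_le _ _
      linarith
    have h4 : T ≤ Real.log 256 * (T / Real.log T) := by
      have h5 : Real.log T ≤ Real.log 256 := Real.log_le_log hT0 hT'.le
      rw [mul_div_assoc', le_div_iff₀ hlog]
      nlinarith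
    have h6 : Real.log 256 * (T / Real.log T) ≤ Real.log 256 * (T / Real.log T) * hh m ^ 2 := by
      have : 0 ≤ Real.log 256 * (T / Real.log T) := by positivity
      nlinarith
    linarith
  push Not at hT'
  set R := T ^ (1 / 8 : ℝ) with hR
  have hR8 : R ^ 8 = T := by
    rw [hR, ← Real.rpow_natCast, ← Real.rpow_mul hT0.le]
    norm_num
  have hR0 : 0 < R := Real.rpow_pos_of_pos hT0 _
  have hR2 : 2 ≤ R := by
    by_contra hcon
    push Not at hcon
    have : R ^ 8 < 2 ^ 8 := by gcongr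
    rw [hR8] at this
    norm_num at this
    linarith
  have hRT : R ≤ T := by
    rw [← hR8]
    exact le_self_pow₀ (by linarith) (by norm_num)
  have hlogR : Real.log R = Real.log T / 8 := by
    rw [hR, Real.log_rpow hT0]
    ring
  set S : Finset ℕ := (Finset.Icc 1 ⌊R⌋₊).filter (fun p => p.Prime ∧ p % 4 = 1 ∧ ¬ p ∣ m) with hS
  have hSp : ∀ p ∈ S, p.Prime := by
    intro p hp
    rw [hS, Finset.mem_filter] at hp
    exact hp.2.1
  have hS5 : ∀ p ∈ S, 5 ≤ p := by
    intro p hp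
    rw [hS, Finset.mem_filter] at hp
    have := hp.2.1.two_le
    have h3 := hp.2.2.1
    by_contra hcon
    interval_cases p <;> omega
  obtain ⟨θ, t1, t2, t3, t4, t5⟩ := selberg_weights S hSp (fun p => 2 / (p : ℝ)) (by
    intro p hp
    have h5 : (5 : ℝ) ≤ p := by exact_mod_cast hS5 p hp
    refine ⟨by positivity, ?_⟩
    rw [div_lt_one (by linarith)]
    linarith) R (by linarith)
  set N := ⌊R ^ 2⌋₊ with hN
  have hNle : (N : ℝ) ≤ R ^ 2 := Nat.floor_le (by positivity)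
  have hθN : ∀ d, θ d ≠ 0 → d ≤ N := fun d hd => Nat.le_floor (t1 d hd).2.2
  have hf : ∀ s ∈ Finset.Ioc a b, 1 ≤ nn (u + (s : G) * e) := fun s _ => p6_nn_pos hdet s
  have hprime0 : ∀ n : ℕ, n.Prime → T < (n : ℝ) → θ n = 0 := by
    intro n hn hTn
    by_contra hcon
    have h1 := (t1 n hcon).2.1 n hn dvd_rfl
    rw [hS, Finset.mem_filter, Finset.mem_Icc] at h1
    have h2 : (n : ℝ) ≤ R := le_trans (by exact_mod_cast h1.1.2) (Nat.floor_le hR0.le)
    linarith
  have hmain := p6_ge θ t3 t4 T hprime0 (Finset.Ioc a b) (fun s => nn (u + (s : G) * e)) hf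
  rw [p6_swap θ N hθN (Finset.Ioc a b) (fun s => nn (u + (s : G) * e)) hf] at hmain
  -- each count
  have hcount : ∀ d ∈ Finset.Icc 1 N,
      θ d * (((Finset.Ioc a b).filter (fun s : ℤ => d ∣ nn (u + (s : G) * e))).card : ℝ) ≤
        ((b : ℝ) - a) * (θ d * ∏ p ∈ d.primeFactors, (2 / (p : ℝ))) + (d : ℝ) ^ 2 := by
    intro d hd
    by_cases h0 : θ d = 0
    · rw [h0]
      simp only [zero_mul, mul_zero, zero_add]
      positivity
    obtain ⟨q1, q2, q3⟩ := t1 d h0
    have hd1 : d ≠ 0 := q1.ne_zero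
    have hpf : ∀ p ∈ d.primeFactors, p % 4 = 1 ∧ ¬ p ∣ nn e ∧ ¬ (p : ℤ) ∣ det u e := by
      intro p hp
      have h1 := q2 p (Nat.prime_of_mem_primeFactors hp) (Nat.dvd_of_mem_primeFactors hp)
      rw [hS, Finset.mem_filter] at h1
      refine ⟨h1.2.2.1, ?_, ?_⟩
      · intro h2
        exact h1.2.2.2 (h2.mul_right _)
      · intro h2
        apply h1.2.2.2
        rw [hm]
        apply Dvd.dvd.mul_left
        exact Int.natCast_dvd.1 h2
    have h2 := line_count d q1 u e hpf a b hab'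
    have h3 : ∏ p ∈ d.primeFactors, (2 / (p : ℝ)) = 2 ^ d.primeFactors.card / d := by
      rw [Finset.prod_div_distrib, Finset.prod_const, ← Nat.cast_prod,
        Nat.prod_primeFactors_of_squarefree q1]
    rw [h3]
    set n : ℝ := (((Finset.Ioc a b).filter (fun s : ℤ => d ∣ nn (u + (s : G) * e))).card : ℝ)
    have h4 : θ d * n = ((b : ℝ) - a) * (θ d * (2 ^ d.primeFactors.card / d)) +
        θ d * (n - 2 ^ d.primeFactors.card * ((b : ℝ) - a) / d) := by ring
    rw [h4]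
    have h5 : θ d * (n - 2 ^ d.primeFactors.card * ((b : ℝ) - a) / d) ≤
        3 ^ d.primeFactors.card * 2 ^ d.primeFactors.card := by
      refine le_trans (le_abs_self _) ?_
      rw [abs_mul]
      exact mul_le_mul (t2 d) h2 (abs_nonneg _) (by positivity)
    have h6 : (3 : ℝ) ^ d.primeFactors.card * 2 ^ d.primeFactors.card ≤ (d : ℝ) ^ 2 := by
      rw [← mul_pow]
      norm_num
      exact p6_six q1 (fun p hp => (hpf p hp).1)
    linarith
  have hsum := Finset.sum_le_sum hcount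
  rw [Finset.sum_add_distrib, ← Finset.mul_sum] at hsum
  have herr := p6_error N
  have herr2 : (N : ℝ) ^ 3 ≤ R ^ 6 := by
    calc (N : ℝ) ^ 3 ≤ (R ^ 2) ^ 3 := by gcongr
      _ = R ^ 6 := by ring
  -- the mass
  have hMeq : (Finset.Icc 1 ⌊R⌋₊).filter (fun d : ℕ => Squarefree d ∧
        ∀ p : ℕ, p.Prime → p ∣ d → p ∈ S) =
      (Finset.Icc 1 ⌊R⌋₊).filter (fun d : ℕ => Squarefree d ∧
      ∀ p : ℕ, p.Prime → p ∣ d → p % 4 = 1 ∧ ¬ p ∣ m) := by
    apply Finset.filter_congr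
    intro d hd
    rw [Finset.mem_Icc] at hd
    constructor
    · rintro ⟨h1, h2⟩
      refine ⟨h1, fun p hp hpd => ?_⟩
      have h3 := h2 p hp hpd
      rw [hS, Finset.mem_filter] at h3
      exact h3.2.2
    · rintro ⟨h1, h2⟩
      refine ⟨h1, fun p hp hpd => ?_⟩
      rw [hS, Finset.mem_filter, Finset.mem_Icc]
      exact ⟨⟨hp.one_lt.le, (Nat.le_of_dvd (by omega) hpd).trans hd.2⟩, hp, h2 p hp hpd⟩
  rw [hMeq] at t5
  have hM := hmass R m hR2 hm0
  set M := ∑ d ∈ (Finset.Icc 1 ⌊R⌋₊).filter (fun d : ℕ => Squarefree d ∧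
      ∀ p : ℕ, p.Prime → p ∣ d → p % 4 = 1 ∧ ¬ p ∣ m), ∏ p ∈ d.primeFactors,
        (2 / (p : ℝ)) / (1 - 2 / (p : ℝ)) with hMdef
  have hhpos : 0 < hh m ^ 2 := by linarith
  have hM0 : 0 < c * Real.log R / hh m ^ 2 := by
    rw [hlogR]
    positivity
  have hinv : 1 / M ≤ 8 / c * (1 / Real.log T) * hh m ^ 2 := by
    calc 1 / M ≤ 1 / (c * Real.log R / hh m ^ 2) := one_div_le_one_div_of_le hM0 hM
      _ = 8 / c * (1 / Real.log T) * hh m ^ 2 := by
        rw [hlogR]
        field_simp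
  have hfirst : ((b : ℝ) - a) * ∑ d ∈ Finset.Icc 1 N, θ d * ∏ p ∈ d.primeFactors, (2 / (p : ℝ)) ≤
      8 / c * (T / Real.log T) * hh m ^ 2 := by
    have hba : 0 ≤ (b : ℝ) - a := by
      have : (a : ℝ) ≤ b := by exact_mod_cast hab'
      linarith
    have hM1 : 0 ≤ 1 / M := by
      have : 0 < M := lt_of_lt_of_le hM0 hM
      positivity
    calc ((b : ℝ) - a) * ∑ d ∈ Finset.Icc 1 N, θ d * ∏ p ∈ d.primeFactors, (2 / (p : ℝ))
        ≤ ((b : ℝ) - a) * (1 / M) := mul_le_mul_of_nonneg_left t5 hba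
      _ ≤ T * (1 / M) := mul_le_mul_of_nonneg_right hab hM1
      _ ≤ T * (8 / c * (1 / Real.log T) * hh m ^ 2) := mul_le_mul_of_nonneg_left hinv hT0.le
      _ = 8 / c * (T / Real.log T) * hh m ^ 2 := by ring
  have hsecond : R ^ 6 ≤ 4 * (T / Real.log T) * hh m ^ 2 := by
    have h1 : Real.log T ≤ 4 * R ^ 2 := by
      have h2 := Real.log_le_rpow_div hT0.le (ε := 1 / 4) (by norm_num)
      have h3 : T ^ (1 / 4 : ℝ) = R ^ 2 := by
        rw [hR, ← Real.rpow_natCast, ← Real.rpow_mul hT0.le]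
        norm_num
      rw [h3] at h2
      linarith
    have h4 : R ^ 6 ≤ 4 * (T / Real.log T) := by
      rw [mul_div_assoc', le_div_iff₀ hlog]
      calc R ^ 6 * Real.log T ≤ R ^ 6 * (4 * R ^ 2) := by gcongr
        _ = 4 * R ^ 8 := by ring
        _ = 4 * T := by rw [hR8]
    have h5 : 0 ≤ 4 * (T / Real.log T) := by positivity
    nlinarith
  linarith



end Pool.Agent.TF

namespace Pool.Agent.TF

theorem line_sieve : type_of% @line_sieve_pr := @line_sieve_pr

end Pool.Agent.TF
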