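import Mathlib
import Pool.Agent.Lib_helper18.TF.Defs
import Pool.Agent.Lib_helper10.T2F.BAS
import Pool.Agent.Lib_helper10.T2F.PEL
import Pool.Agent.Lib_helper10.T2F.CNT
import Pool.Agent.Lib_helper10.T2F.SLW
import Pool.Agent.Lib_helper10.T2F.SLG
import Pool.Agent.Lib_helper10.T2F.MER
import Pool.Agent.Lib_helper10.T2F.DSR
import Pool.Agent.Lib_helper18.TFF.P6

namespace Pool.Agent.TF

open Pool.Agent.T2

/-- elements with the same determinant differ by a multiple of the primitive element `e` -/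
theorem p7_mult {w w₁ e : G} (he : Prm e) (h : det w e = det w₁ e) : ∃ t : ℤ, w = w₁ + (t : G) * e := by
  have h1 : (w.re - w₁.re) * e.im = (w.im - w₁.im) * e.re := by
    unfold det at h
    linarith
  unfold Prm at he
  have hb := Int.gcd_eq_gcd_ab e.re e.im
  rw [he] at hb
  push_cast at hb
  set x := Int.gcdA e.re e.im
  set y := Int.gcdB e.re e.im
  refine ⟨(w.re - w₁.re) * x + (w.im - w₁.im) * y, ?_⟩
  apply Zsqrtd.ext
  · simp only [Zsqrtd.re_add, Zsqrtd.re_mul, Zsqrtd.re_intCast, Zsqrtd.im_intCast]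
    linear_combination (w.re - w₁.re) * hb + y * h1
  · simp only [Zsqrtd.im_add, Zsqrtd.im_mul, Zsqrtd.re_intCast, Zsqrtd.im_intCast]
    linear_combination (w.im - w₁.im) * hb - x * h1

theorem p7_dvd {e : G} (he : Prm e) {q : ℕ} {t : ℤ} (h : (q : G) ∣ (t : G) * e) : (q : ℤ) ∣ t := by
  rw [bas_dvd] at h
  simp only [Zsqrtd.re_mul, Zsqrtd.im_mul, Zsqrtd.re_intCast, Zsqrtd.im_intCast] at h
  unfold Prm at he
  have hb := Int.gcd_eq_gcd_ab e.re e.im
  rw [he] at hb
  push_cast at hb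
  obtain ⟨h1, h2⟩ := h
  have h3 : t = (t * e.re + -1 * 0 * e.im) * Int.gcdA e.re e.im +
      (t * e.im + 0 * e.re) * Int.gcdB e.re e.im := by
    linear_combination t * hb
  rw [h3]
  exact dvd_add (h1.mul_right _) (h2.mul_right _)

theorem p7_hh (q n d : ℕ) (hq : q ≠ 0) (hn : n ≠ 0) (hd : d ≠ 0) :
    hh (q ^ 2 * n * (q * d)) = hh (q * n * d) := by
  have : (q ^ 2 * n * (q * d)).primeFactors = (q * n * d).primeFactors := by
    have h1 : q ^ 2 * n * (q * d) = q ^ 3 * (n * d) := by ring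
    have h2 : q * n * d = q * (n * d) := by ring
    rw [h1, h2, Nat.primeFactors_mul (pow_ne_zero _ hq) (mul_ne_zero hn hd),
      Nat.primeFactors_mul hq (mul_ne_zero hn hd), Nat.primeFactors_pow _ (by norm_num)]
  unfold hh
  rw [this]

theorem line_points_pr : ∃ C : ℝ, 1 ≤ C ∧ ∀ (e w₁ : G) (q : ℕ) (α β T : ℝ) (S : Finset G),
    Prm e → det w₁ e ≠ 0 → 1 ≤ q → 2 ≤ T → (β - α) / (q * nn e) + 1 ≤ T →
    (∀ w ∈ S, det w e = det w₁ e ∧ (q : G) ∣ w - w₁ ∧ α ≤ (ip w e : ℝ) ∧ (ip w e : ℝ) ≤ β ∧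
      (nn w).Prime ∧ T < (nn w : ℝ)) →
    (S.card : ℝ) ≤ C * T / Real.log T * hh (q * nn e * (det w₁ e).natAbs) ^ 2 := by
  classical
  obtain ⟨C, hC, hL⟩ := line_sieve
  refine ⟨C, hC, ?_⟩
  intro e w₁ q α β T S he hdet hq hT hab hS
  have he0 : nn e ≠ 0 := (nn_pos.2 (prm_ne he)).ne'
  have hne : (0 : ℝ) < nn e := by exact_mod_cast Nat.pos_of_ne_zero he0
  have hq0 : (0 : ℝ) < q := by exact_mod_cast hq
  have hqe : 0 < (q : ℝ) * nn e := mul_pos hq0 hne
  set A := (α - ip w₁ e) / (q * nn e) with hA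
  set B := (β - ip w₁ e) / (q * nn e) with hB
  set a : ℤ := ⌈A⌉ - 1 with ha
  set b : ℤ := ⌊B⌋ with hb
  have hab2 : (b : ℝ) - a ≤ T := by
    have h1 : (b : ℝ) ≤ B := Int.floor_le B
    have h2 : A ≤ (⌈A⌉ : ℝ) := Int.le_ceil A
    have h3 : (a : ℝ) = (⌈A⌉ : ℝ) - 1 := by rw [ha]; push_cast; ring
    have h4 : B - A = (β - α) / (q * nn e) := by rw [hA, hB]; ring
    linarith
  have hnq : nn ((q : G) * e) = q ^ 2 * nn e := by rw [nn_mul, nn_nat]
  have hdq : det w₁ ((q : G) * e) = q * det w₁ e := by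
    unfold det
    simp only [Zsqrtd.re_mul, Zsqrtd.im_mul, Zsqrtd.re_natCast, Zsqrtd.im_natCast]
    ring
  have hdq2 : det w₁ ((q : G) * e) ≠ 0 := by
    rw [hdq]
    exact mul_ne_zero (by exact_mod_cast (by omega : q ≠ 0)) hdet
  have hnq2 : nn ((q : G) * e) ≠ 0 := by
    rw [hnq]
    exact mul_ne_zero (pow_ne_zero _ (by omega)) he0
  have h := hL w₁ ((q : G) * e) a b T hnq2 hdq2 hT hab2
  rw [hnq, hdq, Int.natAbs_mul, Int.natAbs_natCast,
    p7_hh q (nn e) (det w₁ e).natAbs (by omega) he0 (Int.natAbs_ne_zero.2 hdet)] at h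
  refine le_trans ?_ h
  have hsub : S ⊆ ((Finset.Ioc a b).filter (fun s : ℤ => (nn (w₁ + (s : G) * ((q : G) * e))).Prime ∧
      T < (nn (w₁ + (s : G) * ((q : G) * e)) : ℝ))).image
        (fun s : ℤ => w₁ + (s : G) * ((q : G) * e)) := by
    intro w hw
    obtain ⟨g1, g2, g3, g4, g5, g6⟩ := hS w hw
    obtain ⟨t, ht⟩ := p7_mult he g1
    have h2 : (q : G) ∣ (t : G) * e := by
      have : w - w₁ = (t : G) * e := by rw [ht]; ring
      rwa [this] at g2
    obtain ⟨s, hs⟩ := p7_dvd he h2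
    have hws : w = w₁ + (s : G) * ((q : G) * e) := by
      rw [ht, hs]
      push_cast
      ring
    rw [Finset.mem_image]
    refine ⟨s, ?_, hws.symm⟩
    have hip : (ip w e : ℝ) = ip w₁ e + s * (q * nn e) := by
      have h3 : ip w e = ip w₁ e + s * (q * (nn e : ℤ)) := by
        rw [nn_cast, hws]
        unfold ip
        simp only [Zsqrtd.re_add, Zsqrtd.im_add, Zsqrtd.re_mul, Zsqrtd.im_mul, Zsqrtd.re_intCast,
          Zsqrtd.im_intCast, Zsqrtd.re_natCast, Zsqrtd.im_natCast]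
        ring
      rw [h3]
      push_cast
      ring
    rw [hip] at g3 g4
    rw [Finset.mem_filter, Finset.mem_Ioc]
    refine ⟨⟨?_, ?_⟩, ?_, ?_⟩
    · have h5 : A ≤ s := by
        rw [hA, div_le_iff₀ hqe]
        linarith
      have h6 : ⌈A⌉ ≤ s := Int.ceil_le.2 h5
      omega
    · have h5 : (s : ℝ) ≤ B := by
        rw [hB, le_div_iff₀ hqe]
        linarith
      exact Int.le_floor.2 h5
    · rw [← hws]
      exact g5
    · rw [← hws]
      exact g6
  have hcard := (Finset.card_le_card hsub).trans Finset.card_image_le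
  exact_mod_cast hcard



end Pool.Agent.TF

namespace Pool.Agent.TF

theorem line_points : type_of% @line_points_pr := @line_points_pr

end Pool.Agent.TF
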