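import Mathlib
import Pool.Agent.Lib_helper18.TF.Defs
import Pool.Agent.Lib_helper10.T2F.BAS
import Pool.Agent.Lib_helper10.T2F.PEL
import Pool.Agent.Lib_helper10.T2F.CNT
import Pool.Agent.Lib_helper10.T2F.SLW
import Pool.Agent.Lib_helper10.T2F.SLG
import Pool.Agent.Lib_helper10.T2F.MER
import Pool.Agent.Lib_helper10.T2F.DSR

/-! TF, block P3: the mean value of `hh` over the norms in a disc. -/

namespace Pool.Agent.TF

open Pool.Agent.T2

/-- the factor of one prime -/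
theorem p3_factor {p : ℕ} (hp : p.Prime) :
    (1 + 1 / (p : ℝ)) ^ 4 ≤ (if p < 225 then (16 : ℝ) else 1) * (1 + (p : ℝ) ^ (-(1 / 2) : ℝ)) := by
  have hp2 : (2 : ℝ) ≤ p := by exact_mod_cast hp.two_le
  have hp0 : (0 : ℝ) < p := by linarith
  have hr : 0 ≤ (p : ℝ) ^ (-(1 / 2) : ℝ) := by positivity
  set x : ℝ := 1 / (p : ℝ) with hx
  have hx0 : 0 < x := by positivity
  have hx1 : x ≤ 1 := by rw [hx, div_le_one hp0]; linarith
  split_ifs with h
  · have h1 : (1 + x) ^ 4 ≤ 2 ^ 4 := pow_le_pow_left₀ (by linarith) (by linarith) 4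
    nlinarith
  · have h2 : (225 : ℝ) ≤ p := by exact_mod_cast (not_lt.mp h)
    have h3 : (1 + x) ^ 4 ≤ 1 + 15 * x := by
      have a2 : x ^ 2 ≤ x := by nlinarith
      have a3 : x ^ 3 ≤ x := by nlinarith
      have a4 : x ^ 4 ≤ x := by nlinarith
      nlinarith
    have h4 : 15 * x ≤ (p : ℝ) ^ (-(1 / 2) : ℝ) := by
      rw [Real.rpow_neg hp0.le, ← Real.sqrt_eq_rpow, hx]
      have hs : 0 < Real.sqrt p := Real.sqrt_pos.mpr hp0
      have hs2 : Real.sqrt p * Real.sqrt p = p := Real.mul_self_sqrt hp0.le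
      have h15 : 15 ≤ Real.sqrt p := by
        rw [show (15 : ℝ) = Real.sqrt (15 ^ 2) from by rw [Real.sqrt_sq (by norm_num)]]
        exact Real.sqrt_le_sqrt (by norm_num; linarith)
      rw [mul_one_div, ← one_div, div_le_div_iff₀ hp0 hs]
      nlinarith
    rw [one_mul]
    linarith

theorem p3_hh (n : ℕ) :
    hh n ^ 4 ≤ 16 ^ 225 * ∏ p ∈ n.primeFactors, (1 + (p : ℝ) ^ (-(1 / 2) : ℝ)) := by
  classical
  unfold hh
  rw [← Finset.prod_pow]
  have h1 : ∏ p ∈ n.primeFactors, (1 + 1 / (p : ℝ)) ^ 4 ≤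
      ∏ p ∈ n.primeFactors, ((if p < 225 then (16 : ℝ) else 1) *
        (1 + (p : ℝ) ^ (-(1 / 2) : ℝ))) := by
    refine Finset.prod_le_prod (fun p _ => by positivity) fun p hp => ?_
    exact p3_factor (Nat.prime_of_mem_primeFactors hp)
  refine h1.trans ?_
  rw [Finset.prod_mul_distrib]
  refine mul_le_mul_of_nonneg_right ?_ (Finset.prod_nonneg fun p _ => by positivity)
  rw [Finset.prod_ite, Finset.prod_const, Finset.prod_const_one, mul_one]
  refine pow_le_pow_right₀ (by norm_num) ?_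
  calc (n.primeFactors.filter (fun p => p < 225)).card ≤ (Finset.range 225).card := by
        refine Finset.card_le_card fun p hp => ?_
        rw [Finset.mem_filter] at hp
        exact Finset.mem_range.mpr hp.2
    _ = 225 := Finset.card_range _

theorem p3_nn_dvd {z w : G} (h : z ∣ w) : nn z ∣ nn w := by
  obtain ⟨v, rfl⟩ := h
  rw [nn_mul]
  exact dvd_mul_right _ _

theorem p3_star_mul (z : G) : z * star z = (nn z : G) := by
  rw [← Zsqrtd.norm_eq_mul_conj]
  have h : ((nn z : ℕ) : ℤ) = z.norm := GaussianInt.abs_natCast_norm z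
  rw [← h]
  simp

/-- the common divisor of `z` and `p` -/
theorem p3_gcd {z : G} {p : ℕ} (hp : p.Prime) (h : p ∣ nn z) :
    ∃ g : G, g ∣ z ∧ g ∣ (p : G) ∧ (nn g = p ∨ nn g = p ^ 2) := by
  refine ⟨EuclideanDomain.gcd z (p : G), EuclideanDomain.gcd_dvd_left _ _,
    EuclideanDomain.gcd_dvd_right _ _, ?_⟩
  set g := EuclideanDomain.gcd z (p : G) with hg
  have hnp : nn (p : G) = p ^ 2 := nn_nat p
  have h1 : nn g ∣ p ^ 2 := by
    rw [← hnp]
    exact p3_nn_dvd (EuclideanDomain.gcd_dvd_right _ _)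
  have hnu : ¬ IsUnit g := by
    intro hu
    have hc : IsCoprime z (p : G) := EuclideanDomain.gcd_isUnit_iff.mp hu
    have h2 : (p : G) ∣ z * star z := by
      rw [p3_star_mul]
      exact_mod_cast Nat.cast_dvd_cast h
    have h3 : (p : G) ∣ star z := hc.symm.dvd_of_dvd_mul_left h2
    obtain ⟨c, hc2⟩ := h3
    have h4 : (p : G) ∣ z := by
      refine ⟨star c, ?_⟩
      have h5 := congrArg star hc2
      rw [star_star, star_mul', star_natCast] at h5
      exact h5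
    have h6 : IsUnit (p : G) := hc.isUnit_of_dvd' h4 dvd_rfl
    have h7 : nn (p : G) = 1 := Zsqrtd.norm_eq_one_iff.2 h6
    rw [hnp] at h7
    have := hp.two_le
    nlinarith
  obtain ⟨k, hk, hk2⟩ := (Nat.dvd_prime_pow hp).mp h1
  interval_cases k
  · exfalso
    rw [pow_zero] at hk2
    exact hnu (Zsqrtd.norm_eq_one_iff.1 hk2)
  · left; rw [hk2, pow_one]
  · right; exact hk2

theorem p3_nn_prod (S : Finset ℕ) (π : ℕ → G) : nn (∏ p ∈ S, π p) = ∏ p ∈ S, nn (π p) := by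
  classical
  induction S using Finset.induction_on with
  | empty => simp [nn]
  | insert a S ha ih => rw [Finset.prod_insert ha, Finset.prod_insert ha, nn_mul, ih]

/-- the sum over the squarefree divisors is at most a sum over the Gaussian divisors -/
theorem p3_div {X : ℝ} {z : G} (hz : z ∈ Bl X) :
    ∏ p ∈ (nn z).primeFactors, (1 + (p : ℝ) ^ (-(1 / 2) : ℝ)) ≤
      open Classical in ∑ a ∈ (Bl X).filter (fun a => a ∣ z), (nn a : ℝ) ^ (-(1 / 4) : ℝ) := by
  classical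
  rw [mem_Bl] at hz
  obtain ⟨hz0, hzX⟩ := hz
  set P := (nn z).primeFactors with hP
  have hex : ∀ p : ℕ, ∃ g : G, p ∈ P → g ∣ z ∧ g ∣ (p : G) ∧ (nn g = p ∨ nn g = p ^ 2) := by
    intro p
    by_cases h : p ∈ P
    · obtain ⟨g, hg⟩ := p3_gcd (Nat.prime_of_mem_primeFactors h) (Nat.dvd_of_mem_primeFactors h)
      exact ⟨g, fun _ => hg⟩
    · exact ⟨0, fun h' => absurd h' h⟩
  choose π hπ using hex
  have hpp : ∀ p ∈ P, p.Prime := fun p hp => Nat.prime_of_mem_primeFactors hp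
  have hd : ∀ S ⊆ P, (∏ p ∈ S, π p) ∣ z := by
    intro S hS
    refine Finset.prod_dvd_of_coprime ?_ fun p hp => (hπ p (hS hp)).1
    intro p hp q hq hpq
    have hc : IsCoprime (p : G) (q : G) := by
      have h1 : IsCoprime (p : ℤ) (q : ℤ) :=
        Nat.isCoprime_iff_coprime.mpr ((Nat.coprime_primes (hpp p (hS hp)) (hpp q (hS hq))).mpr hpq)
      have h2 := h1.map (Int.castRingHom G)
      simpa using h2
    exact (hc.of_isCoprime_of_dvd_left (hπ p (hS hp)).2.1).of_isCoprime_of_dvd_right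
      (hπ q (hS hq)).2.1
  have hfac : ∀ p ∈ P, (p : ℝ) ^ (-(1 / 2) : ℝ) ≤ (nn (π p) : ℝ) ^ (-(1 / 4) : ℝ) := by
    intro p hp
    have hp1 : (1 : ℝ) ≤ p := by exact_mod_cast (hpp p hp).one_le
    rcases (hπ p hp).2.2 with h | h
    · rw [h]
      exact Real.rpow_le_rpow_of_exponent_le hp1 (by norm_num)
    · rw [h]
      push_cast
      rw [← Real.rpow_natCast, ← Real.rpow_mul (by linarith)]
      norm_num
  have hinj : Set.InjOn (fun S : Finset ℕ => ∏ p ∈ S, π p) (P.powerset : Set (Finset ℕ)) := by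
    have key : ∀ S ⊆ P, S = P.filter (fun p => p ∣ nn (∏ q ∈ S, π q)) := by
      intro S hS
      ext p
      rw [Finset.mem_filter, p3_nn_prod]
      constructor
      · intro hp
        refine ⟨hS hp, ?_⟩
        refine dvd_trans ?_ (Finset.dvd_prod_of_mem _ hp)
        rcases (hπ p (hS hp)).2.2 with h | h
        · rw [h]
        · rw [h]; exact dvd_pow_self p (by norm_num)
      · rintro ⟨hpP, hpd⟩
        obtain ⟨q, hq, hpq⟩ := (Prime.dvd_finsetProd_iff (hpp p hpP).prime _).mp hpd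
        have h1 : p ∣ q := by
          rcases (hπ q (hS hq)).2.2 with h | h
          · rw [h] at hpq; exact hpq
          · rw [h] at hpq; exact (hpp p hpP).dvd_of_dvd_pow hpq
        have h2 : p = q := (Nat.prime_dvd_prime_iff_eq (hpp p hpP) (hpp q (hS hq))).mp h1
        rw [h2]; exact hq
    intro S hS T hT hST
    have hS' := Finset.mem_powerset.mp (Finset.mem_coe.mp hS)
    have hT' := Finset.mem_powerset.mp (Finset.mem_coe.mp hT)
    rw [key S hS', key T hT']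
    simp only at hST
    rw [hST]
  rw [Finset.prod_one_add]
  calc ∑ S ∈ P.powerset, ∏ p ∈ S, (p : ℝ) ^ (-(1 / 2) : ℝ)
      ≤ ∑ S ∈ P.powerset, (nn (∏ p ∈ S, π p) : ℝ) ^ (-(1 / 4) : ℝ) := by
        refine Finset.sum_le_sum fun S hS => ?_
        rw [Finset.mem_powerset] at hS
        rw [p3_nn_prod]
        push_cast
        rw [← Real.finsetProd_rpow _ _ (fun p _ => by positivity)]
        exact Finset.prod_le_prod (fun p _ => by positivity) fun p hp => hfac p (hS hp)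
    _ = ∑ a ∈ P.powerset.image (fun S : Finset ℕ => ∏ p ∈ S, π p),
          (nn a : ℝ) ^ (-(1 / 4) : ℝ) := by
        rw [Finset.sum_image hinj]
    _ ≤ ∑ a ∈ (Bl X).filter (fun a => a ∣ z), (nn a : ℝ) ^ (-(1 / 4) : ℝ) := by
        refine Finset.sum_le_sum_of_subset_of_nonneg ?_ fun a _ _ => by positivity
        intro a ha
        rw [Finset.mem_image] at ha
        obtain ⟨S, hS, rfl⟩ := ha
        rw [Finset.mem_powerset] at hS
        have h1 := hd S hS
        rw [Finset.mem_filter, mem_Bl]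
        refine ⟨⟨?_, ?_⟩, h1⟩
        · rintro h0
          rw [h0] at h1
          exact hz0 (zero_dvd_iff.mp h1)
        · have h2 : nn (∏ p ∈ S, π p) ≤ nn z := Nat.le_of_dvd (nn_pos.2 hz0) (p3_nn_dvd h1)
          have h3 : (nn (∏ p ∈ S, π p) : ℝ) ≤ nn z := by exact_mod_cast h2
          linarith

/-- the multiples of one element -/
theorem p3_mult {C : ℝ} (hC : ∀ x : ℝ, 0 ≤ x → ((Bl x).card : ℝ) ≤ C * x) {X : ℝ} (hX : 0 ≤ X)
    {a : G} (ha : a ≠ 0) :
    open Classical in (((Bl X).filter (fun z => a ∣ z)).card : ℝ) ≤ C * (X / nn a) := by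
  classical
  have hn : (0 : ℝ) < nn a := by exact_mod_cast nn_pos.2 ha
  refine le_trans ?_ (hC (X / nn a) (by positivity))
  have h : ((Bl X).filter (fun z => a ∣ z)).card ≤ (Bl (X / nn a)).card := by
    refine Finset.card_le_card_of_surjOn (fun w => a * w) ?_
    intro z hz
    have hz' := Finset.mem_coe.mp hz
    rw [Finset.mem_filter, mem_Bl] at hz'
    obtain ⟨⟨h1, h2⟩, w, rfl⟩ := hz'
    refine ⟨w, ?_, rfl⟩
    refine Finset.mem_coe.mpr (mem_Bl.mpr ⟨right_ne_zero_of_mul h1, ?_⟩)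
    rw [nn_mul] at h2
    push_cast at h2
    rw [le_div_iff₀ hn]
    linarith
  exact_mod_cast h

theorem hh_ball_pr : ∃ C : ℝ, 1 ≤ C ∧ ∀ X : ℝ, 1 ≤ X → ∑ z ∈ Bl X, hh (nn z) ^ 4 ≤ C * X := by
  classical
  obtain ⟨C, hC1, hC⟩ := ball_le
  have hu : 0 < 1 - (2 : ℝ) ^ (-((5 / 4 : ℝ) - 1)) := by
    have h : (2 : ℝ) ^ (-((5 / 4 : ℝ) - 1)) < 1 :=
      Real.rpow_lt_one_of_one_lt_of_neg (by norm_num) (by norm_num)
    linarith
  set K : ℝ := C + 2 * C / (1 - (2 : ℝ) ^ (-((5 / 4 : ℝ) - 1))) with hK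
  have hK1 : 1 ≤ K := by
    have : 0 ≤ 2 * C / (1 - (2 : ℝ) ^ (-((5 / 4 : ℝ) - 1))) := by positivity
    linarith
  refine ⟨16 ^ 225 * (C * K), ?_, ?_⟩
  · have h1 : (1 : ℝ) ≤ 16 ^ 225 := one_le_pow₀ (by norm_num)
    have h2 : 1 ≤ C * K := one_le_mul_of_one_le_of_one_le hC1 hK1
    exact one_le_mul_of_one_le_of_one_le h1 h2
  intro X hX
  have hX0 : 0 ≤ X := by linarith
  have hsum : ∑ a ∈ Bl X, (1 : ℝ) * (nn a : ℝ) ^ (-(5 / 4) : ℝ) ≤ K := by
    have h := dsr_sum_le (fun _ => (1 : ℝ)) (fun _ => zero_le_one) (σ := 5 / 4) (by norm_num) C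
      (by linarith) (dsr_one_sum C hC) (Bl X)
    exact h
  calc ∑ z ∈ Bl X, hh (nn z) ^ 4
      ≤ ∑ z ∈ Bl X, 16 ^ 225 * ∑ a ∈ (Bl X).filter (fun a => a ∣ z),
          (nn a : ℝ) ^ (-(1 / 4) : ℝ) := by
        refine Finset.sum_le_sum fun z hz => ?_
        refine (p3_hh (nn z)).trans ?_
        exact mul_le_mul_of_nonneg_left (p3_div hz) (by positivity)
    _ = 16 ^ 225 * ∑ z ∈ Bl X, ∑ a ∈ Bl X,
          if a ∣ z then (nn a : ℝ) ^ (-(1 / 4) : ℝ) else 0 := by
        rw [← Finset.mul_sum]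
        congr 1
        exact Finset.sum_congr rfl fun z _ => Finset.sum_filter _ _
    _ = 16 ^ 225 * ∑ a ∈ Bl X, (nn a : ℝ) ^ (-(1 / 4) : ℝ) *
          (((Bl X).filter (fun z => a ∣ z)).card : ℝ) := by
        rw [Finset.sum_comm]
        congr 1
        refine Finset.sum_congr rfl fun a _ => ?_
        rw [← Finset.sum_filter, Finset.sum_const, nsmul_eq_mul, mul_comm]
    _ ≤ 16 ^ 225 * ∑ a ∈ Bl X, (C * X) * (1 * (nn a : ℝ) ^ (-(5 / 4) : ℝ)) := by
        refine mul_le_mul_of_nonneg_left (Finset.sum_le_sum fun a ha => ?_) (by positivity)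
        have ha0 := (mem_Bl.mp ha).1
        have hn : (0 : ℝ) < nn a := by exact_mod_cast nn_pos.2 ha0
        calc (nn a : ℝ) ^ (-(1 / 4) : ℝ) * (((Bl X).filter (fun z => a ∣ z)).card : ℝ)
            ≤ (nn a : ℝ) ^ (-(1 / 4) : ℝ) * (C * (X / nn a)) :=
              mul_le_mul_of_nonneg_left (p3_mult hC hX0 ha0) (by positivity)
          _ = (C * X) * ((nn a : ℝ) ^ (-(1 / 4) : ℝ) * (nn a : ℝ) ^ (-1 : ℝ)) := by
              rw [Real.rpow_neg_one]; ring
          _ = (C * X) * (1 * (nn a : ℝ) ^ (-(5 / 4) : ℝ)) := by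
              rw [← Real.rpow_add hn]; norm_num
    _ = 16 ^ 225 * (C * X) * ∑ a ∈ Bl X, (1 : ℝ) * (nn a : ℝ) ^ (-(5 / 4) : ℝ) := by
        rw [← Finset.mul_sum]; ring
    _ ≤ 16 ^ 225 * (C * X) * K := mul_le_mul_of_nonneg_left hsum (by positivity)
    _ = 16 ^ 225 * (C * K) * X := by ring



end Pool.Agent.TF

namespace Pool.Agent.TF

theorem hh_ball : type_of% @hh_ball_pr := @hh_ball_pr

end Pool.Agent.TF
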