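import Mathlib
import Pool.Agent.Lib_helper18.TF.Defs
import Pool.Agent.Lib_helper10.T2F.BAS
import Pool.Agent.Lib_helper10.T2F.PEL
import Pool.Agent.Lib_helper10.T2F.CNT
import Pool.Agent.Lib_helper10.T2F.SLW
import Pool.Agent.Lib_helper10.T2F.SLG
import Pool.Agent.Lib_helper10.T2F.MER
import Pool.Agent.Lib_helper10.T2F.DSR
import Pool.Agent.Lib_helper18.TFF.P3

namespace Pool.Agent.TF

open Pool.Agent.T2

theorem p3b_nn_vec (k h : ℕ) : nn (vec k h) = k ^ 2 + h ^ 2 := by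
  have e : ((nn (vec k h) : ℕ) : ℤ) = ((k ^ 2 + h ^ 2 : ℕ) : ℤ) := by
    rw [nn_cast]
    simp [vec]
  exact_mod_cast e

theorem p3b_vec_inj : Function.Injective (fun t : ℕ × ℕ => vec t.1 t.2) := by
  intro s t h
  have h1 : (vec s.1 s.2).re = (vec t.1 t.2).re := by rw [show vec s.1 s.2 = vec t.1 t.2 from h]
  have h2 : (vec s.1 s.2).im = (vec t.1 t.2).im := by rw [show vec s.1 s.2 = vec t.1 t.2 from h]
  simp only [vec] at h1 h2
  exact Prod.ext (by exact_mod_cast h1) (by exact_mod_cast h2)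

theorem p3b_hh_nonneg (n : ℕ) : 0 ≤ hh n := by
  unfold hh
  exact Finset.prod_nonneg (fun p _ => by positivity)

theorem p3b_geom (n : ℕ) : ∑ i ∈ Finset.range n, (2 : ℝ) ^ i ≤ 2 ^ n := by
  induction n with
  | zero => simp
  | succ n ih => rw [Finset.sum_range_succ, pow_succ]; linarith

theorem p3b_dyadic {C : ℝ} (hball : ∀ X : ℝ, 1 ≤ X → ∑ z ∈ Bl X, hh (nn z) ^ 4 ≤ C * X)
    (T : Finset (ℕ × ℕ)) (i : ℕ)
    (key : ∀ t ∈ T, 4 ^ i ≤ nn (vec t.1 t.2) ∧ nn (vec t.1 t.2) < 4 ^ (i + 1)) :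
    ∑ t ∈ T, hh (nn (vec t.1 t.2)) ^ 4 / Real.sqrt (nn (vec t.1 t.2)) ≤ 4 * C * 2 ^ i := by
  classical
  have h2i : (0 : ℝ) < 2 ^ i := by positivity
  calc ∑ t ∈ T, hh (nn (vec t.1 t.2)) ^ 4 / Real.sqrt (nn (vec t.1 t.2))
      ≤ ∑ t ∈ T, hh (nn (vec t.1 t.2)) ^ 4 / 2 ^ i := by
        apply Finset.sum_le_sum
        intro t ht
        have h4 : (0 : ℝ) ≤ hh (nn (vec t.1 t.2)) ^ 4 := pow_nonneg (p3b_hh_nonneg _) 4
        apply div_le_div_of_nonneg_left h4 h2i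
        apply Real.le_sqrt_of_sq_le
        have h5 := (key t ht).1
        have h6 : ((4 ^ i : ℕ) : ℝ) ≤ (nn (vec t.1 t.2) : ℝ) := by exact_mod_cast h5
        push_cast at h6
        calc ((2 : ℝ) ^ i) ^ 2 = 4 ^ i := by rw [← pow_mul, mul_comm, pow_mul]; norm_num
          _ ≤ _ := h6
    _ = (∑ t ∈ T, hh (nn (vec t.1 t.2)) ^ 4) / 2 ^ i := by
        rw [Finset.sum_div]
    _ ≤ (C * 4 ^ (i + 1)) / 2 ^ i := by
        apply div_le_div_of_nonneg_right _ h2i.le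
        calc ∑ t ∈ T, hh (nn (vec t.1 t.2)) ^ 4
            = ∑ z ∈ T.image (fun t => vec t.1 t.2), hh (nn z) ^ 4 := by
              rw [Finset.sum_image]
              intro s _ t _ h
              exact p3b_vec_inj h
          _ ≤ ∑ z ∈ Bl (4 ^ (i + 1)), hh (nn z) ^ 4 := by
              apply Finset.sum_le_sum_of_subset_of_nonneg
              · intro z hz
                rw [Finset.mem_image] at hz
                obtain ⟨t, ht, rfl⟩ := hz
                obtain ⟨h5, h6⟩ := key t ht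
                rw [mem_Bl]
                constructor
                · rw [← nn_pos]
                  exact lt_of_lt_of_le (by positivity) h5
                · have h7 : (nn (vec t.1 t.2) : ℝ) ≤ ((4 ^ (i + 1) : ℕ) : ℝ) := by
                    exact_mod_cast h6.le
                  push_cast at h7
                  exact h7
              · intro z _ _
                exact pow_nonneg (p3b_hh_nonneg _) 4
          _ ≤ C * 4 ^ (i + 1) := hball _ (one_le_pow₀ (by norm_num))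
    _ = 4 * C * 2 ^ i := by
        rw [div_eq_iff h2i.ne']
        have h8 : (4 : ℝ) ^ i = 2 ^ i * 2 ^ i := by rw [← mul_pow]; norm_num
        rw [pow_succ, h8]; ring

theorem hh_gauss_pr : ∃ C : ℝ, 1 ≤ C ∧ ∀ N : ℕ, 1 ≤ N →
    ∑ t ∈ Finset.Icc 1 N ×ˢ Finset.range (N + 1),
      hh (nn (vec t.1 t.2)) ^ 4 / Real.sqrt (nn (vec t.1 t.2)) ≤ C * N := by
  classical
  obtain ⟨C, hC, hball⟩ := hh_ball
  refine ⟨16 * C, by linarith, fun N hN => ?_⟩
  have hN2 : 2 * N ^ 2 ≠ 0 := by positivity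
  have hmaps : ∀ t ∈ Finset.Icc 1 N ×ˢ Finset.range (N + 1),
      Nat.log 4 (nn (vec t.1 t.2)) ∈ Finset.range (Nat.log 4 (2 * N ^ 2) + 1) := by
    intro t ht
    simp only [Finset.mem_product, Finset.mem_Icc, Finset.mem_range] at ht
    rw [Finset.mem_range, p3b_nn_vec]
    apply Nat.lt_succ_of_le
    apply Nat.log_mono_right
    have h1 : t.1 ^ 2 ≤ N ^ 2 := Nat.pow_le_pow_left ht.1.2 2
    have h2 : t.2 ^ 2 ≤ N ^ 2 := Nat.pow_le_pow_left (by omega) 2
    omega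
  rw [← Finset.sum_fiberwise_of_maps_to hmaps]
  have hstep : ∀ i ∈ Finset.range (Nat.log 4 (2 * N ^ 2) + 1),
      ∑ t ∈ (Finset.Icc 1 N ×ˢ Finset.range (N + 1)).filter
        (fun t => Nat.log 4 (nn (vec t.1 t.2)) = i),
        hh (nn (vec t.1 t.2)) ^ 4 / Real.sqrt (nn (vec t.1 t.2)) ≤ 4 * C * 2 ^ i := by
    intro i _
    have h2i : (0 : ℝ) < 2 ^ i := by positivity
    have key : ∀ t ∈ (Finset.Icc 1 N ×ˢ Finset.range (N + 1)).filter
        (fun t => Nat.log 4 (nn (vec t.1 t.2)) = i),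
        4 ^ i ≤ nn (vec t.1 t.2) ∧ nn (vec t.1 t.2) < 4 ^ (i + 1) := by
      intro t ht
      simp only [Finset.mem_filter, Finset.mem_product, Finset.mem_Icc, Finset.mem_range] at ht
      have hne : nn (vec t.1 t.2) ≠ 0 := by
        rw [p3b_nn_vec]
        have : 1 ≤ t.1 ^ 2 := Nat.one_le_pow _ _ (by omega)
        omega
      refine ⟨?_, ?_⟩
      · rw [← ht.2]; exact Nat.pow_log_le_self 4 hne
      · rw [← ht.2]; exact Nat.lt_pow_succ_log_self (by norm_num) _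
    exact p3b_dyadic hball _ i key
  refine (Finset.sum_le_sum hstep).trans ?_
  rw [← Finset.mul_sum]
  have hg := p3b_geom (Nat.log 4 (2 * N ^ 2) + 1)
  have hI : (2 : ℝ) ^ (Nat.log 4 (2 * N ^ 2)) ≤ 2 * N := by
    have h1 : 4 ^ (Nat.log 4 (2 * N ^ 2)) ≤ 2 * N ^ 2 := Nat.pow_log_le_self 4 hN2
    have h2 : ((4 ^ (Nat.log 4 (2 * N ^ 2)) : ℕ) : ℝ) ≤ ((2 * N ^ 2 : ℕ) : ℝ) := by
      exact_mod_cast h1
    push_cast at h2
    have h3 : ∀ j : ℕ, (4 : ℝ) ^ j = (2 ^ j) ^ 2 := by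
      intro j
      rw [← pow_mul, mul_comm j 2, pow_mul]; norm_num
    rw [h3] at h2
    have hN0 : (0 : ℝ) ≤ N := Nat.cast_nonneg N
    apply le_of_sq_le_sq _ (by positivity)
    nlinarith
  have hC0 : 0 ≤ 4 * C := by linarith
  calc 4 * C * ∑ i ∈ Finset.range (Nat.log 4 (2 * N ^ 2) + 1), (2 : ℝ) ^ i
      ≤ 4 * C * 2 ^ (Nat.log 4 (2 * N ^ 2) + 1) := mul_le_mul_of_nonneg_left hg hC0
    _ = 8 * C * 2 ^ (Nat.log 4 (2 * N ^ 2)) := by rw [pow_succ]; ring
    _ ≤ 8 * C * (2 * N) := mul_le_mul_of_nonneg_left hI (by linarith)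
    _ = 16 * C * N := by ring



end Pool.Agent.TF

namespace Pool.Agent.TF

theorem hh_gauss : type_of% @hh_gauss_pr := @hh_gauss_pr

end Pool.Agent.TF
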