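import Mathlib
import Pool.Agent.Lib_helper18.TF.Defs
import Pool.Agent.Lib_helper10.T2F.BAS
import Pool.Agent.Lib_helper10.T2F.PEL
import Pool.Agent.Lib_helper10.T2F.CNT
import Pool.Agent.Lib_helper10.T2F.SLW
import Pool.Agent.Lib_helper10.T2F.SLG
import Pool.Agent.Lib_helper10.T2F.MER
import Pool.Agent.Lib_helper10.T2F.DSR
import Pool.Agent.Lib_helper18.TFF.P1
import Pool.Agent.Lib_helper18.TFF.P10
import Pool.Agent.Lib_helper18.TFF.P11
import Pool.Agent.Lib_helper18.TFF.P2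
import Pool.Agent.Lib_helper18.TFF.P3b
import Pool.Agent.Lib_helper18.TFF.P8

/-! TF, block P12: the pair sieve -/

namespace Pool.Agent.TF

open Pool.Agent.T2

theorem p12_det_ne {p : ℕ} (hp : p.Prime) (v e : G) (hv : nn v = p) (he : 0 < nn e)
    (hlt : nn e < p) : det v e ≠ 0 := by
  intro h0
  have h := ip_sq_add v e
  rw [h0, hv] at h
  have h1 : (p : ℤ) ∣ ip v e ^ 2 := ⟨nn e, by linarith [h]⟩
  have h2 : (p : ℤ) ∣ ip v e := Int.Prime.dvd_pow' hp h1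
  obtain ⟨c, hc⟩ := h2
  rw [hc] at h
  have h3 : (nn e : ℤ) = p * c ^ 2 := by
    have hp0 : (p : ℤ) ≠ 0 := by exact_mod_cast hp.ne_zero
    apply mul_left_cancel₀ hp0
    rw [h]
    ring
  have h4 : (p : ℤ) ∣ nn e := ⟨c ^ 2, h3⟩
  have h5 : p ∣ nn e := by exact_mod_cast h4
  exact absurd (Nat.le_of_dvd he h5) (not_le.2 hlt)

theorem p12_mem {P Q : ℝ} {p : ℕ} (h : p ∈ pr1 P Q) :
    p.Prime ∧ p % 4 = 1 ∧ P < (p : ℝ) ∧ (p : ℝ) ≤ Q := by
  classical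
  simp only [pr1, Finset.mem_filter] at h
  exact h.2

theorem p12_nn_vec (k h : ℕ) : nn (vec k h) = k ^ 2 + h ^ 2 := by
  have := nn_cast (vec k h)
  simp only [vec] at this
  exact_mod_cast this

theorem p12_N {Y D : ℝ} (hD : 0 < D) (hDY : D ≤ Y) : 1 ≤ ⌊Real.sqrt (Y / D)⌋₊ := by
  apply Nat.le_floor
  rw [Nat.cast_one]
  apply Real.one_le_sqrt.2
  rw [le_div_iff₀ hD]
  linarith

theorem p12_hh1 : hh 1 = 1 := by simp [hh]

/-- the determinants are small -/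
theorem p12_abs {Y D : ℝ} (hY : 0 < Y) (hD : 0 < D) {p : ℕ} (hp : p ∈ pr1 Y (2 * Y)) {e : G}
    (h : |(det (pel p) e : ℝ)| ≤ ((pel p).re : ℝ) / (⌊Real.sqrt (Y / D)⌋₊ + 1)) :
    |(det (pel p) e : ℝ)| ≤ Real.sqrt (2 * D) := by
  obtain ⟨hpp, hp4, hp1, hp2⟩ := p12_mem hp
  obtain ⟨h3, h1, h2⟩ := pel_spec hpp hp4
  have hs : 0 < Real.sqrt (Y / D) := Real.sqrt_pos.2 (div_pos hY hD)
  have hlt : Real.sqrt (Y / D) < ⌊Real.sqrt (Y / D)⌋₊ + 1 := Nat.lt_floor_add_one _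
  have hre : ((pel p).re : ℝ) ≤ Real.sqrt (2 * Y) := by
    apply Real.le_sqrt_of_sq_le
    have h4 := nn_cast (pel p)
    rw [h3] at h4
    have h5 : (p : ℝ) = ((pel p).re : ℝ) ^ 2 + ((pel p).im : ℝ) ^ 2 := by exact_mod_cast h4
    nlinarith [sq_nonneg ((pel p).im : ℝ)]
  refine h.trans ?_
  have h6 : ((pel p).re : ℝ) / (⌊Real.sqrt (Y / D)⌋₊ + 1) ≤ Real.sqrt (2 * Y) / Real.sqrt (Y / D) := by
    apply div_le_div₀ (Real.sqrt_nonneg _) hre hs hlt.le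
  refine h6.trans (le_of_eq ?_)
  rw [← Real.sqrt_div (by positivity)]
  congr 1
  field_simp

open Classical in
theorem p12_J (ε : ℝ) (hε : 0 < ε) : ∃ C Y₀ : ℝ, 1 ≤ C ∧ ∀ Y : ℝ, Y₀ ≤ Y → ∀ D : ℝ,
    Y ^ ε ≤ D → D ≤ Y → ∀ k h : ℕ, 1 ≤ k → k ≤ ⌊Real.sqrt (Y / D)⌋₊ → h ≤ k → Nat.Coprime k h →
    (((pr1 Y (2 * Y)).filter (fun p => |(det (pel p) (vec k h) : ℝ)| ≤
      ((pel p).re : ℝ) / (⌊Real.sqrt (Y / D)⌋₊ + 1))).card : ℝ) ≤
      C * (Real.sqrt Y * Real.sqrt D) / (Real.sqrt (nn (vec k h)) * Real.log Y) *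
        hh (nn (vec k h)) ^ 2 := by
  obtain ⟨C₂, Y₂, hC₂, h₂⟩ := v_line ε hε
  obtain ⟨C₃, hC₃, h₃⟩ := hh_avg
  refine ⟨4 * C₂ * C₃, max (max Y₂ 2) (2 ^ (1 / ε)), by nlinarith, ?_⟩
  intro Y hY D hD hDY k h hk hkN hhk hco
  have hY2 : Y₂ ≤ Y := (le_max_left _ _).trans ((le_max_left _ _).trans hY)
  have hY2' : (2 : ℝ) ≤ Y := (le_max_right _ _).trans ((le_max_left _ _).trans hY)
  have hYe : (2 : ℝ) ^ (1 / ε) ≤ Y := (le_max_right _ _).trans hY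
  have hD2 : (2 : ℝ) ≤ D := by
    refine le_trans ?_ hD
    have h1 : ((2 : ℝ) ^ (1 / ε)) ^ ε ≤ Y ^ ε :=
      Real.rpow_le_rpow (by positivity) hYe hε.le
    rwa [← Real.rpow_mul (by norm_num), one_div, inv_mul_cancel₀ hε.ne', Real.rpow_one] at h1
  have hD0 : 0 < D := by linarith
  have hY0 : 0 < Y := by linarith
  have hlog : 0 < Real.log Y := Real.log_pos (by linarith)
  set N := ⌊Real.sqrt (Y / D)⌋₊ with hN
  set e := vec k h with he
  have hne : nn e = k ^ 2 + h ^ 2 := p12_nn_vec k h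
  have hnepos : 0 < nn e := by rw [hne]; positivity
  have hneR : (nn e : ℝ) ≤ Y := by
    have h1 : (N : ℝ) ≤ Real.sqrt (Y / D) := Nat.floor_le (Real.sqrt_nonneg _)
    have h2 : (k : ℝ) ≤ N := by exact_mod_cast hkN
    have h3 : (h : ℝ) ≤ k := by exact_mod_cast hhk
    have h4 : (N : ℝ) ^ 2 ≤ Y / D := by
      calc (N : ℝ) ^ 2 ≤ Real.sqrt (Y / D) ^ 2 := pow_le_pow_left₀ (Nat.cast_nonneg _) h1 2
        _ = Y / D := Real.sq_sqrt (by positivity)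
    have h5 : Y / D ≤ Y / 2 := div_le_div_of_nonneg_left hY0.le (by norm_num) hD2
    rw [hne]
    push_cast
    have h6 : (k : ℝ) ^ 2 ≤ (N : ℝ) ^ 2 := pow_le_pow_left₀ (Nat.cast_nonneg _) h2 2
    have h7 : (h : ℝ) ^ 2 ≤ (k : ℝ) ^ 2 := pow_le_pow_left₀ (Nat.cast_nonneg _) h3 2
    linarith
  have hsub : (pr1 Y (2 * Y)).filter (fun p => |(det (pel p) e : ℝ)| ≤
      ((pel p).re : ℝ) / (N + 1)) ⊆ (Finset.Icc 1 ⌊Real.sqrt (2 * D)⌋₊).biUnion (fun m =>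
        (pr1 Y (2 * Y)).filter (fun p => det (pel p) e = (m : ℤ)) ∪
        (pr1 Y (2 * Y)).filter (fun p => det (pel p) e = -(m : ℤ))) := by
    intro p hp
    obtain ⟨hp1, hp2⟩ := Finset.mem_filter.1 hp
    obtain ⟨hpp, hp4, hp5, hp6⟩ := p12_mem hp1
    obtain ⟨g3, g1, g2⟩ := pel_spec hpp hp4
    have hlt : nn e < p := by
      have : (nn e : ℝ) < p := lt_of_le_of_lt hneR hp5
      exact_mod_cast this
    have hj := p12_det_ne hpp (pel p) e g3 hnepos hlt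
    have hab := p12_abs hY0 hD0 hp1 hp2
    have hcast : ((det (pel p) e).natAbs : ℝ) = |(det (pel p) e : ℝ)| := by
      rw [Nat.cast_natAbs, Int.cast_abs]
    simp only [Finset.mem_biUnion, Finset.mem_union, Finset.mem_filter, Finset.mem_Icc]
    refine ⟨(det (pel p) e).natAbs, ⟨Int.natAbs_pos.2 hj, Nat.le_floor ?_⟩, ?_⟩
    · rw [hcast]; exact hab
    · rcases Int.natAbs_eq (det (pel p) e) with h1 | h1
      · left; exact ⟨hp1, h1⟩
      · right; exact ⟨hp1, h1⟩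
  have hcard : (((pr1 Y (2 * Y)).filter (fun p => |(det (pel p) e : ℝ)| ≤
      ((pel p).re : ℝ) / (N + 1))).card : ℝ) ≤
      ∑ m ∈ Finset.Icc 1 ⌊Real.sqrt (2 * D)⌋₊,
        ((((pr1 Y (2 * Y)).filter (fun p => det (pel p) e = (m : ℤ))).card : ℝ) +
        (((pr1 Y (2 * Y)).filter (fun p => det (pel p) e = -(m : ℤ))).card : ℝ)) := by
    have h1 := (Finset.card_le_card hsub).trans Finset.card_biUnion_le
    have h2 : ∑ m ∈ Finset.Icc 1 ⌊Real.sqrt (2 * D)⌋₊,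
        ((pr1 Y (2 * Y)).filter (fun p => det (pel p) e = (m : ℤ)) ∪
        (pr1 Y (2 * Y)).filter (fun p => det (pel p) e = -(m : ℤ))).card ≤
        ∑ m ∈ Finset.Icc 1 ⌊Real.sqrt (2 * D)⌋₊,
        (((pr1 Y (2 * Y)).filter (fun p => det (pel p) e = (m : ℤ))).card +
        ((pr1 Y (2 * Y)).filter (fun p => det (pel p) e = -(m : ℤ))).card) :=
      Finset.sum_le_sum (fun m _ => Finset.card_union_le _ _)
    have h3 := h1.trans h2
    exact_mod_cast h3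
  refine hcard.trans ?_
  set A : ℝ := C₂ * Real.sqrt Y / (Real.sqrt (nn e) * Real.log Y) with hA
  have hA0 : 0 ≤ A := by positivity
  have hterm : ∀ m ∈ Finset.Icc 1 ⌊Real.sqrt (2 * D)⌋₊,
      ((((pr1 Y (2 * Y)).filter (fun p => det (pel p) e = (m : ℤ))).card : ℝ) +
        (((pr1 Y (2 * Y)).filter (fun p => det (pel p) e = -(m : ℤ))).card : ℝ)) ≤
      2 * A * hh (nn e) ^ 2 * hh (1 * m) ^ 2 := by
    intro m hm
    have hm1 : 1 ≤ m := (Finset.mem_Icc.1 hm).1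
    have h1 := h₂ Y hY2 D hD hDY k h hk hkN hhk hco (m : ℤ) (by exact_mod_cast (by omega : m ≠ 0))
    have h2 := h₂ Y hY2 D hD hDY k h hk hkN hhk hco (-(m : ℤ))
      (by
        have : (m : ℤ) ≠ 0 := by exact_mod_cast (by omega : m ≠ 0)
        exact neg_ne_zero.2 this)
    rw [Int.natAbs_neg, Int.natAbs_natCast] at h2
    rw [Int.natAbs_natCast] at h1
    rw [one_mul]
    have h3 : A * (hh (nn e) * hh m) ^ 2 + A * (hh (nn e) * hh m) ^ 2 =
        2 * A * hh (nn e) ^ 2 * hh m ^ 2 := by ring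
    rw [← h3]
    exact add_le_add h1 h2
  refine (Finset.sum_le_sum hterm).trans ?_
  rw [← Finset.mul_sum]
  have h4 := h₃ 1 (Real.sqrt (2 * D)) le_rfl (Real.sqrt_nonneg _)
  rw [p12_hh1] at h4
  have h5 : 2 * A * hh (nn e) ^ 2 * ∑ i ∈ Finset.Icc 1 ⌊Real.sqrt (2 * D)⌋₊, hh (1 * i) ^ 2 ≤
      2 * A * hh (nn e) ^ 2 * (C₃ * 1 ^ 2 * Real.sqrt (2 * D)) :=
    mul_le_mul_of_nonneg_left h4 (by positivity)
  refine h5.trans ?_
  have h6 : Real.sqrt (2 * D) ≤ 2 * Real.sqrt D := by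
    rw [Real.sqrt_mul (by norm_num)]
    have : Real.sqrt 2 ≤ 2 := by
      rw [Real.sqrt_le_left (by norm_num)]
      norm_num
    exact mul_le_mul_of_nonneg_right this (Real.sqrt_nonneg _)
  have h7 : 2 * A * hh (nn e) ^ 2 * (C₃ * 1 ^ 2 * Real.sqrt (2 * D)) ≤
      2 * A * hh (nn e) ^ 2 * (C₃ * 1 ^ 2 * (2 * Real.sqrt D)) := by
    apply mul_le_mul_of_nonneg_left _ (by positivity)
    apply mul_le_mul_of_nonneg_left h6 (by positivity)
  refine h7.trans (le_of_eq ?_)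
  rw [hA]
  ring

open Classical in
theorem pair_sieve_pr (ε : ℝ) (hε : 0 < ε) : ∃ C Y₀ : ℝ, 1 ≤ C ∧ ∀ Y : ℝ, Y₀ ≤ Y → ∀ D : ℝ,
    Y ^ ε ≤ D → D ≤ Y → ∀ q : ℕ, 1 ≤ q → (q : ℝ) ≤ D ^ (1 / 8 : ℝ) →
      Np Y D q ≤ C * Y * D / (Real.sqrt q * Real.log Y ^ 2) := by
  obtain ⟨C₁, Y₁, hC₁, h₁⟩ := w_count ε hε
  obtain ⟨C₂, Y₂, hC₂, h₂⟩ := p12_J ε hε
  obtain ⟨C₄, hC₄, h₄⟩ := hh_gauss
  obtain ⟨C₅, hC₅, h₅⟩ := hh_small
  have h12 : 1 ≤ C₁ * C₂ := one_le_mul_of_one_le_of_one_le hC₁ hC₂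
  have h124 : 1 ≤ C₁ * C₂ * C₄ := one_le_mul_of_one_le_of_one_le h12 hC₄
  refine ⟨C₁ * C₂ * C₄ * C₅, max (max Y₁ Y₂) 2, one_le_mul_of_one_le_of_one_le h124 hC₅, ?_⟩
  intro Y hY D hD hDY q hq hqD
  have hY1 : Y₁ ≤ Y := (le_max_left _ _).trans ((le_max_left _ _).trans hY)
  have hY2 : Y₂ ≤ Y := (le_max_right _ _).trans ((le_max_left _ _).trans hY)
  have hY3 : (2 : ℝ) ≤ Y := (le_max_right _ _).trans hY
  have hY0 : 0 < Y := by linarith
  have hD0 : 0 < D := lt_of_lt_of_le (Real.rpow_pos_of_pos hY0 ε) hD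
  have hlog : 0 < Real.log Y := Real.log_pos (by linarith)
  have hN1 : 1 ≤ ⌊Real.sqrt (Y / D)⌋₊ := p12_N hD0 hDY
  have hq0 : (0 : ℝ) < q := by exact_mod_cast hq
  have hsq0 : 0 < Real.sqrt q := Real.sqrt_pos.2 hq0
  set N := ⌊Real.sqrt (Y / D)⌋₊ with hN
  set P := pr1 Y (2 * Y) with hP
  set T := Finset.Icc 1 N ×ˢ Finset.range (N + 1) with hT
  set A : ℝ := C₁ * D / (q * Real.log Y) * hh q ^ 4 with hA
  have hA0 : 0 ≤ A := by positivity
  set R : ℕ → ℕ × ℕ → Prop := fun p t => 1 ≤ t.1 ∧ t.1 ≤ N ∧ t.2 ≤ t.1 ∧ Nat.Coprime t.1 t.2 ∧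
    |(det (pel p) (vec t.1 t.2) : ℝ)| ≤ ((pel p).re : ℝ) / (N + 1) with hR
  -- the number of pairs is a sum over `p`
  have hsum : Np Y D q = ∑ p ∈ P, ((P.filter (fun p' =>
      det (pel p) (pel p') ≠ 0 ∧ |(det (pel p) (pel p') : ℝ)| ≤ D ∧
        (q : ℤ) ∣ det (pel p) (pel p'))).card : ℝ) := by
    unfold Np
    rw [Finset.card_filter]
    push_cast
    rw [Finset.sum_product]
    apply Finset.sum_congr rfl
    intro p _
    rw [Finset.card_filter]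
    push_cast
    rfl
  have hp1 : ∀ p ∈ P, ((P.filter (fun p' =>
      det (pel p) (pel p') ≠ 0 ∧ |(det (pel p) (pel p') : ℝ)| ≤ D ∧
        (q : ℤ) ∣ det (pel p) (pel p'))).card : ℝ) ≤
      ∑ t ∈ T, if R p t then A * hh (nn (vec t.1 t.2)) ^ 2 else 0 := by
    intro p hp
    obtain ⟨hpp, hp4, hp5, hp6⟩ := p12_mem hp
    obtain ⟨g3, g1, g2⟩ := pel_spec hpp hp4
    obtain ⟨k, h, hk1, hk2, hk3, hk4, hk5⟩ := dirichlet_vec (pel p) g1 g2 N hN1
    have h6 := h₁ Y hY1 D hD hDY q hq hqD p hp k h hk1 hk2 hk3 hk4 hk5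
    refine h6.trans ?_
    have hmem : (k, h) ∈ T := by
      rw [hT, Finset.mem_product]
      refine ⟨Finset.mem_Icc.2 ⟨hk1, hk2⟩, Finset.mem_range.2 ?_⟩
      omega
    have h7 : (fun t : ℕ × ℕ => if R p t then A * hh (nn (vec t.1 t.2)) ^ 2 else 0) (k, h) ≤
        ∑ t ∈ T, if R p t then A * hh (nn (vec t.1 t.2)) ^ 2 else 0 := by
      apply Finset.single_le_sum (f := fun t : ℕ × ℕ =>
        if R p t then A * hh (nn (vec t.1 t.2)) ^ 2 else 0) _ hmem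
      intro t _
      show 0 ≤ if R p t then A * hh (nn (vec t.1 t.2)) ^ 2 else 0
      split_ifs
      · positivity
      · exact le_rfl
    refine le_trans (le_of_eq ?_) h7
    have hRk : R p (k, h) := ⟨hk1, hk2, hk3, hk4, hk5⟩
    show _ = if R p (k, h) then A * hh (nn (vec k h)) ^ 2 else 0
    rw [if_pos hRk]
  have hp2 : ∀ t ∈ T, ∑ p ∈ P, (if R p t then A * hh (nn (vec t.1 t.2)) ^ 2 else 0) ≤
      A * (C₂ * (Real.sqrt Y * Real.sqrt D) / Real.log Y) *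
        (hh (nn (vec t.1 t.2)) ^ 4 / Real.sqrt (nn (vec t.1 t.2))) := by
    intro t ht
    rw [← Finset.sum_filter, Finset.sum_const, nsmul_eq_mul]
    by_cases hg : 1 ≤ t.1 ∧ t.1 ≤ N ∧ t.2 ≤ t.1 ∧ Nat.Coprime t.1 t.2
    · obtain ⟨h6, h7, h8, h9⟩ := hg
      have h10 := h₂ Y hY2 D hD hDY t.1 t.2 h6 h7 h8 h9
      have h11 : ((P.filter (fun p => R p t)).card : ℝ) ≤
          C₂ * (Real.sqrt Y * Real.sqrt D) / (Real.sqrt (nn (vec t.1 t.2)) * Real.log Y) *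
            hh (nn (vec t.1 t.2)) ^ 2 := by
        refine le_trans ?_ h10
        have : (P.filter (fun p => R p t)).card ≤ (P.filter (fun p =>
            |(det (pel p) (vec t.1 t.2) : ℝ)| ≤ ((pel p).re : ℝ) / (N + 1))).card := by
          apply Finset.card_le_card
          intro p hp
          obtain ⟨hp1, hp2⟩ := Finset.mem_filter.1 hp
          exact Finset.mem_filter.2 ⟨hp1, hp2.2.2.2.2⟩
        exact_mod_cast this
      refine (mul_le_mul_of_nonneg_right h11 (by positivity)).trans (le_of_eq ?_)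
      have hnpos : 0 < nn (vec t.1 t.2) := by
        rw [p12_nn_vec]; positivity
      have hs : Real.sqrt (nn (vec t.1 t.2)) ≠ 0 :=
        (Real.sqrt_pos.2 (by exact_mod_cast hnpos)).ne'
      field_simp
    · have : P.filter (fun p => R p t) = ∅ := by
        apply Finset.filter_eq_empty_iff.2
        intro p _ hRp
        exact hg ⟨hRp.1, hRp.2.1, hRp.2.2.1, hRp.2.2.2.1⟩
      rw [this, Finset.card_empty, Nat.cast_zero, zero_mul]
      positivity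
  have hN2 : Real.sqrt Y * Real.sqrt D * N ≤ Y := by
    have h6 : (N : ℝ) ≤ Real.sqrt (Y / D) := Nat.floor_le (Real.sqrt_nonneg _)
    calc Real.sqrt Y * Real.sqrt D * N ≤ Real.sqrt Y * Real.sqrt D * Real.sqrt (Y / D) :=
          mul_le_mul_of_nonneg_left h6 (by positivity)
      _ = Y := by
          rw [mul_assoc, ← Real.sqrt_mul hD0.le, mul_div_cancel₀ _ hD0.ne',
            Real.mul_self_sqrt hY0.le]
  calc Np Y D q ≤ ∑ p ∈ P, ∑ t ∈ T, (if R p t then A * hh (nn (vec t.1 t.2)) ^ 2 else 0) := by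
        rw [hsum]
        exact Finset.sum_le_sum hp1
    _ = ∑ t ∈ T, ∑ p ∈ P, (if R p t then A * hh (nn (vec t.1 t.2)) ^ 2 else 0) :=
        Finset.sum_comm
    _ ≤ ∑ t ∈ T, A * (C₂ * (Real.sqrt Y * Real.sqrt D) / Real.log Y) *
        (hh (nn (vec t.1 t.2)) ^ 4 / Real.sqrt (nn (vec t.1 t.2))) := Finset.sum_le_sum hp2
    _ = A * (C₂ * (Real.sqrt Y * Real.sqrt D) / Real.log Y) *
        ∑ t ∈ T, (hh (nn (vec t.1 t.2)) ^ 4 / Real.sqrt (nn (vec t.1 t.2))) := by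
        rw [Finset.mul_sum]
    _ ≤ A * (C₂ * (Real.sqrt Y * Real.sqrt D) / Real.log Y) * (C₄ * N) :=
        mul_le_mul_of_nonneg_left (h₄ N hN1) (by positivity)
    _ = (C₁ * C₂ * C₄ * D / (q * Real.log Y ^ 2)) * (Real.sqrt Y * Real.sqrt D * N) *
          hh q ^ 4 := by
        rw [hA]
        field_simp
    _ ≤ (C₁ * C₂ * C₄ * D / (q * Real.log Y ^ 2)) * Y * (C₅ * Real.sqrt q) := by
        apply mul_le_mul _ (h₅ q hq) (by positivity) (by positivity)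
        exact mul_le_mul_of_nonneg_left hN2 (by positivity)
    _ = C₁ * C₂ * C₄ * C₅ * Y * D / (Real.sqrt q * Real.log Y ^ 2) := by
        have hqq : (q : ℝ) = Real.sqrt q * Real.sqrt q := (Real.mul_self_sqrt hq0.le).symm
        have hsq : Real.sqrt q ≠ 0 := hsq0.ne'
        have hl : Real.log Y ≠ 0 := hlog.ne'
        rw [div_mul_eq_mul_div, div_mul_eq_mul_div, div_eq_div_iff (by positivity) (by positivity)]
        nth_rewrite 3 [hqq]
        ring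



end Pool.Agent.TF

namespace Pool.Agent.TF

theorem pair_sieve : type_of% @pair_sieve_pr := @pair_sieve_pr

end Pool.Agent.TF
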