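import Mathlib
import Pool.Agent.Lib_helper18.TF.Defs
import Pool.Agent.Lib_helper10.T2F.BAS
import Pool.Agent.Lib_helper10.T2F.PEL
import Pool.Agent.Lib_helper10.T2F.CNT
import Pool.Agent.Lib_helper10.T2F.SLW
import Pool.Agent.Lib_helper10.T2F.SLG
import Pool.Agent.Lib_helper10.T2F.MER
import Pool.Agent.Lib_helper10.T2F.DSR
import Pool.Agent.Lib_helper73.Var.LS
import Pool.Agent.Lib_helper18.TFF.DefsF
import Pool.Agent.Lib_helper18.TFF.C1
import Pool.Agent.Lib_helper18.TFF.C12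
import Pool.Agent.Lib_helper18.TFF.I11

set_option autoImplicit false

namespace Pool.Agent.TF

open Pool.Agent.T2 Filter Topology

/-! ### linearity of `SS` -/

theorem f5_SS_add (f : ℝ → ℝ) (om : ℕ → ℝ) (σ : ℤ) (x Y : ℝ) (c₁ c₂ : ℤ → ℝ) :
    SS f om σ x Y (fun b => c₁ b + c₂ b) = SS f om σ x Y c₁ + SS f om σ x Y c₂ := by
  unfold SS
  rw [← Finset.sum_add_distrib]
  refine Finset.sum_congr rfl fun p _ => ?_
  rw [← mul_add, ← Finset.sum_add_distrib]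
  refine congrArg (fun t => om p * t) (Finset.sum_congr rfl fun z _ => ?_)
  ring

theorem f5_SS_smul (f : ℝ → ℝ) (om : ℕ → ℝ) (σ : ℤ) (x Y k : ℝ) (c : ℤ → ℝ) :
    SS f om σ x Y (fun b => k * c b) = k * SS f om σ x Y c := by
  unfold SS
  simp only [Finset.mul_sum]
  refine Finset.sum_congr rfl fun p _ => Finset.sum_congr rfl fun z _ => ?_
  ring

theorem f5_SS_zero (f : ℝ → ℝ) (om : ℕ → ℝ) (σ : ℤ) (x Y : ℝ) :
    SS f om σ x Y (fun _ => 0) = 0 := by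
  unfold SS
  simp

theorem f5_SS_sum (f : ℝ → ℝ) (om : ℕ → ℝ) (σ : ℤ) (x Y : ℝ) {ι : Type*} (s : Finset ι)
    (c : ι → ℤ → ℝ) :
    SS f om σ x Y (fun b => ∑ i ∈ s, c i b) = ∑ i ∈ s, SS f om σ x Y (c i) := by
  classical
  induction s using Finset.induction_on with
  | empty => simpa using f5_SS_zero f om σ x Y
  | insert a s ha ih =>
    rw [Finset.sum_insert ha, ← ih, ← f5_SS_add]
    refine congrArg _ (funext fun b => ?_)
    rw [Finset.sum_insert ha]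

/-! ### the cells -/

theorem f5_cell {L M : ℕ} {B : ℝ} {i : ℕ} {r b : ℤ} :
    b ∈ Cell L M B i r ↔ (1 ≤ b ∧ b ≤ ⌊B⌋) ∧ ((i : ℝ) * B / L < (b : ℝ) ∧
      (b : ℝ) ≤ ((i : ℝ) + 1) * B / L) ∧ (M : ℤ) ∣ b - r := by
  unfold Cell
  rw [Finset.mem_filter, Finset.mem_Icc]

theorem f5_lt {L M : ℕ} {B : ℝ} (hL : 1 ≤ L) (hB : 0 < B) {i : ℕ} {r b : ℤ}
    (h : b ∈ Cell L M B i r) : i < L := by
  rw [f5_cell] at h
  obtain ⟨⟨_, h1⟩, ⟨h2, _⟩, _⟩ := h
  have h3 : (b : ℝ) ≤ B := by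
    have := Int.floor_le B
    have h4 : (b : ℝ) ≤ ((⌊B⌋ : ℤ) : ℝ) := by exact_mod_cast h1
    linarith
  have hL' : (0 : ℝ) < L := by exact_mod_cast hL
  by_contra hcon
  push Not at hcon
  have h5 : (L : ℝ) ≤ i := by exact_mod_cast hcon
  have h6 : B ≤ (i : ℝ) * B / L := by
    rw [le_div_iff₀ hL']
    nlinarith
  linarith

theorem f5_inj {L M : ℕ} {B : ℝ} (hL : 1 ≤ L) (hB : 0 < B) {i i' : ℕ} {r r' b : ℤ}
    (h : b ∈ Cell L M B i r) (h' : b ∈ Cell L M B i' r') : i = i' := by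
  rw [f5_cell] at h h'
  obtain ⟨_, ⟨h1, h2⟩, _⟩ := h
  obtain ⟨_, ⟨h3, h4⟩, _⟩ := h'
  have hL' : (0 : ℝ) < L := by exact_mod_cast hL
  rw [div_lt_iff₀ hL'] at h1 h3
  rw [le_div_iff₀ hL'] at h2 h4
  have h5 : (i : ℝ) < i' + 1 := by
    by_contra hcon
    push Not at hcon
    nlinarith
  have h6 : (i' : ℝ) < i + 1 := by
    by_contra hcon
    push Not at hcon
    nlinarith
  have h5' : i < i' + 1 := by exact_mod_cast h5
  have h6' : i' < i + 1 := by exact_mod_cast h6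
  omega

theorem f5_cong {L M : ℕ} {B : ℝ} {i i' : ℕ} {r r' b : ℤ}
    (h : b ∈ Cell L M B i r) (h' : b ∈ Cell L M B i' r') : (M : ℤ) ∣ r - r' := by
  rw [f5_cell] at h h'
  have := dvd_sub h'.2.2 h.2.2
  have e : b - r' - (b - r) = r - r' := by ring
  rwa [e] at this

theorem f5_mod (L M : ℕ) (B : ℝ) (i : ℕ) (r : ℤ) :
    Cell L M B i r = Cell L M B i (r % M) := by
  ext b
  rw [f5_cell, f5_cell]
  have e : b - r % M = b - r + M * (r / M) := by
    have := Int.emod_add_mul_ediv r M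
    linarith
  have : (M : ℤ) ∣ b - r % M ↔ (M : ℤ) ∣ b - r := by
    rw [e]
    exact (Int.dvd_add_left (dvd_mul_right _ _))
  rw [this]

/-- the mean over a cell -/
noncomputable def f5_kap (L M : ℕ) (B : ℝ) (c : ℤ → ℝ) (i : ℕ) (r : ℤ) : ℝ :=
  (∑ b ∈ Cell L M B i r, c b) / ((Cell L M B i r).card : ℝ)

theorem f5_kap_le (L M : ℕ) (B : ℝ) (c : ℤ → ℝ) (hc : ∀ b, |c b| ≤ 1) (i : ℕ) (r : ℤ) :
    |f5_kap L M B c i r| ≤ 1 := by
  unfold f5_kap
  rw [abs_div, Nat.abs_cast]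
  apply div_le_one_of_le₀ _ (Nat.cast_nonneg _)
  refine (Finset.abs_sum_le_sum_abs _ _).trans ?_
  refine (Finset.sum_le_sum fun b _ => hc b).trans ?_
  simp

theorem f5_kap_sum (L M : ℕ) (B : ℝ) (c : ℤ → ℝ) (i : ℕ) (r : ℤ) :
    ((Cell L M B i r).card : ℝ) * f5_kap L M B c i r = ∑ b ∈ Cell L M B i r, c b := by
  unfold f5_kap
  by_cases h : (Cell L M B i r).card = 0
  · rw [Finset.card_eq_zero] at h
    rw [h]
    simp
  · have : ((Cell L M B i r).card : ℝ) ≠ 0 := by exact_mod_cast h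
    field_simp

/-- the projection to the cells -/
noncomputable def f5_cs (L M : ℕ) (B : ℝ) (c : ℤ → ℝ) (b : ℤ) : ℝ :=
  ∑ t ∈ Finset.range L ×ˢ Finset.range M, f5_kap L M B c t.1 (t.2 : ℤ) * cf L M B t.1 (t.2 : ℤ) b

theorem f5_cs_of_mem {L M : ℕ} {B : ℝ} (hL : 1 ≤ L) (hB : 0 < B) (c : ℤ → ℝ) {i r : ℕ}
    {b : ℤ} (hr : r < M) (h : b ∈ Cell L M B i (r : ℤ)) : f5_cs L M B c b = f5_kap L M B c i r := by
  have hi := f5_lt hL hB h
  unfold f5_cs
  rw [Finset.sum_eq_single (i, r)]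
  · rw [cf, if_pos h, mul_one]
  · intro t ht hne
    rw [Finset.mem_product, Finset.mem_range, Finset.mem_range] at ht
    rw [cf, if_neg, mul_zero]
    intro h'
    apply hne
    have h1 := f5_inj hL hB h' h
    have h2 := f5_cong h' h
    have h3 : (t.2 : ℤ) = r := by
      obtain ⟨k, hk⟩ := h2
      have hk1 : |(t.2 : ℤ) - r| < M := by
        rw [abs_lt]
        constructor <;> omega
      have := Int.eq_zero_of_abs_lt_dvd ⟨k, hk⟩ hk1
      omega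
    exact Prod.ext h1 (by exact_mod_cast h3)
  · intro hnot
    exfalso
    apply hnot
    rw [Finset.mem_product, Finset.mem_range, Finset.mem_range]
    exact ⟨hi, hr⟩

theorem f5_cs_of_not {L M : ℕ} {B : ℝ} (c : ℤ → ℝ) {b : ℤ}
    (h : ∀ i r : ℕ, i < L → r < M → b ∉ Cell L M B i (r : ℤ)) : f5_cs L M B c b = 0 := by
  unfold f5_cs
  apply Finset.sum_eq_zero
  intro t ht
  rw [Finset.mem_product, Finset.mem_range, Finset.mem_range] at ht
  rw [cf, if_neg (h _ _ ht.1 ht.2), mul_zero]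

theorem f5_cs_le {L M : ℕ} {B : ℝ} (hL : 1 ≤ L) (hB : 0 < B) (c : ℤ → ℝ) (hc : ∀ b, |c b| ≤ 1)
    (b : ℤ) : |f5_cs L M B c b| ≤ 1 := by
  by_cases h : ∃ i r : ℕ, i < L ∧ r < M ∧ b ∈ Cell L M B i (r : ℤ)
  · obtain ⟨i, r, _, hr, hb⟩ := h
    rw [f5_cs_of_mem hL hB c hr hb]
    exact f5_kap_le L M B c hc i r
  · push Not at h
    rw [f5_cs_of_not c h, abs_zero]
    exact zero_le_one

theorem f5_cs_supp {L M : ℕ} {B : ℝ} (c : ℤ → ℝ) (b : ℤ) (h0 : f5_cs L M B c b ≠ 0) :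
    1 ≤ b ∧ (b : ℝ) ≤ B := by
  by_cases h : ∃ i r : ℕ, i < L ∧ r < M ∧ b ∈ Cell L M B i (r : ℤ)
  · obtain ⟨i, r, _, _, hb⟩ := h
    rw [f5_cell] at hb
    refine ⟨hb.1.1, ?_⟩
    have h1 : (b : ℝ) ≤ ((⌊B⌋ : ℤ) : ℝ) := by exact_mod_cast hb.1.2
    exact h1.trans (Int.floor_le B)
  · push Not at h
    exact absurd (f5_cs_of_not c h) h0

theorem f5_sum_zero {L M : ℕ} {B : ℝ} (hL : 1 ≤ L) (hM : 1 ≤ M) (hB : 0 < B) (c : ℤ → ℝ) (i : ℕ)
    (r : ℤ) : ∑ b ∈ Cell L M B i r, (c b - f5_cs L M B c b) = 0 := by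
  have hM' : (0 : ℤ) < M := by exact_mod_cast hM
  obtain ⟨s, hs⟩ := Int.eq_ofNat_of_zero_le (Int.emod_nonneg r hM'.ne')
  have hsM : s < M := by
    have := Int.emod_lt_of_pos r hM'
    omega
  rw [f5_mod L M B i r, hs, Finset.sum_sub_distrib]
  have e : ∑ b ∈ Cell L M B i (s : ℤ), f5_cs L M B c b =
      ∑ b ∈ Cell L M B i (s : ℤ), f5_kap L M B c i s :=
    Finset.sum_congr rfl fun b hb => f5_cs_of_mem hL hB c hsM hb
  rw [e, Finset.sum_const, nsmul_eq_mul, f5_kap_sum, sub_self]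

theorem bil_small_pr {β τ δ Λ : ℝ} (hτ : 0 < τ) (hβ : 2 * τ < β) (hβ1 : β < 1) (hδ : 0 < δ)
    (hδ1 : δ ≤ 1) (hΛ : 0 ≤ Λ) {ε : ℝ} (hε : 0 < ε) : ∃ x₀ : ℝ, ∀ x : ℝ, x₀ ≤ x →
      ∀ f : ℝ → ℝ, Cut δ Λ f → ∀ om : ℕ → ℝ, (∀ p, |om p| ≤ 1) → ∀ σ : ℤ, (σ = 1 ∨ σ = -1) →
      ∀ c : ℤ → ℝ, (∀ b, |c b| ≤ 1) → (∀ b, c b ≠ 0 → 1 ≤ b ∧ (b : ℝ) ≤ x ^ β) →
      ∑ j ∈ Finset.range (JJ β τ x), |SS f om σ x (YY β τ x j) c| ≤ ε * x ^ (1 + β) := by
  obtain ⟨L, M, x₁, hL, hM, h2⟩ := type_two β τ δ Λ (ε / 8) hβ1 hτ hβ hδ hδ1 hΛ (by positivity)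
  have hL' : (0 : ℝ) < L := by exact_mod_cast hL
  have hM' : (0 : ℝ) < M := by exact_mod_cast hM
  have hcell : ∀ i r : ℕ, ∃ x₀ : ℝ, i < L → ∀ x : ℝ, x₀ ≤ x → ∀ f : ℝ → ℝ, Cut δ Λ f →
      ∀ om : ℕ → ℝ, (∀ p, |om p| ≤ 1) → ∀ σ : ℤ, (σ = 1 ∨ σ = -1) →
      ∑ j ∈ Finset.range (JJ β τ x), |SS f om σ x (YY β τ x j) (cf L M (x ^ β) i (r : ℤ))| ≤
        (ε / (4 * (L * M))) * x ^ (1 + β) := by
    intro i r
    by_cases hi : i < L
    · obtain ⟨x₀, h⟩ := cells hτ hβ hβ1 (Λ := Λ) hδ hδ1 L M i hL hM hi (r : ℤ)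
        (ε := ε / (4 * (L * M))) (by positivity)
      exact ⟨x₀, fun _ => h⟩
    · exact ⟨0, fun h => absurd h hi⟩
  choose X hX using hcell
  refine ⟨max 2 (max x₁ (∑ t ∈ Finset.range L ×ˢ Finset.range M, |X t.1 t.2|)), ?_⟩
  intro x hx f hf om hom σ hσ c hc hsupp
  have hx2 : 2 ≤ x := (le_max_left _ _).trans hx
  have hx1 : x₁ ≤ x := ((le_max_left _ _).trans (le_max_right _ _)).trans hx
  have hxX : ∀ t ∈ Finset.range L ×ˢ Finset.range M, X t.1 t.2 ≤ x := by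
    intro t ht
    have h1 : |X t.1 t.2| ≤ ∑ t ∈ Finset.range L ×ˢ Finset.range M, |X t.1 t.2| :=
      Finset.single_le_sum (f := fun t : ℕ × ℕ => |X t.1 t.2|) (fun _ _ => abs_nonneg _) ht
    exact ((le_abs_self _).trans h1).trans
      (((le_max_right _ _).trans (le_max_right _ _)).trans hx)
  have hx0 : 0 < x := by linarith
  have hB : 0 < x ^ β := Real.rpow_pos_of_pos hx0 β
  have hP : 0 < x ^ (1 + β) := Real.rpow_pos_of_pos hx0 _
  have hlog : 0 < Real.log x := Real.log_pos (by linarith)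
  obtain ⟨_, hs1, hs2, _, hs3⟩ := scales hτ hβ hβ1 (by linarith : (1 : ℝ) ≤ x)
  set c' : ℤ → ℝ := fun b => c b - f5_cs L M (x ^ β) c b with hc'
  have hcoef : Coef (x ^ β) c' := by
    constructor
    · intro b
      have h1 := f5_cs_le (M := M) hL hB c hc b
      have h3 := abs_sub (c b) (f5_cs L M (x ^ β) c b)
      have h4 := hc b
      calc |c' b| ≤ |c b| + |f5_cs L M (x ^ β) c b| := abs_sub _ _
        _ ≤ 2 := by linarith
    · intro b hb
      by_cases h0 : f5_cs L M (x ^ β) c b = 0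
      · apply hsupp b
        intro h1
        apply hb
        rw [hc']
        simp only
        rw [h0, h1, sub_zero]
      · exact f5_cs_supp c b h0
  have hdec : ∀ Y : ℝ, |SS f om σ x Y c| ≤ |SS f om σ x Y c'| +
      ∑ t ∈ Finset.range L ×ˢ Finset.range M, |SS f om σ x Y (cf L M (x ^ β) t.1 (t.2 : ℤ))| := by
    intro Y
    have e : SS f om σ x Y c = SS f om σ x Y c' +
        ∑ t ∈ Finset.range L ×ˢ Finset.range M, f5_kap L M (x ^ β) c t.1 (t.2 : ℤ) *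
          SS f om σ x Y (cf L M (x ^ β) t.1 (t.2 : ℤ)) := by
      rw [← Finset.sum_congr rfl (fun t _ => f5_SS_smul f om σ x Y
        (f5_kap L M (x ^ β) c t.1 (t.2 : ℤ)) (cf L M (x ^ β) t.1 (t.2 : ℤ))),
        ← f5_SS_sum, ← f5_SS_add]
      refine congrArg _ (funext fun b => ?_)
      rw [hc']
      simp only
      unfold f5_cs
      ring
    rw [e]
    refine (abs_add_le _ _).trans (add_le_add le_rfl ?_)
    refine (Finset.abs_sum_le_sum_abs _ _).trans (Finset.sum_le_sum fun t _ => ?_)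
    rw [abs_mul]
    exact mul_le_of_le_one_left (abs_nonneg _) (f5_kap_le L M _ c hc _ _)
  calc ∑ j ∈ Finset.range (JJ β τ x), |SS f om σ x (YY β τ x j) c|
      ≤ ∑ j ∈ Finset.range (JJ β τ x), (|SS f om σ x (YY β τ x j) c'| +
        ∑ t ∈ Finset.range L ×ˢ Finset.range M,
          |SS f om σ x (YY β τ x j) (cf L M (x ^ β) t.1 (t.2 : ℤ))|) :=
        Finset.sum_le_sum fun j _ => hdec _
    _ = ∑ j ∈ Finset.range (JJ β τ x), |SS f om σ x (YY β τ x j) c'| +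
        ∑ t ∈ Finset.range L ×ˢ Finset.range M, ∑ j ∈ Finset.range (JJ β τ x),
          |SS f om σ x (YY β τ x j) (cf L M (x ^ β) t.1 (t.2 : ℤ))| := by
        rw [Finset.sum_add_distrib]
        congr 1
        exact Finset.sum_comm
    _ ≤ ε / 4 * x ^ (1 + β) + ε / 4 * x ^ (1 + β) := by
        apply add_le_add
        · have h3 : ∀ j ∈ Finset.range (JJ β τ x), |SS f om σ x (YY β τ x j) c'| ≤
              ε / 8 * x ^ (1 + β) / Real.log x := by
            intro j hj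
            exact h2 x hx1 (YY β τ x j) (hs1 j) (hs2 j (Finset.mem_range.1 hj).le) f hf om hom σ hσ
              c' hcoef (fun i r => f5_sum_zero hL hM hB c i r)
          refine (Finset.sum_le_sum h3).trans ?_
          rw [Finset.sum_const, Finset.card_range, nsmul_eq_mul]
          have h4 : 0 ≤ ε / 8 * x ^ (1 + β) / Real.log x := by positivity
          refine (mul_le_mul_of_nonneg_right hs3 h4).trans (le_of_eq ?_)
          field_simp
          ring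
        · have h3 : ∀ t ∈ Finset.range L ×ˢ Finset.range M, ∑ j ∈ Finset.range (JJ β τ x),
              |SS f om σ x (YY β τ x j) (cf L M (x ^ β) t.1 (t.2 : ℤ))| ≤
              (ε / (4 * (L * M))) * x ^ (1 + β) := by
            intro t ht
            have ht' := ht
            rw [Finset.mem_product, Finset.mem_range, Finset.mem_range] at ht'
            exact hX t.1 t.2 ht'.1 x (hxX t ht) f hf om hom σ hσ
          refine (Finset.sum_le_sum h3).trans (le_of_eq ?_)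
          rw [Finset.sum_const, Finset.card_product, Finset.card_range, Finset.card_range,
            nsmul_eq_mul]
          push_cast
          field_simp
    _ ≤ ε * x ^ (1 + β) := by nlinarith



end Pool.Agent.TF

namespace Pool.Agent.TF

theorem bil_small : type_of% @bil_small_pr := @bil_small_pr

end Pool.Agent.TF
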