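import Mathlib
import Pool.Agent.Lib_helper18.TF.Defs
import Pool.Agent.Lib_helper10.T2F.BAS
import Pool.Agent.Lib_helper10.T2F.PEL
import Pool.Agent.Lib_helper10.T2F.CNT
import Pool.Agent.Lib_helper10.T2F.SLW
import Pool.Agent.Lib_helper10.T2F.SLG
import Pool.Agent.Lib_helper10.T2F.MER
import Pool.Agent.Lib_helper10.T2F.DSR
import Pool.Agent.Lib_helper73.Var.LS
import Pool.Agent.Lib_helper18.TFF.DefsF
import Pool.Agent.Lib_helper18.TFF.F1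
import Pool.Agent.Lib_helper18.TFF.F2
import Pool.Agent.Lib_helper18.TFF.F3
import Pool.Agent.Lib_helper18.TFF.F4
import Pool.Agent.Lib_helper18.TFF.F5

set_option autoImplicit false

namespace Pool.Agent.TF

open Pool.Agent.T2 Filter Topology

theorem f6_lam_abs (n : ℕ) : |lam n| ≤ 1 := by
  unfold lam
  split_ifs
  · simp
  · rw [abs_pow, abs_neg, abs_one, one_pow]

theorem f6_gl (n b : ℕ) : gl (⟨(n : ℤ), (b : ℤ)⟩ : G) = lam (n ^ 2 + b ^ 2) := by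
  unfold gl
  congr 1
  unfold nn
  rw [Zsqrtd.norm_def]
  have : ((n : ℤ) * n - -1 * b * b) = ((n ^ 2 + b ^ 2 : ℕ) : ℤ) := by push_cast; ring
  simp only at this ⊢
  rw [this, Int.natAbs_natCast]

theorem ee_sum_pr {β τ δ : ℝ} (hτ : 0 < τ) (hβ : 2 * τ < β) (hβ1 : β < 1) (hδ : 0 < δ)
    (hδ1 : δ ≤ 1 / 4) {ε : ℝ} (hε : 0 < ε) : ∃ x₀ : ℝ, ∀ x : ℝ, x₀ ≤ x →
      ∑ b ∈ Finset.Icc 1 ⌊x ^ β⌋, |EE β τ δ x b| ≤ ε * x ^ (1 + β) := by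
  classical
  obtain ⟨x₀, h⟩ := bil_small hτ hβ hβ1 hδ (by linarith : δ ≤ 1)
    (by positivity : (0 : ℝ) ≤ 1 / δ) (half_pos hε)
  refine ⟨max x₀ 2, fun x hx => ?_⟩
  have hx0 : x₀ ≤ x := le_trans (le_max_left _ _) hx
  have hx2 : 2 ≤ x := le_trans (le_max_right _ _) hx
  set c : ℤ → ℝ := fun b => if b ∈ Finset.Icc 1 ⌊x ^ β⌋ then
    (if 0 ≤ EE β τ δ x b then 1 else -1) else 0 with hc
  have hc1 : ∀ b, |c b| ≤ 1 := by
    intro b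
    rw [hc]
    simp only
    split_ifs <;> simp
  have hc2 : ∀ b, c b ≠ 0 → 1 ≤ b ∧ (b : ℝ) ≤ x ^ β := by
    intro b hb
    have hmem : b ∈ Finset.Icc 1 ⌊x ^ β⌋ := by
      by_contra hn
      apply hb
      rw [hc]
      simp only
      rw [if_neg hn]
    rw [Finset.mem_Icc] at hmem
    exact ⟨hmem.1, Int.le_floor.1 hmem.2⟩
  have hid := bilinear_id hτ hβ hβ1 hδ hδ1 hx2 c hc2
  have hleft : ∑ b ∈ Finset.Icc 1 ⌊x ^ β⌋, |EE β τ δ x b| =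
      ∑ b ∈ Finset.Icc 1 ⌊x ^ β⌋, c b * EE β τ δ x b := by
    refine Finset.sum_congr rfl fun b hb => ?_
    rw [hc]
    simp only
    rw [if_pos hb]
    split_ifs with h0
    · rw [abs_of_nonneg h0, one_mul]
    · rw [abs_of_neg (not_le.1 h0)]
      ring
  have hcut := (fc_cut hδ hδ1).1
  have hom : ∀ p, |lw x p| ≤ 1 := fun p => by
    have := lw_bound (by linarith : 1 < x) p
    rw [abs_of_nonneg this.1]
    exact this.2.1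
  have h1 := h x hx0 (fc δ) hcut (lw x) hom 1 (Or.inl rfl) c hc1 hc2
  have h2 := h x hx0 (fc δ) hcut (lw x) hom (-1) (Or.inr rfl) c hc1 hc2
  rw [hleft, hid]
  calc -∑ j ∈ Finset.range (JJ β τ x), (SS (fc δ) (lw x) 1 x (YY β τ x j) c +
        SS (fc δ) (lw x) (-1) x (YY β τ x j) c)
      ≤ |∑ j ∈ Finset.range (JJ β τ x), (SS (fc δ) (lw x) 1 x (YY β τ x j) c +
        SS (fc δ) (lw x) (-1) x (YY β τ x j) c)| := neg_le_abs _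
    _ ≤ ∑ j ∈ Finset.range (JJ β τ x), |SS (fc δ) (lw x) 1 x (YY β τ x j) c +
        SS (fc δ) (lw x) (-1) x (YY β τ x j) c| := Finset.abs_sum_le_sum_abs _ _
    _ ≤ ∑ j ∈ Finset.range (JJ β τ x), (|SS (fc δ) (lw x) 1 x (YY β τ x j) c| +
        |SS (fc δ) (lw x) (-1) x (YY β τ x j) c|) :=
          Finset.sum_le_sum fun j _ => abs_add_le _ _
    _ = ∑ j ∈ Finset.range (JJ β τ x), |SS (fc δ) (lw x) 1 x (YY β τ x j) c| +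
        ∑ j ∈ Finset.range (JJ β τ x), |SS (fc δ) (lw x) (-1) x (YY β τ x j) c| :=
          Finset.sum_add_distrib
    _ ≤ ε * x ^ (1 + β) := by linarith

/-- the sum of the cutoff function -/
theorem f6_fc_sum {δ x : ℝ} (hδ : 0 < δ) (hδ1 : δ ≤ 1 / 4) (hx : 1 ≤ x) :
    (1 - 3 * δ) * x - 1 ≤ ∑ n ∈ Finset.Icc 1 ⌊x⌋₊, fc δ ((n : ℝ) / x) := by
  obtain ⟨hcut, -, h1⟩ := fc_cut hδ hδ1
  have hx0 : 0 < x := by linarith
  have hsub : Finset.Icc ⌈2 * δ * x⌉₊ ⌊(1 - δ) * x⌋₊ ⊆ Finset.Icc 1 ⌊x⌋₊ := by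
    intro n hn
    rw [Finset.mem_Icc] at hn ⊢
    constructor
    · have : 1 ≤ ⌈2 * δ * x⌉₊ := Nat.one_le_ceil_iff.2 (by positivity)
      exact le_trans this hn.1
    · refine le_trans hn.2 (Nat.floor_le_floor ?_)
      nlinarith
  have hone : ∀ n ∈ Finset.Icc ⌈2 * δ * x⌉₊ ⌊(1 - δ) * x⌋₊, fc δ ((n : ℝ) / x) = 1 := by
    intro n hn
    rw [Finset.mem_Icc] at hn
    have ha : 2 * δ * x ≤ n := Nat.le_of_ceil_le hn.1
    have hb : (n : ℝ) ≤ (1 - δ) * x := by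
      have h2 : 0 ≤ (1 - δ) * x := by nlinarith
      exact (Nat.le_floor_iff h2).1 hn.2
    refine h1 _ ?_ ?_
    · rw [le_div_iff₀ hx0]; exact ha
    · rw [div_le_iff₀ hx0]; exact hb
  have h2 : ∑ n ∈ Finset.Icc ⌈2 * δ * x⌉₊ ⌊(1 - δ) * x⌋₊, fc δ ((n : ℝ) / x) ≤
      ∑ n ∈ Finset.Icc 1 ⌊x⌋₊, fc δ ((n : ℝ) / x) :=
    Finset.sum_le_sum_of_subset_of_nonneg hsub (fun n _ _ => hcut.nonneg _)
  rw [Finset.sum_congr rfl hone, Finset.sum_const, nsmul_eq_mul, mul_one] at h2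
  refine le_trans ?_ h2
  rw [Nat.card_Icc]
  have h3 : ((⌊(1 - δ) * x⌋₊ + 1 : ℕ) : ℝ) ≤
      ((⌊(1 - δ) * x⌋₊ + 1 - ⌈2 * δ * x⌉₊ : ℕ) : ℝ) + (⌈2 * δ * x⌉₊ : ℝ) := by
    have : ⌊(1 - δ) * x⌋₊ + 1 ≤ (⌊(1 - δ) * x⌋₊ + 1 - ⌈2 * δ * x⌉₊) + ⌈2 * δ * x⌉₊ := by omega
    exact_mod_cast this
  have h4 : (1 - δ) * x < ((⌊(1 - δ) * x⌋₊ + 1 : ℕ) : ℝ) := by
    push_cast
    exact Nat.lt_floor_add_one _
  have h5 : (⌈2 * δ * x⌉₊ : ℝ) < 2 * δ * x + 1 := Nat.ceil_lt_add_one (by positivity)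
  nlinarith

theorem one_b_pr {β τ δ : ℝ} (hτ : 0 < τ) (hβ : 2 * τ < β) (hβ1 : β < 1) (hδ : 0 < δ)
    (hδ1 : δ ≤ 1 / 4) {ε : ℝ} (hε : 0 < ε) : ∃ x₀ : ℝ, ∀ x : ℝ, x₀ ≤ x → ∀ b : ℕ, 1 ≤ b →
      (b : ℝ) ≤ x ^ β → |∑ n ∈ Finset.Icc 1 ⌊x⌋₊, lam (n ^ 2 + b ^ 2)| ≤
        (1 - (β - 2 * τ) * (1 - 3 * δ) / 2 + 3 * δ + ε) * x + |EE β τ δ x b| / 2 := by
  obtain ⟨x₁, hx₁⟩ := mass_lower hτ hβ hβ1 hδ hδ1 (half_pos hε)
  have hlim : ∀ᶠ x : ℝ in atTop, 4 / ε ≤ Real.log x :=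
    Real.tendsto_log_atTop.eventually_ge_atTop _
  obtain ⟨x₂, hx₂⟩ := hlim.exists_forall_of_atTop
  refine ⟨max (max x₁ x₂) (max 2 (4 / ε)), fun x hx b hb hbx => ?_⟩
  have hxa : x₁ ≤ x := le_trans (le_trans (le_max_left _ _) (le_max_left _ _)) hx
  have hxb : x₂ ≤ x := le_trans (le_trans (le_max_right _ _) (le_max_left _ _)) hx
  have hx2 : 2 ≤ x := le_trans (le_trans (le_max_left _ _) (le_max_right _ _)) hx
  have hxe : 4 / ε ≤ x := le_trans (le_trans (le_max_right _ _) (le_max_right _ _)) hx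
  have hx0 : 0 < x := by linarith
  have hlog := hx₂ x hxb
  have hlog0 : 0 < Real.log x := Real.log_pos (by linarith)
  have hbx' : (b : ℝ) ≤ x := by
    refine le_trans hbx ?_
    calc x ^ β ≤ x ^ (1 : ℝ) := Real.rpow_le_rpow_of_exponent_le (by linarith) hβ1.le
      _ = x := Real.rpow_one x
  have hmass := hx₁ x hxa (b : ℤ)
  obtain ⟨hcut, -, -⟩ := fc_cut hδ hδ1
  -- abbreviations
  set F : ℕ → ℝ := fun n => fc δ ((n : ℝ) / x) with hF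
  set V : ℕ → ℝ := fun n => VV β τ x (⟨(n : ℤ), (b : ℤ)⟩ : G) with hV
  set Lm : ℕ → ℝ := fun n => lam (n ^ 2 + b ^ 2) with hLm
  have hF0 : ∀ n, 0 ≤ F n := fun n => hcut.nonneg _
  have hF1 : ∀ n, F n ≤ 1 := fun n => hcut.le_one _
  have hL1 : ∀ n, |Lm n| ≤ 1 := fun n => f6_lam_abs _
  have hVb : ∀ n ∈ Finset.Icc 1 ⌊x⌋₊, 0 ≤ V n ∧ V n ≤ 2 + 1 / Real.log x := by
    intro n hn
    rw [Finset.mem_Icc] at hn
    have h1 : (n : ℝ) ≤ x := (Nat.le_floor_iff hx0.le).1 hn.2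
    exact mass_upper hτ hβ hβ1 hx2 (n : ℤ) (b : ℤ) (by exact_mod_cast hn.1)
      (by exact_mod_cast h1) (by exact_mod_cast hb) (by exact_mod_cast hbx')
  have hEE : EE β τ δ x b = ∑ n ∈ Finset.Icc 1 ⌊x⌋₊, F n * (Lm n * V n) := by
    unfold EE
    refine Finset.sum_congr rfl fun n _ => ?_
    rw [f6_gl]
  have hcardN : ((Finset.Icc 1 ⌊x⌋₊).card : ℝ) ≤ x := by
    rw [Nat.card_Icc, Nat.add_sub_cancel]
    exact Nat.floor_le hx0.le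
  -- first part
  have hsplit : 2 * ∑ n ∈ Finset.Icc 1 ⌊x⌋₊, Lm n * F n =
      ∑ n ∈ Finset.Icc 1 ⌊x⌋₊, Lm n * F n * (2 - V n) + EE β τ δ x b := by
    rw [hEE, Finset.mul_sum, ← Finset.sum_add_distrib]
    refine Finset.sum_congr rfl fun n _ => ?_
    ring
  have hA : |∑ n ∈ Finset.Icc 1 ⌊x⌋₊, Lm n * F n * (2 - V n)| ≤
      ∑ n ∈ Finset.Icc 1 ⌊x⌋₊, F n * (2 + 2 / Real.log x) - ∑ n ∈ Finset.Icc 1 ⌊x⌋₊, F n * V n := by
    rw [← Finset.sum_sub_distrib]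
    refine le_trans (Finset.abs_sum_le_sum_abs _ _) (Finset.sum_le_sum fun n hn => ?_)
    have h1 := hVb n hn
    have h2 : |2 - V n| ≤ 2 + 2 / Real.log x - V n := by
      have h3 : 0 < 1 / Real.log x := by positivity
      have h4 : 2 / Real.log x = 2 * (1 / Real.log x) := by ring
      rw [abs_le]
      constructor
      · rw [h4]; linarith [h1.2]
      · rw [h4]; linarith
    rw [abs_mul, abs_mul, abs_of_nonneg (hF0 n)]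
    calc |Lm n| * F n * |2 - V n| ≤ 1 * F n * (2 + 2 / Real.log x - V n) := by
          refine mul_le_mul ?_ h2 (abs_nonneg _) (by linarith [hF0 n])
          exact mul_le_mul_of_nonneg_right (hL1 n) (hF0 n)
      _ = F n * (2 + 2 / Real.log x) - F n * V n := by ring
  have hsumF : ∑ n ∈ Finset.Icc 1 ⌊x⌋₊, F n ≤ x := by
    calc ∑ n ∈ Finset.Icc 1 ⌊x⌋₊, F n ≤ ∑ n ∈ Finset.Icc 1 ⌊x⌋₊, (1 : ℝ) :=
          Finset.sum_le_sum fun n _ => hF1 n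
      _ = ((Finset.Icc 1 ⌊x⌋₊).card : ℝ) := by simp
      _ ≤ x := hcardN
  have hA2 : ∑ n ∈ Finset.Icc 1 ⌊x⌋₊, F n * (2 + 2 / Real.log x) ≤ (2 + 2 / Real.log x) * x := by
    rw [← Finset.sum_mul, mul_comm]
    exact mul_le_mul_of_nonneg_left hsumF (by positivity)
  -- second part
  have hB : |∑ n ∈ Finset.Icc 1 ⌊x⌋₊, Lm n * (1 - F n)| ≤ 3 * δ * x + 1 := by
    have h1 := f6_fc_sum hδ hδ1 (by linarith : 1 ≤ x)
    calc |∑ n ∈ Finset.Icc 1 ⌊x⌋₊, Lm n * (1 - F n)|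
        ≤ ∑ n ∈ Finset.Icc 1 ⌊x⌋₊, |Lm n * (1 - F n)| := Finset.abs_sum_le_sum_abs _ _
      _ ≤ ∑ n ∈ Finset.Icc 1 ⌊x⌋₊, (1 - F n) := by
          refine Finset.sum_le_sum fun n _ => ?_
          rw [abs_mul, abs_of_nonneg (by linarith [hF1 n] : 0 ≤ 1 - F n)]
          have := hL1 n
          nlinarith [hF1 n]
      _ = ((Finset.Icc 1 ⌊x⌋₊).card : ℝ) - ∑ n ∈ Finset.Icc 1 ⌊x⌋₊, F n := by
          rw [Finset.sum_sub_distrib]; simp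
      _ ≤ x - ((1 - 3 * δ) * x - 1) := by linarith
      _ = 3 * δ * x + 1 := by ring
  have htot : ∑ n ∈ Finset.Icc 1 ⌊x⌋₊, Lm n =
      ∑ n ∈ Finset.Icc 1 ⌊x⌋₊, Lm n * F n + ∑ n ∈ Finset.Icc 1 ⌊x⌋₊, Lm n * (1 - F n) := by
    rw [← Finset.sum_add_distrib]
    refine Finset.sum_congr rfl fun n _ => ?_
    ring
  have hC : |∑ n ∈ Finset.Icc 1 ⌊x⌋₊, Lm n * F n| ≤
      ((2 + 2 / Real.log x) * x - ((β - 2 * τ) * (1 - 3 * δ) - ε / 2) * x) / 2 +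
        |EE β τ δ x b| / 2 := by
    have h1 : 2 * |∑ n ∈ Finset.Icc 1 ⌊x⌋₊, Lm n * F n| ≤
        |∑ n ∈ Finset.Icc 1 ⌊x⌋₊, Lm n * F n * (2 - V n)| + |EE β τ δ x b| := by
      calc 2 * |∑ n ∈ Finset.Icc 1 ⌊x⌋₊, Lm n * F n|
          = |2 * ∑ n ∈ Finset.Icc 1 ⌊x⌋₊, Lm n * F n| := by
            rw [abs_mul, abs_of_pos (by norm_num : (0 : ℝ) < 2)]
        _ = |∑ n ∈ Finset.Icc 1 ⌊x⌋₊, Lm n * F n * (2 - V n) + EE β τ δ x b| := by rw [hsplit]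
        _ ≤ _ := abs_add_le _ _
    linarith
  have hD : |∑ n ∈ Finset.Icc 1 ⌊x⌋₊, Lm n| ≤
      |∑ n ∈ Finset.Icc 1 ⌊x⌋₊, Lm n * F n| + |∑ n ∈ Finset.Icc 1 ⌊x⌋₊, Lm n * (1 - F n)| := by
    rw [htot]
    exact abs_add_le _ _
  have hE : 2 / Real.log x ≤ ε / 2 := by
    rw [div_le_iff₀ hlog0]
    rw [div_le_iff₀ hε] at hlog
    linarith
  have hG : 4 ≤ ε * x := by
    rw [div_le_iff₀ hε] at hxe
    linarith
  have hH : (2 / Real.log x) * x ≤ ε / 2 * x := mul_le_mul_of_nonneg_right hE hx0.le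
  calc |∑ n ∈ Finset.Icc 1 ⌊x⌋₊, Lm n|
      ≤ ((2 + 2 / Real.log x) * x - ((β - 2 * τ) * (1 - 3 * δ) - ε / 2) * x) / 2 +
        |EE β τ δ x b| / 2 + (3 * δ * x + 1) := by linarith
    _ ≤ (1 - (β - 2 * τ) * (1 - 3 * δ) / 2 + 3 * δ + ε) * x + |EE β τ δ x b| / 2 := by
        nlinarith




end Pool.Agent.TF

namespace Pool.Agent.TF

theorem ee_sum : type_of% @ee_sum_pr := @ee_sum_pr
theorem one_b : type_of% @one_b_pr := @one_b_pr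

end Pool.Agent.TF
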