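import Mathlib
import Pool.Agent.Lib_helper18.TF.Defs
import Pool.Agent.Lib_helper10.T2F.BAS
import Pool.Agent.Lib_helper10.T2F.PEL
import Pool.Agent.Lib_helper10.T2F.CNT
import Pool.Agent.Lib_helper10.T2F.SLW
import Pool.Agent.Lib_helper10.T2F.SLG
import Pool.Agent.Lib_helper10.T2F.MER
import Pool.Agent.Lib_helper10.T2F.DSR
import Pool.Agent.Lib_helper73.Var.LS
import Pool.Agent.Lib_helper18.TFF.DefsF
import Pool.Agent.Lib_helper18.TFF.F6

set_option autoImplicit false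

namespace Pool.Agent.TF

open Pool.Agent.T2 Filter Topology

theorem f7_card {x ε T : ℝ} (E : ℤ → ℝ) (N : ℕ) (P : ℕ → Prop) [DecidablePred P]
    (hE : ∀ b ∈ Finset.Icc 1 N, P b → T ≤ |E b|) (hN : (N : ℝ) ≤ x)
    (hsum : ∑ b ∈ Finset.Icc 1 ⌊x⌋, |E b| ≤ ε) :
    (((Finset.Icc 1 N).filter P).card : ℝ) * T ≤ ε := by
  have h1 : (((Finset.Icc 1 N).filter P).card : ℝ) * T ≤
      ∑ b ∈ (Finset.Icc 1 N).filter P, |E b| := by
    rw [← nsmul_eq_mul]
    refine Finset.card_nsmul_le_sum _ _ _ fun b hb => ?_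
    rw [Finset.mem_filter] at hb
    exact hE b hb.1 hb.2
  have h2 : ∑ b ∈ (Finset.Icc 1 N).filter P, |E b| =
      ∑ b ∈ ((Finset.Icc 1 N).filter P).map Nat.castEmbedding, |E b| := by
    rw [Finset.sum_map]
    rfl
  have h3 : ((Finset.Icc 1 N).filter P).map (Nat.castEmbedding (R := ℤ)) ⊆
      Finset.Icc 1 ⌊x⌋ := by
    intro z hz
    rw [Finset.mem_map] at hz
    obtain ⟨b, hb, rfl⟩ := hz
    rw [Finset.mem_filter, Finset.mem_Icc] at hb
    rw [Finset.mem_Icc]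
    constructor
    · simpa using hb.1.1
    · rw [Int.le_floor]
      have : (b : ℝ) ≤ N := by exact_mod_cast hb.1.2
      simpa using le_trans this hN
  have h4 : ∑ b ∈ ((Finset.Icc 1 N).filter P).map (Nat.castEmbedding (R := ℤ)), |E b| ≤
      ∑ b ∈ Finset.Icc 1 ⌊x⌋, |E b| :=
    Finset.sum_le_sum_of_subset_of_nonneg h3 (fun _ _ _ => abs_nonneg _)
  linarith [h2 ▸ h1]

open Classical in
theorem thin_families_pr (β : ℝ) (hβ : 0 < β) (hβ1 : β < 1) (ε : ℝ) (hε : 0 < ε) :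
    ∃ x₀ : ℝ, ∀ x : ℝ, x₀ ≤ x →
      (((Finset.Icc 1 ⌊x ^ β⌋₊).filter (fun b : ℕ =>
        (1 - β / 2 + ε) * x < |∑ n ∈ Finset.Icc 1 ⌊x⌋₊, lam (n ^ 2 + b ^ 2)|)).card : ℝ) ≤
        ε * x ^ β := by
  set τ : ℝ := min (β / 8) (ε / 16) with hτdef
  set δ : ℝ := min (1 / 4) (ε / 64) with hδdef
  have hτ : 0 < τ := lt_min (by positivity) (by positivity)
  have hτ1 : τ ≤ β / 8 := min_le_left _ _
  have hτ2 : τ ≤ ε / 16 := min_le_right _ _
  have hδ : 0 < δ := lt_min (by norm_num) (by positivity)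
  have hδ1 : δ ≤ 1 / 4 := min_le_left _ _
  have hδ2 : δ ≤ ε / 64 := min_le_right _ _
  have hβτ : 2 * τ < β := by linarith
  have hε8 : 0 < ε / 8 := by positivity
  obtain ⟨x₁, h1⟩ := one_b hτ hβτ hβ1 hδ hδ1 hε8
  obtain ⟨x₂, h2⟩ := ee_sum hτ hβτ hβ1 hδ hδ1 (by positivity : 0 < ε ^ 2)
  refine ⟨max (max x₁ x₂) 1, fun x hx => ?_⟩
  have hxa : x₁ ≤ x := le_trans (le_trans (le_max_left _ _) (le_max_left _ _)) hx
  have hxb : x₂ ≤ x := le_trans (le_trans (le_max_right _ _) (le_max_left _ _)) hx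
  have hx1 : 1 ≤ x := le_trans (le_max_right _ _) hx
  have hx0 : 0 < x := by linarith
  have hxβ : 0 < x ^ β := Real.rpow_pos_of_pos hx0 _
  have hT : 0 < ε * x := by positivity
  have hcoef : 1 - (β - 2 * τ) * (1 - 3 * δ) / 2 + 3 * δ + ε / 8 ≤ 1 - β / 2 + ε / 2 := by
    nlinarith [mul_pos hτ hδ, mul_pos hβ hδ, mul_nonneg (by linarith : 0 ≤ 1 - β) hδ.le]
  have key := f7_card (x := x ^ β) (ε := ε ^ 2 * x ^ (1 + β)) (T := ε * x)
    (fun b => EE β τ δ x b) ⌊x ^ β⌋₊ (fun b : ℕ =>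
        (1 - β / 2 + ε) * x < |∑ n ∈ Finset.Icc 1 ⌊x⌋₊, lam (n ^ 2 + b ^ 2)|) ?_
    (Nat.floor_le hxβ.le) (h2 x hxb)
  · have h3 : ε ^ 2 * x ^ (1 + β) = ε * x ^ β * (ε * x) := by
      rw [Real.rpow_add hx0, Real.rpow_one]
      ring
    rw [h3] at key
    exact le_of_mul_le_mul_right key hT
  · intro b hb hP
    rw [Finset.mem_Icc] at hb
    have hbx : (b : ℝ) ≤ x ^ β := (Nat.le_floor_iff hxβ.le).1 hb.2
    have h3 := h1 x hxa b hb.1 hbx
    have h4 := mul_le_mul_of_nonneg_right hcoef hx0.le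
    nlinarith



end Pool.Agent.TF

namespace Pool.Agent.TF

theorem thin_families : type_of% @thin_families_pr := @thin_families_pr

end Pool.Agent.TF
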