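import Mathlib
import Pool.Agent.Lib_helper18.TF.Defs
import Pool.Agent.Lib_helper10.T2F.BAS
import Pool.Agent.Lib_helper10.T2F.PEL
import Pool.Agent.Lib_helper10.T2F.CNT
import Pool.Agent.Lib_helper10.T2F.SLW
import Pool.Agent.Lib_helper10.T2F.SLG
import Pool.Agent.Lib_helper10.T2F.MER
import Pool.Agent.Lib_helper10.T2F.DSR
import Pool.Agent.Lib_helper73.Var.LS
import Pool.Agent.Lib_helper18.TFF.DefsC
import Pool.Agent.Lib_helper10.T2F.BKL
import Pool.Agent.Lib_helper18.TFF.P12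

/-!
# Thin families: block C10, pairs of primes in the same direction
-/

set_option autoImplicit false

namespace Pool.Agent.TF

open Pool.Agent.T2 Filter Topology

theorem c10_det (u u' : G) (hu : u ≠ 0) :
    |(det u u' : ℝ)| ≤ Real.sqrt (nn u) * Real.sqrt (nn u') * |ag u u'| := by
  have hu0 : (u : ℂ) ≠ 0 := bas_ne hu
  set z : ℂ := (u' : ℂ) / (u : ℂ) with hz
  have h1 : (nn u : ℝ) = ‖(u : ℂ)‖ ^ 2 := nn_norm u
  have h2 : (nn u' : ℝ) = ‖(u' : ℂ)‖ ^ 2 := nn_norm u'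
  have h3 : Real.sqrt (nn u) = ‖(u : ℂ)‖ := by rw [h1, Real.sqrt_sq (norm_nonneg _)]
  have h4 : Real.sqrt (nn u') = ‖(u' : ℂ)‖ := by rw [h2, Real.sqrt_sq (norm_nonneg _)]
  have hn : 0 < ‖(u : ℂ)‖ := norm_pos_iff.2 hu0
  have h5 : (det u u' : ℝ) = z.im * ‖(u : ℂ)‖ ^ 2 := by
    rw [hz, Complex.div_im, ← Complex.normSq_eq_norm_sq]
    have h6 : Complex.normSq (u : ℂ) ≠ 0 := by
      rw [Ne, Complex.normSq_eq_zero]
      exact hu0
    field_simp
    unfold det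
    push_cast
    simp only [← GaussianInt.intCast_re, ← GaussianInt.intCast_im]
    ring
  have h6 : z.im = ‖z‖ * Real.sin (Complex.arg z) := (Complex.norm_mul_sin_arg z).symm
  have h7 : ‖z‖ * ‖(u : ℂ)‖ = ‖(u' : ℂ)‖ := by
    rw [hz, norm_div]
    field_simp
  rw [h5, h6, h3, h4, abs_mul, abs_mul, abs_of_nonneg (norm_nonneg z),
    abs_of_nonneg (by positivity : (0 : ℝ) ≤ ‖(u : ℂ)‖ ^ 2)]
  have h8 : |Real.sin (Complex.arg z)| ≤ |ag u u'| := by
    unfold ag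
    exact Real.abs_sin_le_abs
  calc ‖z‖ * |Real.sin (Complex.arg z)| * ‖(u : ℂ)‖ ^ 2
      = ‖(u : ℂ)‖ * (‖z‖ * ‖(u : ℂ)‖) * |Real.sin (Complex.arg z)| := by ring
    _ = ‖(u : ℂ)‖ * ‖(u' : ℂ)‖ * |Real.sin (Complex.arg z)| := by rw [h7]
    _ ≤ ‖(u : ℂ)‖ * ‖(u' : ℂ)‖ * |ag u u'| := by gcongr

theorem c10_det_star (u v : G) : det (star u) (star v) = -det u v := by
  unfold det
  simp
  ring

theorem c10_hat_le (t : ℝ) : hat t ≤ 1 := by
  unfold hat
  refine max_le zero_le_one ?_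
  have := abs_nonneg t
  linarith

theorem c10_mem {Y Z : ℝ} {p : ℕ} (hp : p ∈ pr1 Y Z) :
    p.Prime ∧ p % 4 = 1 ∧ Y < (p : ℝ) ∧ (p : ℝ) ≤ Z := by
  unfold pr1 at hp
  exact (Finset.mem_filter.1 hp).2

theorem c10_eq {p p' : ℕ} (hp : p.Prime) (h4 : p % 4 = 1) (hp' : p'.Prime) (h4' : p' % 4 = 1)
    (h : det (pel p) (pel p') = 0) : p = p' := by
  have h1 := ip_sq_add (pel p) (pel p')
  rw [h, (pel_spec hp h4).1, (pel_spec hp' h4').1] at h1
  have h2 : (p : ℤ) ∣ ip (pel p) (pel p') ^ 2 := ⟨p', by rw [h1]; ring⟩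
  have hpz : Prime (p : ℤ) := Nat.prime_iff_prime_int.1 hp
  obtain ⟨m, hm⟩ := hpz.dvd_of_dvd_pow h2
  rw [hm] at h1
  have hp0 : (p : ℤ) ≠ 0 := by exact_mod_cast hp.ne_zero
  have h3 : (p' : ℤ) = p * m ^ 2 := by
    apply mul_left_cancel₀ hp0
    rw [h1]
    ring
  have h4 : (p : ℤ) ∣ (p' : ℤ) := ⟨_, h3⟩
  have h5 : p ∣ p' := by exact_mod_cast h4
  exact (Nat.prime_dvd_prime_iff_eq hp hp').1 h5

theorem pair_hat_pr {η : ℝ} (hη : 0 < η) : ∃ C Y₀ : ℝ, 1 ≤ C ∧ ∀ Y : ℝ, Y₀ ≤ Y → ∀ k : ℝ,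
    0 < k → k ≤ 1 / 2 → Y ^ η ≤ 2 * k * Y → ∀ Q : Finset ℕ, Q ⊆ pr1 Y (2 * Y) →
      ∀ om : ℕ → ℝ, (∀ p, |om p| ≤ 1) →
      ∑ p ∈ Q, ∑ p' ∈ Q, om p * om p' * hat (ag (star (pel p)) (star (pel p')) / k) ≤
        C * k * Y ^ 2 / Real.log Y ^ 2 := by
  classical
  obtain ⟨C₁, Y₁, hC₁, h1⟩ := pair_sieve η hη
  obtain ⟨C₂, hC₂, h2⟩ := block_le
  have hlog : ∀ᶠ Y : ℝ in atTop, Real.log Y ≤ Y ^ η := by
    have := (isLittleO_log_rpow_atTop hη).bound (zero_lt_one)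
    filter_upwards [this, eventually_ge_atTop 1] with Y hY hY1
    rw [one_mul, Real.norm_eq_abs, Real.norm_eq_abs,
      abs_of_nonneg (Real.rpow_nonneg (by linarith) _)] at hY
    exact (le_abs_self _).trans hY
  obtain ⟨Y₂, hY₂⟩ := eventually_atTop.1 hlog
  refine ⟨2 * C₁ + 2 * C₂, max (max Y₁ Y₂) 3, by linarith, ?_⟩
  intro Y hY k hk hk2 hYk Q hQ om hom
  have hY1 : Y₁ ≤ Y := (le_max_left _ _).trans ((le_max_left _ _).trans hY)
  have hY2 : Y₂ ≤ Y := (le_max_right _ _).trans ((le_max_left _ _).trans hY)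
  have hY3 : 3 ≤ Y := (le_max_right _ _).trans hY
  have hY0 : 0 < Y := by linarith
  have hL : 0 < Real.log Y := Real.log_pos (by linarith)
  -- the bound of one term
  set D : ℝ := 2 * k * Y with hD
  have hterm : ∀ p ∈ Q, ∀ p' ∈ Q,
      om p * om p' * hat (ag (star (pel p)) (star (pel p')) / k) ≤
        (if p = p' then 1 else 0) + (if (det (pel p) (pel p') ≠ 0 ∧
          |(det (pel p) (pel p') : ℝ)| ≤ D ∧ ((1 : ℕ) : ℤ) ∣ det (pel p) (pel p'))
          then (1 : ℝ) else 0) := by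
    intro p hp p' hp'
    obtain ⟨a1, a2, a3, a4⟩ := c10_mem (hQ hp)
    obtain ⟨b1, b2, b3, b4⟩ := c10_mem (hQ hp')
    have hnn : (0 : ℝ) ≤ (if p = p' then 1 else 0) + (if (det (pel p) (pel p') ≠ 0 ∧
        |(det (pel p) (pel p') : ℝ)| ≤ D ∧ ((1 : ℕ) : ℤ) ∣ det (pel p) (pel p'))
        then (1 : ℝ) else 0) := by
      split_ifs <;> norm_num
    have hle : om p * om p' * hat (ag (star (pel p)) (star (pel p')) / k) ≤
        hat (ag (star (pel p)) (star (pel p')) / k) := by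
      have c1 : om p * om p' ≤ 1 := by
        refine (le_abs_self _).trans ?_
        rw [abs_mul]
        exact mul_le_one₀ (hom p) (abs_nonneg _) (hom p')
      have c2 := bkl_hat_nonneg (ag (star (pel p)) (star (pel p')) / k)
      nlinarith
    by_cases h0 : hat (ag (star (pel p)) (star (pel p')) / k) = 0
    · rw [h0] at hle
      rw [h0]
      linarith
    · have c3 := bkl_hat_lt h0
      rw [abs_div, abs_of_pos hk, div_lt_one hk] at c3
      have c4 : star (pel p) ≠ 0 := by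
        rw [← nn_pos, nn_star, (pel_spec a1 a2).1]
        exact a1.pos
      have c5 := c10_det (star (pel p)) (star (pel p')) c4
      rw [nn_star, nn_star, (pel_spec a1 a2).1, (pel_spec b1 b2).1, c10_det_star] at c5
      rw [Int.cast_neg, abs_neg] at c5
      have c6 : Real.sqrt (p : ℝ) * Real.sqrt (p' : ℝ) ≤ 2 * Y := by
        calc Real.sqrt (p : ℝ) * Real.sqrt (p' : ℝ) ≤ Real.sqrt (2 * Y) * Real.sqrt (2 * Y) := by
              gcongr
          _ = 2 * Y := Real.mul_self_sqrt (by linarith)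
      have c7 : |(det (pel p) (pel p') : ℝ)| ≤ D := by
        calc |(det (pel p) (pel p') : ℝ)| ≤ Real.sqrt (p : ℝ) * Real.sqrt (p' : ℝ) *
              |ag (star (pel p)) (star (pel p'))| := c5
          _ ≤ 2 * Y * k := by gcongr
          _ = D := by rw [hD]; ring
      refine hle.trans ((c10_hat_le _).trans ?_)
      by_cases h00 : det (pel p) (pel p') = 0
      · rw [if_pos (c10_eq a1 a2 b1 b2 h00)]
        split_ifs <;> norm_num
      · rw [if_pos (c := det (pel p) (pel p') ≠ 0 ∧ _) ⟨h00, c7, by simp⟩]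
        split_ifs <;> norm_num
  have hsum : ∑ p ∈ Q, ∑ p' ∈ Q, om p * om p' * hat (ag (star (pel p)) (star (pel p')) / k) ≤
      ∑ p ∈ pr1 Y (2 * Y), ∑ p' ∈ pr1 Y (2 * Y),
        ((if p = p' then 1 else 0) + (if (det (pel p) (pel p') ≠ 0 ∧
          |(det (pel p) (pel p') : ℝ)| ≤ D ∧ ((1 : ℕ) : ℤ) ∣ det (pel p) (pel p'))
          then (1 : ℝ) else 0)) := by
    have hnn : ∀ p p' : ℕ, (0 : ℝ) ≤ (if p = p' then 1 else 0) + (if (det (pel p) (pel p') ≠ 0 ∧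
        |(det (pel p) (pel p') : ℝ)| ≤ D ∧ ((1 : ℕ) : ℤ) ∣ det (pel p) (pel p'))
        then (1 : ℝ) else 0) := by
      intro p p'
      split_ifs <;> norm_num
    refine (Finset.sum_le_sum fun p hp => Finset.sum_le_sum fun p' hp' => hterm p hp p' hp').trans ?_
    refine (Finset.sum_le_sum fun p _ =>
      Finset.sum_le_sum_of_subset_of_nonneg hQ fun p' _ _ => hnn p p').trans ?_
    exact Finset.sum_le_sum_of_subset_of_nonneg hQ fun p _ _ =>
      Finset.sum_nonneg fun p' _ => hnn p p'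
  have hsplit : ∑ p ∈ pr1 Y (2 * Y), ∑ p' ∈ pr1 Y (2 * Y),
        ((if p = p' then 1 else 0) + (if (det (pel p) (pel p') ≠ 0 ∧
          |(det (pel p) (pel p') : ℝ)| ≤ D ∧ ((1 : ℕ) : ℤ) ∣ det (pel p) (pel p'))
          then (1 : ℝ) else 0)) = ((pr1 Y (2 * Y)).card : ℝ) + Np Y D 1 := by
    simp_rw [Finset.sum_add_distrib]
    congr 1
    · simp
    · unfold Np
      rw [← Finset.sum_product', Finset.sum_boole]
  rw [hsplit] at hsum
  refine hsum.trans ?_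
  -- the diagonal
  have hcard : ((pr1 Y (2 * Y)).card : ℝ) ≤ C₂ * Y / Real.log Y :=
    h2 Y _ (by linarith) (fun p hp => ⟨(c10_mem hp).1, (c10_mem hp).2.1⟩)
      (fun p hp => ⟨(c10_mem hp).2.2.1, (c10_mem hp).2.2.2⟩)
  have hlogk : Real.log Y ≤ 2 * k * Y := (hY₂ Y hY2).trans hYk
  have hdiag : C₂ * Y / Real.log Y ≤ 2 * C₂ * k * Y ^ 2 / Real.log Y ^ 2 := by
    rw [div_le_div_iff₀ hL (by positivity)]
    have : C₂ * Y * Real.log Y * Real.log Y ≤ C₂ * Y * Real.log Y * (2 * k * Y) := by gcongr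
    calc C₂ * Y * Real.log Y ^ 2 = C₂ * Y * Real.log Y * Real.log Y := by ring
      _ ≤ C₂ * Y * Real.log Y * (2 * k * Y) := this
      _ = 2 * C₂ * k * Y ^ 2 * Real.log Y := by ring
  have hYη : (1 : ℝ) ≤ Y ^ η := Real.one_le_rpow (by linarith) hη.le
  have hD1 : 1 ≤ D := hYη.trans hYk
  have hNp : Np Y D 1 ≤ C₁ * Y * D / (Real.sqrt (1 : ℕ) * Real.log Y ^ 2) := by
    refine h1 Y hY1 D hYk ?_ 1 le_rfl ?_
    · rw [hD]
      nlinarith
    · rw [Nat.cast_one]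
      exact Real.one_le_rpow hD1 (by norm_num)
  rw [Nat.cast_one, Real.sqrt_one, one_mul, hD] at hNp
  calc ((pr1 Y (2 * Y)).card : ℝ) + Np Y D 1
      ≤ 2 * C₂ * k * Y ^ 2 / Real.log Y ^ 2 + C₁ * Y * (2 * k * Y) / Real.log Y ^ 2 :=
        add_le_add (hcard.trans hdiag) hNp
    _ = (2 * C₁ + 2 * C₂) * k * Y ^ 2 / Real.log Y ^ 2 := by ring



end Pool.Agent.TF

namespace Pool.Agent.TF

theorem pair_hat : type_of% @pair_hat_pr := @pair_hat_pr

end Pool.Agent.TF
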