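import Mathlib
import Pool.Agent.Lib_helper18.TF.Defs
import Pool.Agent.Lib_helper10.T2F.BAS
import Pool.Agent.Lib_helper10.T2F.PEL
import Pool.Agent.Lib_helper10.T2F.CNT
import Pool.Agent.Lib_helper10.T2F.SLW
import Pool.Agent.Lib_helper10.T2F.SLG
import Pool.Agent.Lib_helper10.T2F.MER
import Pool.Agent.Lib_helper10.T2F.DSR
import Pool.Agent.Lib_helper73.Var.LS
import Pool.Agent.Lib_helper18.TFF.DefsC

set_option autoImplicit false

namespace Pool.Agent.TF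

open Pool.Agent.T2 Filter Topology

private theorem c2_mem {T x B : ℝ} (hx : 1 ≤ x) {ζ : G} (h : ζ ∈ Rg T x B) :
    1 ≤ ζ.re ∧ (ζ.re : ℝ) ≤ 4 * x ∧ |(ζ.im : ℝ)| ≤ T * B := by
  unfold Rg at h
  rw [Finset.mem_filter, mem_Bl] at h
  obtain ⟨⟨-, h1⟩, h2, h3⟩ := h
  refine ⟨by omega, ?_, h3⟩
  rw [bas_cast_real] at h1
  have h4 : (0 : ℝ) ≤ (ζ.im : ℝ) ^ 2 := sq_nonneg _
  by_contra hcon
  push Not at hcon
  nlinarith

private theorem c2_card {a b : ℤ} (h : a ≤ b + 1) :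
    ((Finset.Icc a b).card : ℝ) = (b : ℝ) + 1 - a := by
  rw [Int.card_Icc]
  have h1 : (((b + 1 - a).toNat : ℤ) : ℝ) = ((b + 1 - a : ℤ) : ℝ) := by
    rw [Int.toNat_of_nonneg (by omega)]
  rw [← Int.cast_natCast, h1]
  push_cast
  ring

private theorem c2_ext {ζ ζ' : G} (h1 : ζ.re = ζ'.re) (h2 : ζ.im = ζ'.im) : ζ = ζ' :=
  Zsqrtd.ext h1 h2

theorem region_count_pr {T x B : ℝ} (hT : 1 ≤ T) (hB : 1 ≤ B) (hBx : B ≤ x) :
    ((Rg T x B).card : ℝ) ≤ 12 * T * B * x := by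
  have hx : 1 ≤ x := hB.trans hBx
  have hTB : 1 ≤ T * B := by nlinarith
  have h1 : (Rg T x B).card ≤
      (Finset.Icc (1 : ℤ) ⌊4 * x⌋ ×ˢ Finset.Icc (-⌊T * B⌋) ⌊T * B⌋).card := by
    apply Finset.card_le_card_of_injOn (fun ζ : G => (ζ.re, ζ.im))
    · intro ζ hζ
      obtain ⟨a1, a2, a3⟩ := c2_mem hx (Finset.mem_coe.1 hζ)
      rw [abs_le] at a3
      have a4 : -ζ.im ≤ ⌊T * B⌋ := Int.le_floor.2 (by push_cast; linarith [a3.1])
      rw [Finset.mem_coe, Finset.mem_product, Finset.mem_Icc, Finset.mem_Icc]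
      have a5 : -⌊T * B⌋ ≤ ζ.im := by omega
      exact ⟨⟨a1, Int.le_floor.2 a2⟩, a5, Int.le_floor.2 a3.2⟩
    · intro ζ _ ζ' _ h
      exact c2_ext (congrArg Prod.fst h) (congrArg Prod.snd h)
  have h2 : (0 : ℤ) ≤ ⌊4 * x⌋ := Int.floor_nonneg.2 (by linarith)
  have h3 : (0 : ℤ) ≤ ⌊T * B⌋ := Int.floor_nonneg.2 (by linarith)
  have h4 : ((Rg T x B).card : ℝ) ≤ ((⌊4 * x⌋ : ℝ) + 1 - 1) * ((⌊T * B⌋ : ℝ) + 1 + ⌊T * B⌋) := by
    have h5 : ((Rg T x B).card : ℝ) ≤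
        ((Finset.Icc (1 : ℤ) ⌊4 * x⌋).card : ℝ) * ((Finset.Icc (-⌊T * B⌋) ⌊T * B⌋).card : ℝ) := by
      rw [Finset.card_product] at h1
      exact_mod_cast h1
    rw [c2_card (by omega), c2_card (by omega)] at h5
    push_cast at h5
    linarith
  have h5 : (⌊4 * x⌋ : ℝ) ≤ 4 * x := Int.floor_le _
  have h6 : (⌊T * B⌋ : ℝ) ≤ T * B := Int.floor_le _
  have h7 : (0 : ℝ) ≤ (⌊T * B⌋ : ℝ) := by exact_mod_cast h3
  calc ((Rg T x B).card : ℝ) ≤ ((⌊4 * x⌋ : ℝ) + 1 - 1) * ((⌊T * B⌋ : ℝ) + 1 + ⌊T * B⌋) := h4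
    _ ≤ (4 * x) * (3 * (T * B)) := by
        apply mul_le_mul (by linarith) (by linarith) (by linarith) (by linarith)
    _ = 12 * T * B * x := by ring

open Classical in
/-- the elements of the region with nonzero imaginary part, divisible by `g` -/
private theorem c2_g {T x B : ℝ} (hT : 1 ≤ T) (hB : 1 ≤ B) (hBx : B ≤ x) {g : ℕ} (hg : 1 ≤ g) :
    (((Rg T x B).filter (fun ζ => ζ.im ≠ 0 ∧ (g : G) ∣ ζ)).card : ℝ) ≤
      8 * T * B * x * ((g : ℝ) ^ 2)⁻¹ := by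
  have hx : 1 ≤ x := hB.trans hBx
  have hTB : 1 ≤ T * B := by nlinarith
  have hg0 : (0 : ℝ) < g := by exact_mod_cast hg
  have hgz : (0 : ℤ) < g := by exact_mod_cast hg
  have h1 : ((Rg T x B).filter (fun ζ => ζ.im ≠ 0 ∧ (g : G) ∣ ζ)).card ≤
      (Finset.Icc (1 : ℤ) ⌊4 * x / g⌋ ×ˢ
        (Finset.Icc (-⌊T * B / g⌋) ⌊T * B / g⌋).erase 0).card := by
    apply Finset.card_le_card_of_injOn (fun ζ : G => (ζ.re / (g : ℤ), ζ.im / (g : ℤ)))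
    · intro ζ hζ
      rw [Finset.mem_coe, Finset.mem_filter] at hζ
      obtain ⟨hζ, hi, hd⟩ := hζ
      obtain ⟨a1, a2, a3⟩ := c2_mem hx hζ
      rw [show (g : G) = ((g : ℤ) : G) by push_cast; rfl, Zsqrtd.intCast_dvd] at hd
      obtain ⟨⟨u, hu⟩, ⟨v, hv⟩⟩ := hd
      have b1 : ζ.re / (g : ℤ) = u := by rw [hu]; exact Int.mul_ediv_cancel_left _ hgz.ne'
      have b2 : ζ.im / (g : ℤ) = v := by rw [hv]; exact Int.mul_ediv_cancel_left _ hgz.ne'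
      have c1 : (ζ.re : ℝ) = g * u := by rw [hu]; push_cast; ring
      have c2 : (ζ.im : ℝ) = g * v := by rw [hv]; push_cast; ring
      rw [abs_le] at a3
      have d1 : u ≤ ⌊4 * x / g⌋ := by
        apply Int.le_floor.2
        rw [le_div_iff₀ hg0]
        linarith
      have d2 : v ≤ ⌊T * B / g⌋ := by
        apply Int.le_floor.2
        rw [le_div_iff₀ hg0]
        linarith [a3.2]
      have d3 : -v ≤ ⌊T * B / g⌋ := by
        apply Int.le_floor.2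
        rw [le_div_iff₀ hg0]
        push_cast
        linarith [a3.1]
      have d4 : 1 ≤ u := by
        by_contra hcon
        have : u ≤ 0 := by omega
        have : (g : ℤ) * u ≤ 0 := mul_nonpos_of_nonneg_of_nonpos hgz.le this
        omega
      have d5 : v ≠ 0 := by
        rintro rfl
        apply hi
        rw [hv, mul_zero]
      rw [Finset.mem_coe, Finset.mem_product, Finset.mem_Icc, Finset.mem_erase, Finset.mem_Icc]
      show ((1 ≤ ζ.re / (g : ℤ) ∧ ζ.re / (g : ℤ) ≤ ⌊4 * x / g⌋) ∧ ζ.im / (g : ℤ) ≠ 0 ∧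
        -⌊T * B / g⌋ ≤ ζ.im / (g : ℤ) ∧ ζ.im / (g : ℤ) ≤ ⌊T * B / g⌋)
      rw [b1, b2]
      exact ⟨⟨d4, d1⟩, d5, by omega, d2⟩
    · intro ζ hζ ζ' hζ' h
      rw [Finset.mem_coe, Finset.mem_filter] at hζ hζ'
      obtain ⟨-, -, hd⟩ := hζ
      obtain ⟨-, -, hd'⟩ := hζ'
      rw [show (g : G) = ((g : ℤ) : G) by push_cast; rfl, Zsqrtd.intCast_dvd] at hd hd'
      have e1 : ζ.re / (g : ℤ) = ζ'.re / (g : ℤ) := congrArg Prod.fst h
      have e2 : ζ.im / (g : ℤ) = ζ'.im / (g : ℤ) := congrArg Prod.snd h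
      apply c2_ext
      · rw [← Int.ediv_mul_cancel hd.1, ← Int.ediv_mul_cancel hd'.1, e1]
      · rw [← Int.ediv_mul_cancel hd.2, ← Int.ediv_mul_cancel hd'.2, e2]
  have h2 : (0 : ℤ) ≤ ⌊4 * x / g⌋ := Int.floor_nonneg.2 (by positivity)
  have h3 : (0 : ℤ) ≤ ⌊T * B / g⌋ := Int.floor_nonneg.2 (by positivity)
  have h5 : (((Rg T x B).filter (fun ζ => ζ.im ≠ 0 ∧ (g : G) ∣ ζ)).card : ℝ) ≤
      ((Finset.Icc (1 : ℤ) ⌊4 * x / g⌋).card : ℝ) *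
        (((Finset.Icc (-⌊T * B / g⌋) ⌊T * B / g⌋).erase 0).card : ℝ) := by
    rw [Finset.card_product] at h1
    exact_mod_cast h1
  have h6 : (((Finset.Icc (-⌊T * B / g⌋) ⌊T * B / g⌋).erase 0).card : ℝ) =
      2 * (⌊T * B / g⌋ : ℝ) := by
    have h7 : (0 : ℤ) ∈ Finset.Icc (-⌊T * B / g⌋) ⌊T * B / g⌋ := by
      rw [Finset.mem_Icc]
      omega
    have h8 := Finset.card_erase_add_one h7
    have h9 : (((Finset.Icc (-⌊T * B / g⌋) ⌊T * B / g⌋).erase 0).card : ℝ) + 1 =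
        ((Finset.Icc (-⌊T * B / g⌋) ⌊T * B / g⌋).card : ℝ) := by exact_mod_cast h8
    rw [c2_card (by omega)] at h9
    push_cast at h9
    linarith
  rw [h6, c2_card (by omega)] at h5
  have h7 : (⌊4 * x / g⌋ : ℝ) ≤ 4 * x / g := Int.floor_le _
  have h8 : (⌊T * B / g⌋ : ℝ) ≤ T * B / g := Int.floor_le _
  have h9 : (0 : ℝ) ≤ (⌊T * B / g⌋ : ℝ) := by exact_mod_cast h3
  calc (((Rg T x B).filter (fun ζ => ζ.im ≠ 0 ∧ (g : G) ∣ ζ)).card : ℝ)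
      ≤ ((⌊4 * x / g⌋ : ℝ) + 1 - ((1 : ℤ) : ℝ)) * (2 * (⌊T * B / g⌋ : ℝ)) := h5
    _ ≤ (4 * x / g) * (2 * (T * B / g)) := by
        apply mul_le_mul (by push_cast; linarith) (by linarith) (by linarith) (by positivity)
    _ = 8 * T * B * x * ((g : ℝ) ^ 2)⁻¹ := by
        field_simp
        ring

open Classical in
theorem content_count_pr {T x B : ℝ} (hT : 1 ≤ T) (hB : 1 ≤ B) (hBx : B ≤ x) (G₀ : ℕ)
    (hG : 1 ≤ G₀) :
    (((Rg T x B).filter (fun ζ => ∃ g : ℕ, G₀ < g ∧ (g : G) ∣ ζ)).card : ℝ) ≤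
      16 * T * B * x * (1 / G₀ + 1 / B) := by
  have hx : 1 ≤ x := hB.trans hBx
  have hTB : 1 ≤ T * B := by nlinarith
  have hsub : (Rg T x B).filter (fun ζ => ∃ g : ℕ, G₀ < g ∧ (g : G) ∣ ζ) ⊆
      (Rg T x B).filter (fun ζ => ζ.im = 0) ∪
        (Finset.Ioc G₀ ⌊4 * x⌋₊).biUnion
          (fun g => (Rg T x B).filter (fun ζ => ζ.im ≠ 0 ∧ (g : G) ∣ ζ)) := by
    intro ζ hζ
    rw [Finset.mem_filter] at hζ
    obtain ⟨hζ, g, hg, hd⟩ := hζ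
    rw [Finset.mem_union]
    by_cases hi : ζ.im = 0
    · exact Or.inl (Finset.mem_filter.2 ⟨hζ, hi⟩)
    · right
      rw [Finset.mem_biUnion]
      refine ⟨g, ?_, Finset.mem_filter.2 ⟨hζ, hi, hd⟩⟩
      obtain ⟨a1, a2, -⟩ := c2_mem hx hζ
      rw [show (g : G) = ((g : ℤ) : G) by push_cast; rfl, Zsqrtd.intCast_dvd] at hd
      have h1 : (g : ℤ) ≤ ζ.re := Int.le_of_dvd (by omega) hd.1
      have h2 : (g : ℝ) ≤ (ζ.re : ℝ) := by exact_mod_cast h1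
      rw [Finset.mem_Ioc]
      exact ⟨hg, Nat.le_floor (h2.trans a2)⟩
  have h0 : (((Rg T x B).filter (fun ζ => ζ.im = 0)).card : ℝ) ≤ 4 * x := by
    have h1 : ((Rg T x B).filter (fun ζ => ζ.im = 0)).card ≤ (Finset.Icc (1 : ℤ) ⌊4 * x⌋).card := by
      apply Finset.card_le_card_of_injOn (fun ζ : G => ζ.re)
      · intro ζ hζ
        rw [Finset.mem_coe, Finset.mem_filter] at hζ
        obtain ⟨a1, a2, -⟩ := c2_mem hx hζ.1
        rw [Finset.mem_coe, Finset.mem_Icc]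
        exact ⟨a1, Int.le_floor.2 a2⟩
      · intro ζ hζ ζ' hζ' h
        rw [Finset.mem_coe, Finset.mem_filter] at hζ hζ'
        exact c2_ext h (hζ.2.trans hζ'.2.symm)
    have h2 : (0 : ℤ) ≤ ⌊4 * x⌋ := Int.floor_nonneg.2 (by linarith)
    have h3 : (((Rg T x B).filter (fun ζ => ζ.im = 0)).card : ℝ) ≤
        ((Finset.Icc (1 : ℤ) ⌊4 * x⌋).card : ℝ) := by exact_mod_cast h1
    rw [c2_card (by omega)] at h3
    have h4 : (⌊4 * x⌋ : ℝ) ≤ 4 * x := Int.floor_le _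
    push_cast at h3
    linarith
  have hsum : ∑ g ∈ Finset.Ioc G₀ ⌊4 * x⌋₊, ((g : ℝ) ^ 2)⁻¹ ≤ 1 / (G₀ : ℝ) := by
    rcases le_or_gt G₀ ⌊4 * x⌋₊ with hle | hlt
    · refine (sum_Ioc_inv_sq_le_sub (by omega) hle).trans ?_
      rw [one_div]
      have : (0 : ℝ) ≤ ((⌊4 * x⌋₊ : ℕ) : ℝ)⁻¹ := by positivity
      linarith
    · rw [Finset.Ioc_eq_empty (by omega), Finset.sum_empty]
      positivity
  have hB0 : 0 < B := by linarith
  have hG0 : (0 : ℝ) < G₀ := by exact_mod_cast hG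
  calc (((Rg T x B).filter (fun ζ => ∃ g : ℕ, G₀ < g ∧ (g : G) ∣ ζ)).card : ℝ)
      ≤ (((Rg T x B).filter (fun ζ => ζ.im = 0) ∪
        (Finset.Ioc G₀ ⌊4 * x⌋₊).biUnion
          (fun g => (Rg T x B).filter (fun ζ => ζ.im ≠ 0 ∧ (g : G) ∣ ζ))).card : ℝ) := by
        exact_mod_cast Finset.card_le_card hsub
    _ ≤ (((Rg T x B).filter (fun ζ => ζ.im = 0)).card : ℝ) +
        (((Finset.Ioc G₀ ⌊4 * x⌋₊).biUnion
          (fun g => (Rg T x B).filter (fun ζ => ζ.im ≠ 0 ∧ (g : G) ∣ ζ))).card : ℝ) := by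
        exact_mod_cast Finset.card_union_le _ _
    _ ≤ 4 * x + ∑ g ∈ Finset.Ioc G₀ ⌊4 * x⌋₊,
          (((Rg T x B).filter (fun ζ => ζ.im ≠ 0 ∧ (g : G) ∣ ζ)).card : ℝ) := by
        refine add_le_add h0 ?_
        exact_mod_cast Finset.card_biUnion_le
    _ ≤ 4 * x + ∑ g ∈ Finset.Ioc G₀ ⌊4 * x⌋₊, 8 * T * B * x * ((g : ℝ) ^ 2)⁻¹ := by
        refine add_le_add le_rfl (Finset.sum_le_sum fun g hg => ?_)
        rw [Finset.mem_Ioc] at hg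
        exact c2_g hT hB hBx (by omega)
    _ = 4 * x + 8 * T * B * x * ∑ g ∈ Finset.Ioc G₀ ⌊4 * x⌋₊, ((g : ℝ) ^ 2)⁻¹ := by
        rw [Finset.mul_sum]
    _ ≤ 4 * x + 8 * T * B * x * (1 / (G₀ : ℝ)) := by
        refine add_le_add le_rfl (mul_le_mul_of_nonneg_left hsum (by positivity))
    _ ≤ 16 * T * B * x * (1 / G₀ + 1 / B) := by
        have e1 : 16 * T * B * x * (1 / B) = 16 * T * x := by
          field_simp
        have e2 : 0 ≤ 8 * T * B * x * (1 / (G₀ : ℝ)) := by positivity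
        have e3 : 16 * T * B * x * (1 / (G₀ : ℝ) + 1 / B) =
            2 * (8 * T * B * x * (1 / (G₀ : ℝ))) + 16 * T * B * x * (1 / B) := by ring
        rw [e3, e1]
        nlinarith

open Classical in
theorem strip_count_pr {x B a h : ℝ} (hB : 1 ≤ B) (hBx : B ≤ x) (hh : 0 ≤ h) (σ : ℤ)
    (hσ : σ = 1 ∨ σ = -1) :
    (((Rg 1 x B).filter (fun ζ => (ζ.re : ℝ) ≤ x ∧ a ≤ ((σ * ζ.im : ℤ) : ℝ) ∧
      ((σ * ζ.im : ℤ) : ℝ) ≤ a + h)).card : ℝ) ≤ x * (h + 1) := by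
  have hx : 1 ≤ x := hB.trans hBx
  have hσ0 : σ ≠ 0 := by rcases hσ with h | h <;> omega
  have h1 : ((Rg 1 x B).filter (fun ζ => (ζ.re : ℝ) ≤ x ∧ a ≤ ((σ * ζ.im : ℤ) : ℝ) ∧
      ((σ * ζ.im : ℤ) : ℝ) ≤ a + h)).card ≤
      (Finset.Icc (1 : ℤ) ⌊x⌋ ×ˢ Finset.Icc ⌈a⌉ ⌊a + h⌋).card := by
    apply Finset.card_le_card_of_injOn (fun ζ : G => (ζ.re, σ * ζ.im))
    · intro ζ hζ
      rw [Finset.mem_coe, Finset.mem_filter] at hζ
      obtain ⟨hζ, b1, b2, b3⟩ := hζ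
      obtain ⟨a1, -, -⟩ := c2_mem hx hζ
      rw [Finset.mem_coe, Finset.mem_product, Finset.mem_Icc, Finset.mem_Icc]
      exact ⟨⟨a1, Int.le_floor.2 b1⟩, Int.ceil_le.2 b2, Int.le_floor.2 b3⟩
    · intro ζ _ ζ' _ h
      have e2 : σ * ζ.im = σ * ζ'.im := congrArg Prod.snd h
      exact c2_ext (congrArg Prod.fst h) (mul_left_cancel₀ hσ0 e2)
  have h2 : (0 : ℤ) ≤ ⌊x⌋ := Int.floor_nonneg.2 (by linarith)
  have h5 : (((Rg 1 x B).filter (fun ζ => (ζ.re : ℝ) ≤ x ∧ a ≤ ((σ * ζ.im : ℤ) : ℝ) ∧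
      ((σ * ζ.im : ℤ) : ℝ) ≤ a + h)).card : ℝ) ≤
      ((Finset.Icc (1 : ℤ) ⌊x⌋).card : ℝ) * ((Finset.Icc ⌈a⌉ ⌊a + h⌋).card : ℝ) := by
    rw [Finset.card_product] at h1
    exact_mod_cast h1
  have h6 : ((Finset.Icc ⌈a⌉ ⌊a + h⌋).card : ℝ) ≤ h + 1 := by
    rcases le_or_gt ⌈a⌉ (⌊a + h⌋ + 1) with hle | hlt
    · rw [c2_card hle]
      have := Int.floor_le (a + h)
      have := Int.le_ceil a
      linarith
    · rw [Finset.Icc_eq_empty (by omega), Finset.card_empty]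
      push_cast
      linarith
  rw [c2_card (by omega)] at h5
  have h7 : (⌊x⌋ : ℝ) ≤ x := Int.floor_le _
  have h8 : (0 : ℝ) ≤ (⌊x⌋ : ℝ) := by exact_mod_cast h2
  refine h5.trans ?_
  apply mul_le_mul (by push_cast; linarith) h6 (by positivity) (by linarith)

end Pool.Agent.TF

namespace Pool.Agent.TF

theorem region_count : type_of% @region_count_pr := @region_count_pr
theorem content_count : type_of% @content_count_pr := @content_count_pr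
theorem strip_count : type_of% @strip_count_pr := @strip_count_pr

end Pool.Agent.TF
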