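import Mathlib
import Pool.Agent.Lib_helper18.TF.Defs
import Pool.Agent.Lib_helper10.T2F.BAS
import Pool.Agent.Lib_helper10.T2F.PEL
import Pool.Agent.Lib_helper10.T2F.CNT
import Pool.Agent.Lib_helper10.T2F.SLW
import Pool.Agent.Lib_helper10.T2F.SLG
import Pool.Agent.Lib_helper10.T2F.MER
import Pool.Agent.Lib_helper10.T2F.DSR
import Pool.Agent.Lib_helper73.Var.LS
import Pool.Agent.Lib_helper18.TFF.DefsC
import Pool.Agent.Lib_helper10.T2F.MOE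
import Pool.Agent.Lib_helper18.TFF.C1
import Pool.Agent.Lib_helper18.TFF.C2

/-!
# TF, block C4: splitting according to the content (helper45)
-/

set_option autoImplicit false

namespace Pool.Agent.TF

open Pool.Agent.T2 Filter Topology

theorem c4_mem_pr1 {P Q : ℝ} {p : ℕ} (h : p ∈ pr1 P Q) :
    p.Prime ∧ p % 4 = 1 ∧ P < (p : ℝ) ∧ (p : ℝ) ≤ Q := by
  unfold pr1 at h
  exact (Finset.mem_filter.mp h).2

/-- the weight -/
noncomputable def c4_W (ψ f : ℝ → ℝ) (σ : ℤ) (x B : ℝ) (M : ℕ) (r : ℤ) (ζ : G) : ℝ :=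
  (if (M : ℤ) ∣ σ * ζ.im - r then 1 else 0) *
      (ψ (((σ * ζ.im : ℤ) : ℝ) / B) * f ((ζ.re : ℝ) / x))

theorem c4_W_nonneg {ψ f : ℝ → ℝ} {δ Λ K : ℝ} (hψ : Cut 0 K ψ) (hf : Cut δ Λ f) (σ : ℤ)
    (x B : ℝ) (M : ℕ) (r : ℤ) (ζ : G) : 0 ≤ c4_W ψ f σ x B M r ζ := by
  unfold c4_W
  refine mul_nonneg ?_ (mul_nonneg (hψ.nonneg _) (hf.nonneg _))
  split_ifs <;> norm_num

theorem c4_W_le {ψ f : ℝ → ℝ} {δ Λ K : ℝ} (hψ : Cut 0 K ψ) (hf : Cut δ Λ f) (σ : ℤ)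
    (x B : ℝ) (M : ℕ) (r : ℤ) (ζ : G) : c4_W ψ f σ x B M r ζ ≤ 1 := by
  unfold c4_W
  have h1 : ψ (((σ * ζ.im : ℤ) : ℝ) / B) * f ((ζ.re : ℝ) / x) ≤ 1 :=
    mul_le_one₀ (hψ.le_one _) (hf.nonneg _) (hf.le_one _)
  have h0 : 0 ≤ ψ (((σ * ζ.im : ℤ) : ℝ) / B) * f ((ζ.re : ℝ) / x) :=
    mul_nonneg (hψ.nonneg _) (hf.nonneg _)
  split_ifs
  · rw [one_mul]; exact h1
  · rw [zero_mul]; norm_num

/-- the support of the weight -/
theorem c4_W_supp {ψ f : ℝ → ℝ} {δ Λ K : ℝ} (hδ : 0 < δ) (hψ : Cut 0 K ψ) (hf : Cut δ Λ f)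
    {σ : ℤ} (hσ : σ = 1 ∨ σ = -1) {x B : ℝ} (hB : 0 < B) (hBx : B ≤ x) {M : ℕ} {r : ℤ} {ζ : G}
    (h : c4_W ψ f σ x B M r ζ ≠ 0) :
    0 < ζ.re ∧ |(ζ.im : ℝ)| ≤ B ∧ (nn ζ : ℝ) ≤ 2 * x ^ 2 := by
  have hx : 0 < x := lt_of_lt_of_le hB hBx
  unfold c4_W at h
  have h1 := right_ne_zero_of_mul h
  have h2 := hψ.supp _ (left_ne_zero_of_mul h1)
  have h3 := hf.supp _ (right_ne_zero_of_mul h1)
  rw [le_div_iff₀ hB, div_le_iff₀ hB] at h2
  rw [le_div_iff₀ hx, div_le_iff₀ hx] at h3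
  have hre : (0 : ℝ) < (ζ.re : ℝ) := lt_of_lt_of_le (mul_pos hδ hx) h3.1
  have him : |(ζ.im : ℝ)| ≤ B := by
    rcases hσ with rfl | rfl
    · push_cast at h2
      rw [abs_le]
      constructor <;> linarith [h2.1, h2.2]
    · push_cast at h2
      rw [abs_le]
      constructor <;> linarith [h2.1, h2.2]
  refine ⟨by exact_mod_cast hre, him, ?_⟩
  rw [bas_cast_real]
  have h4 : (ζ.re : ℝ) ^ 2 ≤ x ^ 2 := pow_le_pow_left₀ hre.le (by linarith [h3.2]) 2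
  have h5 : (ζ.im : ℝ) ^ 2 ≤ x ^ 2 := by
    rw [← sq_abs]
    exact pow_le_pow_left₀ (abs_nonneg _) (him.trans hBx) 2
  linarith

/-- real version of the bijection -/
theorem c4_bij (F : G → ℝ) (x : ℝ) (d : ℕ) (hd : 1 ≤ d) :
    ∑ z ∈ PB (x / (d : ℝ) ^ 2), F (d * z) = ∑ z ∈ (Bl x).filter (fun z => moe_g z = d), F z := by
  classical
  have h := moe_bij' (fun z => (F z : ℂ)) x d hd
  have h2 : ((∑ z ∈ PB (x / (d : ℝ) ^ 2), F (d * z) : ℝ) : ℂ) =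
      ((∑ z ∈ (Bl x).filter (fun z => moe_g z = d), F z : ℝ) : ℂ) := by
    rw [Complex.ofReal_sum, Complex.ofReal_sum]
    convert h using 2
  exact_mod_cast h2

/-- the sum over small contents -/
theorem c4_small (F : G → ℝ) (Z Z' : ℝ) (hZ : Z ≤ Z') (hF : ∀ z, z ∈ Bl Z' → Z < (nn z : ℝ) →
    F z = 0) (G₀ : ℕ) :
    ∑ g ∈ Finset.Icc 1 G₀, ∑ w ∈ PB (Z' / (g : ℝ) ^ 2), F (g * w) =
      ∑ z ∈ (Bl Z).filter (fun z => moe_g z ≤ G₀), F z := by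
  classical
  have h1 : ∀ g ∈ Finset.Icc 1 G₀, ∑ w ∈ PB (Z' / (g : ℝ) ^ 2), F (g * w) =
      ∑ z ∈ (Bl Z).filter (fun z => moe_g z = g), F z := by
    intro g hg
    rw [c4_bij F Z' g (Finset.mem_Icc.mp hg).1]
    symm
    apply Finset.sum_subset
    · intro z hz
      rw [Finset.mem_filter, mem_Bl] at hz ⊢
      exact ⟨⟨hz.1.1, hz.1.2.trans hZ⟩, hz.2⟩
    · intro z hz hz'
      rw [Finset.mem_filter] at hz hz'
      apply hF z hz.1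
      by_contra hcon
      push Not at hcon
      exact hz' ⟨mem_Bl.mpr ⟨(mem_Bl.mp hz.1).1, hcon⟩, hz.2⟩
  rw [Finset.sum_congr rfl h1]
  have h2 : (Bl Z).filter (fun z => moe_g z ≤ G₀) =
      (Finset.Icc 1 G₀).biUnion (fun g => (Bl Z).filter (fun z => moe_g z = g)) := by
    ext z
    rw [Finset.mem_filter, Finset.mem_biUnion]
    constructor
    · rintro ⟨h3, h4⟩
      exact ⟨moe_g z, Finset.mem_Icc.mpr ⟨moe_g_pos (mem_Bl.mp h3).1, h4⟩,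
        Finset.mem_filter.mpr ⟨h3, rfl⟩⟩
    · rintro ⟨g, hg, hz⟩
      rw [Finset.mem_filter] at hz
      exact ⟨hz.1, by rw [hz.2]; exact (Finset.mem_Icc.mp hg).2⟩
  rw [h2, Finset.sum_biUnion]
  intro a _ b _ hab
  rw [Function.onFun, Finset.disjoint_left]
  intro z hz hz'
  exact hab ((Finset.mem_filter.mp hz).2.symm.trans (Finset.mem_filter.mp hz').2)

theorem c4_W_mul (ψ f : ℝ → ℝ) (σ : ℤ) (x B : ℝ) (M : ℕ) (r : ℤ) (v : G) (z : G) :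
    c4_W ψ f σ x B M r (v * z) = (if (M : ℤ) ∣ σ * (v * z).im - r then 1 else 0) *
      (ψ (((σ * (v * z).im : ℤ) : ℝ) / B) * f (((v * z).re : ℝ) / x)) := rfl

open Classical in
/-- one scale -/
theorem c4_one {ψ f : ℝ → ℝ} {δ Λ K : ℝ} (hδ : 0 < δ) (hψ : Cut 0 K ψ) (hf : Cut δ Λ f)
    {σ : ℤ} (hσ : σ = 1 ∨ σ = -1) {x B Y : ℝ} (hB : 0 < B) (hBx : B ≤ x) (hY : 0 < Y) (M : ℕ)
    (r : ℤ) (om : ℕ → ℝ) (hom : ∀ p, |om p| ≤ 1) (Y' : ℝ) (hY' : x ^ 2 / Y ≤ Y') (G₀ : ℕ) :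
    |SC ψ f om σ x B Y M r - ∑ g ∈ Finset.Icc 1 G₀, SG ψ f om σ x B Y M r g
      (2 * Y' / (g : ℝ) ^ 2)| ≤
      ∑ p ∈ pr1 Y (2 * Y), (((Bl (2 * x ^ 2 / Y)).filter (fun z => pel p * z ∈
        (Rg 1 x B).filter (fun ζ => ∃ g : ℕ, G₀ < g ∧ (g : G) ∣ ζ))).card : ℝ) := by
  have hx : 0 < x := lt_of_lt_of_le hB hBx
  have hZ : 2 * x ^ 2 / Y ≤ 2 * Y' := by
    have : 2 * x ^ 2 / Y = 2 * (x ^ 2 / Y) := by ring
    linarith
  -- the function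
  set F : ℕ → G → ℝ := fun p z => gl z * c4_W ψ f σ x B M r (pel p * z) with hF
  have hSC : SC ψ f om σ x B Y M r =
      ∑ p ∈ pr1 Y (2 * Y), om p * ∑ z ∈ Bl (2 * x ^ 2 / Y), F p z := rfl
  have hSG : ∑ g ∈ Finset.Icc 1 G₀, SG ψ f om σ x B Y M r g (2 * Y' / (g : ℝ) ^ 2) =
      ∑ p ∈ pr1 Y (2 * Y), om p *
        ∑ z ∈ (Bl (2 * x ^ 2 / Y)).filter (fun z => moe_g z ≤ G₀), F p z := by
    unfold SG
    rw [Finset.sum_comm]
    refine Finset.sum_congr rfl (fun p hp => ?_)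
    rw [← Finset.mul_sum]
    congr 1
    obtain ⟨hpp, h4, hp1, -⟩ := c4_mem_pr1 hp
    have h5 := c4_small (F p) (2 * x ^ 2 / Y) (2 * Y') hZ ?_ G₀
    · have h7 : ∑ z ∈ (Bl (2 * x ^ 2 / Y)).filter (fun z => moe_g z ≤ G₀), F p z =
          ∑ g ∈ Finset.Icc 1 G₀, ∑ w ∈ PB (2 * Y' / (g : ℝ) ^ 2), F p (g * w) := by
        rw [h5]
      rw [h7]
      refine Finset.sum_congr rfl (fun g hg => Finset.sum_congr rfl (fun w _ => ?_))
      have h8 : gl ((g : G) * w) = gl w := by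
        rw [gl_mul, gl_nat (Finset.mem_Icc.mp hg).1, one_mul]
      show _ = gl ((g : G) * w) * c4_W ψ f σ x B M r (pel p * ((g : G) * w))
      rw [h8]
      rfl
    · intro z hz hlt
      show gl z * c4_W ψ f σ x B M r (pel p * z) = 0
      by_contra hcon
      have h6 := c4_W_supp hδ hψ hf hσ hB hBx (right_ne_zero_of_mul hcon)
      have h7 : (nn (pel p * z) : ℝ) = (p : ℝ) * (nn z : ℝ) := by
        rw [nn_mul, (pel_spec hpp h4).1]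
        push_cast
        ring
      rw [h7] at h6
      rw [div_lt_iff₀ hY] at hlt
      have h8 : (nn z : ℝ) * Y ≤ (p : ℝ) * (nn z : ℝ) := by
        rw [mul_comm]
        exact mul_le_mul_of_nonneg_right hp1.le (Nat.cast_nonneg _)
      linarith [h6.2.2]
  rw [hSC, hSG, ← Finset.sum_sub_distrib]
  refine (Finset.abs_sum_le_sum_abs _ _).trans (Finset.sum_le_sum (fun p hp => ?_))
  rw [← mul_sub, abs_mul]
  have h9 : ∑ z ∈ Bl (2 * x ^ 2 / Y), F p z -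
      ∑ z ∈ (Bl (2 * x ^ 2 / Y)).filter (fun z => moe_g z ≤ G₀), F p z =
      ∑ z ∈ (Bl (2 * x ^ 2 / Y)).filter (fun z => ¬ moe_g z ≤ G₀), F p z := by
    rw [← Finset.sum_filter_add_sum_filter_not (Bl (2 * x ^ 2 / Y)) (fun z => moe_g z ≤ G₀)]
    ring
  rw [h9]
  have h10 : |∑ z ∈ (Bl (2 * x ^ 2 / Y)).filter (fun z => ¬ moe_g z ≤ G₀), F p z| ≤
      (((Bl (2 * x ^ 2 / Y)).filter (fun z => pel p * z ∈
        (Rg 1 x B).filter (fun ζ => ∃ g : ℕ, G₀ < g ∧ (g : G) ∣ ζ))).card : ℝ) := by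
    have h11 : ∀ z ∈ (Bl (2 * x ^ 2 / Y)).filter (fun z => ¬ moe_g z ≤ G₀), |F p z| ≤
        if pel p * z ∈ (Rg 1 x B).filter (fun ζ => ∃ g : ℕ, G₀ < g ∧ (g : G) ∣ ζ) then 1 else 0 := by
      intro z hz
      rw [Finset.mem_filter, mem_Bl] at hz
      obtain ⟨⟨hz0, hzn⟩, hzg⟩ := hz
      obtain ⟨hpp, h4, hp1, hp2⟩ := c4_mem_pr1 hp
      by_cases hW : c4_W ψ f σ x B M r (pel p * z) = 0
      · have : F p z = 0 := by
          show gl z * c4_W ψ f σ x B M r (pel p * z) = 0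
          rw [hW, mul_zero]
        rw [this, abs_zero]
        split_ifs <;> norm_num
      · have h12 := c4_W_supp hδ hψ hf hσ hB hBx hW
        have h13 : pel p * z ≠ 0 := mul_ne_zero (pel_prime hpp h4).ne_zero hz0
        have h14 : pel p * z ∈ (Rg 1 x B).filter (fun ζ => ∃ g : ℕ, G₀ < g ∧ (g : G) ∣ ζ) := by
          rw [Finset.mem_filter]
          refine ⟨?_, moe_g z, by omega, ?_⟩
          · unfold Rg
            rw [Finset.mem_filter, mem_Bl]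
            refine ⟨⟨h13, ?_⟩, h12.1, ?_⟩
            · have : 0 ≤ x ^ 2 := sq_nonneg x
              linarith [h12.2.2]
            · rw [one_mul]; exact h12.2.1
          · exact ((moe_dvd (moe_g z) z).mpr dvd_rfl).mul_left _
        rw [if_pos h14]
        show |gl z * c4_W ψ f σ x B M r (pel p * z)| ≤ 1
        rw [abs_mul]
        refine mul_le_one₀ (gl_abs z) (abs_nonneg _) ?_
        rw [abs_of_nonneg (c4_W_nonneg hψ hf σ x B M r _)]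
        exact c4_W_le hψ hf σ x B M r _
    refine (Finset.abs_sum_le_sum_abs _ _).trans ((Finset.sum_le_sum h11).trans ?_)
    rw [Finset.sum_boole]
    have h15 : (((Bl (2 * x ^ 2 / Y)).filter (fun z => ¬ moe_g z ≤ G₀)).filter (fun z => pel p * z ∈
        (Rg 1 x B).filter (fun ζ => ∃ g : ℕ, G₀ < g ∧ (g : G) ∣ ζ))).card ≤
        ((Bl (2 * x ^ 2 / Y)).filter (fun z => pel p * z ∈
        (Rg 1 x B).filter (fun ζ => ∃ g : ℕ, G₀ < g ∧ (g : G) ∣ ζ))).card :=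
      Finset.card_le_card (Finset.filter_subset_filter _ (Finset.filter_subset _ _))
    exact_mod_cast h15
  calc |om p| * |∑ z ∈ (Bl (2 * x ^ 2 / Y)).filter (fun z => ¬ moe_g z ≤ G₀), F p z| ≤
      1 * |∑ z ∈ (Bl (2 * x ^ 2 / Y)).filter (fun z => ¬ moe_g z ≤ G₀), F p z| :=
        mul_le_mul_of_nonneg_right (hom p) (abs_nonneg _)
    _ ≤ _ := by rw [one_mul]; exact h10

theorem content_split_pr {β τ : ℝ} (hτ : 0 < τ) (hβ : 2 * τ < β) (hβ1 : β < 1) (M : ℕ)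
    (hM : 1 ≤ M) (r : ℤ) {ε : ℝ} (hε : 0 < ε) :
    ∃ (G₀ : ℕ) (x₀ : ℝ), 1 ≤ G₀ ∧ ∀ x : ℝ, x₀ ≤ x →
      ∀ (δ Λ K : ℝ) (ψ f : ℝ → ℝ), 0 < δ → Cut 0 K ψ → Cut δ Λ f → ∀ om : ℕ → ℝ,
      (∀ p, |om p| ≤ 1) → ∀ σ : ℤ, (σ = 1 ∨ σ = -1) → ∀ Y' : ℕ → ℕ,
      (∀ j, x ^ 2 / YY β τ x j ≤ (Y' j : ℝ)) →
      ∑ j ∈ Finset.range (JJ β τ x),
        |SC ψ f om σ x (x ^ β) (YY β τ x j) M r -
          ∑ g ∈ Finset.Icc 1 G₀, SG ψ f om σ x (x ^ β) (YY β τ x j) M r g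
            (2 * Y' j / (g : ℝ) ^ 2)| ≤ ε * x ^ (1 + β) := by
  classical
  obtain ⟨C, hC1, hC⟩ := mult_count hτ hβ hβ1
  have hβ0 : 0 < β := by linarith
  obtain ⟨G₀, hG₀⟩ := exists_nat_gt (32 * C / ε)
  have hG1 : 1 ≤ G₀ := by
    by_contra h
    have h0 : G₀ = 0 := by omega
    rw [h0] at hG₀
    have : 0 < 32 * C / ε := by positivity
    simp at hG₀
    linarith
  have hG0 : (0 : ℝ) < G₀ := by exact_mod_cast hG1
  have hlim : ∀ᶠ x : ℝ in atTop, 32 * C / ε ≤ x ^ β :=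
    (tendsto_rpow_atTop hβ0).eventually_ge_atTop _
  obtain ⟨x₁, hx₁⟩ := eventually_atTop.mp hlim
  refine ⟨G₀, max 2 x₁, hG1, ?_⟩
  intro x hx δ Λ K ψ f hδ hψ hf om hom σ hσ Y' hY'
  have hx2 : 2 ≤ x := (le_max_left _ _).trans hx
  have hx1 : (1 : ℝ) ≤ x := by linarith
  have hx0 : (0 : ℝ) < x := by linarith
  have hB32 := hx₁ x ((le_max_right _ _).trans hx)
  have hB1 : 1 ≤ x ^ β := Real.one_le_rpow hx1 hβ0.le
  have hB0 : 0 < x ^ β := by linarith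
  have hBx : x ^ β ≤ x := by
    conv_rhs => rw [← Real.rpow_one x]
    exact Real.rpow_le_rpow_of_exponent_le hx1 hβ1.le
  set R := (Rg 1 x (x ^ β)).filter (fun ζ => ∃ g : ℕ, G₀ < g ∧ (g : G) ∣ ζ) with hR
  have h1 : ∀ j ∈ Finset.range (JJ β τ x), |SC ψ f om σ x (x ^ β) (YY β τ x j) M r -
          ∑ g ∈ Finset.Icc 1 G₀, SG ψ f om σ x (x ^ β) (YY β τ x j) M r g
            (2 * Y' j / (g : ℝ) ^ 2)| ≤
      ∑ p ∈ pr1 (YY β τ x j) (2 * YY β τ x j),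
        (((Bl (2 * x ^ 2 / YY β τ x j)).filter (fun z => pel p * z ∈ R)).card : ℝ) := by
    intro j _
    have hY : 0 < YY β τ x j := by
      unfold YY
      positivity
    exact c4_one hδ hψ hf hσ hB0 hBx hY M r om hom (Y' j) (hY' j) G₀
  refine (Finset.sum_le_sum h1).trans ?_
  have hR16 : ∀ ζ ∈ R, ζ ≠ 0 ∧ (nn ζ : ℝ) ≤ 16 * x ^ 2 := by
    intro ζ hζ
    rw [hR, Finset.mem_filter] at hζ
    have h2 := hζ.1
    unfold Rg at h2
    rw [Finset.mem_filter, mem_Bl] at h2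
    exact h2.1
  have h2 := hC x hx2 (fun j => 2 * x ^ 2 / YY β τ x j) R hR16
  refine h2.trans ?_
  have h3 := content_count (T := 1) (x := x) (B := x ^ β) le_rfl hB1 hBx G₀ hG1
  have h4 : (R.card : ℝ) ≤ 16 * 1 * x ^ β * x * (1 / G₀ + 1 / x ^ β) := h3
  have h5 : 16 * C * (1 / G₀) ≤ ε / 2 := by
    rw [div_lt_iff₀ hε] at hG₀
    rw [mul_one_div, div_le_iff₀ hG0]
    linarith
  have h6 : 16 * C * (1 / x ^ β) ≤ ε / 2 := by
    rw [div_le_iff₀ hε] at hB32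
    rw [mul_one_div, div_le_iff₀ hB0]
    linarith
  have h7 : x ^ (1 + β) = x * x ^ β := by
    rw [Real.rpow_add hx0, Real.rpow_one]
  calc C * (R.card : ℝ) ≤ C * (16 * 1 * x ^ β * x * (1 / G₀ + 1 / x ^ β)) :=
        mul_le_mul_of_nonneg_left h4 (by linarith)
    _ = (16 * C * (1 / G₀) + 16 * C * (1 / x ^ β)) * (x * x ^ β) := by ring
    _ ≤ (ε / 2 + ε / 2) * (x * x ^ β) := by
        apply mul_le_mul_of_nonneg_right _ (by positivity)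
        linarith
    _ = ε * x ^ (1 + β) := by rw [h7]; ring



end Pool.Agent.TF

namespace Pool.Agent.TF

theorem content_split : type_of% @content_split_pr := @content_split_pr

end Pool.Agent.TF
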