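import Mathlib
import Pool.Agent.Lib_helper18.TF.Defs
import Pool.Agent.Lib_helper10.T2F.BAS
import Pool.Agent.Lib_helper10.T2F.PEL
import Pool.Agent.Lib_helper10.T2F.CNT
import Pool.Agent.Lib_helper10.T2F.SLW
import Pool.Agent.Lib_helper10.T2F.SLG
import Pool.Agent.Lib_helper10.T2F.MER
import Pool.Agent.Lib_helper10.T2F.DSR
import Pool.Agent.Lib_helper73.Var.LS
import Pool.Agent.Lib_helper18.TFF.DefsC

set_option autoImplicit false

namespace Pool.Agent.TF

open Pool.Agent.T2 Filter Topology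

theorem c5_hat_zero {y : ℝ} (h : 1 ≤ |y|) : hat y = 0 := by
  unfold hat
  exact max_eq_left (by linarith)

theorem c5_hat_nonneg (y : ℝ) : 0 ≤ hat y := le_max_left _ _

theorem c5_lt_of_hat {y : ℝ} (h : hat y ≠ 0) : |y| < 1 := by
  by_contra hc
  exact h (c5_hat_zero (not_lt.1 hc))

theorem hat_part_pr (N : ℕ) (hN : 1 ≤ N) (t : ℝ) (A : ℤ) (hA : |(N : ℝ) * t| + 1 ≤ A) :
    ∑ s ∈ Finset.Icc (-A) A, hat ((N : ℝ) * t - s) = 1 := by
  set y : ℝ := (N : ℝ) * t with hy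
  have h1 : (⌊y⌋ : ℝ) ≤ y := Int.floor_le y
  have h2 : y < ⌊y⌋ + 1 := Int.lt_floor_add_one y
  have h3 := abs_le.1 (show |y| ≤ (A : ℝ) - 1 by linarith)
  have hlo : -A ≤ ⌊y⌋ := by
    apply Int.le_floor.2
    push_cast
    linarith [h3.1]
  have hhi : ⌊y⌋ + 1 ≤ A := by
    have : (⌊y⌋ : ℝ) + 1 ≤ A := by linarith [h3.2]
    exact_mod_cast this
  have hsub : ({⌊y⌋, ⌊y⌋ + 1} : Finset ℤ) ⊆ Finset.Icc (-A) A := by
    intro s hs
    rw [Finset.mem_insert, Finset.mem_singleton] at hs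
    rw [Finset.mem_Icc]
    rcases hs with h | h <;> subst h <;> constructor <;> omega
  rw [← Finset.sum_subset hsub, Finset.sum_pair (by omega)]
  · have e1 : hat (y - (⌊y⌋ : ℤ)) = 1 - (y - ⌊y⌋) := by
      unfold hat
      rw [abs_of_nonneg (by linarith)]
      exact max_eq_right (by linarith)
    have e2 : hat (y - ((⌊y⌋ + 1 : ℤ) : ℝ)) = y - ⌊y⌋ := by
      unfold hat
      push_cast
      rw [abs_of_nonpos (by linarith)]
      rw [max_eq_right (by linarith)]
      ring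
    rw [e1, e2]
    ring
  · intro s _ hs
    rw [Finset.mem_insert, Finset.mem_singleton, not_or] at hs
    apply c5_hat_zero
    rcases lt_trichotomy s ⌊y⌋ with h | h | h
    · have : (s : ℝ) + 1 ≤ ⌊y⌋ := by exact_mod_cast h
      rw [abs_of_nonneg (by linarith)]
      linarith
    · exact absurd h hs.1
    · have h' : ⌊y⌋ + 2 ≤ s := by omega
      have : (⌊y⌋ : ℝ) + 2 ≤ s := by exact_mod_cast h'
      rw [abs_of_nonpos (by linarith)]
      linarith

theorem c5_abs_sin {θ : ℝ} (h : |θ| ≤ Real.pi / 2) : 2 / Real.pi * |θ| ≤ |Real.sin θ| := by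
  have hpi := Real.pi_pos
  rcases le_total 0 θ with h0 | h0
  · rw [abs_of_nonneg h0] at h ⊢
    exact (Real.mul_le_sin h0 h).trans (le_abs_self _)
  · rw [abs_of_nonpos h0] at h ⊢
    have := Real.mul_le_sin (x := -θ) (by linarith) h
    rw [Real.sin_neg] at this
    exact this.trans (neg_le_abs _)

/-- vanishing for large angles -/
theorem ps_supp_pr {ψ f : ℝ → ℝ} {δ Λ K x B u t : ℝ} (hδ : 0 < δ) (hδ1 : δ ≤ 1) (hψ : Cut 0 K ψ)
    (hf : Cut δ Λ f) {σ : ℤ} (hσ : σ = 1 ∨ σ = -1) (hB : 0 < B) (hBx : B ≤ x) (hu : 0 ≤ u)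
    (ht : |t * B / x| ≤ Real.pi + 1) (h0 : Ps ψ f σ x B u t ≠ 0) :
    |t| ≤ 2 / δ ∧ δ ≤ u ∧ |t * B / x| < Real.pi / 2 := by
  have _ := hδ1
  have hx : 0 < x := lt_of_lt_of_le hB hBx
  have hpi := Real.pi_pos
  have hpi3 := Real.pi_gt_three
  have hpi4 := Real.pi_le_four
  unfold Ps at h0
  have h1 := left_ne_zero_of_mul h0
  have h2 := right_ne_zero_of_mul h0
  obtain ⟨ha0, ha1⟩ := hψ.supp _ h1
  obtain ⟨hb0, hb1⟩ := hf.supp _ h2
  set θ : ℝ := t * B / x with hθ
  have hc : 0 < Real.cos θ := by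
    by_contra hc
    rw [not_lt] at hc
    have : u * Real.cos θ ≤ 0 := mul_nonpos_of_nonneg_of_nonpos hu hc
    linarith
  have hδu : δ ≤ u := by
    have := mul_le_mul_of_nonneg_left (Real.cos_le_one θ) hu
    linarith
  have hθ2 : |θ| < Real.pi / 2 := by
    by_contra hn
    rw [not_lt] at hn
    have := Real.cos_nonpos_of_pi_div_two_le_of_le hn (by linarith)
    rw [Real.cos_abs] at this
    linarith
  refine ⟨?_, hδu, hθ2⟩
  have hu0 : 0 < u := lt_of_lt_of_le hδ hδu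
  have hs := c5_abs_sin hθ2.le
  have habs : |(σ : ℝ) * (u * (x / B) * Real.sin θ)| ≤ 1 := by
    rw [abs_of_nonneg ha0]
    exact ha1
  have hσ1 : |(σ : ℝ)| = 1 := by
    rcases hσ with h | h <;> subst h <;> simp
  rw [abs_mul, hσ1, one_mul, abs_mul, abs_of_nonneg (by positivity : 0 ≤ u * (x / B))] at habs
  have h3 : u * (x / B) * (2 / Real.pi * |θ|) ≤ 1 :=
    (mul_le_mul_of_nonneg_left hs (by positivity)).trans habs
  have h4 : |θ| = |t| * B / x := by
    rw [hθ, abs_div, abs_mul, abs_of_pos hB, abs_of_pos hx]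
  have h5 : u * (x / B) * (2 / Real.pi * |θ|) = u * 2 * |t| / Real.pi := by
    rw [h4]
    field_simp
  rw [h5, div_le_one hpi] at h3
  rw [le_div_iff₀ hδ]
  have h6 : |t| * δ ≤ |t| * u := mul_le_mul_of_nonneg_left hδu (abs_nonneg _)
  nlinarith

theorem c5_lip_nonneg {δ Λ : ℝ} {f : ℝ → ℝ} (hf : Cut δ Λ f) : 0 ≤ Λ := by
  have h := hf.lip 0 1
  have h2 := abs_nonneg (f 0 - f 1)
  have h3 : |(0 : ℝ) - 1| = 1 := by norm_num
  rw [h3] at h
  linarith

theorem c5_sin_lip (a b : ℝ) : |Real.sin a - Real.sin b| ≤ |a - b| := by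
  have h := Real.abs_sin_sub_sin_le a b
  exact h

theorem c5_cos_lip (a b : ℝ) : |Real.cos a - Real.cos b| ≤ |a - b| := by
  have h := Real.abs_cos_sub_cos_le a b
  exact h

/-- the difference of the values at two close points -/
theorem c5_diff {ψ f : ℝ → ℝ} {δ Λ K x B : ℝ} (hψ : Cut 0 K ψ)
    (hf : Cut δ Λ f) {σ : ℤ} (hσ : σ = 1 ∨ σ = -1) (hB : 0 < B) (hBx : B ≤ x) {N T : ℝ}
    (hN : 1 ≤ N) (hT : 0 ≤ T) {u u' t t' : ℝ} (hu : 0 ≤ u) (hu4 : u ≤ 4)
    (htt : |t - t'| ≤ 1 / N) (ht' : |t'| ≤ T + 2) :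
    |Ps ψ f σ x B u t - Ps ψ f σ x B u' t'| ≤ (K + Λ) * (8 / N + (T + 2) * |u - u'|) := by
  have hx : 0 < x := lt_of_lt_of_le hB hBx
  have hK := c5_lip_nonneg hψ
  have hΛ := c5_lip_nonneg hf
  have hσ1 : |(σ : ℝ)| = 1 := by
    rcases hσ with h | h <;> subst h <;> simp
  have hBx1 : B / x ≤ 1 := (div_le_one hx).2 hBx
  unfold Ps
  set a : ℝ := (σ : ℝ) * (u * (x / B) * Real.sin (t * B / x)) with ha
  set a' : ℝ := (σ : ℝ) * (u' * (x / B) * Real.sin (t' * B / x)) with ha'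
  set b : ℝ := u * Real.cos (t * B / x) with hb
  set b' : ℝ := u' * Real.cos (t' * B / x) with hb'
  have hθ : |t * B / x - t' * B / x| ≤ (B / x) * (1 / N) := by
    have e : t * B / x - t' * B / x = (B / x) * (t - t') := by ring
    rw [e, abs_mul, abs_of_nonneg (by positivity)]
    exact mul_le_mul_of_nonneg_left htt (by positivity)
  have hsin' : |Real.sin (t' * B / x)| ≤ (B / x) * (T + 2) := by
    refine Real.abs_sin_le_abs.trans ?_
    have e : t' * B / x = (B / x) * t' := by ring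
    rw [e, abs_mul, abs_of_nonneg (by positivity)]
    exact mul_le_mul_of_nonneg_left ht' (by positivity)
  have h1 : |a - a'| ≤ 4 / N + (T + 2) * |u - u'| := by
    have e : a - a' = (σ : ℝ) * ((x / B) * (u * (Real.sin (t * B / x) - Real.sin (t' * B / x)) +
        (u - u') * Real.sin (t' * B / x))) := by
      rw [ha, ha']
      ring
    rw [e, abs_mul, hσ1, one_mul, abs_mul, abs_of_nonneg (by positivity : 0 ≤ x / B)]
    have h2 : |u * (Real.sin (t * B / x) - Real.sin (t' * B / x)) +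
        (u - u') * Real.sin (t' * B / x)| ≤
        4 * ((B / x) * (1 / N)) + |u - u'| * ((B / x) * (T + 2)) := by
      refine (abs_add_le _ _).trans ?_
      rw [abs_mul, abs_mul, abs_of_nonneg hu]
      refine add_le_add ?_ ?_
      · exact mul_le_mul hu4 ((c5_sin_lip _ _).trans hθ) (abs_nonneg _) (by norm_num)
      · exact mul_le_mul_of_nonneg_left hsin' (abs_nonneg _)
    refine (mul_le_mul_of_nonneg_left h2 (by positivity)).trans (le_of_eq ?_)
    field_simp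
  have h2 : |b - b'| ≤ 4 / N + |u - u'| := by
    have e : b - b' = u * (Real.cos (t * B / x) - Real.cos (t' * B / x)) +
        (u - u') * Real.cos (t' * B / x) := by
      rw [hb, hb']
      ring
    rw [e]
    refine (abs_add_le _ _).trans ?_
    rw [abs_mul, abs_mul, abs_of_nonneg hu]
    refine add_le_add ?_ ?_
    · have h3 : |Real.cos (t * B / x) - Real.cos (t' * B / x)| ≤ 1 / N := by
        refine (c5_cos_lip _ _).trans (hθ.trans ?_)
        exact mul_le_of_le_one_left (by positivity) hBx1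
      have := mul_le_mul hu4 h3 (abs_nonneg _) (by norm_num)
      refine this.trans (le_of_eq ?_)
      ring
    · exact mul_le_of_le_one_right (abs_nonneg _) (Real.abs_cos_le_one _)
  have h3 : ψ a * f b - ψ a' * f b' = (ψ a - ψ a') * f b + ψ a' * (f b - f b') := by ring
  rw [h3]
  refine (abs_add_le _ _).trans ?_
  rw [abs_mul, abs_mul, abs_of_nonneg (hf.nonneg b), abs_of_nonneg (hψ.nonneg a')]
  have h4 : |ψ a - ψ a'| * f b ≤ K * (4 / N + (T + 2) * |u - u'|) := by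
    refine (mul_le_of_le_one_right (abs_nonneg _) (hf.le_one b)).trans ?_
    exact (hψ.lip a a').trans (mul_le_mul_of_nonneg_left h1 hK)
  have h5 : ψ a' * |f b - f b'| ≤ Λ * (4 / N + |u - u'|) := by
    refine (mul_le_of_le_one_left (abs_nonneg _) (hψ.le_one a')).trans ?_
    exact (hf.lip b b').trans (mul_le_mul_of_nonneg_left h2 hΛ)
  refine (add_le_add h4 h5).trans ?_
  have hu0 := abs_nonneg (u - u')
  have h6 : 0 ≤ 4 / N := by positivity
  have h7 : 8 / N = 4 / N + 4 / N := by ring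
  rw [h7]
  have h8 : K * (4 / N + (T + 2) * |u - u'|) ≤ K * (4 / N + 4 / N + (T + 2) * |u - u'|) :=
    mul_le_mul_of_nonneg_left (by linarith) hK
  have h9 : Λ * (4 / N + |u - u'|) ≤ Λ * (4 / N + 4 / N + (T + 2) * |u - u'|) := by
    refine mul_le_mul_of_nonneg_left ?_ hΛ
    nlinarith
  linarith [add_mul K Λ (4 / N + 4 / N + (T + 2) * |u - u'|)]

/-- the approximation by hats -/
theorem freeze_pr {ψ f : ℝ → ℝ} {δ Λ K x B : ℝ} (hδ : 0 < δ) (hδ1 : δ ≤ 1) (hψ : Cut 0 K ψ)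
    (hf : Cut δ Λ f) {σ : ℤ} (hσ : σ = 1 ∨ σ = -1) (hB : 0 < B) (hBx : B ≤ x) (N T : ℕ)
    (hN : 1 ≤ N) (hT : 2 / δ ≤ T) {u u' t : ℝ} (hu : 0 ≤ u) (hu4 : u ≤ 4) (hu' : 0 ≤ u')
    (hu'4 : u' ≤ 4) (ht : |t * B / x| ≤ Real.pi) :
    |Ps ψ f σ x B u t - ∑ s ∈ Finset.Icc (-((T * N : ℕ) : ℤ)) ((T * N : ℕ) : ℤ),
      Ps ψ f σ x B u' ((s : ℝ) / N) * hat ((N : ℝ) * t - s)| ≤
      (K + Λ) * (8 / N + (T + 2) * |u - u'|) := by
  have _ := hu'4
  have hx : 0 < x := lt_of_lt_of_le hB hBx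
  have hBx1 : B / x ≤ 1 := (div_le_one hx).2 hBx
  have hN1 : (1 : ℝ) ≤ N := by exact_mod_cast hN
  have hN0 : (0 : ℝ) < N := by linarith
  have hK := c5_lip_nonneg hψ
  have hΛ := c5_lip_nonneg hf
  have hT0 : (0 : ℝ) ≤ T := Nat.cast_nonneg T
  -- points with a nonzero hat
  have hnear : ∀ s : ℤ, hat ((N : ℝ) * t - s) ≠ 0 →
      |t - (s : ℝ) / N| ≤ 1 / N ∧ |(s : ℝ) / N * B / x| ≤ Real.pi + 1 := by
    intro s hs
    have h1 := (c5_lt_of_hat hs).le
    have h2 : |t - (s : ℝ) / N| ≤ 1 / N := by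
      have e : t - (s : ℝ) / N = ((N : ℝ) * t - s) / N := by
        field_simp
      rw [e, abs_div, abs_of_pos hN0]
      exact div_le_div_of_nonneg_right h1 hN0.le
    refine ⟨h2, ?_⟩
    have h3 : |t - (s : ℝ) / N| ≤ 1 := h2.trans ((div_le_one hN0).2 hN1)
    have e : (s : ℝ) / N * B / x = t * B / x - (B / x) * (t - (s : ℝ) / N) := by ring
    rw [e]
    refine (abs_sub _ _).trans (add_le_add ht ?_)
    rw [abs_mul, abs_of_nonneg (by positivity : 0 ≤ B / x)]
    exact mul_le_one₀ hBx1 (abs_nonneg _) h3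
  set A : ℤ := max ((T * N : ℕ) : ℤ) (⌈|(N : ℝ) * t|⌉ + 1) with hA
  have hAT : ((T * N : ℕ) : ℤ) ≤ A := le_max_left _ _
  have hAt : |(N : ℝ) * t| + 1 ≤ A := by
    have h1 : ((⌈|(N : ℝ) * t|⌉ + 1 : ℤ) : ℝ) ≤ A := by exact_mod_cast le_max_right _ _
    have h2 := Int.le_ceil |(N : ℝ) * t|
    push_cast at h1
    linarith
  have hext : ∑ s ∈ Finset.Icc (-((T * N : ℕ) : ℤ)) ((T * N : ℕ) : ℤ),
      Ps ψ f σ x B u' ((s : ℝ) / N) * hat ((N : ℝ) * t - s) =
      ∑ s ∈ Finset.Icc (-A) A, Ps ψ f σ x B u' ((s : ℝ) / N) * hat ((N : ℝ) * t - s) := by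
    apply Finset.sum_subset
    · exact Finset.Icc_subset_Icc (by omega) hAT
    · intro s _ hs
      by_contra hne
      have h1 := right_ne_zero_of_mul hne
      have h2 := left_ne_zero_of_mul hne
      have h3 := (ps_supp_pr hδ hδ1 hψ hf hσ hB hBx hu' (hnear s h1).2 h2).1
      have h4 : |(s : ℝ) / N| ≤ T := h3.trans hT
      rw [abs_div, abs_of_pos hN0, div_le_iff₀ hN0] at h4
      have h5 : |s| ≤ ((T * N : ℕ) : ℤ) := by
        have : (|s| : ℝ) ≤ ((T * N : ℕ) : ℝ) := by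
          push_cast
          exact h4
        exact_mod_cast this
      rw [Finset.mem_Icc] at hs
      exact hs (abs_le.1 h5)
  have hone := hat_part_pr N hN t A hAt
  have hkey : Ps ψ f σ x B u t - ∑ s ∈ Finset.Icc (-((T * N : ℕ) : ℤ)) ((T * N : ℕ) : ℤ),
      Ps ψ f σ x B u' ((s : ℝ) / N) * hat ((N : ℝ) * t - s) =
      ∑ s ∈ Finset.Icc (-A) A,
        (Ps ψ f σ x B u t - Ps ψ f σ x B u' ((s : ℝ) / N)) * hat ((N : ℝ) * t - s) := by
    rw [hext]
    have : Ps ψ f σ x B u t =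
        ∑ s ∈ Finset.Icc (-A) A, Ps ψ f σ x B u t * hat ((N : ℝ) * t - s) := by
      rw [← Finset.mul_sum, hone, mul_one]
    conv_lhs => rw [this]
    rw [← Finset.sum_sub_distrib]
    exact Finset.sum_congr rfl fun s _ => by ring
  rw [hkey]
  set E : ℝ := (K + Λ) * (8 / N + (T + 2) * |u - u'|) with hE
  have hE0 : 0 ≤ E := by positivity
  refine (Finset.abs_sum_le_sum_abs _ _).trans ?_
  have hterm : ∀ s ∈ Finset.Icc (-A) A,
      |(Ps ψ f σ x B u t - Ps ψ f σ x B u' ((s : ℝ) / N)) * hat ((N : ℝ) * t - s)| ≤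
      E * hat ((N : ℝ) * t - s) := by
    intro s _
    rw [abs_mul, abs_of_nonneg (c5_hat_nonneg _)]
    by_cases hh : hat ((N : ℝ) * t - s) = 0
    · rw [hh, mul_zero, mul_zero]
    · refine mul_le_mul_of_nonneg_right ?_ (c5_hat_nonneg _)
      obtain ⟨h1, h2⟩ := hnear s hh
      have h1' : |t - (s : ℝ) / N| ≤ 1 := h1.trans ((div_le_one hN0).2 hN1)
      by_cases hbig : |t| ≤ T + 1
      · refine c5_diff hψ hf hσ hB hBx hN1 hT0 hu hu4 h1 ?_
        have e : (s : ℝ) / N = t - (t - (s : ℝ) / N) := by ring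
        rw [e]
        refine (abs_sub _ _).trans ?_
        linarith
      · rw [not_le] at hbig
        have z1 : Ps ψ f σ x B u t = 0 := by
          by_contra hne
          have := (ps_supp_pr hδ hδ1 hψ hf hσ hB hBx hu (by linarith) hne).1
          linarith
        have z2 : Ps ψ f σ x B u' ((s : ℝ) / N) = 0 := by
          by_contra hne
          have h3 := (ps_supp_pr hδ hδ1 hψ hf hσ hB hBx hu' h2 hne).1
          have h4 : |t| ≤ |(s : ℝ) / N| + |t - (s : ℝ) / N| := by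
            have e : t = (s : ℝ) / N + (t - (s : ℝ) / N) := by ring
            calc |t| = |(s : ℝ) / N + (t - (s : ℝ) / N)| := by rw [← e]
              _ ≤ _ := abs_add_le _ _
          linarith
        rw [z1, z2, sub_zero, abs_zero]
        exact hE0
  refine (Finset.sum_le_sum hterm).trans (le_of_eq ?_)
  rw [← Finset.mul_sum, hone, mul_one]





end Pool.Agent.TF

namespace Pool.Agent.TF

theorem hat_part : type_of% @hat_part_pr := @hat_part_pr
theorem ps_supp : type_of% @ps_supp_pr := @ps_supp_pr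
theorem freeze : type_of% @freeze_pr := @freeze_pr

end Pool.Agent.TF
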