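import Mathlib
import Pool.Agent.Lib_helper18.TF.Defs
import Pool.Agent.Lib_helper10.T2F.BAS
import Pool.Agent.Lib_helper10.T2F.PEL
import Pool.Agent.Lib_helper10.T2F.CNT
import Pool.Agent.Lib_helper10.T2F.SLW
import Pool.Agent.Lib_helper10.T2F.SLG
import Pool.Agent.Lib_helper10.T2F.MER
import Pool.Agent.Lib_helper10.T2F.DSR
import Pool.Agent.Lib_helper73.Var.LS
import Pool.Agent.Lib_helper18.TFF.DefsC
import Pool.Agent.Lib_helper18.TFF.C5

set_option autoImplicit false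

namespace Pool.Agent.TF

open Pool.Agent.T2 Filter Topology

theorem c6_hat_nonneg (y : ℝ) : 0 ≤ hat y := le_max_left _ _

theorem c6_lt_of_hat {y : ℝ} (h : hat y ≠ 0) : |y| < 1 := by
  by_contra hc
  rw [not_lt] at hc
  apply h
  unfold hat
  exact max_eq_left (by linarith)

theorem c6_near {N : ℕ} (hN : 1 ≤ N) {x B t : ℝ} (hB : 0 < B) (hBx : B ≤ x)
    (ht : |t * B / x| ≤ Real.pi) {s : ℤ} (hs : hat ((N : ℝ) * t - s) ≠ 0) :
    |t - (s : ℝ) / N| ≤ 1 ∧ |(s : ℝ) / N * B / x| ≤ Real.pi + 1 := by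
  have hx : 0 < x := lt_of_lt_of_le hB hBx
  have hBx1 : B / x ≤ 1 := (div_le_one hx).2 hBx
  have hN1 : (1 : ℝ) ≤ N := by exact_mod_cast hN
  have hN0 : (0 : ℝ) < N := by linarith
  have h1 := (c6_lt_of_hat hs).le
  have h3 : |t - (s : ℝ) / N| ≤ 1 := by
    have e : t - (s : ℝ) / N = ((N : ℝ) * t - s) / N := by
      field_simp
    rw [e, abs_div, abs_of_pos hN0, div_le_one hN0]
    exact h1.trans hN1
  refine ⟨h3, ?_⟩
  have e : (s : ℝ) / N * B / x = t * B / x - (B / x) * (t - (s : ℝ) / N) := by ring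
  rw [e]
  refine (abs_sub _ _).trans (add_le_add ht ?_)
  rw [abs_mul, abs_of_nonneg (by positivity : 0 ≤ B / x)]
  exact mul_le_one₀ hBx1 (abs_nonneg _) h3

theorem c6_ne {z : G} (hz : z ≠ 0) : (z : ℂ) ≠ 0 := by
  intro h
  exact hz (GaussianInt.toComplex_eq_zero.1 h)

theorem c6_arg {P w : G} {g : ℕ} (hg : 1 ≤ g) (hP : P ≠ 0) :
    Complex.arg ((P * ((g : G) * w) : G) : ℂ) = ag (star P) w := by
  have hP' := c6_ne hP
  have hn : 0 < Complex.normSq (P : ℂ) := Complex.normSq_pos.2 hP'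
  have hg0 : (0 : ℝ) < g := by exact_mod_cast hg
  unfold ag
  have e : ((P * ((g : G) * w) : G) : ℂ) =
      (((g : ℝ) * Complex.normSq (P : ℂ) : ℝ) : ℂ) * ((w : ℂ) / ((star P : G) : ℂ)) := by
    rw [GaussianInt.toComplex_star, Complex.ofReal_mul, Complex.normSq_eq_conj_mul_self]
    have hc : (starRingEnd ℂ) (P : ℂ) ≠ 0 := by
      rw [ne_eq, map_eq_zero]
      exact hP'
    simp only [map_mul, map_natCast, Complex.ofReal_natCast]
    field_simp
  rw [e]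
  exact Complex.arg_real_mul _ (by positivity)

theorem c6_ps (ψ f : ℝ → ℝ) (σ : ℤ) {x B : ℝ} (hx : 0 < x) (hB : 0 < B) (ζ : G) :
    Ps ψ f σ x B (‖(ζ : ℂ)‖ / x) (Complex.arg (ζ : ℂ) * x / B) =
      ψ (((σ * ζ.im : ℤ) : ℝ) / B) * f ((ζ.re : ℝ) / x) := by
  unfold Ps
  have e : Complex.arg (ζ : ℂ) * x / B * B / x = Complex.arg (ζ : ℂ) := by
    field_simp
  rw [e]
  have h1 : ‖(ζ : ℂ)‖ * Real.sin (Complex.arg (ζ : ℂ)) = (ζ.im : ℝ) := by
    rw [Complex.norm_mul_sin_arg, GaussianInt.intCast_im]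
  have h2 : ‖(ζ : ℂ)‖ * Real.cos (Complex.arg (ζ : ℂ)) = (ζ.re : ℝ) := by
    rw [Complex.norm_mul_cos_arg, GaussianInt.intCast_re]
  have e1 : (σ : ℝ) * (‖(ζ : ℂ)‖ / x * (x / B) * Real.sin (Complex.arg (ζ : ℂ))) =
      ((σ * ζ.im : ℤ) : ℝ) / B := by
    push_cast
    rw [← h1]
    field_simp
  have e2 : ‖(ζ : ℂ)‖ / x * Real.cos (Complex.arg (ζ : ℂ)) = (ζ.re : ℝ) / x := by
    rw [← h2]
    ring
  rw [e1, e2]

theorem c6_region {T x B : ℝ} (hT : 0 ≤ T) (hB : 1 ≤ B) (hTx : 4 * (T + 2) * B ≤ x) {ζ : G}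
    (hζ : ζ ≠ 0) (hn : (nn ζ : ℝ) ≤ 8 * x ^ 2)
    (ht : |Complex.arg (ζ : ℂ) * x / B| ≤ T + 1) : ζ ∈ Rg (4 * (T + 2)) x B := by
  have hx : 0 < x := by nlinarith
  have hB0 : 0 < B := by linarith
  have hpi := Real.pi_gt_three
  have hnorm : ‖(ζ : ℂ)‖ ≤ 4 * x := by
    rw [nn_norm] at hn
    have := norm_nonneg (ζ : ℂ)
    nlinarith
  have hpos : 0 < ‖(ζ : ℂ)‖ := norm_pos_iff.2 (c6_ne hζ)
  have harg : |Complex.arg (ζ : ℂ)| ≤ (T + 1) * B / x := by
    rw [le_div_iff₀ hx, ← div_le_iff₀ hB0]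
    refine le_of_eq_of_le ?_ ht
    rw [abs_div, abs_mul, abs_of_pos hx, abs_of_pos hB0]
  have harg1 : |Complex.arg (ζ : ℂ)| ≤ 1 := by
    refine harg.trans ?_
    rw [div_le_one hx]
    nlinarith
  unfold Rg
  rw [Finset.mem_filter, mem_Bl]
  refine ⟨⟨hζ, by nlinarith [sq_nonneg x]⟩, ?_, ?_⟩
  · have h2 : ‖(ζ : ℂ)‖ * Real.cos (Complex.arg (ζ : ℂ)) = (ζ.re : ℝ) := by
      rw [Complex.norm_mul_cos_arg, GaussianInt.intCast_re]
    have h3 : 0 < Real.cos (Complex.arg (ζ : ℂ)) := by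
      apply Real.cos_pos_of_mem_Ioo
      have := abs_le.1 harg1
      constructor <;> linarith [this.1, this.2]
    have h4 : (0 : ℝ) < (ζ.re : ℝ) := by
      rw [← h2]
      positivity
    exact_mod_cast h4
  · have h1 : ‖(ζ : ℂ)‖ * Real.sin (Complex.arg (ζ : ℂ)) = (ζ.im : ℝ) := by
      rw [Complex.norm_mul_sin_arg, GaussianInt.intCast_im]
    rw [← h1, abs_mul, abs_of_pos hpos]
    calc ‖(ζ : ℂ)‖ * |Real.sin (Complex.arg (ζ : ℂ))| ≤ (4 * x) * ((T + 1) * B / x) :=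
          mul_le_mul hnorm (Real.abs_sin_le_abs.trans harg) (abs_nonneg _) (by linarith)
      _ = 4 * ((T + 1) * B) := by field_simp
      _ ≤ 4 * (T + 2) * B := by nlinarith

theorem c6_cls {M : ℕ} (hM : 1 ≤ M) (z : G) :
    ∃ v ∈ Cls M, ∀ v' ∈ Cls M, ((M : G) ∣ z - v' ↔ v' = v) := by
  have hM0 : (0 : ℤ) < M := by exact_mod_cast hM
  have hMn : (M : ℤ) ≠ 0 := hM0.ne'
  refine ⟨⟨z.re % M, z.im % M⟩, ?_, ?_⟩
  · unfold Cls
    rw [Finset.mem_image]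
    refine ⟨((z.re % M).toNat, (z.im % M).toNat), ?_, ?_⟩
    · rw [Finset.mem_product, Finset.mem_range, Finset.mem_range]
      have h1 := Int.emod_nonneg z.re hMn
      have h2 := Int.emod_lt_of_pos z.re hM0
      have h3 := Int.emod_nonneg z.im hMn
      have h4 := Int.emod_lt_of_pos z.im hM0
      constructor
      · show (z.re % M).toNat < M
        omega
      · show (z.im % M).toNat < M
        omega
    · have h1 := Int.toNat_of_nonneg (Int.emod_nonneg z.re hMn)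
      have h3 := Int.toNat_of_nonneg (Int.emod_nonneg z.im hMn)
      rw [Zsqrtd.ext_iff]
      exact ⟨h1, h3⟩
  · intro v' hv'
    unfold Cls at hv'
    rw [Finset.mem_image] at hv'
    obtain ⟨⟨a, b⟩, hab, rfl⟩ := hv'
    rw [Finset.mem_product, Finset.mem_range, Finset.mem_range] at hab
    obtain ⟨ha, hb⟩ := hab
    have ha' : (a : ℤ) % M = a := Int.emod_eq_of_lt (by positivity) (by exact_mod_cast ha)
    have hb' : (b : ℤ) % M = b := Int.emod_eq_of_lt (by positivity) (by exact_mod_cast hb)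
    rw [bas_dvd, Zsqrtd.ext_iff]
    show ((M : ℤ) ∣ z.re - a ∧ (M : ℤ) ∣ z.im - b) ↔ ((a : ℤ) = z.re % M ∧ (b : ℤ) = z.im % M)
    rw [← Int.emod_emod_of_dvd z.re (dvd_refl (M : ℤ)), ← Int.emod_emod_of_dvd z.im (dvd_refl (M : ℤ))]
    constructor
    · rintro ⟨h1, h2⟩
      have h3 := Int.emod_emod_of_dvd z.re (dvd_refl (M : ℤ))
      have e1 := (Int.emod_emod_of_dvd z.re (dvd_refl (M : ℤ)))
      have k1 : z.re % M = (a : ℤ) % M := Int.ModEq.symm ((Int.modEq_iff_dvd).2 h1)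
      have k2 : z.im % M = (b : ℤ) % M := Int.ModEq.symm ((Int.modEq_iff_dvd).2 h2)
      rw [e1, k1, Int.emod_emod_of_dvd z.im (dvd_refl (M : ℤ)), k2, ha', hb']
      exact ⟨rfl, rfl⟩
    · rintro ⟨h1, h2⟩
      rw [Int.emod_emod_of_dvd z.re (dvd_refl (M : ℤ))] at h1
      rw [Int.emod_emod_of_dvd z.im (dvd_refl (M : ℤ))] at h2
      constructor
      · apply (Int.modEq_iff_dvd).1
        show (a : ℤ) % M = z.re % M
        rw [ha', h1]
      · apply (Int.modEq_iff_dvd).1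
        show (b : ℤ) % M = z.im % M
        rw [hb', h2]

theorem c6_unique {α β : Type*} (S : Finset α) (U : Finset β) (A : α → Prop) (B : β → Prop)
    [DecidablePred A] [DecidablePred B]
    {v₀ : α} (hv : v₀ ∈ S) (hA : ∀ v ∈ S, (A v ↔ v = v₀)) {a₀ : β} (ha : a₀ ∈ U)
    (hB : ∀ a ∈ U, (B a ↔ a = a₀)) (X : ℝ) :
    ∑ v ∈ S, ∑ a ∈ U, (if A v ∧ B a then X else 0) = X := by
  classical
  rw [Finset.sum_eq_single_of_mem v₀ hv, Finset.sum_eq_single_of_mem a₀ ha]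
  · rw [if_pos ⟨(hA v₀ hv).2 rfl, (hB a₀ ha).2 rfl⟩]
  · intro a h hne
    rw [if_neg]
    rintro ⟨-, h2⟩
    exact hne ((hB a h).1 h2)
  · intro v h hne
    apply Finset.sum_eq_zero
    intro a _
    rw [if_neg]
    rintro ⟨h1, -⟩
    exact hne ((hA v h).1 h1)

theorem c6_part_p {M N : ℕ} (hM : 1 ≤ M) (hN : 1 ≤ N) {Y : ℝ} (hY : 0 < Y) (F : ℕ → ℝ) :
    ∑ p ∈ pr1 Y (2 * Y), F p =
      ∑ v ∈ Cls M, ∑ a ∈ Finset.Icc 1 (2 * N), ∑ p ∈ Sub M v N a Y, F p := by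
  classical
  have hN0 : (0 : ℝ) < N := by exact_mod_cast hN
  unfold Sub
  simp_rw [Finset.sum_filter]
  have hsw : ∑ v ∈ Cls M, ∑ a ∈ Finset.Icc 1 (2 * N), ∑ p ∈ pr1 Y (2 * Y),
      (if (M : G) ∣ pel p - v ∧ ⌈(N : ℝ) * p / Y⌉₊ = a then F p else 0) =
      ∑ p ∈ pr1 Y (2 * Y), ∑ v ∈ Cls M, ∑ a ∈ Finset.Icc 1 (2 * N),
      (if (M : G) ∣ pel p - v ∧ ⌈(N : ℝ) * p / Y⌉₊ = a then F p else 0) := by
    rw [Finset.sum_comm (s := pr1 Y (2 * Y))]
    refine Finset.sum_congr rfl fun v _ => ?_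
    rw [Finset.sum_comm]
  rw [hsw]
  refine Finset.sum_congr rfl fun p hp => ?_
  obtain ⟨v₀, hv₀, hu⟩ := c6_cls hM (pel p)
  unfold pr1 at hp
  rw [Finset.mem_filter] at hp
  obtain ⟨-, -, -, h1, h2⟩ := hp
  symm
  refine c6_unique (Cls M) (Finset.Icc 1 (2 * N)) (fun v => (M : G) ∣ pel p - v)
    (fun a => ⌈(N : ℝ) * p / Y⌉₊ = a) hv₀ hu (a₀ := ⌈(N : ℝ) * p / Y⌉₊) ?_ ?_ (F p)
  · rw [Finset.mem_Icc]
    constructor
    · rw [Nat.one_le_ceil_iff]
      have : 0 < (p : ℝ) := lt_trans hY h1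
      positivity
    · rw [Nat.ceil_le, div_le_iff₀ hY]
      push_cast
      nlinarith
  · intro a _
    exact eq_comm

theorem c6_sl {M N g b : ℕ} (hN : 1 ≤ N) (hg : 1 ≤ g) (hb1 : 1 ≤ b) (hb : b ≤ 2 * N) {Y : ℝ}
    (hY : 0 < Y) (c : G) (w : G) : w ∈ Sl M c N g b Y ↔
      w ∈ PB (2 * Y / (g : ℝ) ^ 2) ∧ ((M : G) ∣ w - c ∧
        ⌈(N : ℝ) * (g : ℝ) ^ 2 * nn w / Y⌉₊ = b) := by
  classical
  have hN0 : (0 : ℝ) < N := by exact_mod_cast hN
  have hg0 : (0 : ℝ) < g := by exact_mod_cast hg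
  have hb2 : (b : ℝ) ≤ 2 * N := by exact_mod_cast hb
  unfold Sl Slc
  rw [Finset.mem_filter, mem_PB, mem_PB, Nat.ceil_eq_iff (by omega), Nat.cast_sub hb1,
    Nat.cast_one]
  have e1 : (b : ℝ) / (N * (g : ℝ) ^ 2) * Y = (b : ℝ) * Y / (N * (g : ℝ) ^ 2) := by ring
  have e2 : ((b : ℝ) - 1) / (N * (g : ℝ) ^ 2) * Y = ((b : ℝ) - 1) * Y / (N * (g : ℝ) ^ 2) := by
    ring
  rw [e1, e2, le_div_iff₀ (by positivity), div_lt_iff₀ (by positivity), lt_div_iff₀ hY,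
    div_le_iff₀ hY]
  constructor
  · rintro ⟨⟨h1, h2⟩, h3, h4⟩
    refine ⟨⟨h1, ?_⟩, h4, ?_, ?_⟩
    · rw [le_div_iff₀ (by positivity)]
      have h5 : (nn w : ℝ) * (N * (g : ℝ) ^ 2) ≤ 2 * N * Y :=
        h2.trans (mul_le_mul_of_nonneg_right hb2 hY.le)
      have h6 : (N : ℝ) * ((nn w : ℝ) * (g : ℝ) ^ 2) ≤ N * (2 * Y) := by linarith
      exact le_of_mul_le_mul_left h6 hN0
    · linarith
    · linarith
  · rintro ⟨⟨h1, h2⟩, h4, h5, h6⟩
    exact ⟨⟨h1, by linarith⟩, by linarith, h4⟩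

theorem c6_part_w {M N g : ℕ} (hM : 1 ≤ M) (hN : 1 ≤ N) (hg : 1 ≤ g) {Y : ℝ} (hY : 0 < Y)
    (F : G → ℝ) : ∑ w ∈ PB (2 * Y / (g : ℝ) ^ 2), F w =
      ∑ c ∈ Cls M, ∑ b ∈ Finset.Icc 1 (2 * N), ∑ w ∈ Sl M c N g b Y, F w := by
  classical
  have hN0 : (0 : ℝ) < N := by exact_mod_cast hN
  have hg0 : (0 : ℝ) < g := by exact_mod_cast hg
  have hSl : ∀ c : G, ∀ b ∈ Finset.Icc 1 (2 * N), ∑ w ∈ Sl M c N g b Y, F w =
      ∑ w ∈ PB (2 * Y / (g : ℝ) ^ 2), (if (M : G) ∣ w - c ∧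
        ⌈(N : ℝ) * (g : ℝ) ^ 2 * nn w / Y⌉₊ = b then F w else 0) := by
    intro c b hb
    rw [Finset.mem_Icc] at hb
    rw [← Finset.sum_filter]
    apply Finset.sum_congr _ fun _ _ => rfl
    ext w
    rw [c6_sl hN hg hb.1 hb.2 hY, Finset.mem_filter]
  have hsw : ∑ c ∈ Cls M, ∑ b ∈ Finset.Icc 1 (2 * N), ∑ w ∈ Sl M c N g b Y, F w =
      ∑ w ∈ PB (2 * Y / (g : ℝ) ^ 2), ∑ c ∈ Cls M, ∑ b ∈ Finset.Icc 1 (2 * N),
      (if (M : G) ∣ w - c ∧ ⌈(N : ℝ) * (g : ℝ) ^ 2 * nn w / Y⌉₊ = b then F w else 0) := by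
    rw [Finset.sum_comm (s := PB (2 * Y / (g : ℝ) ^ 2))]
    refine Finset.sum_congr rfl fun c _ => ?_
    rw [Finset.sum_comm]
    exact Finset.sum_congr rfl fun b hb => hSl c b hb
  rw [hsw]
  refine Finset.sum_congr rfl fun w hw => ?_
  obtain ⟨v₀, hv₀, hu⟩ := c6_cls hM w
  rw [mem_PB] at hw
  obtain ⟨h0, h2⟩ := hw
  have h1 : 0 < (nn w : ℝ) := by exact_mod_cast nn_pos.2 (prm_ne h0)
  symm
  refine c6_unique (Cls M) (Finset.Icc 1 (2 * N)) (fun c => (M : G) ∣ w - c)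
    (fun b => ⌈(N : ℝ) * (g : ℝ) ^ 2 * nn w / Y⌉₊ = b) hv₀ hu
    (a₀ := ⌈(N : ℝ) * (g : ℝ) ^ 2 * nn w / Y⌉₊) ?_ ?_ (F w)
  · rw [Finset.mem_Icc]
    constructor
    · rw [Nat.one_le_ceil_iff]
      positivity
    · rw [Nat.ceil_le, div_le_iff₀ hY]
      push_cast
      rw [le_div_iff₀ (by positivity)] at h2
      nlinarith
  · intro a _
    exact eq_comm

theorem c6_sqrt {a b : ℝ} (ha : 0 ≤ a) (hb : 0 ≤ b) : |Real.sqrt a - Real.sqrt b| ≤
    Real.sqrt |a - b| := by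
  apply Real.le_sqrt_of_sq_le
  rw [sq_abs]
  have h1 := Real.sq_sqrt ha
  have h2 := Real.sq_sqrt hb
  have h3 := Real.sqrt_nonneg a
  have h4 := Real.sqrt_nonneg b
  rcases le_total b a with h | h
  · rw [abs_of_nonneg (by linarith)]
    have := Real.sqrt_le_sqrt h
    nlinarith
  · rw [abs_of_nonpos (by linarith)]
    have := Real.sqrt_le_sqrt h
    nlinarith

/-- the error for a pair -/
theorem c6_pair {δ Λ K : ℝ} (hδ : 0 < δ) (hδ1 : δ ≤ 1) (hΛ : 0 ≤ Λ) (hK : 0 ≤ K) {T : ℕ}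
    (hT : 2 / δ ≤ T) {N g M Y' : ℕ} {x B Y : ℝ} (hN : 1 ≤ N) (hg : 1 ≤ g)
    (hB : 1 ≤ B) (hTx : 4 * ((T : ℝ) + 2) * B ≤ x) (hY : 1 ≤ Y)
    (hY1 : x ^ 2 / Y ≤ (Y' : ℝ)) (hY2 : (Y' : ℝ) ≤ 2 * x ^ 2 / Y) {ψ f : ℝ → ℝ}
    (hψ : Cut 0 K ψ) (hf : Cut δ Λ f) {σ : ℤ} (hσ : σ = 1 ∨ σ = -1) {v c : G} {a b : ℕ}
    (ha : a ∈ Finset.Icc 1 (2 * N)) (hb : b ∈ Finset.Icc 1 (2 * N)) {p : ℕ}
    (hp : p ∈ Sub M v N a Y) {w : G} (hw : w ∈ Sl M c N g b Y') :
    |ψ (((σ * (pel p * ((g : G) * w)).im : ℤ) : ℝ) / B) *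
        f (((pel p * ((g : G) * w)).re : ℝ) / x) -
      ∑ s ∈ Finset.Icc (-((T * N : ℕ) : ℤ)) ((T * N : ℕ) : ℤ),
        Ps ψ f σ x B (Real.sqrt (Y * Y' / x ^ 2 * ((a : ℝ) / N * (b / N)))) ((s : ℝ) / N) *
          hat ((ag (star (pel p)) w - s * (B / (N * x))) / (B / (N * x)))| ≤
      if pel p * ((g : G) * w) ∈ Rg (4 * ((T : ℝ) + 2)) x B then
        (K + Λ) * (8 + 3 * (T + 2)) / Real.sqrt N else 0 := by
  classical
  have hT0 : (0 : ℝ) ≤ T := Nat.cast_nonneg T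
  have hB0 : 0 < B := by linarith
  have hx : 0 < x := by nlinarith
  have hBx : B ≤ x := by nlinarith
  have hY0 : 0 < Y := by linarith
  have hN1 : (1 : ℝ) ≤ N := by exact_mod_cast hN
  have hN0 : (0 : ℝ) < N := by linarith
  have hg0 : (0 : ℝ) < g := by exact_mod_cast hg
  have hY'0 : (0 : ℝ) < Y' := lt_of_lt_of_le (by positivity) hY1
  have hYY : Y * Y' / x ^ 2 ≤ 2 := by
    rw [div_le_iff₀ (by positivity)]
    rw [le_div_iff₀ hY0] at hY2
    linarith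
  rw [Finset.mem_Icc] at ha hb
  have ha2 : (a : ℝ) ≤ 2 * N := by exact_mod_cast ha.2
  have hb2 : (b : ℝ) ≤ 2 * N := by exact_mod_cast hb.2
  unfold Sub pr1 at hp
  rw [Finset.mem_filter, Finset.mem_filter] at hp
  obtain ⟨⟨-, hpp, hp4, hpY, hpY2⟩, -, hpa⟩ := hp
  rw [Nat.ceil_eq_iff (by omega), Nat.cast_sub ha.1, Nat.cast_one, lt_div_iff₀ hY0,
    div_le_iff₀ hY0] at hpa
  rw [c6_sl hN hg hb.1 hb.2 hY'0, mem_PB, Nat.ceil_eq_iff (by omega), Nat.cast_sub hb.1,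
    Nat.cast_one, lt_div_iff₀ hY'0, div_le_iff₀ hY'0, le_div_iff₀ (by positivity)] at hw
  obtain ⟨⟨hwp, hw2⟩, -, hwb⟩ := hw
  obtain ⟨hnp, -, -⟩ := pel_spec hpp hp4
  have hpel : pel p ≠ 0 := nn_pos.1 (by rw [hnp]; exact hpp.pos)
  have hw0 : w ≠ 0 := prm_ne hwp
  have hg' : (g : G) ≠ 0 := by
    rw [ne_eq, Nat.cast_eq_zero]
    omega
  set ζ : G := pel p * ((g : G) * w) with hζd
  have hζ : ζ ≠ 0 := mul_ne_zero hpel (mul_ne_zero hg' hw0)
  have hnζ : (nn ζ : ℝ) = (p : ℝ) * ((g : ℝ) ^ 2 * nn w) := by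
    rw [hζd, nn_mul, nn_mul, hnp, nn_nat]
    push_cast
    ring
  have hnw : 0 < (nn w : ℝ) := by exact_mod_cast nn_pos.2 hw0
  have hp0 : 0 < (p : ℝ) := by exact_mod_cast hpp.pos
  have hn8 : (nn ζ : ℝ) ≤ 8 * x ^ 2 := by
    rw [hnζ]
    rw [le_div_iff₀ hY0] at hY2
    have h1 : (g : ℝ) ^ 2 * nn w ≤ 2 * Y' := by linarith
    calc (p : ℝ) * ((g : ℝ) ^ 2 * nn w) ≤ (2 * Y) * (2 * Y') :=
          mul_le_mul hpY2 h1 (by positivity) (by positivity)
      _ ≤ 8 * x ^ 2 := by nlinarith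
  set t : ℝ := Complex.arg (ζ : ℂ) * x / B with htd
  set u : ℝ := ‖(ζ : ℂ)‖ / x with hud
  set u' : ℝ := Real.sqrt (Y * Y' / x ^ 2 * ((a : ℝ) / N * (b / N))) with hu'd
  have hag : ∀ s : ℤ, (ag (star (pel p)) w - s * (B / (N * x))) / (B / (N * x)) =
      (N : ℝ) * t - s := by
    intro s
    rw [← c6_arg hg hpel, ← hζd, htd]
    field_simp
  simp_rw [hag]
  rw [← c6_ps ψ f σ hx hB0 ζ]
  have htB : |t * B / x| ≤ Real.pi := by
    have e : t * B / x = Complex.arg (ζ : ℂ) := by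
      rw [htd]
      field_simp
    rw [e]
    exact Complex.abs_arg_le_pi _
  have hu0 : 0 ≤ u := by positivity
  have hu'0 : 0 ≤ u' := Real.sqrt_nonneg _
  split_ifs with hR
  · -- inside the region
    have hu4 : u ≤ 4 := by
      rw [hud, div_le_iff₀ hx]
      rw [nn_norm] at hn8
      have := norm_nonneg (ζ : ℂ)
      nlinarith
    have hu'4 : u' ≤ 4 := by
      rw [hu'd]
      apply Real.sqrt_le_iff.2
      refine ⟨by norm_num, ?_⟩
      have h1 : (a : ℝ) / N ≤ 2 := by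
        rw [div_le_iff₀ hN0]
        exact ha2
      have h2 : (b : ℝ) / N ≤ 2 := by
        rw [div_le_iff₀ hN0]
        exact hb2
      have h3 : (a : ℝ) / N * (b / N) ≤ 2 * 2 :=
        mul_le_mul h1 h2 (by positivity) (by norm_num)
      have h4 : Y * Y' / x ^ 2 * ((a : ℝ) / N * (b / N)) ≤ 2 * (2 * 2) :=
        mul_le_mul hYY h3 (by positivity) (by norm_num)
      linarith
    refine (freeze hδ hδ1 hψ hf hσ hB0 hBx N T hN hT hu0 hu4 hu'0 hu'4 htB).trans ?_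
    have huu : |u - u'| ≤ 3 / Real.sqrt N := by
      have e1 : u = Real.sqrt (Y * Y' / x ^ 2 * ((p / Y) * ((g : ℝ) ^ 2 * nn w / Y'))) := by
        have e2 : Y * Y' / x ^ 2 * ((p / Y) * ((g : ℝ) ^ 2 * nn w / Y')) =
            (‖(ζ : ℂ)‖ / x) ^ 2 := by
          rw [div_pow, ← nn_norm, hnζ]
          field_simp
        rw [e2, Real.sqrt_sq (by positivity)]
      rw [e1, hu'd]
      refine (c6_sqrt (by positivity) (by positivity)).trans ?_
      have h1 : |Y * Y' / x ^ 2 * ((p / Y) * ((g : ℝ) ^ 2 * nn w / Y')) -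
          Y * Y' / x ^ 2 * ((a : ℝ) / N * (b / N))| ≤ 9 / N := by
        rw [← mul_sub, abs_mul, abs_of_nonneg (by positivity : 0 ≤ Y * Y' / x ^ 2)]
        have h2 : |(p : ℝ) / Y * ((g : ℝ) ^ 2 * nn w / Y') - (a : ℝ) / N * (b / N)| ≤ 4 / N := by
          have e3 : (p : ℝ) / Y * ((g : ℝ) ^ 2 * nn w / Y') - (a : ℝ) / N * (b / N) =
              (p : ℝ) / Y * ((g : ℝ) ^ 2 * nn w / Y' - b / N) +
                (b / N) * ((p : ℝ) / Y - a / N) := by ring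
          rw [e3]
          refine (abs_add_le _ _).trans ?_
          rw [abs_mul, abs_mul, abs_of_nonneg (by positivity : 0 ≤ (p : ℝ) / Y),
            abs_of_nonneg (by positivity : 0 ≤ (b : ℝ) / N)]
          have h3 : |(g : ℝ) ^ 2 * nn w / Y' - b / N| ≤ 1 / N := by
            have e4 : (g : ℝ) ^ 2 * nn w / Y' - b / N =
                ((N : ℝ) * (g : ℝ) ^ 2 * nn w - b * Y') / (Y' * N) := by
              field_simp
            rw [e4, abs_div, abs_of_pos (by positivity : (0 : ℝ) < Y' * N),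
              div_le_div_iff₀ (by positivity) hN0]
            have : |(N : ℝ) * (g : ℝ) ^ 2 * nn w - b * Y'| ≤ Y' := by
              rw [abs_le]
              constructor <;> linarith [hwb.1, hwb.2]
            nlinarith
          have h4 : |(p : ℝ) / Y - a / N| ≤ 1 / N := by
            have e4 : (p : ℝ) / Y - a / N = ((N : ℝ) * p - a * Y) / (Y * N) := by
              field_simp
            rw [e4, abs_div, abs_of_pos (by positivity : (0 : ℝ) < Y * N),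
              div_le_div_iff₀ (by positivity) hN0]
            have : |(N : ℝ) * p - a * Y| ≤ Y := by
              rw [abs_le]
              constructor <;> linarith [hpa.1, hpa.2]
            nlinarith
          have h5 : (p : ℝ) / Y ≤ 2 := by
            rw [div_le_iff₀ hY0]
            exact hpY2
          have h6 : (b : ℝ) / N ≤ 2 := by
            rw [div_le_iff₀ hN0]
            exact hb2
          have h7 := mul_le_mul h5 h3 (abs_nonneg _) (by norm_num)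
          have h8 := mul_le_mul h6 h4 (abs_nonneg _) (by norm_num)
          refine (add_le_add h7 h8).trans (le_of_eq ?_)
          ring
        have h9 := mul_le_mul hYY h2 (abs_nonneg _) (by norm_num)
        refine h9.trans ?_
        rw [← mul_div_assoc]
        exact div_le_div_of_nonneg_right (by norm_num) hN0.le
      refine (Real.sqrt_le_sqrt h1).trans (le_of_eq ?_)
      rw [Real.sqrt_div (by norm_num)]
      congr 1
      rw [show (9 : ℝ) = 3 ^ 2 by norm_num, Real.sqrt_sq (by norm_num)]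
    have hsN : Real.sqrt N ≤ N := by
      apply Real.sqrt_le_iff.2
      exact ⟨by positivity, by nlinarith⟩
    have hsN0 : 0 < Real.sqrt N := Real.sqrt_pos.2 hN0
    have h8 : 8 / (N : ℝ) ≤ 8 / Real.sqrt N :=
      div_le_div_of_nonneg_left (by norm_num) hsN0 hsN
    have h9 : ((T : ℝ) + 2) * |u - u'| ≤ ((T : ℝ) + 2) * (3 / Real.sqrt N) :=
      mul_le_mul_of_nonneg_left huu (by positivity)
    have h10 : (K + Λ) * (8 / N + ((T : ℝ) + 2) * |u - u'|) ≤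
        (K + Λ) * (8 / Real.sqrt N + ((T : ℝ) + 2) * (3 / Real.sqrt N)) :=
      mul_le_mul_of_nonneg_left (by linarith) (by linarith)
    refine h10.trans (le_of_eq ?_)
    ring
  · -- outside the region
    have hbig : ¬ |t| ≤ (T : ℝ) + 1 := fun h => hR (c6_region hT0 hB hTx hζ hn8 h)
    have z1 : Ps ψ f σ x B u t = 0 := by
      by_contra hne
      have h1 := (ps_supp hδ hδ1 hψ hf hσ hB0 hBx hu0 (by linarith [Real.pi_pos]) hne).1
      exact hbig (by linarith)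
    have z2 : ∑ s ∈ Finset.Icc (-((T * N : ℕ) : ℤ)) ((T * N : ℕ) : ℤ),
        Ps ψ f σ x B u' ((s : ℝ) / N) * hat ((N : ℝ) * t - s) = 0 := by
      apply Finset.sum_eq_zero
      intro s _
      by_contra hne
      have h1 := right_ne_zero_of_mul hne
      have h2 := left_ne_zero_of_mul hne
      obtain ⟨h3, h4⟩ := c6_near hN hB0 hBx htB h1
      have h5 := (ps_supp hδ hδ1 hψ hf hσ hB0 hBx hu'0 h4 h2).1
      apply hbig
      have h6 : |t| ≤ |(s : ℝ) / N| + |t - (s : ℝ) / N| := by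
        calc |t| = |(s : ℝ) / N + (t - (s : ℝ) / N)| := by
              congr 1
              ring
          _ ≤ _ := abs_add_le _ _
      linarith
    rw [z1, z2, sub_zero, abs_zero]

theorem c6_chi {M g : ℕ} {σ r : ℤ} {P v w c : G} (h1 : (M : G) ∣ P - v) (h2 : (M : G) ∣ w - c) :
    (M : ℤ) ∣ σ * (P * ((g : G) * w)).im - r ↔ (M : ℤ) ∣ σ * (v * ((g : G) * c)).im - r := by
  have h3 : (M : G) ∣ P * ((g : G) * w) - v * ((g : G) * c) := by
    have e : P * ((g : G) * w) - v * ((g : G) * c) =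
        (P - v) * ((g : G) * w) + v * (g : G) * (w - c) := by ring
    rw [e]
    exact dvd_add (Dvd.dvd.mul_right h1 _) (Dvd.dvd.mul_left h2 _)
  have h4 := (bas_dvd.1 h3).2
  rw [Zsqrtd.im_sub] at h4
  apply dvd_iff_dvd_of_dvd_sub
  have e : σ * (P * ((g : G) * w)).im - r - (σ * (v * ((g : G) * c)).im - r) =
      σ * ((P * ((g : G) * w)).im - (v * ((g : G) * c)).im) := by ring
  rw [e]
  exact Dvd.dvd.mul_left h4 _

/-- decomposition of one content into slices. The first sum is over the classes of the primes and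
of the elements, the slices and the hats; the error is counted by the pairs in the region. -/
theorem slices_pr {δ Λ K : ℝ} (hδ : 0 < δ) (hδ1 : δ ≤ 1) (hΛ : 0 ≤ Λ) (hK : 0 ≤ K) (T : ℕ)
    (hT : 2 / δ ≤ T) : ∃ C : ℝ, 1 ≤ C ∧ ∀ (N g M Y' : ℕ) (x B Y : ℝ) (r : ℤ), 1 ≤ N → 1 ≤ g →
      1 ≤ M → 1 ≤ B → 4 * (T + 2) * B ≤ x → 1 ≤ Y → Y ≤ x → x ^ 2 / Y ≤ (Y' : ℝ) →
      (Y' : ℝ) ≤ 2 * x ^ 2 / Y →
      ∀ (ψ f : ℝ → ℝ), Cut 0 K ψ → Cut δ Λ f → ∀ om : ℕ → ℝ, (∀ p, |om p| ≤ 1) →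
      ∀ σ : ℤ, (σ = 1 ∨ σ = -1) →
      |SG ψ f om σ x B Y M r g (2 * Y' / (g : ℝ) ^ 2)| ≤
        (∑ v ∈ Cls M, ∑ c ∈ Cls M, ∑ a ∈ Finset.Icc 1 (2 * N), ∑ b ∈ Finset.Icc 1 (2 * N),
          ∑ s ∈ Finset.Icc (-((T * N : ℕ) : ℤ)) ((T * N : ℕ) : ℤ),
            |TS om (Sub M v N a Y) (Sl M c N g b Y') (B / (N * x)) s|) +
        C / Real.sqrt N * ∑ p ∈ pr1 Y (2 * Y),
          (((Bl (8 * x ^ 2 / Y)).filter (fun z => pel p * z ∈ Rg (4 * (T + 2)) x B)).card : ℝ) := by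
  classical
  refine ⟨(K + Λ) * (8 + 3 * (T + 2)) + 1, ?_, ?_⟩
  · have : 0 ≤ (K + Λ) * (8 + 3 * ((T : ℝ) + 2)) := by positivity
    linarith
  intro N g M Y' x B Y r hN hg hM hB hTx hY hYx hY1 hY2 ψ f hψ hf om hom σ hσ
  have hT0 : (0 : ℝ) ≤ T := Nat.cast_nonneg T
  have hx : 0 < x := by nlinarith
  have hY0 : 0 < Y := by linarith
  have hY'0 : (0 : ℝ) < Y' := lt_of_lt_of_le (by positivity) hY1
  have hN0 : (0 : ℝ) < N := by exact_mod_cast hN
  set R : Finset G := Rg (4 * ((T : ℝ) + 2)) x B with hR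
  set E : ℝ := (K + Λ) * (8 + 3 * (T + 2)) / Real.sqrt N with hE
  have hE0 : 0 ≤ E := by positivity
  set k : ℝ := B / (N * x) with hk
  set I : Finset ℤ := Finset.Icc (-((T * N : ℕ) : ℤ)) ((T * N : ℕ) : ℤ) with hI
  -- the term
  set Q : ℕ → G → ℝ := fun p w => om p * (gl w *
    ((if (M : ℤ) ∣ σ * (pel p * ((g : G) * w)).im - r then 1 else 0) *
      (ψ (((σ * (pel p * ((g : G) * w)).im : ℤ) : ℝ) / B) *
        f (((pel p * ((g : G) * w)).re : ℝ) / x)))) with hQ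
  have hSG : SG ψ f om σ x B Y M r g (2 * Y' / (g : ℝ) ^ 2) =
      ∑ p ∈ pr1 Y (2 * Y), ∑ w ∈ PB (2 * Y' / (g : ℝ) ^ 2), Q p w := by
    unfold SG
    refine Finset.sum_congr rfl fun p _ => ?_
    rw [Finset.mul_sum]
  have hsplit : ∀ F : ℕ → G → ℝ, ∑ p ∈ pr1 Y (2 * Y), ∑ w ∈ PB (2 * Y' / (g : ℝ) ^ 2), F p w =
      ∑ v ∈ Cls M, ∑ c ∈ Cls M, ∑ a ∈ Finset.Icc 1 (2 * N), ∑ b ∈ Finset.Icc 1 (2 * N),
        ∑ p ∈ Sub M v N a Y, ∑ w ∈ Sl M c N g b Y', F p w := by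
    intro F
    rw [c6_part_p hM hN hY0]
    refine Finset.sum_congr rfl fun v _ => ?_
    rw [Finset.sum_comm (s := Cls M)]
    refine Finset.sum_congr rfl fun a _ => ?_
    rw [Finset.sum_congr rfl (fun p _ => c6_part_w hM hN hg hY'0 (F p))]
    rw [Finset.sum_comm]
    refine Finset.sum_congr rfl fun c _ => ?_
    rw [Finset.sum_comm]
  have hmain : ∀ v ∈ Cls M, ∀ c ∈ Cls M, ∀ a ∈ Finset.Icc 1 (2 * N),
      ∀ b ∈ Finset.Icc 1 (2 * N),
      |∑ p ∈ Sub M v N a Y, ∑ w ∈ Sl M c N g b Y', Q p w| ≤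
        (∑ s ∈ I, |TS om (Sub M v N a Y) (Sl M c N g b Y') k s|) +
        ∑ p ∈ Sub M v N a Y, ∑ w ∈ Sl M c N g b Y',
          (if pel p * ((g : G) * w) ∈ R then E else 0) := by
    intro v _ c _ a ha b hb
    set χ : ℝ := if (M : ℤ) ∣ σ * (v * ((g : G) * c)).im - r then 1 else 0 with hχ
    have hχ0 : 0 ≤ χ := by
      rw [hχ]
      split_ifs <;> norm_num
    have hχ1 : χ ≤ 1 := by
      rw [hχ]
      split_ifs <;> norm_num
    set P : ℤ → ℝ := fun s => Ps ψ f σ x B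
      (Real.sqrt (Y * Y' / x ^ 2 * ((a : ℝ) / N * (b / N)))) ((s : ℝ) / N) with hP
    have hP1 : ∀ s, |χ * P s| ≤ 1 := by
      intro s
      rw [hP]
      unfold Ps
      rw [abs_mul, abs_mul, abs_of_nonneg hχ0, abs_of_nonneg (hψ.nonneg _),
        abs_of_nonneg (hf.nonneg _)]
      exact mul_le_one₀ hχ1 (mul_nonneg (hψ.nonneg _) (hf.nonneg _))
        (mul_le_one₀ (hψ.le_one _) (hf.nonneg _) (hf.le_one _))
    have hTS : ∑ s ∈ I, χ * P s * TS om (Sub M v N a Y) (Sl M c N g b Y') k s =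
        ∑ p ∈ Sub M v N a Y, ∑ w ∈ Sl M c N g b Y', om p * (gl w * (χ * ∑ s ∈ I,
          P s * hat ((ag (star (pel p)) w - s * k) / k))) := by
      unfold TS
      simp_rw [Finset.mul_sum]
      rw [Finset.sum_comm]
      refine Finset.sum_congr rfl fun p _ => ?_
      rw [Finset.sum_comm]
      refine Finset.sum_congr rfl fun w _ => ?_
      refine Finset.sum_congr rfl fun s _ => ?_
      ring
    have hdiff : |∑ p ∈ Sub M v N a Y, ∑ w ∈ Sl M c N g b Y', Q p w -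
        ∑ s ∈ I, χ * P s * TS om (Sub M v N a Y) (Sl M c N g b Y') k s| ≤
        ∑ p ∈ Sub M v N a Y, ∑ w ∈ Sl M c N g b Y',
          (if pel p * ((g : G) * w) ∈ R then E else 0) := by
      rw [hTS, ← Finset.sum_sub_distrib]
      refine (Finset.abs_sum_le_sum_abs _ _).trans (Finset.sum_le_sum fun p hp => ?_)
      rw [← Finset.sum_sub_distrib]
      refine (Finset.abs_sum_le_sum_abs _ _).trans (Finset.sum_le_sum fun w hw => ?_)
      have hpd : (M : G) ∣ pel p - v := by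
        unfold Sub at hp
        rw [Finset.mem_filter] at hp
        exact hp.2.1
      have hwd : (M : G) ∣ w - c := by
        unfold Sl Slc at hw
        rw [Finset.mem_filter] at hw
        exact hw.2.2
      have hQe : Q p w = om p * (gl w * (χ *
          (ψ (((σ * (pel p * ((g : G) * w)).im : ℤ) : ℝ) / B) *
            f (((pel p * ((g : G) * w)).re : ℝ) / x)))) := by
        simp only [hQ, hχ]
        rw [if_congr (c6_chi hpd hwd) rfl rfl]
      rw [hQe, ← mul_sub, ← mul_sub, ← mul_sub, abs_mul, abs_mul, abs_mul, abs_of_nonneg hχ0]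
      have h1 := c6_pair (M := M) hδ hδ1 hΛ hK hT hN hg hB hTx hY hY1 hY2 hψ hf hσ ha hb hp hw
      refine le_trans ?_ h1
      refine (mul_le_of_le_one_left (by positivity) (hom p)).trans ?_
      refine (mul_le_of_le_one_left (by positivity) (gl_abs w)).trans ?_
      exact mul_le_of_le_one_left (abs_nonneg _) hχ1
    have h2 : |∑ s ∈ I, χ * P s * TS om (Sub M v N a Y) (Sl M c N g b Y') k s| ≤
        ∑ s ∈ I, |TS om (Sub M v N a Y) (Sl M c N g b Y') k s| := by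
      refine (Finset.abs_sum_le_sum_abs _ _).trans (Finset.sum_le_sum fun s _ => ?_)
      rw [abs_mul]
      exact mul_le_of_le_one_left (abs_nonneg _) (hP1 s)
    have h3 := abs_add_le (∑ s ∈ I, χ * P s * TS om (Sub M v N a Y) (Sl M c N g b Y') k s)
      (∑ p ∈ Sub M v N a Y, ∑ w ∈ Sl M c N g b Y', Q p w -
        ∑ s ∈ I, χ * P s * TS om (Sub M v N a Y) (Sl M c N g b Y') k s)
    rw [add_sub_cancel] at h3
    exact h3.trans (add_le_add h2 hdiff)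
  have hcount : ∑ p ∈ pr1 Y (2 * Y), ∑ w ∈ PB (2 * Y' / (g : ℝ) ^ 2),
      (if pel p * ((g : G) * w) ∈ R then E else 0) ≤
      ((K + Λ) * (8 + 3 * (T + 2)) + 1) / Real.sqrt N * ∑ p ∈ pr1 Y (2 * Y),
          (((Bl (8 * x ^ 2 / Y)).filter (fun z => pel p * z ∈ R)).card : ℝ) := by
    rw [Finset.mul_sum]
    refine Finset.sum_le_sum fun p _ => ?_
    rw [← Finset.sum_filter, Finset.sum_const, nsmul_eq_mul, mul_comm]
    have hEC : E ≤ ((K + Λ) * (8 + 3 * (T + 2)) + 1) / Real.sqrt N := by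
      rw [hE]
      exact div_le_div_of_nonneg_right (by linarith) (Real.sqrt_nonneg _)
    refine mul_le_mul hEC ?_ (by positivity) (hE0.trans hEC)
    have hg' : (g : G) ≠ 0 := by
      rw [ne_eq, Nat.cast_eq_zero]
      omega
    have hg0 : (0 : ℝ) < g := by exact_mod_cast hg
    refine Nat.cast_le.2 (Finset.card_le_card_of_injOn (fun w => (g : G) * w) ?_ ?_)
    · intro w hw
      have hw' := Finset.mem_coe.1 hw
      rw [Finset.mem_filter, mem_PB] at hw'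
      refine Finset.mem_coe.2 ?_
      rw [Finset.mem_filter, mem_Bl]
      refine ⟨⟨mul_ne_zero hg' (prm_ne hw'.1.1), ?_⟩, hw'.2⟩
      rw [nn_mul, nn_nat]
      push_cast
      have h1 := hw'.1.2
      rw [le_div_iff₀ (by positivity)] at h1
      rw [le_div_iff₀ hY0] at hY2 ⊢
      nlinarith [sq_nonneg x]
    · intro w _ w' _ h
      exact mul_left_cancel₀ hg' h
  rw [hSG, hsplit]
  refine le_trans ?_ (add_le_add le_rfl hcount)
  rw [hsplit (fun p w => if pel p * ((g : G) * w) ∈ R then E else 0), ← Finset.sum_add_distrib]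
  refine (Finset.abs_sum_le_sum_abs _ _).trans (Finset.sum_le_sum fun v hv => ?_)
  rw [← Finset.sum_add_distrib]
  refine (Finset.abs_sum_le_sum_abs _ _).trans (Finset.sum_le_sum fun c hc => ?_)
  rw [← Finset.sum_add_distrib]
  refine (Finset.abs_sum_le_sum_abs _ _).trans (Finset.sum_le_sum fun a ha => ?_)
  rw [← Finset.sum_add_distrib]
  refine (Finset.abs_sum_le_sum_abs _ _).trans (Finset.sum_le_sum fun b hb => ?_)
  exact hmain v hv c hc a ha b hb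



end Pool.Agent.TF

namespace Pool.Agent.TF

theorem slices : type_of% @slices_pr := @slices_pr

end Pool.Agent.TF
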