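import Mathlib
import Pool.Agent.Lib_helper18.TF.Defs
import Pool.Agent.Lib_helper10.T2F.BAS
import Pool.Agent.Lib_helper10.T2F.PEL
import Pool.Agent.Lib_helper10.T2F.CNT
import Pool.Agent.Lib_helper10.T2F.SLW
import Pool.Agent.Lib_helper10.T2F.SLG
import Pool.Agent.Lib_helper10.T2F.MER
import Pool.Agent.Lib_helper10.T2F.DSR
import Pool.Agent.Lib_helper73.Var.LS
import Pool.Agent.Lib_helper18.TFF.DefsC
import Pool.Agent.Lib_helper10.T2F.BHS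
import Pool.Agent.Lib_helper10.T2F.CLS

/-! # TF, block C8: the variance of the slices -/

set_option autoImplicit false

namespace Pool.Agent.TF

open Pool.Agent.T2 Filter Topology

theorem c8_mr (M : ℕ) (hM : 1 ≤ M) (c : G) (a : ℝ) (ha : 0 ≤ a) {ε : ℝ} (hε : 0 < ε) :
    ∃ H X₀ : ℝ, 1 ≤ H ∧ ∀ X : ℝ, X₀ ≤ X → ∑ Y ∈ Finset.Icc 1 ⌊X⌋₊,
      (∑ k ∈ Ks (Y / H), ‖Acl M c k (a * Y)‖ ^ 2) / (Y : ℝ) ^ 3 ≤ ε * Real.log X := by
  classical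
  rcases ha.eq_or_lt with h | h
  · subst h
    refine ⟨1, 1, le_rfl, fun X hX => ?_⟩
    have h0 : ∀ (k : ℤ) (Y : ℕ), Acl M c k (0 * (Y : ℝ)) = 0 := by
      intro k Y
      unfold Acl
      refine Finset.sum_eq_zero fun z hz => ?_
      exfalso
      have h1 := mem_PB.1 (Finset.mem_filter.1 hz).1
      have h2 : 0 < nn z := nn_pos.2 (prm_ne h1.1)
      have h3 : (1 : ℝ) ≤ nn z := by exact_mod_cast h2
      have h4 := h1.2
      rw [zero_mul] at h4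
      linarith
    have h5 : ∑ Y ∈ Finset.Icc 1 ⌊X⌋₊,
        (∑ k ∈ Ks (Y / 1), ‖Acl M c k (0 * Y)‖ ^ 2) / (Y : ℝ) ^ 3 = 0 := by
      refine Finset.sum_eq_zero fun Y _ => ?_
      rw [Finset.sum_eq_zero, zero_div]
      intro k _
      rw [h0, norm_zero]
      norm_num
    rw [h5]
    exact mul_nonneg hε.le (Real.log_nonneg hX)
  · exact mr_class M hM c a ε h hε

theorem c8_split (M : ℕ) (c : G) {a b Y : ℝ} (hab : a ≤ b) (hY : 0 ≤ Y) (k : ℤ) :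
    ∑ w ∈ Slc M c a b Y, (gl w : ℂ) * ang k w = Acl M c k (b * Y) - Acl M c k (a * Y) := by
  classical
  have h1 : (PB (b * Y)).filter (fun z => (M : G) ∣ z - c) =
      Slc M c a b Y ∪ (PB (a * Y)).filter (fun z => (M : G) ∣ z - c) := by
    ext z
    unfold Slc
    rw [Finset.mem_union, Finset.mem_filter, Finset.mem_filter, Finset.mem_filter, mem_PB, mem_PB]
    constructor
    · rintro ⟨⟨h1, h2⟩, h3⟩
      by_cases h : a * Y < (nn z : ℝ)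
      · exact Or.inl ⟨⟨h1, h2⟩, h, h3⟩
      · exact Or.inr ⟨⟨h1, not_lt.1 h⟩, h3⟩
    · rintro (⟨⟨h1, h2⟩, -, h3⟩ | ⟨⟨h1, h2⟩, h3⟩)
      · exact ⟨⟨h1, h2⟩, h3⟩
      · exact ⟨⟨h1, h2.trans (mul_le_mul_of_nonneg_right hab hY)⟩, h3⟩
  have h2 : Disjoint (Slc M c a b Y) ((PB (a * Y)).filter (fun z => (M : G) ∣ z - c)) := by
    rw [Finset.disjoint_left]
    intro z hz hz'
    unfold Slc at hz
    have h3 := (Finset.mem_filter.1 hz).2.1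
    have h4 := (mem_PB.1 (Finset.mem_filter.1 hz').1).2
    linarith
  have h3 : Acl M c k (b * Y) = ∑ w ∈ Slc M c a b Y, (gl w : ℂ) * ang k w +
      Acl M c k (a * Y) := by
    unfold Acl
    rw [h1, Finset.sum_union h2]
  rw [h3]
  ring

theorem c8_one (M : ℕ) (c : G) (a b : ℝ) (ha : 0 ≤ a) (hab : a < b) :
    ∃ C : ℝ, 1 ≤ C ∧ ∀ (H k : ℝ) (Y : ℕ), 1 ≤ H → 0 < k → k ≤ 1 → H ≤ k * Y →
      SV (Slc M c a b Y) k / (k * (Y : ℝ) ^ 3) ≤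
        4 * ((∑ l ∈ Ks (Y / H), ‖Acl M c l (b * Y)‖ ^ 2) / (Y : ℝ) ^ 3 +
          (∑ l ∈ Ks (Y / H), ‖Acl M c l (a * Y)‖ ^ 2) / (Y : ℝ) ^ 3) +
        C * H ^ 2 / k ^ 2 * (1 / (Y : ℝ) ^ 3) := by
  classical
  obtain ⟨C, hC, hs⟩ := hat_sum
  have hb : 0 < b := lt_of_le_of_lt ha hab
  refine ⟨C * ((1 + b) + (1 + b) ^ 2), ?_, fun H k Y hH hk hk1 hHk => ?_⟩
  · have : 1 ≤ (1 + b) + (1 + b) ^ 2 := by nlinarith
    nlinarith
  have hY0 : (0 : ℝ) < Y := by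
    by_contra h
    have h1 : k * (Y : ℝ) ≤ 0 := mul_nonpos_of_nonneg_of_nonpos hk.le (not_lt.1 h)
    linarith
  have hY1 : (1 : ℝ) ≤ Y := by
    have : 0 < Y := by exact_mod_cast hY0
    exact_mod_cast this
  have hHY : H ≤ Y := by nlinarith
  have hH0 : 0 < H := by linarith
  have hK : 1 ≤ (Y : ℝ) / H := by rwa [le_div_iff₀ hH0, one_mul]
  set Y₁ : ℝ := max 1 (b * Y) with hY₁
  have hsub : Slc M c a b Y ⊆ PB Y₁ := by
    intro z hz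
    unfold Slc at hz
    have h1 := mem_PB.1 (Finset.mem_filter.1 hz).1
    exact mem_PB.2 ⟨h1.1, h1.2.trans (le_max_right _ _)⟩
  have hY₁0 : 0 < Y₁ := lt_of_lt_of_le one_pos (le_max_left _ _)
  have hY₁le : Y₁ ≤ (1 + b) * Y := by
    refine max_le ?_ ?_
    · nlinarith
    · nlinarith
  have h1 := hs Y₁ (Y / H) k 0 (Slc M c a b Y) (Slc M c a b Y) (le_max_left _ _) hK hk hk1
    (by norm_num) hsub hsub
  have h2 : SV (Slc M c a b Y) k ≤ k * ∑ l ∈ Ks (Y / H),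
      (‖∑ w ∈ Slc M c a b Y, (gl w : ℂ) * ang l w‖ ^ 2 +
        ‖∑ w ∈ Slc M c a b Y, (gl w : ℂ) * ang l w‖ ^ 2) +
      C * (1 / (k * (Y / H)) + Y₁ / (k * (Y / H) ^ 2)) * Y₁ := by
    refine le_trans ?_ h1
    refine le_trans (le_of_eq ?_) (le_abs_self _)
    unfold SV
    simp only [sub_zero]
  have h3 : ∀ l : ℤ, ‖∑ w ∈ Slc M c a b Y, (gl w : ℂ) * ang l w‖ ^ 2 +
        ‖∑ w ∈ Slc M c a b Y, (gl w : ℂ) * ang l w‖ ^ 2 ≤
      4 * (‖Acl M c l (b * Y)‖ ^ 2 + ‖Acl M c l (a * Y)‖ ^ 2) := by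
    intro l
    rw [c8_split M c hab.le hY0.le l]
    have h4 := norm_sub_le (Acl M c l (b * Y)) (Acl M c l (a * Y))
    have h5 := norm_nonneg (Acl M c l (b * Y) - Acl M c l (a * Y))
    nlinarith [sq_nonneg (‖Acl M c l (b * Y)‖ - ‖Acl M c l (a * Y)‖),
      norm_nonneg (Acl M c l (b * Y)), norm_nonneg (Acl M c l (a * Y))]
  have h4 : k * ∑ l ∈ Ks (Y / H),
      (‖∑ w ∈ Slc M c a b Y, (gl w : ℂ) * ang l w‖ ^ 2 +
        ‖∑ w ∈ Slc M c a b Y, (gl w : ℂ) * ang l w‖ ^ 2) ≤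
      k * (4 * (∑ l ∈ Ks (Y / H), ‖Acl M c l (b * Y)‖ ^ 2 +
        ∑ l ∈ Ks (Y / H), ‖Acl M c l (a * Y)‖ ^ 2)) := by
    refine mul_le_mul_of_nonneg_left ?_ hk.le
    rw [← Finset.sum_add_distrib, Finset.mul_sum]
    exact Finset.sum_le_sum fun l _ => h3 l
  have h5 : C * (1 / (k * (Y / H)) + Y₁ / (k * (Y / H) ^ 2)) * Y₁ ≤
      C * ((1 + b) + (1 + b) ^ 2) * H ^ 2 / k := by
    have e1 : C * (1 / (k * (Y / H)) + Y₁ / (k * (Y / H) ^ 2)) * Y₁ =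
        C / k * (H * (Y₁ / Y) + H ^ 2 * (Y₁ / Y) ^ 2) := by
      field_simp
    have e2 : Y₁ / Y ≤ 1 + b := by rwa [div_le_iff₀ hY0]
    have e3 : 0 ≤ Y₁ / Y := by positivity
    have e4 : H ≤ H ^ 2 := by nlinarith
    rw [e1]
    have e5 : H * (Y₁ / Y) + H ^ 2 * (Y₁ / Y) ^ 2 ≤ H ^ 2 * (1 + b) + H ^ 2 * (1 + b) ^ 2 := by
      have := mul_le_mul e4 e2 e3 (by positivity)
      have := mul_le_mul_of_nonneg_left (pow_le_pow_left₀ e3 e2 2) (sq_nonneg H)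
      linarith
    calc C / k * (H * (Y₁ / Y) + H ^ 2 * (Y₁ / Y) ^ 2)
        ≤ C / k * (H ^ 2 * (1 + b) + H ^ 2 * (1 + b) ^ 2) :=
          mul_le_mul_of_nonneg_left e5 (by positivity)
      _ = C * ((1 + b) + (1 + b) ^ 2) * H ^ 2 / k := by ring
  have h6 : SV (Slc M c a b Y) k ≤ k * (4 * (∑ l ∈ Ks (Y / H), ‖Acl M c l (b * Y)‖ ^ 2 +
        ∑ l ∈ Ks (Y / H), ‖Acl M c l (a * Y)‖ ^ 2)) +
      C * ((1 + b) + (1 + b) ^ 2) * H ^ 2 / k := by linarith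
  have h7 : 0 < k * (Y : ℝ) ^ 3 := by positivity
  rw [div_le_iff₀ h7]
  refine h6.trans (le_of_eq ?_)
  field_simp

theorem c8_cubes {Z : ℝ} (hZ : 1 ≤ Z) (N : ℕ) :
    ∑ Y ∈ (Finset.Icc 1 N).filter (fun Y : ℕ => Z ≤ (Y : ℝ)), 1 / (Y : ℝ) ^ 3 ≤ 2 / Z ^ 2 := by
  have hZ0 : 0 < Z := by linarith
  have key : ∑ Y ∈ (Finset.Icc 1 N).filter (fun Y : ℕ => Z ≤ (Y : ℝ)), 1 / (Y : ℝ) ^ 3 ≤
      2 / Z ^ 2 - 2 / (max ((N : ℝ) + 1) Z) ^ 2 := by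
    induction N with
    | zero =>
      have : max (((0 : ℕ) : ℝ) + 1) Z = Z := max_eq_right (by simpa using hZ)
      rw [this]
      simp
    | succ N ih =>
      rw [Finset.sum_filter] at ih ⊢
      rw [Finset.sum_Icc_succ_top (by omega)]
      push_cast
      by_cases h : Z ≤ (N : ℝ) + 1
      · rw [if_pos h]
        rw [max_eq_left h] at ih
        rw [max_eq_left (by linarith : Z ≤ (N : ℝ) + 1 + 1)]
        have hN : (0 : ℝ) ≤ N := Nat.cast_nonneg N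
        have h1 : 1 / ((N : ℝ) + 1) ^ 3 ≤ 2 / ((N : ℝ) + 1) ^ 2 - 2 / ((N : ℝ) + 1 + 1) ^ 2 := by
          rw [div_sub_div _ _ (by positivity) (by positivity),
            div_le_div_iff₀ (by positivity) (by positivity)]
          have : 0 ≤ (N : ℝ) ^ 2 := sq_nonneg _
          have e1 : (0 : ℝ) ≤ ((N : ℝ) + 1) ^ 2 := by positivity
          nlinarith [mul_nonneg e1 (by positivity : (0 : ℝ) ≤ 3 * (N : ℝ) ^ 2 + 6 * N + 2)]
        linarith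
      · rw [if_neg h, add_zero]
        push Not at h
        rw [max_eq_right h.le] at ih
        refine ih.trans ?_
        have h2 : Z ≤ max ((N : ℝ) + 1 + 1) Z := le_max_right _ _
        have h3 : 2 / (max ((N : ℝ) + 1 + 1) Z) ^ 2 ≤ 2 / Z ^ 2 := by gcongr
        linarith
  refine key.trans ?_
  have : 0 ≤ 2 / (max ((N : ℝ) + 1) Z) ^ 2 := by positivity
  linarith

theorem slice_var_pr (M : ℕ) (hM : 1 ≤ M) (c : G) (a b : ℝ) (ha : 0 ≤ a) (hab : a < b) {ε : ℝ}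
    (hε : 0 < ε) : ∃ H X₀ : ℝ, 1 ≤ H ∧ ∀ X : ℝ, X₀ ≤ X → ∀ k : ℝ, 0 < k → k ≤ 1 →
      ∑ Y ∈ (Finset.Icc 1 ⌊X⌋₊).filter (fun Y : ℕ => H ≤ k * Y), SV (Slc M c a b Y) k /
        (k * (Y : ℝ) ^ 3) ≤ ε * Real.log X := by
  have hb : 0 ≤ b := ha.trans hab.le
  obtain ⟨H₁, X₁, hH₁, h₁⟩ := c8_mr M hM c b hb (ε := ε / 16) (by positivity)
  obtain ⟨H₂, X₂, hH₂, h₂⟩ := c8_mr M hM c a ha (ε := ε / 16) (by positivity)
  obtain ⟨C, hC, hone⟩ := c8_one M c a b ha hab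
  set H : ℝ := max H₁ H₂ with hH
  have hH1 : 1 ≤ H := hH₁.trans (le_max_left _ _)
  have hH0 : 0 < H := by linarith
  refine ⟨H, max (max X₁ X₂) (Real.exp (4 * C / ε)), hH1, fun X hX k hk hk1 => ?_⟩
  have hX₁ : X₁ ≤ X := (le_max_left _ _).trans ((le_max_left _ _).trans hX)
  have hX₂ : X₂ ≤ X := (le_max_right _ _).trans ((le_max_left _ _).trans hX)
  have hX₃ : Real.exp (4 * C / ε) ≤ X := (le_max_right _ _).trans hX
  have hlog : 4 * C / ε ≤ Real.log X := by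
    rw [Real.le_log_iff_exp_le (lt_of_lt_of_le (Real.exp_pos _) hX₃)]
    exact hX₃
  have hsub : ∀ (H' : ℝ), 1 ≤ H' → H' ≤ H → ∀ (d : ℝ),
      ∑ Y ∈ (Finset.Icc 1 ⌊X⌋₊).filter (fun Y : ℕ => H ≤ k * Y),
        (∑ l ∈ Ks (Y / H), ‖Acl M c l (d * Y)‖ ^ 2) / (Y : ℝ) ^ 3 ≤
      ∑ Y ∈ Finset.Icc 1 ⌊X⌋₊,
        (∑ l ∈ Ks (Y / H'), ‖Acl M c l (d * Y)‖ ^ 2) / (Y : ℝ) ^ 3 := by
    intro H' hH' hle d
    calc ∑ Y ∈ (Finset.Icc 1 ⌊X⌋₊).filter (fun Y : ℕ => H ≤ k * Y),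
        (∑ l ∈ Ks (Y / H), ‖Acl M c l (d * Y)‖ ^ 2) / (Y : ℝ) ^ 3
        ≤ ∑ Y ∈ Finset.Icc 1 ⌊X⌋₊,
          (∑ l ∈ Ks (Y / H), ‖Acl M c l (d * Y)‖ ^ 2) / (Y : ℝ) ^ 3 := by
          refine Finset.sum_le_sum_of_subset_of_nonneg (Finset.filter_subset _ _) ?_
          intro Y _ _
          positivity
      _ ≤ _ := by
          refine Finset.sum_le_sum fun Y _ => ?_
          refine div_le_div_of_nonneg_right ?_ (by positivity)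
          refine Finset.sum_le_sum_of_subset_of_nonneg ?_ fun _ _ _ => by positivity
          intro l hl
          rw [mem_Ks] at hl ⊢
          refine hl.trans ?_
          have hH'0 : 0 < H' := by linarith
          have hY : (0 : ℝ) ≤ Y := Nat.cast_nonneg Y
          exact div_le_div_of_nonneg_left hY hH'0 hle
  have hcub : ∑ Y ∈ (Finset.Icc 1 ⌊X⌋₊).filter (fun Y : ℕ => H ≤ k * Y), 1 / (Y : ℝ) ^ 3 ≤
      2 * k ^ 2 / H ^ 2 := by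
    have hZ : 1 ≤ H / k := by
      rw [le_div_iff₀ hk]
      linarith
    have h1 := c8_cubes hZ ⌊X⌋₊
    have h2 : (Finset.Icc 1 ⌊X⌋₊).filter (fun Y : ℕ => H ≤ k * Y) =
        (Finset.Icc 1 ⌊X⌋₊).filter (fun Y : ℕ => H / k ≤ (Y : ℝ)) := by
      refine Finset.filter_congr fun Y _ => ?_
      rw [div_le_iff₀ hk, mul_comm]
    rw [h2]
    refine h1.trans (le_of_eq ?_)
    field_simp
  calc ∑ Y ∈ (Finset.Icc 1 ⌊X⌋₊).filter (fun Y : ℕ => H ≤ k * Y), SV (Slc M c a b Y) k /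
        (k * (Y : ℝ) ^ 3)
      ≤ ∑ Y ∈ (Finset.Icc 1 ⌊X⌋₊).filter (fun Y : ℕ => H ≤ k * Y),
        (4 * ((∑ l ∈ Ks (Y / H), ‖Acl M c l (b * Y)‖ ^ 2) / (Y : ℝ) ^ 3 +
          (∑ l ∈ Ks (Y / H), ‖Acl M c l (a * Y)‖ ^ 2) / (Y : ℝ) ^ 3) +
        C * H ^ 2 / k ^ 2 * (1 / (Y : ℝ) ^ 3)) :=
        Finset.sum_le_sum fun Y hY =>
          hone H k Y hH1 hk hk1 (Finset.mem_filter.1 hY).2
    _ = 4 * (∑ Y ∈ (Finset.Icc 1 ⌊X⌋₊).filter (fun Y : ℕ => H ≤ k * Y),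
          (∑ l ∈ Ks (Y / H), ‖Acl M c l (b * Y)‖ ^ 2) / (Y : ℝ) ^ 3 +
          ∑ Y ∈ (Finset.Icc 1 ⌊X⌋₊).filter (fun Y : ℕ => H ≤ k * Y),
          (∑ l ∈ Ks (Y / H), ‖Acl M c l (a * Y)‖ ^ 2) / (Y : ℝ) ^ 3) +
        C * H ^ 2 / k ^ 2 * ∑ Y ∈ (Finset.Icc 1 ⌊X⌋₊).filter (fun Y : ℕ => H ≤ k * Y),
          1 / (Y : ℝ) ^ 3 := by
        rw [Finset.sum_add_distrib, ← Finset.mul_sum, ← Finset.mul_sum, Finset.sum_add_distrib]
    _ ≤ 4 * (ε / 16 * Real.log X + ε / 16 * Real.log X) +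
        C * H ^ 2 / k ^ 2 * (2 * k ^ 2 / H ^ 2) := by
        refine add_le_add (mul_le_mul_of_nonneg_left (add_le_add ?_ ?_) (by norm_num)) ?_
        · exact (hsub H₁ hH₁ (le_max_left _ _) b).trans (h₁ X hX₁)
        · exact (hsub H₂ hH₂ (le_max_right _ _) a).trans (h₂ X hX₂)
        · exact mul_le_mul_of_nonneg_left hcub (by positivity)
    _ = ε / 2 * Real.log X + 2 * C := by
        field_simp
        ring
    _ ≤ ε * Real.log X := by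
        rw [div_le_iff₀ hε] at hlog
        linarith

end Pool.Agent.TF

namespace Pool.Agent.TF

theorem slice_var : type_of% @slice_var_pr := @slice_var_pr

end Pool.Agent.TF
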