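import Mathlib
import Pool.Agent.Lib_helper18.TF.Defs
import Pool.Agent.Lib_helper10.T2F.BAS
import Pool.Agent.Lib_helper10.T2F.PEL
import Pool.Agent.Lib_helper10.T2F.CNT
import Pool.Agent.Lib_helper10.T2F.SLW
import Pool.Agent.Lib_helper10.T2F.SLG
import Pool.Agent.Lib_helper10.T2F.MER
import Pool.Agent.Lib_helper10.T2F.DSR
import Pool.Agent.Lib_helper73.Var.LS
import Pool.Agent.Lib_helper18.TFF.DefsC
import Pool.Agent.Lib_helper18.TFF.C1
import Pool.Agent.Lib_helper18.TFF.C7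
import Pool.Agent.Lib_helper18.TFF.C8

set_option autoImplicit false

namespace Pool.Agent.TF

open Pool.Agent.T2 Filter Topology

theorem c9_ne_zero {M : ℕ} {c : G} {N g b : ℕ} {Y : ℝ} {w : G} (hw : w ∈ Sl M c N g b Y) :
    w ≠ 0 := by
  classical
  unfold Sl Slc PB Bl at hw
  simp only [Finset.mem_filter] at hw
  exact hw.1.1.2.1

theorem c9_single {ι : Type} (I : Finset ι) (F : ι → ℝ) (h : ∀ i, 0 ≤ F i) (i : ι)
    (hi : i ∈ I) : F i ≤ ∑ i ∈ I, F i :=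
  Finset.single_le_sum (f := F) (fun j _ => h j) hi

/-- the minimum over a dyadic interval is at most the logarithmic mean -/
theorem c9_min (V : ℕ → ℝ) (hV : ∀ y, 0 ≤ V y) {X1 : ℝ} (hX1 : 2 ≤ X1) (S : Finset ℕ)
    (hS : ∀ y : ℕ, X1 ≤ (y : ℝ) → (y : ℝ) < 2 * X1 → y ∈ S)
    (hS' : ∀ y ∈ S, X1 ≤ (y : ℝ) ∧ (y : ℝ) < 2 * X1) :
    ∃ y : ℕ, X1 ≤ (y : ℝ) ∧ (y : ℝ) ≤ 2 * X1 ∧ V y ≤ 4 * ∑ y ∈ S, V y / y := by
  have hX0 : 0 < X1 := by linarith
  have hsub : Finset.Ico ⌈X1⌉₊ ⌈2 * X1⌉₊ ⊆ S := by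
    intro y hy
    rw [Finset.mem_Ico] at hy
    exact hS y (Nat.le_of_ceil_le hy.1) (Nat.lt_ceil.1 hy.2)
  have hcard : X1 / 2 ≤ (S.card : ℝ) := by
    have h1 : (Finset.Ico ⌈X1⌉₊ ⌈2 * X1⌉₊).card ≤ S.card := Finset.card_le_card hsub
    rw [Nat.card_Ico] at h1
    have h2 : (⌈2 * X1⌉₊ : ℝ) ≤ (S.card : ℝ) + ⌈X1⌉₊ := by
      have : ⌈2 * X1⌉₊ ≤ S.card + ⌈X1⌉₊ := by omega
      exact_mod_cast this
    have h3 : 2 * X1 ≤ (⌈2 * X1⌉₊ : ℝ) := Nat.le_ceil _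
    have h4 : (⌈X1⌉₊ : ℝ) < X1 + 1 := Nat.ceil_lt_add_one hX0.le
    linarith
  have hne : S.Nonempty := by
    rw [← Finset.card_pos]
    have : (0 : ℝ) < S.card := by linarith
    exact_mod_cast this
  obtain ⟨y, hy, hmin⟩ := Finset.exists_min_image S V hne
  refine ⟨y, (hS' y hy).1, (hS' y hy).2.le, ?_⟩
  have h1 : (S.card : ℝ) * V y ≤ ∑ z ∈ S, V z := by
    rw [← nsmul_eq_mul]
    exact Finset.card_nsmul_le_sum S V (V y) hmin
  have h2 : ∑ z ∈ S, V z ≤ 2 * X1 * ∑ z ∈ S, V z / z := by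
    rw [Finset.mul_sum]
    refine Finset.sum_le_sum fun z hz => ?_
    have hz1 := (hS' z hz).1
    have hz2 := (hS' z hz).2
    have hz0 : (0 : ℝ) < z := by linarith
    rw [mul_div_assoc', le_div_iff₀ hz0]
    nlinarith [hV z]
  have h3 : X1 / 2 * V y ≤ (S.card : ℝ) * V y := mul_le_mul_of_nonneg_right hcard (hV y)
  have h4 : X1 / 2 * V y ≤ X1 / 2 * (4 * ∑ z ∈ S, V z / z) := by
    calc X1 / 2 * V y ≤ 2 * X1 * ∑ z ∈ S, V z / z := by linarith
      _ = X1 / 2 * (4 * ∑ z ∈ S, V z / z) := by ring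
  exact le_of_mul_le_mul_left h4 (by linarith)

theorem choose_scale_pr {β τ : ℝ} (hτ : 0 < τ) (hβ : 2 * τ < β) (hβ1 : β < 1) (M G₀ N : ℕ)
    (hM : 1 ≤ M) (hN : 1 ≤ N) {ε : ℝ} (hε : 0 < ε) : ∃ x₀ : ℝ, ∀ x : ℝ, x₀ ≤ x →
      ∃ (Y' : ℕ → ℕ) (v : ℕ → ℝ), (∀ j, x ^ 2 / YY β τ x j ≤ (Y' j : ℝ) ∧ 0 ≤ v j) ∧
        (∀ j, j < JJ β τ x → (Y' j : ℝ) ≤ 2 * x ^ 2 / YY β τ x j) ∧
        ∑ j ∈ Finset.range (JJ β τ x), v j ≤ ε * Real.log x ∧
        ∀ j, j < JJ β τ x → ∀ g ∈ Finset.Icc 1 G₀, ∀ c ∈ Cls M, ∀ b ∈ Finset.Icc 1 (2 * N),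
          SV (Sl M c N g b (Y' j)) (x ^ β / (N * x)) ≤ v j * (x ^ β / (N * x)) * (Y' j : ℝ) ^ 2 := by
  classical
  have hNR : (1 : ℝ) ≤ N := by exact_mod_cast hN
  set I : Finset (ℕ × G × ℕ) := Finset.Icc 1 G₀ ×ˢ (Cls M ×ˢ Finset.Icc 1 (2 * N)) with hI
  set ε' : ℝ := ε / (12 * (I.card + 1)) with hε'
  have hcard0 : (0 : ℝ) ≤ I.card := by positivity
  have hε'0 : 0 < ε' := by positivity
  have hvar : ∀ i : ℕ × G × ℕ, ∃ H X₀ : ℝ, 1 ≤ H ∧ (i ∈ I → ∀ X : ℝ, X₀ ≤ X → ∀ k : ℝ, 0 < k →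
      k ≤ 1 → ∑ Y ∈ (Finset.Icc 1 ⌊X⌋₊).filter (fun Y : ℕ => H ≤ k * Y),
        SV (Sl M i.2.1 N i.1 i.2.2 Y) k / (k * (Y : ℝ) ^ 3) ≤ ε' * Real.log X) := by
    intro i
    by_cases hi : i ∈ I
    · have hi' := hi
      rw [hI, Finset.mem_product, Finset.mem_product] at hi'
      have hg : 1 ≤ i.1 := (Finset.mem_Icc.1 hi'.1).1
      have hb : 1 ≤ i.2.2 := (Finset.mem_Icc.1 hi'.2.2).1
      have hgR : (1 : ℝ) ≤ i.1 := by exact_mod_cast hg
      have hbR : (1 : ℝ) ≤ i.2.2 := by exact_mod_cast hb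
      have hd : (0 : ℝ) < (N : ℝ) * (i.1 : ℝ) ^ 2 := by positivity
      obtain ⟨H, X₀, hH, h⟩ := slice_var M hM i.2.1 (((i.2.2 : ℝ) - 1) / (N * (i.1 : ℝ) ^ 2))
        ((i.2.2 : ℝ) / (N * (i.1 : ℝ) ^ 2)) (div_nonneg (by linarith) hd.le)
        (div_lt_div_of_pos_right (by linarith) hd) hε'0
      exact ⟨H, X₀, hH, fun _ X hX k hk hk1 => h X hX k hk hk1⟩
    · exact ⟨1, 0, le_refl 1, fun h => absurd h hi⟩
  choose H X₀ hH hsv using hvar
  set HH : ℝ := 1 + ∑ i ∈ I, H i with hHH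
  set XX : ℝ := ∑ i ∈ I, |X₀ i| with hXX
  have hHi : ∀ i ∈ I, H i ≤ HH := by
    intro i hi
    have : H i ≤ ∑ i ∈ I, H i :=
      Finset.single_le_sum (f := H) (fun j _ => by linarith [hH j]) hi
    linarith
  have hXi : ∀ i ∈ I, X₀ i ≤ XX := by
    intro i hi
    have : |X₀ i| ≤ ∑ i ∈ I, |X₀ i| :=
      Finset.single_le_sum (f := fun i => |X₀ i|) (fun j _ => abs_nonneg _) hi
    linarith [le_abs_self (X₀ i)]
  -- large x
  have hlim1 : ∀ᶠ x : ℝ in atTop, HH * N ≤ x ^ (β + τ) :=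
    (tendsto_rpow_atTop (by linarith)).eventually_ge_atTop _
  have hlim2 : ∀ᶠ x : ℝ in atTop, 2 ≤ x ^ (1 + τ) :=
    (tendsto_rpow_atTop (by linarith)).eventually_ge_atTop _
  have hlim3 : ∀ᶠ x : ℝ in atTop, XX ≤ x := eventually_ge_atTop _
  have hlim4 : ∀ᶠ x : ℝ in atTop, 2 ≤ x := eventually_ge_atTop _
  obtain ⟨x₀, hx₀⟩ := ((hlim1.and hlim2).and (hlim3.and hlim4)).exists_forall_of_atTop
  refine ⟨x₀, fun x hx => ?_⟩
  obtain ⟨⟨hx1, hx2⟩, hx3, hx4⟩ := hx₀ x hx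
  have hxpos : 0 < x := by linarith
  have hx1' : 1 ≤ x := by linarith
  obtain ⟨hs1, hs2, hs3, hs4, hs5⟩ := scales hτ hβ hβ1 hx1'
  set k : ℝ := x ^ β / (N * x) with hk
  have hxβ : 0 < x ^ β := Real.rpow_pos_of_pos hxpos _
  have hk0 : 0 < k := by positivity
  have hxβx : x ^ β ≤ x := by
    calc x ^ β ≤ x ^ (1 : ℝ) := Real.rpow_le_rpow_of_exponent_le hx1' hβ1.le
      _ = x := Real.rpow_one x
  have hk1 : k ≤ 1 := by
    rw [hk, div_le_one (by positivity)]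
    nlinarith
  have hYpos : ∀ j, 0 < YY β τ x j := fun j =>
    lt_of_lt_of_le (Real.rpow_pos_of_pos hxpos _) (hs2 j)
  have hY1 : ∀ j, 1 ≤ YY β τ x j := fun j =>
    le_trans (Real.one_le_rpow hx1' (by linarith)) (hs2 j)
  have hYmono : ∀ j j', j < j' → 2 * YY β τ x j ≤ YY β τ x j' := by
    intro j j' hjj
    unfold YY
    have h1 : (2 : ℝ) ^ (j + 1) ≤ 2 ^ j' := pow_le_pow_right₀ (by norm_num) hjj
    have h2 : 0 < x ^ (1 - β + τ) := Real.rpow_pos_of_pos hxpos _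
    calc 2 * (2 ^ j * x ^ (1 - β + τ)) = 2 ^ (j + 1) * x ^ (1 - β + τ) := by ring
      _ ≤ _ := mul_le_mul_of_nonneg_right h1 h2.le
  -- X1
  set X1 : ℕ → ℝ := fun j => x ^ 2 / YY β τ x j with hX1
  have hX1big : ∀ j, j < JJ β τ x → x ^ (1 + τ) ≤ X1 j := by
    intro j hj
    have h1 := hs3 j hj.le
    rw [hX1]
    simp only
    rw [le_div_iff₀ (hYpos j)]
    calc x ^ (1 + τ) * YY β τ x j ≤ x ^ (1 + τ) * x ^ (1 - τ) :=
          mul_le_mul_of_nonneg_left h1 (Real.rpow_nonneg hxpos.le _)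
      _ = x ^ 2 := by
          rw [← Real.rpow_add hxpos, ← Real.rpow_natCast x 2]
          congr 1
          push_cast
          ring
  set X : ℝ := 2 * x ^ 2 with hX
  -- the quantity V
  set V : ℕ → ℝ := fun y => ∑ i ∈ I, SV (Sl M i.2.1 N i.1 i.2.2 y) k / (k * (y : ℝ) ^ 2) with hV
  have hSV0 : ∀ (i : ℕ × G × ℕ) (y : ℕ), 0 ≤ SV (Sl M i.2.1 N i.1 i.2.2 y) k := fun i y =>
    sv_nonneg _ (fun w hw => c9_ne_zero hw) hk0 hk1
  have hV0 : ∀ y, 0 ≤ V y := fun y =>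
    Finset.sum_nonneg fun i _ => div_nonneg (hSV0 i y) (by positivity)
  have hVle : ∀ (y : ℕ) (i : ℕ × G × ℕ), i ∈ I →
      SV (Sl M i.2.1 N i.1 i.2.2 y) k / (k * (y : ℝ) ^ 2) ≤ V y := fun y i hi =>
    c9_single I (fun i => SV (Sl M i.2.1 N i.1 i.2.2 y) k / (k * (y : ℝ) ^ 2))
      (fun i => div_nonneg (hSV0 i y) (by positivity)) i hi
  -- the sets
  set S : ℕ → Finset ℕ := fun j => (Finset.Icc 1 ⌊X⌋₊).filter
    (fun y : ℕ => X1 j ≤ (y : ℝ) ∧ (y : ℝ) < 2 * X1 j) with hSdef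
  have hX1le : ∀ j, 2 * X1 j ≤ X := by
    intro j
    rw [hX1, hX]
    simp only
    have : x ^ 2 / YY β τ x j ≤ x ^ 2 := div_le_self (by positivity) (hY1 j)
    linarith
  have hsel : ∀ j, j < JJ β τ x → ∃ y : ℕ, X1 j ≤ (y : ℝ) ∧ (y : ℝ) ≤ 2 * X1 j ∧
      V y ≤ 4 * ∑ y ∈ S j, V y / y := by
    intro j hj
    have h2 : 2 ≤ X1 j := le_trans hx2 (hX1big j hj)
    refine c9_min V hV0 h2 (S j) ?_ ?_
    · intro y hy1 hy2
      rw [hSdef]
      simp only [Finset.mem_filter, Finset.mem_Icc]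
      refine ⟨⟨?_, ?_⟩, hy1, hy2⟩
      · have : (1 : ℝ) ≤ y := by linarith
        exact_mod_cast this
      · exact Nat.le_floor (by linarith [hX1le j])
    · intro y hy
      rw [hSdef] at hy
      simp only [Finset.mem_filter] at hy
      exact hy.2
  have hsel' : ∀ j, ∃ y : ℕ, X1 j ≤ (y : ℝ) ∧ (j < JJ β τ x → (y : ℝ) ≤ 2 * X1 j ∧
      V y ≤ 4 * ∑ y ∈ S j, V y / y) := by
    intro j
    by_cases hj : j < JJ β τ x
    · obtain ⟨y, h1, h2, h3⟩ := hsel j hj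
      exact ⟨y, h1, fun _ => ⟨h2, h3⟩⟩
    · exact ⟨⌈X1 j⌉₊, Nat.le_ceil _, fun h => absurd h hj⟩
  choose Y' hY'1 hY'2 using hsel'
  refine ⟨Y', fun j => V (Y' j), fun j => ⟨hY'1 j, hV0 _⟩, ?_, ?_, ?_⟩
  · intro j hj
    have := (hY'2 j hj).1
    rw [hX1] at this
    simp only at this
    rw [mul_div_assoc]
    exact this
  · -- the sum
    have h1 : ∑ j ∈ Finset.range (JJ β τ x), V (Y' j) ≤
        ∑ j ∈ Finset.range (JJ β τ x), 4 * ∑ y ∈ S j, V y / y :=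
      Finset.sum_le_sum fun j hj => (hY'2 j (Finset.mem_range.1 hj)).2
    have hdisj : (↑(Finset.range (JJ β τ x)) : Set ℕ).PairwiseDisjoint S := by
      intro j _ j' _ hjj
      rw [Function.onFun, Finset.disjoint_left]
      intro y hy hy'
      rw [hSdef] at hy hy'
      simp only [Finset.mem_filter] at hy hy'
      have key : ∀ a b : ℕ, a < b → 2 * X1 b ≤ X1 a := by
        intro a b hab
        rw [hX1]
        simp only
        rw [← mul_div_assoc, div_le_div_iff₀ (hYpos b) (hYpos a)]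
        have := hYmono a b hab
        nlinarith [sq_nonneg x]
      rcases lt_or_gt_of_ne hjj with h | h
      · have := key j j' h
        linarith [hy.2.1, hy'.2.2]
      · have := key j' j h
        linarith [hy.2.2, hy'.2.1]
    have h2 : ∑ j ∈ Finset.range (JJ β τ x), ∑ y ∈ S j, V y / y =
        ∑ y ∈ (Finset.range (JJ β τ x)).biUnion S, V y / y :=
      (Finset.sum_biUnion hdisj).symm
    have hsubU : (Finset.range (JJ β τ x)).biUnion S ⊆
        (Finset.Icc 1 ⌊X⌋₊).filter (fun y : ℕ => HH ≤ k * y) := by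
      intro y hy
      rw [Finset.mem_biUnion] at hy
      obtain ⟨j, hj, hy⟩ := hy
      rw [hSdef] at hy
      simp only [Finset.mem_filter] at hy
      rw [Finset.mem_filter]
      refine ⟨hy.1, ?_⟩
      have h3 : x ^ (1 + τ) ≤ (y : ℝ) :=
        le_trans (hX1big j (Finset.mem_range.1 hj)) hy.2.1
      have h4 : k * x ^ (1 + τ) = x ^ (β + τ) / N := by
        rw [hk, Real.rpow_add hxpos 1 τ, Real.rpow_one, Real.rpow_add hxpos β τ]
        field_simp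
      have h5 : HH ≤ x ^ (β + τ) / N := by
        rw [le_div_iff₀ (by linarith)]
        exact hx1
      calc HH ≤ k * x ^ (1 + τ) := by rw [h4]; exact h5
        _ ≤ k * y := mul_le_mul_of_nonneg_left h3 hk0.le
    have h3 : ∑ y ∈ (Finset.range (JJ β τ x)).biUnion S, V y / y ≤
        ∑ y ∈ (Finset.Icc 1 ⌊X⌋₊).filter (fun y : ℕ => HH ≤ k * y), V y / y :=
      Finset.sum_le_sum_of_subset_of_nonneg hsubU
        (fun y _ _ => div_nonneg (hV0 y) (by positivity))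
    have hXlog : Real.log X ≤ 3 * Real.log x := by
      rw [hX, Real.log_mul (by norm_num) (by positivity), Real.log_pow]
      have : Real.log 2 ≤ Real.log x := Real.log_le_log (by norm_num) hx4
      push_cast
      linarith
    have hXXx : XX ≤ X := by
      rw [hX]
      nlinarith
    have h4 : ∑ y ∈ (Finset.Icc 1 ⌊X⌋₊).filter (fun y : ℕ => HH ≤ k * y), V y / y ≤
        I.card * (ε' * Real.log X) := by
      have h5 : ∑ y ∈ (Finset.Icc 1 ⌊X⌋₊).filter (fun y : ℕ => HH ≤ k * y), V y / y =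
          ∑ i ∈ I, ∑ y ∈ (Finset.Icc 1 ⌊X⌋₊).filter (fun y : ℕ => HH ≤ k * y),
            SV (Sl M i.2.1 N i.1 i.2.2 y) k / (k * (y : ℝ) ^ 3) := by
        rw [Finset.sum_comm]
        refine Finset.sum_congr rfl fun y hy => ?_
        rw [hV]
        simp only
        rw [Finset.sum_div]
        refine Finset.sum_congr rfl fun i _ => ?_
        rw [div_div]
        congr 1
        ring
      rw [h5, ← nsmul_eq_mul]
      refine Finset.sum_le_card_nsmul I _ _ fun i hi => ?_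
      refine le_trans ?_ (hsv i hi X (le_trans (hXi i hi) hXXx) k hk0 hk1)
      refine Finset.sum_le_sum_of_subset_of_nonneg ?_ ?_
      · intro y hy
        rw [Finset.mem_filter] at hy ⊢
        exact ⟨hy.1, le_trans (hHi i hi) hy.2⟩
      · intro y _ _
        exact div_nonneg (hSV0 i y) (by positivity)
    have hlogx : 0 ≤ Real.log x := Real.log_nonneg hx1'
    have h6 : (I.card : ℝ) * (ε' * Real.log X) ≤ ε / 4 * Real.log x := by
      have h7 : (I.card : ℝ) * ε' ≤ ε / 12 := by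
        rw [hε', mul_div_assoc', div_le_div_iff₀ (by positivity) (by norm_num)]
        nlinarith
      calc (I.card : ℝ) * (ε' * Real.log X) = ((I.card : ℝ) * ε') * Real.log X := by ring
        _ ≤ ((I.card : ℝ) * ε') * (3 * Real.log x) :=
            mul_le_mul_of_nonneg_left hXlog (by positivity)
        _ ≤ ε / 12 * (3 * Real.log x) := mul_le_mul_of_nonneg_right h7 (by linarith)
        _ = ε / 4 * Real.log x := by ring
    calc ∑ j ∈ Finset.range (JJ β τ x), V (Y' j)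
        ≤ ∑ j ∈ Finset.range (JJ β τ x), 4 * ∑ y ∈ S j, V y / y := h1
      _ = 4 * ∑ j ∈ Finset.range (JJ β τ x), ∑ y ∈ S j, V y / y := by rw [Finset.mul_sum]
      _ ≤ 4 * (ε / 4 * Real.log x) := by
          rw [h2]
          exact mul_le_mul_of_nonneg_left (le_trans h3 (le_trans h4 h6)) (by norm_num)
      _ = ε * Real.log x := by ring
  · intro j hj g hg c hc b hb
    have hmem : ((g, c, b) : ℕ × G × ℕ) ∈ I := by
      rw [hI, Finset.mem_product, Finset.mem_product]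
      exact ⟨hg, hc, hb⟩
    have hy0 : (0 : ℝ) < (Y' j : ℝ) := by
      have h1 := hY'1 j
      have h2 : 2 ≤ X1 j := le_trans hx2 (hX1big j hj)
      linarith
    have h1 := hVle (Y' j) (g, c, b) hmem
    dsimp only at h1
    have h2 : (0 : ℝ) < k * (Y' j : ℝ) ^ 2 := by positivity
    rw [div_le_iff₀ h2, ← mul_assoc] at h1
    exact h1



end Pool.Agent.TF

namespace Pool.Agent.TF

theorem choose_scale : type_of% @choose_scale_pr := @choose_scale_pr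

end Pool.Agent.TF
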