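import Mathlib
import Pool.Agent.Lib_helper18.TF.Defs
import Pool.Agent.Lib_helper10.T2F.BAS
import Pool.Agent.Lib_helper10.T2F.PEL
import Pool.Agent.Lib_helper10.T2F.CNT
import Pool.Agent.Lib_helper10.T2F.SLW
import Pool.Agent.Lib_helper10.T2F.SLG
import Pool.Agent.Lib_helper10.T2F.MER
import Pool.Agent.Lib_helper10.T2F.DSR
import Pool.Agent.Lib_helper73.Var.LS
import Pool.Agent.Lib_helper18.TFF.DefsC
import Pool.Agent.Lib_helper18.TFF.C1
import Pool.Agent.Lib_helper18.TFF.C11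
import Pool.Agent.Lib_helper18.TFF.C2
import Pool.Agent.Lib_helper18.TFF.C3
import Pool.Agent.Lib_helper18.TFF.C4
import Pool.Agent.Lib_helper18.TFF.C6
import Pool.Agent.Lib_helper18.TFF.C9

/-!
# Project TF: block C12, the cells (assembly)
-/

set_option autoImplicit false

namespace Pool.Agent.TF

open Pool.Agent.T2 Filter Topology

/-- Cauchy-Schwarz for the scales -/
private theorem c12_cs (J : ℕ) (v : ℕ → ℝ) (e Lg : ℝ) (hv : ∀ j, 0 ≤ v j) (he : 0 ≤ e)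
    (hL : 0 ≤ Lg) (hJ : (J : ℝ) ≤ 2 * Lg) (hs : ∑ j ∈ Finset.range J, v j ≤ e ^ 2 / 2 * Lg) :
    ∑ j ∈ Finset.range J, Real.sqrt (v j) ≤ e * Lg := by
  have h1 : (∑ j ∈ Finset.range J, Real.sqrt (v j)) ^ 2 ≤
      (Finset.range J).card * ∑ j ∈ Finset.range J, Real.sqrt (v j) ^ 2 :=
    sq_sum_le_card_mul_sum_sq
  have h2 : ∑ j ∈ Finset.range J, Real.sqrt (v j) ^ 2 = ∑ j ∈ Finset.range J, v j :=
    Finset.sum_congr rfl fun j _ => Real.sq_sqrt (hv j)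
  rw [h2, Finset.card_range] at h1
  have h0 : 0 ≤ ∑ j ∈ Finset.range J, v j := Finset.sum_nonneg fun j _ => hv j
  have h3 : (J : ℝ) * ∑ j ∈ Finset.range J, v j ≤ (2 * Lg) * (e ^ 2 / 2 * Lg) :=
    mul_le_mul hJ hs h0 (by positivity)
  have h4 : (∑ j ∈ Finset.range J, Real.sqrt (v j)) ^ 2 ≤ (e * Lg) ^ 2 := by
    calc _ ≤ _ := h1
      _ ≤ _ := h3
      _ = _ := by ring
  exact (pow_le_pow_iff_left₀ (Finset.sum_nonneg fun j _ => Real.sqrt_nonneg _) (by positivity)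
    two_ne_zero).mp h4

/-- a fivefold sum of bounded terms -/
private theorem c12_five {α₁ α₂ α₃ α₄ α₅ : Type*} (s₁ : Finset α₁) (s₂ : Finset α₂)
    (s₃ : Finset α₃) (s₄ : Finset α₄) (s₅ : Finset α₅) (F : α₁ → α₂ → α₃ → α₄ → α₅ → ℝ) (D : ℝ)
    (h : ∀ a ∈ s₁, ∀ b ∈ s₂, ∀ c ∈ s₃, ∀ d ∈ s₄, ∀ e ∈ s₅, F a b c d e ≤ D) :
    ∑ a ∈ s₁, ∑ b ∈ s₂, ∑ c ∈ s₃, ∑ d ∈ s₄, ∑ e ∈ s₅, F a b c d e ≤
      ((s₁.card : ℝ) * (s₂.card * (s₃.card * (s₄.card * s₅.card)))) * D := by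
  have h5 : ∀ a ∈ s₁, ∀ b ∈ s₂, ∀ c ∈ s₃, ∀ d ∈ s₄, ∑ e ∈ s₅, F a b c d e ≤ s₅.card * D := by
    intro a ha b hb c hc d hd
    have := Finset.sum_le_card_nsmul s₅ (fun e => F a b c d e) D
      (fun e he => h a ha b hb c hc d hd e he)
    simpa [nsmul_eq_mul] using this
  have h4 : ∀ a ∈ s₁, ∀ b ∈ s₂, ∀ c ∈ s₃, ∑ d ∈ s₄, ∑ e ∈ s₅, F a b c d e ≤
      s₄.card * (s₅.card * D) := by
    intro a ha b hb c hc
    have := Finset.sum_le_card_nsmul s₄ (fun d => ∑ e ∈ s₅, F a b c d e) (s₅.card * D)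
      (fun d hd => h5 a ha b hb c hc d hd)
    simpa [nsmul_eq_mul] using this
  have h3 : ∀ a ∈ s₁, ∀ b ∈ s₂, ∑ c ∈ s₃, ∑ d ∈ s₄, ∑ e ∈ s₅, F a b c d e ≤
      s₃.card * (s₄.card * (s₅.card * D)) := by
    intro a ha b hb
    have := Finset.sum_le_card_nsmul s₃ (fun c => ∑ d ∈ s₄, ∑ e ∈ s₅, F a b c d e)
      (s₄.card * (s₅.card * D)) (fun c hc => h4 a ha b hb c hc)
    simpa [nsmul_eq_mul] using this
  have h2 : ∀ a ∈ s₁, ∑ b ∈ s₂, ∑ c ∈ s₃, ∑ d ∈ s₄, ∑ e ∈ s₅, F a b c d e ≤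
      s₂.card * (s₃.card * (s₄.card * (s₅.card * D))) := by
    intro a ha
    have := Finset.sum_le_card_nsmul s₂ (fun b => ∑ c ∈ s₃, ∑ d ∈ s₄, ∑ e ∈ s₅, F a b c d e)
      (s₃.card * (s₄.card * (s₅.card * D))) (fun b hb => h3 a ha b hb)
    simpa [nsmul_eq_mul] using this
  have h1 := Finset.sum_le_card_nsmul s₁
    (fun a => ∑ b ∈ s₂, ∑ c ∈ s₃, ∑ d ∈ s₄, ∑ e ∈ s₅, F a b c d e)
    (s₂.card * (s₃.card * (s₄.card * (s₅.card * D)))) h2
  rw [nsmul_eq_mul] at h1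
  calc _ ≤ _ := h1
    _ = _ := by ring

open Classical in
theorem cells_pr {β τ : ℝ} (hτ : 0 < τ) (hβ : 2 * τ < β) (hβ1 : β < 1) {δ Λ : ℝ} (hδ : 0 < δ)
    (hδ1 : δ ≤ 1) (L M i : ℕ) (hL : 1 ≤ L) (hM : 1 ≤ M) (hi : i < L) (r : ℤ) {ε : ℝ}
    (hε : 0 < ε) : ∃ x₀ : ℝ, ∀ x : ℝ, x₀ ≤ x → ∀ f : ℝ → ℝ, Cut δ Λ f → ∀ om : ℕ → ℝ,
      (∀ p, |om p| ≤ 1) → ∀ σ : ℤ, (σ = 1 ∨ σ = -1) →
      ∑ j ∈ Finset.range (JJ β τ x), |SS f om σ x (YY β τ x j) (cf L M (x ^ β) i r)| ≤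
        ε * x ^ (1 + β) := by
  by_cases hΛ : 0 ≤ Λ
  swap
  · refine ⟨0, fun x _ f hf => ?_⟩
    exfalso
    have h1 := hf.lip 1 0
    have h2 := abs_nonneg (f 1 - f 0)
    have h3 : |(1 : ℝ) - 0| = 1 := by norm_num
    rw [h3, mul_one] at h1
    exact hΛ (h2.trans h1)
  -- the parameters
  set T : ℕ := ⌈2 / δ⌉₊ with hTdef
  have hT : 2 / δ ≤ (T : ℝ) := Nat.le_ceil _
  obtain ⟨K, ψ, x₁, hK1, hψ, hsm⟩ := cell_smooth hτ hβ hβ1 L M i hL hM hi r
    (show 0 < ε / 4 by positivity)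
  obtain ⟨G₀, x₂, hG₀, hcs⟩ := content_split hτ hβ hβ1 M hM r (show 0 < ε / 4 by positivity)
  obtain ⟨Cs, hCs, hsl⟩ := slices hδ hδ1 hΛ (show 0 ≤ K by linarith) T hT
  obtain ⟨Cm, hCm, hmult⟩ := mult_count hτ hβ hβ1
  set A : ℝ := G₀ * (Cs * (Cm * (12 * (4 * ((T : ℝ) + 2))))) with hA
  have hA0 : 0 ≤ A := by positivity
  set N : ℕ := ⌈(4 * A / ε) ^ 2⌉₊ + 1 with hNdef
  have hN : 1 ≤ N := by omega
  have hN1 : (4 * A / ε) ^ 2 ≤ (N : ℝ) := by
    rw [hNdef]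
    push_cast
    have := Nat.le_ceil ((4 * A / ε) ^ 2)
    linarith
  have hsN : 4 * A / ε ≤ Real.sqrt N := Real.le_sqrt_of_sq_le hN1
  have hsN0 : 0 < Real.sqrt N := Real.sqrt_pos.mpr (by exact_mod_cast hN)
  have hAN : A / Real.sqrt N ≤ ε / 4 := by
    rw [div_le_iff₀ hsN0]
    have h1 : 4 * A / ε * (ε / 4) = A := by field_simp
    nlinarith
  obtain ⟨Ct, x₃, hCt, hts⟩ := ts_bound hτ hβ hβ1 N T hN
  set S5 : Finset ℤ := Finset.Icc (-((T * N : ℕ) : ℤ)) ((T * N : ℕ) : ℤ) with hS5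
  set I2 : Finset ℕ := Finset.Icc 1 (2 * N) with hI2
  set NN : ℝ := ((Cls M).card : ℝ) * ((Cls M).card * (I2.card * (I2.card * S5.card))) with hNN
  have hNN0 : 0 ≤ NN := by positivity
  set κ : ℝ := ε / (4 * (G₀ * (NN * Ct) + 1)) with hκ
  have hCt0 : 0 ≤ Ct := by linarith
  have hden : 0 < 4 * ((G₀ : ℝ) * (NN * Ct) + 1) := by positivity
  have hκ0 : 0 < κ := by positivity
  have hκ1 : G₀ * (NN * Ct) * κ ≤ ε / 4 := by
    have h0 : 0 ≤ (G₀ : ℝ) * (NN * Ct) := by positivity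
    have h1 : κ * (4 * ((G₀ : ℝ) * (NN * Ct) + 1)) = ε := by
      rw [hκ]
      field_simp
    nlinarith
  obtain ⟨x₄, hch⟩ := choose_scale hτ hβ hβ1 M G₀ N hM hN (show 0 < κ ^ 2 / 2 by positivity)
  refine ⟨max (max (max x₁ x₂) (max x₃ x₄)) (max 3 ((4 * ((T : ℝ) + 2)) ^ (1 / (1 - β)))),
    fun x hx f hf om hom σ hσ => ?_⟩
  have hx1 : x₁ ≤ x := le_trans (le_trans (le_max_left _ _) (le_max_left _ _))
    (le_trans (le_max_left _ _) hx)
  have hx2 : x₂ ≤ x := le_trans (le_trans (le_max_right _ _) (le_max_left _ _))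
    (le_trans (le_max_left _ _) hx)
  have hx3 : x₃ ≤ x := le_trans (le_trans (le_max_left _ _) (le_max_right _ _))
    (le_trans (le_max_left _ _) hx)
  have hx4 : x₄ ≤ x := le_trans (le_trans (le_max_right _ _) (le_max_right _ _))
    (le_trans (le_max_left _ _) hx)
  have hx5 : (3 : ℝ) ≤ x := le_trans (le_max_left _ _) (le_trans (le_max_right _ _) hx)
  have hx6 : (4 * ((T : ℝ) + 2)) ^ (1 / (1 - β)) ≤ x :=
    le_trans (le_max_right _ _) (le_trans (le_max_right _ _) hx)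
  have hx0 : 0 < x := by linarith
  have hx1' : (1 : ℝ) ≤ x := by linarith
  have hlog : 0 < Real.log x := Real.log_pos (by linarith)
  -- the size of `B`
  have hβ0 : 0 < β := by linarith
  have h1β : 0 < 1 - β := by linarith
  set B : ℝ := x ^ β with hB
  have hB1 : 1 ≤ B := Real.one_le_rpow hx1' hβ0.le
  have hBx : B ≤ x := by
    calc B ≤ x ^ (1 : ℝ) := Real.rpow_le_rpow_of_exponent_le hx1' hβ1.le
      _ = x := Real.rpow_one x
  have hTB : 4 * ((T : ℝ) + 2) * B ≤ x := by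
    have h1 : 4 * ((T : ℝ) + 2) ≤ x ^ (1 - β) := by
      have h2 := Real.rpow_le_rpow (by positivity) hx6 h1β.le
      rw [← Real.rpow_mul (by positivity), one_div, inv_mul_cancel₀ h1β.ne', Real.rpow_one] at h2
      exact h2
    calc 4 * ((T : ℝ) + 2) * B ≤ x ^ (1 - β) * B :=
          mul_le_mul_of_nonneg_right h1 (by linarith)
      _ = x ^ ((1 - β) + β) := (Real.rpow_add hx0 _ _).symm
      _ = x := by rw [sub_add_cancel, Real.rpow_one]
  obtain ⟨-, hYlow, hYup, -, hJJ⟩ := scales hτ hβ hβ1 hx1'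
  obtain ⟨Y', v, hY'v, hY'up, hsumv, hvar⟩ := hch x hx4
  set J := JJ β τ x with hJ
  have hYone : ∀ j, 1 ≤ YY β τ x j := fun j =>
    (Real.one_le_rpow hx1' (by linarith)).trans (hYlow j)
  have hYx : ∀ j, j ≤ J → YY β τ x j ≤ x := by
    intro j hj
    refine (hYup j hj).trans ?_
    calc x ^ (1 - τ) ≤ x ^ (1 : ℝ) := Real.rpow_le_rpow_of_exponent_le hx1' (by linarith)
      _ = x := Real.rpow_one x
  -- the error terms
  set E : ℕ → ℝ := fun j => ∑ p ∈ pr1 (YY β τ x j) (2 * YY β τ x j),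
    (((Bl (8 * x ^ 2 / YY β τ x j)).filter
      (fun z => pel p * z ∈ Rg (4 * ((T : ℝ) + 2)) x B)).card : ℝ) with hE
  have hEsum : ∑ j ∈ Finset.range J, E j ≤ Cm * (12 * (4 * ((T : ℝ) + 2)) * B * x) := by
    have h1 := hmult x (by linarith) (fun j => 8 * x ^ 2 / YY β τ x j)
      (Rg (4 * ((T : ℝ) + 2)) x B) (by
        intro ζ hζ
        rw [Rg, Finset.mem_filter, Bl, Finset.mem_filter] at hζ
        exact ⟨hζ.1.2.1, hζ.1.2.2⟩)
    have h2 := region_count (T := 4 * ((T : ℝ) + 2)) (x := x) (B := B)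
      (by have : (0 : ℝ) ≤ T := Nat.cast_nonneg T
          linarith) hB1 hBx
    exact h1.trans (mul_le_mul_of_nonneg_left h2 (by linarith))
  -- one content, one scale
  have hone : ∀ j ∈ Finset.range J, ∀ g ∈ Finset.Icc 1 G₀,
      |SG ψ f om σ x B (YY β τ x j) M r g (2 * Y' j / (g : ℝ) ^ 2)| ≤
        NN * (Ct * Real.sqrt (v j) * (x ^ (1 + β) / Real.log x)) +
          Cs / Real.sqrt N * E j := by
    intro j hj g hg
    rw [Finset.mem_range] at hj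
    have h1 := hsl N g M (Y' j) x B (YY β τ x j) r hN (Finset.mem_Icc.mp hg).1 hM hB1 hTB
      (hYone j) (hYx j hj.le) (hY'v j).1 (hY'up j hj) ψ f hψ hf om hom σ hσ
    refine h1.trans (add_le_add ?_ le_rfl)
    refine c12_five (Cls M) (Cls M) I2 I2 S5 _ _ ?_
    intro w _ c hc a _ b hb s hs
    refine hts x hx3 (YY β τ x j) (hYlow j) (hYup j hj.le) (Y' j) (v j) (hY'v j).2
      (Nat.cast_nonneg _) (hY'up j hj) _ (Finset.filter_subset _ _) om hom _ ?_ ?_ s hs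
    · intro z hz
      rw [Sl, Slc, Finset.mem_filter, PB, Finset.mem_filter, Bl, Finset.mem_filter] at hz
      exact hz.1.1.2.1
    · exact hvar j hj g hg c hc b hb
  have hsumSG : ∑ j ∈ Finset.range J, ∑ g ∈ Finset.Icc 1 G₀,
      |SG ψ f om σ x B (YY β τ x j) M r g (2 * Y' j / (g : ℝ) ^ 2)| ≤
        ε / 4 * x ^ (1 + β) + ε / 4 * x ^ (1 + β) := by
    have h1 : ∀ j ∈ Finset.range J, ∑ g ∈ Finset.Icc 1 G₀,
        |SG ψ f om σ x B (YY β τ x j) M r g (2 * Y' j / (g : ℝ) ^ 2)| ≤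
        G₀ * (NN * (Ct * Real.sqrt (v j) * (x ^ (1 + β) / Real.log x)) +
          Cs / Real.sqrt N * E j) := by
      intro j hj
      have h2 := Finset.sum_le_card_nsmul (Finset.Icc 1 G₀) _ _ (hone j hj)
      rw [nsmul_eq_mul, Nat.card_Icc, Nat.add_sub_cancel] at h2
      exact h2
    refine (Finset.sum_le_sum h1).trans ?_
    have h3 : ∑ j ∈ Finset.range J, (G₀ : ℝ) *
        (NN * (Ct * Real.sqrt (v j) * (x ^ (1 + β) / Real.log x)) + Cs / Real.sqrt N * E j) =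
        (G₀ * (NN * Ct)) * (x ^ (1 + β) / Real.log x) * ∑ j ∈ Finset.range J, Real.sqrt (v j) +
          G₀ * (Cs / Real.sqrt N) * ∑ j ∈ Finset.range J, E j := by
      rw [Finset.mul_sum, Finset.mul_sum, ← Finset.sum_add_distrib]
      exact Finset.sum_congr rfl fun j _ => by ring
    rw [h3]
    have hX0 : 0 ≤ x ^ (1 + β) := Real.rpow_nonneg hx0.le _
    refine add_le_add ?_ ?_
    · have h4 := c12_cs J v κ (Real.log x) (fun j => (hY'v j).2) hκ0.le hlog.le hJJ hsumv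
      calc (G₀ * (NN * Ct)) * (x ^ (1 + β) / Real.log x) * ∑ j ∈ Finset.range J, Real.sqrt (v j)
          ≤ (G₀ * (NN * Ct)) * (x ^ (1 + β) / Real.log x) * (κ * Real.log x) :=
            mul_le_mul_of_nonneg_left h4 (by positivity)
        _ = (G₀ * (NN * Ct) * κ) * x ^ (1 + β) := by
            field_simp
        _ ≤ ε / 4 * x ^ (1 + β) := mul_le_mul_of_nonneg_right hκ1 hX0
    · have h5 : B * x = x ^ (1 + β) := by
        rw [hB, add_comm, Real.rpow_add hx0, Real.rpow_one]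
      calc G₀ * (Cs / Real.sqrt N) * ∑ j ∈ Finset.range J, E j
          ≤ G₀ * (Cs / Real.sqrt N) * (Cm * (12 * (4 * ((T : ℝ) + 2)) * B * x)) :=
            mul_le_mul_of_nonneg_left hEsum (by positivity)
        _ = A / Real.sqrt N * (B * x) := by
            rw [hA]
            ring
        _ ≤ ε / 4 * (B * x) := mul_le_mul_of_nonneg_right hAN (by positivity)
        _ = ε / 4 * x ^ (1 + β) := by rw [h5]
  -- the end
  have hfin := hsm x hx1 δ Λ f hδ hf om hom σ hσ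
  have hfin2 := hcs x hx2 δ Λ K ψ f hδ hψ hf om hom σ hσ Y' (fun j => (hY'v j).1)
  have htri : ∀ j ∈ Finset.range J, |SS f om σ x (YY β τ x j) (cf L M B i r)| ≤
      |SS f om σ x (YY β τ x j) (cf L M B i r) - SC ψ f om σ x B (YY β τ x j) M r| +
      |SC ψ f om σ x B (YY β τ x j) M r -
          ∑ g ∈ Finset.Icc 1 G₀, SG ψ f om σ x B (YY β τ x j) M r g
            (2 * Y' j / (g : ℝ) ^ 2)| +
      ∑ g ∈ Finset.Icc 1 G₀, |SG ψ f om σ x B (YY β τ x j) M r g (2 * Y' j / (g : ℝ) ^ 2)| := by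
    intro j _
    have h1 := Finset.abs_sum_le_sum_abs
      (fun g => SG ψ f om σ x B (YY β τ x j) M r g (2 * Y' j / (g : ℝ) ^ 2)) (Finset.Icc 1 G₀)
    set a := SS f om σ x (YY β τ x j) (cf L M B i r)
    set b := SC ψ f om σ x B (YY β τ x j) M r
    set c := ∑ g ∈ Finset.Icc 1 G₀, SG ψ f om σ x B (YY β τ x j) M r g (2 * Y' j / (g : ℝ) ^ 2)
    have h2 : |a| ≤ |a - b| + |b - c| + |c| := by
      have h3 : a = (a - b) + (b - c) + c := by ring
      calc |a| = |(a - b) + (b - c) + c| := by rw [← h3]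
        _ ≤ |(a - b) + (b - c)| + |c| := abs_add_le _ _
        _ ≤ |a - b| + |b - c| + |c| := by
            have := abs_add_le (a - b) (b - c)
            linarith
    linarith
  calc ∑ j ∈ Finset.range J, |SS f om σ x (YY β τ x j) (cf L M B i r)|
      ≤ ∑ j ∈ Finset.range J,
        (|SS f om σ x (YY β τ x j) (cf L M B i r) - SC ψ f om σ x B (YY β τ x j) M r| +
        |SC ψ f om σ x B (YY β τ x j) M r -
          ∑ g ∈ Finset.Icc 1 G₀, SG ψ f om σ x B (YY β τ x j) M r g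
            (2 * Y' j / (g : ℝ) ^ 2)| +
        ∑ g ∈ Finset.Icc 1 G₀,
          |SG ψ f om σ x B (YY β τ x j) M r g (2 * Y' j / (g : ℝ) ^ 2)|) :=
        Finset.sum_le_sum htri
    _ = _ := by rw [Finset.sum_add_distrib, Finset.sum_add_distrib]
    _ ≤ ε / 4 * x ^ (1 + β) + ε / 4 * x ^ (1 + β) +
        (ε / 4 * x ^ (1 + β) + ε / 4 * x ^ (1 + β)) :=
        add_le_add (add_le_add hfin hfin2) hsumSG
    _ = ε * x ^ (1 + β) := by ring

end Pool.Agent.TF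

namespace Pool.Agent.TF

theorem cells : type_of% @cells_pr := @cells_pr

end Pool.Agent.TF
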