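import Mathlib
import Pool.Agent.Lib_helper18.TF.Defs
import Pool.Agent.Lib_helper10.T2F.BAS
import Pool.Agent.Lib_helper10.T2F.PEL
import Pool.Agent.Lib_helper10.T2F.CNT
import Pool.Agent.Lib_helper10.T2F.SLW
import Pool.Agent.Lib_helper10.T2F.SLG
import Pool.Agent.Lib_helper10.T2F.MER
import Pool.Agent.Lib_helper10.T2F.DSR
import Pool.Agent.Lib_helper73.Var.LS
import Pool.Agent.Lib_helper18.TFF.DefsC

/-!
# TF, block C7: the kernel `hat (ag / k)` is positive definite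
-/

set_option autoImplicit false

namespace Pool.Agent.TF

open Pool.Agent.T2 Filter Topology MeasureTheory

/-- the indicator function of the arc of length `k` around `0` -/
noncomputable def c7_j (k t : ℝ) : ℝ := if Real.cos (k / 2) < Real.cos t then 1 else 0

theorem c7_j_meas (k : ℝ) : Measurable (c7_j k) := by
  unfold c7_j
  exact Measurable.ite (measurableSet_lt measurable_const Real.measurable_cos)
    measurable_const measurable_const

theorem c7_j_abs (k t : ℝ) : |c7_j k t| ≤ 1 := by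
  unfold c7_j
  split_ifs <;> simp

theorem c7_j_per (k t : ℝ) (n : ℤ) : c7_j k (t - n * (2 * Real.pi)) = c7_j k t := by
  unfold c7_j
  rw [Real.cos_sub_int_mul_two_pi]

theorem c7_j_eq {k t : ℝ} (hk : 0 < k) (hk1 : k ≤ 1) (ht : |t| ≤ 2 * Real.pi - 1 / 2) :
    c7_j k t = if |t| < k / 2 then 1 else 0 := by
  have hpi := Real.pi_gt_three
  unfold c7_j
  have key : Real.cos (k / 2) < Real.cos t ↔ |t| < k / 2 := by
    rw [← Real.cos_abs t]
    rcases le_or_gt |t| Real.pi with h | h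
    · exact Real.strictAntiOn_cos.lt_iff_gt (Set.mem_Icc.2 ⟨by linarith, by linarith⟩)
        (Set.mem_Icc.2 ⟨abs_nonneg t, h⟩)
    · have h1 : Real.cos |t| = Real.cos (2 * Real.pi - |t|) := by
        rw [Real.cos_two_pi_sub]
      rw [h1]
      constructor
      · intro h2
        have h3 := (Real.strictAntiOn_cos.lt_iff_gt
          (Set.mem_Icc.2 ⟨by linarith, by linarith⟩ : k / 2 ∈ Set.Icc 0 Real.pi)
          (Set.mem_Icc.2 ⟨by linarith, by linarith⟩ :
            2 * Real.pi - |t| ∈ Set.Icc 0 Real.pi)).1 h2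
        linarith
      · intro h2
        linarith
  simp only [key]

theorem c7_int {k δ : ℝ} (hk : 0 < k) (hk1 : k ≤ 1) (hδ : |δ| ≤ Real.pi + 1) :
    ∫ φ in (-Real.pi)..Real.pi, c7_j k φ * c7_j k (φ - δ) = k * hat (δ / k) := by
  have hpi := Real.pi_gt_three
  have hδ' := abs_le.1 hδ
  have h1 : ∀ φ ∈ Set.Ioc (-Real.pi) Real.pi, c7_j k φ * c7_j k (φ - δ) =
      (Set.Ioo (max (-(k / 2)) (δ - k / 2)) (min (k / 2) (δ + k / 2))).indicator
        (fun _ => (1 : ℝ)) φ := by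
    intro φ hφ
    have h2 : |φ| ≤ 2 * Real.pi - 1 / 2 := abs_le.2 ⟨by linarith [hφ.1], by linarith [hφ.2]⟩
    rw [c7_j_eq hk hk1 h2]
    by_cases h3 : |φ| < k / 2
    · have h3' := abs_lt.1 h3
      have h4 : |φ - δ| ≤ 2 * Real.pi - 1 / 2 :=
        abs_le.2 ⟨by linarith [hδ'.2], by linarith [hδ'.1]⟩
      rw [c7_j_eq hk hk1 h4, if_pos h3, one_mul]
      by_cases h5 : |φ - δ| < k / 2
      · have h5' := abs_lt.1 h5
        rw [if_pos h5, Set.indicator_of_mem]
        exact ⟨max_lt (by linarith) (by linarith), lt_min (by linarith) (by linarith)⟩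
      · rw [if_neg h5, Set.indicator_of_notMem]
        rintro ⟨h6, h7⟩
        have h8 := (max_lt_iff.1 h6).2
        have h9 := (lt_min_iff.1 h7).2
        exact h5 (abs_lt.2 ⟨by linarith, by linarith⟩)
    · rw [if_neg h3, zero_mul, Set.indicator_of_notMem]
      rintro ⟨h6, h7⟩
      have h8 := (max_lt_iff.1 h6).1
      have h9 := (lt_min_iff.1 h7).1
      exact h3 (abs_lt.2 ⟨by linarith, by linarith⟩)
  rw [intervalIntegral.integral_of_le (by linarith), setIntegral_congr_fun measurableSet_Ioc h1,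
    setIntegral_indicator measurableSet_Ioo]
  have h2 : Set.Ioc (-Real.pi) Real.pi ∩
      Set.Ioo (max (-(k / 2)) (δ - k / 2)) (min (k / 2) (δ + k / 2)) =
      Set.Ioo (max (-(k / 2)) (δ - k / 2)) (min (k / 2) (δ + k / 2)) := by
    apply Set.inter_eq_right.2
    rintro φ ⟨h6, h7⟩
    have h8 := (max_lt_iff.1 h6).1
    have h9 := (lt_min_iff.1 h7).1
    exact ⟨by linarith, by linarith⟩
  rw [h2, setIntegral_const, smul_eq_mul, mul_one, Measure.real, Real.volume_Ioo,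
    ENNReal.toReal_ofReal']
  unfold hat
  have h3 : k * max 0 (1 - |δ / k|) = max 0 (k - |δ|) := by
    rw [mul_max_of_nonneg _ _ hk.le, mul_zero, mul_sub, mul_one, abs_div, abs_of_pos hk]
    congr 2
    field_simp
  rw [h3]
  rcases le_or_gt 0 δ with h | h
  · rw [abs_of_nonneg h, max_eq_right (by linarith : -(k / 2) ≤ δ - k / 2),
      min_eq_left (by linarith : k / 2 ≤ δ + k / 2), max_comm]
    congr 1
    ring
  · rw [abs_of_neg h, max_eq_left (by linarith : δ - k / 2 ≤ -(k / 2)),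
      min_eq_right (by linarith : δ + k / 2 ≤ k / 2), max_comm]
    congr 1
    ring

theorem c7_int2 {k δ α β : ℝ} (hk : 0 < k) (hk1 : k ≤ 1) (hδ : |δ| ≤ Real.pi + 1) (n : ℤ)
    (h : β - α = δ + n * (2 * Real.pi)) :
    ∫ φ in (-Real.pi)..Real.pi, c7_j k (φ - α) * c7_j k (φ - β) = k * hat (δ / k) := by
  rw [← c7_int hk hk1 hδ]
  have h1 : ∀ φ, c7_j k (φ - α) * c7_j k (φ - β) =
      (fun ψ => c7_j k ψ * c7_j k (ψ - δ)) (φ - α) := by
    intro φ
    show _ = c7_j k (φ - α) * c7_j k (φ - α - δ)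
    have h2 : φ - β = (φ - α - δ) - n * (2 * Real.pi) := by linarith
    rw [h2, c7_j_per]
  simp_rw [h1]
  rw [intervalIntegral.integral_comp_sub_right (fun ψ => c7_j k ψ * c7_j k (ψ - δ)) α]
  have hper : Function.Periodic (fun ψ => c7_j k ψ * c7_j k (ψ - δ)) (2 * Real.pi) := by
    intro ψ
    show c7_j k (ψ + 2 * Real.pi) * c7_j k (ψ + 2 * Real.pi - δ) = _
    have h3 := c7_j_per k (ψ + 2 * Real.pi) 1
    have h4 := c7_j_per k (ψ + 2 * Real.pi - δ) 1
    rw [← h3, ← h4]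
    have h5 : ψ + 2 * Real.pi - ((1 : ℤ) : ℝ) * (2 * Real.pi) = ψ := by push_cast; ring
    have h6 : ψ + 2 * Real.pi - δ - ((1 : ℤ) : ℝ) * (2 * Real.pi) = ψ - δ := by push_cast; ring
    rw [h5, h6]
  have h7 := hper.intervalIntegral_add_eq (-Real.pi - α) (-Real.pi)
  have h8 : -Real.pi - α + 2 * Real.pi = Real.pi - α := by ring
  have h9 : -Real.pi + 2 * Real.pi = Real.pi := by ring
  rw [h8, h9] at h7
  exact h7

theorem c7_ii (k : ℝ) {U S : Finset G} (a b : G → ℝ) (α β : G → ℝ) :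
    IntervalIntegrable (fun φ => (∑ u ∈ U, a u * c7_j k (φ - α u)) *
      (∑ w ∈ S, b w * c7_j k (φ - β w))) volume (-Real.pi) Real.pi := by
  have hm : ∀ (V : Finset G) (c γ : G → ℝ),
      Measurable (fun φ : ℝ => ∑ u ∈ V, c u * c7_j k (φ - γ u)) := by
    intro V c γ
    exact Finset.measurable_fun_sum _ fun u _ =>
      ((c7_j_meas k).comp (measurable_id.sub_const _)).const_mul _
  have hb : ∀ (V : Finset G) (c γ : G → ℝ) (φ : ℝ),
      |∑ u ∈ V, c u * c7_j k (φ - γ u)| ≤ ∑ u ∈ V, |c u| := by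
    intro V c γ φ
    refine (Finset.abs_sum_le_sum_abs _ _).trans (Finset.sum_le_sum fun u _ => ?_)
    rw [abs_mul]
    exact mul_le_of_le_one_right (abs_nonneg _) (c7_j_abs _ _)
  rw [intervalIntegrable_iff]
  refine Measure.integrableOn_of_bounded (M := (∑ u ∈ U, |a u|) * ∑ w ∈ S, |b w|)
    (by simp) ((hm U a α).mul (hm S b β)).aestronglyMeasurable ?_
  refine Eventually.of_forall fun φ => ?_
  rw [Real.norm_eq_abs, abs_mul]
  exact mul_le_mul (hb _ _ _ _) (hb _ _ _ _) (abs_nonneg _)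
    (Finset.sum_nonneg fun _ _ => abs_nonneg _)

theorem c7_exp {k : ℝ} {U S : Finset G} (a b : G → ℝ) (α β : G → ℝ) (K : G → G → ℝ)
    (h : ∀ u ∈ U, ∀ w ∈ S, ∫ φ in (-Real.pi)..Real.pi, c7_j k (φ - α u) * c7_j k (φ - β w) =
      k * K u w) :
    ∫ φ in (-Real.pi)..Real.pi, (∑ u ∈ U, a u * c7_j k (φ - α u)) *
      (∑ w ∈ S, b w * c7_j k (φ - β w)) = k * ∑ u ∈ U, ∑ w ∈ S, a u * b w * K u w := by
  have hii : ∀ u w, IntervalIntegrable (fun φ => a u * b w *
      (c7_j k (φ - α u) * c7_j k (φ - β w))) volume (-Real.pi) Real.pi := by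
    intro u w
    have := c7_ii k (U := {u}) (S := {w}) a b α β
    simp only [Finset.sum_singleton] at this
    refine this.congr ?_
    intro φ _
    show a u * c7_j k (φ - α u) * (b w * c7_j k (φ - β w)) =
      a u * b w * (c7_j k (φ - α u) * c7_j k (φ - β w))
    ring
  have h1 : ∀ φ, (∑ u ∈ U, a u * c7_j k (φ - α u)) * (∑ w ∈ S, b w * c7_j k (φ - β w)) =
      ∑ u ∈ U, ∑ w ∈ S, a u * b w * (c7_j k (φ - α u) * c7_j k (φ - β w)) := by
    intro φ
    rw [Finset.sum_mul_sum]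
    exact Finset.sum_congr rfl fun u _ => Finset.sum_congr rfl fun w _ => by ring
  simp_rw [h1]
  have hii2 : ∀ u ∈ U, IntervalIntegrable (fun φ => ∑ w ∈ S, a u * b w *
      (c7_j k (φ - α u) * c7_j k (φ - β w))) volume (-Real.pi) Real.pi := by
    intro u _
    have := IntervalIntegrable.sum S (fun w _ => hii u w)
    refine this.congr ?_
    intro φ _
    simp only [Finset.sum_apply]
  rw [intervalIntegral.integral_finsetSum hii2, Finset.mul_sum]
  refine Finset.sum_congr rfl fun u hu => ?_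
  rw [intervalIntegral.integral_finsetSum (fun w _ => hii u w), Finset.mul_sum]
  refine Finset.sum_congr rfl fun w hw => ?_
  rw [intervalIntegral.integral_const_mul, h u hu w hw]
  ring

theorem c7_ag {u w : G} (hu : u ≠ 0) (hw : w ≠ 0) :
    ∃ n : ℤ, Complex.arg (w : ℂ) - Complex.arg (u : ℂ) = ag u w + n * (2 * Real.pi) := by
  have hu' : ((u : G) : ℂ) ≠ 0 := by simpa using hu
  have hw' : ((w : G) : ℂ) ≠ 0 := by simpa using hw
  have h1 := Complex.arg_div_coe_angle hw' hu'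
  rw [← Real.Angle.coe_sub, eq_comm, Real.Angle.angle_eq_iff_two_pi_dvd_sub] at h1
  obtain ⟨n, hn⟩ := h1
  refine ⟨n, ?_⟩
  unfold ag
  linarith

theorem c7_ag_abs (u w : G) : |ag u w| ≤ Real.pi := Complex.abs_arg_le_pi _

theorem c7_K {k θ : ℝ} (hk : 0 < k) (hk1 : k ≤ 1) (hθ : |θ| ≤ 1) {u w : G} (hu : u ≠ 0)
    (hw : w ≠ 0) : ∫ φ in (-Real.pi)..Real.pi, c7_j k (φ - Complex.arg (u : ℂ)) *
      c7_j k (φ - (Complex.arg (w : ℂ) - θ)) = k * hat ((ag u w - θ) / k) := by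
  obtain ⟨n, hn⟩ := c7_ag hu hw
  refine c7_int2 hk hk1 ?_ n (by linarith)
  have h1 := abs_le.1 (c7_ag_abs u w)
  have h2 := abs_le.1 hθ
  exact abs_le.2 ⟨by linarith, by linarith⟩

theorem c7_K0 {k : ℝ} (hk : 0 < k) (hk1 : k ≤ 1) (θ : ℝ) {u w : G} (hu : u ≠ 0)
    (hw : w ≠ 0) : ∫ φ in (-Real.pi)..Real.pi, c7_j k (φ - (Complex.arg (u : ℂ) - θ)) *
      c7_j k (φ - (Complex.arg (w : ℂ) - θ)) = k * hat (ag u w / k) := by
  obtain ⟨n, hn⟩ := c7_ag hu hw
  refine c7_int2 hk hk1 ?_ n (by linarith)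
  have h1 := c7_ag_abs u w
  linarith

theorem pos_def_pr (U S : Finset G) (hU : ∀ u ∈ U, u ≠ 0) (hS : ∀ w ∈ S, w ≠ 0) (a b : G → ℝ)
    {k θ : ℝ} (hk : 0 < k) (hk1 : k ≤ 1) (hθ : |θ| ≤ 1) :
    (∑ u ∈ U, ∑ w ∈ S, a u * b w * hat ((ag u w - θ) / k)) ^ 2 ≤
      (∑ u ∈ U, ∑ u' ∈ U, a u * a u' * hat (ag u u' / k)) *
        ∑ w ∈ S, ∑ w' ∈ S, b w * b w' * hat (ag w w' / k) := by
  set F : ℝ → ℝ := fun φ => ∑ u ∈ U, a u * c7_j k (φ - Complex.arg (u : ℂ)) with hF
  set H : ℝ → ℝ := fun φ => ∑ w ∈ S, b w * c7_j k (φ - (Complex.arg (w : ℂ) - θ)) with hH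
  have e1 := c7_exp (U := U) (S := S) (k := k) a b (fun u => Complex.arg (u : ℂ))
    (fun w => Complex.arg (w : ℂ) - θ) (fun u w => hat ((ag u w - θ) / k))
    (fun u hu w hw => c7_K hk hk1 hθ (hU u hu) (hS w hw))
  have e2 := c7_exp (U := U) (S := U) (k := k) a a (fun u => Complex.arg (u : ℂ))
    (fun w => Complex.arg (w : ℂ)) (fun u w => hat (ag u w / k))
    (fun u hu w hw => by
      have := c7_K0 hk hk1 0 (hU u hu) (hU w hw)
      simpa only [sub_zero] using this)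
  have e3 := c7_exp (U := S) (S := S) (k := k) b b (fun u => Complex.arg (u : ℂ) - θ)
    (fun w => Complex.arg (w : ℂ) - θ) (fun u w => hat (ag u w / k))
    (fun u hu w hw => c7_K0 hk hk1 θ (hS u hu) (hS w hw))
  have i1 := c7_ii k (U := U) (S := S) a b (fun u => Complex.arg (u : ℂ))
    (fun w => Complex.arg (w : ℂ) - θ)
  have i2 := c7_ii k (U := U) (S := U) a a (fun u => Complex.arg (u : ℂ))
    (fun w => Complex.arg (w : ℂ))
  have i3 := c7_ii k (U := S) (S := S) b b (fun u => Complex.arg (u : ℂ) - θ)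
    (fun w => Complex.arg (w : ℂ) - θ)
  set M := ∑ u ∈ U, ∑ w ∈ S, a u * b w * hat ((ag u w - θ) / k) with hM
  set A := ∑ u ∈ U, ∑ u' ∈ U, a u * a u' * hat (ag u u' / k) with hA
  set B := ∑ w ∈ S, ∑ w' ∈ S, b w * b w' * hat (ag w w' / k) with hB
  have key : ∀ t : ℝ, 0 ≤ B * (t * t) + (2 * M) * t + A := by
    intro t
    have h1 : 0 ≤ ∫ φ in (-Real.pi)..Real.pi, (F φ + t * H φ) ^ 2 :=
      intervalIntegral.integral_nonneg (by linarith [Real.pi_pos]) fun φ _ => sq_nonneg _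
    have h2 : ∀ φ, (F φ + t * H φ) ^ 2 = (F φ * F φ + (2 * t) * (F φ * H φ)) +
        (t * t) * (H φ * H φ) := fun φ => by ring
    simp_rw [h2] at h1
    rw [intervalIntegral.integral_add (i2.add (i1.const_mul _)) (i3.const_mul _),
      intervalIntegral.integral_add i2 (i1.const_mul _), intervalIntegral.integral_const_mul,
      intervalIntegral.integral_const_mul, e1, e2, e3] at h1
    have h3 : k * A + 2 * t * (k * M) + t * t * (k * B) =
        k * (B * (t * t) + (2 * M) * t + A) := by ring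
    rw [h3] at h1
    exact nonneg_of_mul_nonneg_right h1 hk
  have h4 := discrim_le_zero key
  unfold discrim at h4
  nlinarith

theorem sv_nonneg_pr (S : Finset G) (hS : ∀ w ∈ S, w ≠ 0) {k : ℝ} (hk : 0 < k) (hk1 : k ≤ 1) :
    0 ≤ SV S k := by
  have e3 := c7_exp (U := S) (S := S) (k := k) gl gl (fun u => Complex.arg (u : ℂ) - 0)
    (fun w => Complex.arg (w : ℂ) - 0) (fun u w => hat (ag u w / k))
    (fun u hu w hw => c7_K0 hk hk1 0 (hS u hu) (hS w hw))
  have h1 : 0 ≤ k * SV S k := by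
    unfold SV
    rw [← e3]
    exact intervalIntegral.integral_nonneg (by linarith [Real.pi_pos]) fun φ _ =>
      mul_self_nonneg _
  exact nonneg_of_mul_nonneg_right h1 hk




end Pool.Agent.TF

namespace Pool.Agent.TF

theorem pos_def : type_of% @pos_def_pr := @pos_def_pr
theorem sv_nonneg : type_of% @sv_nonneg_pr := @sv_nonneg_pr

end Pool.Agent.TF
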