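import Mathlib
import Pool.Agent.Lib_helper18.TF.Defs
import Pool.Agent.Lib_helper10.T2F.BAS
import Pool.Agent.Lib_helper10.T2F.PEL
import Pool.Agent.Lib_helper10.T2F.CNT
import Pool.Agent.Lib_helper10.T2F.SLW
import Pool.Agent.Lib_helper10.T2F.SLG
import Pool.Agent.Lib_helper10.T2F.MER
import Pool.Agent.Lib_helper10.T2F.DSR
import Pool.Agent.Lib_helper73.Var.LS

/-! TF, block I5 (helper36): finite Fourier analysis -/

namespace Pool.Agent.TF

open Pool.Agent.T2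

theorem i5_ex_add (s t : ℝ) : ex (s + t) = ex s * ex t := by
  unfold ex
  rw [← Complex.exp_add]
  congr 1
  push_cast
  ring

theorem i5_ex_int (n : ℤ) : ex (n : ℝ) = 1 := by
  unfold ex
  rw [Complex.exp_eq_one_iff]
  refine ⟨n, ?_⟩
  push_cast
  ring

theorem i5_ex_nat_mul (n : ℕ) (t : ℝ) : ex (n * t) = ex t ^ n := by
  unfold ex
  rw [← Complex.exp_nat_mul]
  congr 1
  push_cast
  ring

theorem i5_orth {N : ℕ} (hN : 1 ≤ N) (m : ℤ) :
    ∑ h ∈ Finset.range N, ex ((h : ℝ) * ((m : ℝ) / N)) =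
      if (N : ℤ) ∣ m then (N : ℂ) else 0 := by
  have hN' : (N : ℝ) ≠ 0 := by
    have : 0 < N := hN
    positivity
  have hN'' : (N : ℂ) ≠ 0 := by exact_mod_cast hN'
  have h0 : ∀ h ∈ Finset.range N, ex ((h : ℝ) * ((m : ℝ) / N)) = ex ((m : ℝ) / N) ^ h :=
    fun h _ => i5_ex_nat_mul h _
  rw [Finset.sum_congr rfl h0]
  split_ifs with h
  · obtain ⟨k, rfl⟩ := h
    have h1 : ex ((((N : ℤ) * k : ℤ) : ℝ) / N) = 1 := by
      have : (((N : ℤ) * k : ℤ) : ℝ) / N = (k : ℝ) := by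
        push_cast
        field_simp
      rw [this, i5_ex_int]
    rw [h1]
    simp
  · have h1 : ex ((m : ℝ) / N) ≠ 1 := by
      intro h2
      apply h
      unfold ex at h2
      rw [Complex.exp_eq_one_iff] at h2
      obtain ⟨k, hk⟩ := h2
      have h3 : (2 * (Real.pi : ℂ) * Complex.I) ≠ 0 := Complex.two_pi_I_ne_zero
      have h4 : (((m : ℝ) / N : ℝ) : ℂ) = k := by
        have h5 : (2 * (Real.pi : ℂ) * Complex.I) * (((m : ℝ) / N : ℝ) : ℂ) =
            (2 * (Real.pi : ℂ) * Complex.I) * k := by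
          rw [hk]
          ring
        exact mul_left_cancel₀ h3 h5
      have h6 : (m : ℝ) / N = k := by exact_mod_cast h4
      rw [div_eq_iff hN'] at h6
      refine ⟨k, ?_⟩
      have h7 : (m : ℝ) = ((k * N : ℤ) : ℝ) := by
        push_cast
        exact h6
      have h8 : m = k * N := by exact_mod_cast h7
      rw [h8, mul_comm]
    have h2 : ex ((m : ℝ) / N) ^ N = 1 := by
      rw [← i5_ex_nat_mul]
      have : (N : ℝ) * ((m : ℝ) / N) = (m : ℝ) := by field_simp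
      rw [this, i5_ex_int]
    rw [geom_sum_eq h1, h2, sub_self, zero_div]

/-- the sum over the fractions, ordered by the denominators -/
theorem i5_denom {N : ℕ} (hN : 1 ≤ N) (M : ℕ) (W : ℝ → ℝ) :
    ∑ h ∈ (Finset.range N).filter (fun h => ¬ N / Nat.gcd h N ∣ M), W ((h : ℝ) / N) =
      ∑ q ∈ N.divisors.filter (fun q => ¬ q ∣ M), ∑ a ∈ Rd q, W ((a : ℝ) / q) := by
  have hN0 : 0 < N := hN
  rw [Finset.sum_sigma']
  refine Finset.sum_nbij' (fun h => (⟨N / Nat.gcd h N, h / Nat.gcd h N⟩ : Σ _ : ℕ, ℕ))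
    (fun x => x.2 * (N / x.1)) ?_ ?_ ?_ ?_ ?_
  · intro h hh
    rw [Finset.mem_filter, Finset.mem_range] at hh
    have hg : 0 < Nat.gcd h N := Nat.gcd_pos_of_pos_right _ hN0
    rw [Finset.mem_sigma, Finset.mem_filter, Nat.mem_divisors]
    refine ⟨⟨⟨Nat.div_dvd_of_dvd (Nat.gcd_dvd_right _ _), hN0.ne'⟩, hh.2⟩, ?_⟩
    unfold Rd
    rw [Finset.mem_filter, Finset.mem_range]
    exact ⟨Nat.div_lt_div_of_lt_of_dvd (Nat.gcd_dvd_right _ _) hh.1,
      Nat.coprime_div_gcd_div_gcd hg⟩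
  · rintro ⟨q, a⟩ hx
    rw [Finset.mem_sigma, Finset.mem_filter, Nat.mem_divisors] at hx
    obtain ⟨⟨⟨hq, -⟩, hqM⟩, ha⟩ := hx
    unfold Rd at ha
    rw [Finset.mem_filter, Finset.mem_range] at ha
    obtain ⟨k, rfl⟩ := hq
    have hq0 : 0 < q := Nat.pos_of_mul_pos_right hN0 |> fun _ => by
      rcases Nat.eq_zero_or_pos q with h | h
      · rw [h, zero_mul] at hN0
        exact absurd hN0 (lt_irrefl _)
      · exact h
    have hk0 : 0 < k := by
      rcases Nat.eq_zero_or_pos k with h | h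
      · rw [h, mul_zero] at hN0
        exact absurd hN0 (lt_irrefl _)
      · exact h
    simp only at ha hqM ⊢
    rw [Nat.mul_div_cancel_left _ hq0, Finset.mem_filter, Finset.mem_range]
    have hg : Nat.gcd (a * k) (q * k) = k := by
      rw [Nat.gcd_mul_right, ha.2, one_mul]
    refine ⟨Nat.mul_lt_mul_of_pos_right ha.1 hk0, ?_⟩
    rw [hg, Nat.mul_div_cancel _ hk0]
    exact hqM
  · intro h hh
    rw [Finset.mem_filter, Finset.mem_range] at hh
    have hg : 0 < Nat.gcd h N := Nat.gcd_pos_of_pos_right _ hN0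
    simp only
    rw [Nat.div_div_self (Nat.gcd_dvd_right _ _) hN0.ne', Nat.div_mul_cancel (Nat.gcd_dvd_left _ _)]
  · rintro ⟨q, a⟩ hx
    rw [Finset.mem_sigma, Finset.mem_filter, Nat.mem_divisors] at hx
    obtain ⟨⟨⟨hq, -⟩, hqM⟩, ha⟩ := hx
    unfold Rd at ha
    rw [Finset.mem_filter, Finset.mem_range] at ha
    obtain ⟨k, rfl⟩ := hq
    have hq0 : 0 < q := by
      rcases Nat.eq_zero_or_pos q with h | h
      · rw [h, zero_mul] at hN0
        exact absurd hN0 (lt_irrefl _)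
      · exact h
    have hk0 : 0 < k := by
      rcases Nat.eq_zero_or_pos k with h | h
      · rw [h, mul_zero] at hN0
        exact absurd hN0 (lt_irrefl _)
      · exact h
    simp only at ha hqM ⊢
    rw [Nat.mul_div_cancel_left _ hq0]
    have hg : Nat.gcd (a * k) (q * k) = k := by
      rw [Nat.gcd_mul_right, ha.2, one_mul]
    rw [hg, Nat.mul_div_cancel _ hk0, Nat.mul_div_cancel _ hk0]
  · intro h hh
    rw [Finset.mem_filter, Finset.mem_range] at hh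
    have hg : 0 < Nat.gcd h N := Nat.gcd_pos_of_pos_right _ hN0
    simp only
    congr 1
    obtain ⟨s, hs⟩ := Nat.gcd_dvd_left h N
    obtain ⟨t, ht⟩ := Nat.gcd_dvd_right h N
    have h1 : h / Nat.gcd h N = s := Nat.div_eq_of_eq_mul_right hg hs
    have h2 : N / Nat.gcd h N = t := Nat.div_eq_of_eq_mul_right hg ht
    rw [h1, h2]
    have h3 : (h : ℝ) = Nat.gcd h N * s := by exact_mod_cast hs
    have h4 : (N : ℝ) = Nat.gcd h N * t := by exact_mod_cast ht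
    have h5 : ((Nat.gcd h N : ℕ) : ℝ) ≠ 0 := by positivity
    rw [h3]
    conv_lhs =>
      arg 2
      rw [h4]
    rw [mul_div_mul_left _ _ h5]

/-- multiplication with a unit -/
theorem i5_perm {N : ℕ} (hN : 1 ≤ N) {κ : ℕ} (hκ : Nat.Coprime κ N) (M : ℕ) (W : ℤ → ℝ)
    (hW : ∀ m m' : ℤ, (N : ℤ) ∣ m - m' → W m = W m') :
    ∑ h ∈ (Finset.range N).filter (fun h => ¬ N / Nat.gcd h N ∣ M), W (κ * h) =
      ∑ h ∈ (Finset.range N).filter (fun h => ¬ N / Nat.gcd h N ∣ M), W h := by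
  have hN0 : 0 < N := hN
  have hm : ∀ h ∈ (Finset.range N).filter (fun h => ¬ N / Nat.gcd h N ∣ M),
      (κ * h) % N ∈ (Finset.range N).filter (fun h => ¬ N / Nat.gcd h N ∣ M) := by
    intro h hh
    rw [Finset.mem_filter, Finset.mem_range] at hh ⊢
    refine ⟨Nat.mod_lt _ hN0, ?_⟩
    have h1 : Nat.gcd (κ * h % N) N = Nat.gcd h N := by
      rw [← Nat.gcd_rec N (κ * h), Nat.gcd_comm, Nat.Coprime.gcd_mul_left_cancel _ hκ]
    rw [h1]
    exact hh.2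
  have hinj : Set.InjOn (fun h => (κ * h) % N)
      (((Finset.range N).filter (fun h => ¬ N / Nat.gcd h N ∣ M) : Finset ℕ) : Set ℕ) := by
    intro h hh h' hh' heq
    have h1 := Finset.mem_range.1 (Finset.mem_filter.1 (Finset.mem_coe.1 hh)).1
    have h2 := Finset.mem_range.1 (Finset.mem_filter.1 (Finset.mem_coe.1 hh')).1
    have h3 : κ * h ≡ κ * h' [MOD N] := heq
    have h4 : h ≡ h' [MOD N] := Nat.ModEq.cancel_left_of_coprime hκ.symm h3
    have h5 : h % N = h' % N := h4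
    rwa [Nat.mod_eq_of_lt h1, Nat.mod_eq_of_lt h2] at h5
  refine Finset.sum_nbij (fun h => (κ * h) % N) hm hinj
    (Finset.surjOn_of_injOn_of_card_le _ hm hinj le_rfl) ?_
  intro h _
  apply hW
  have h1 : ((κ : ℤ) * h) - (((κ * h) % N : ℕ) : ℤ) = ((κ * h / N : ℕ) : ℤ) * N := by
    have h2 := Nat.div_add_mod (κ * h) N
    have h3 : ((N * (κ * h / N) + κ * h % N : ℕ) : ℤ) = ((κ * h : ℕ) : ℤ) := by rw [h2]
    push_cast at h3 ⊢
    linarith
  rw [h1]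
  exact Dvd.intro_left _ rfl

/-- the Fourier transform -/
noncomputable def i5F (c : ℤ → ℝ) (I : Finset ℤ) (t : ℝ) : ℂ := ∑ b ∈ I, (c b : ℂ) * ex (t * b)

theorem i5_per {N : ℕ} (hN : 1 ≤ N) (c : ℤ → ℝ) (I : Finset ℤ) {m m' : ℤ}
    (h : (N : ℤ) ∣ m - m') : i5F c I ((m : ℝ) / N) = i5F c I ((m' : ℝ) / N) := by
  have hN' : (N : ℝ) ≠ 0 := by
    have : 0 < N := hN
    positivity
  obtain ⟨k, hk⟩ := h
  unfold i5F
  refine Finset.sum_congr rfl fun b _ => ?_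
  have h1 : (m : ℝ) / N * b = (m' : ℝ) / N * b + ((k * b : ℤ) : ℝ) := by
    have h2 : m = m' + N * k := by linarith
    have h3 : (m : ℝ) = m' + N * k := by exact_mod_cast h2
    rw [h3]
    push_cast
    field_simp
  rw [h1, i5_ex_add, i5_ex_int, mul_one]

theorem i5_AA (c : ℤ → ℝ) (I : Finset ℤ) (q : ℕ) :
    AA c I q = ∑ a ∈ Rd q, ‖i5F c I ((a : ℝ) / q)‖ ^ 2 := by
  unfold AA i5F
  refine Finset.sum_congr rfl fun a _ => ?_
  congr 2
  refine Finset.sum_congr rfl fun b _ => ?_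
  congr 2
  ring

/-- the Fourier transform vanishes at the fractions with a denominator which divides `M` -/
theorem i5_zero (c : ℤ → ℝ) (I : Finset ℤ) {M : ℕ} (hM : 1 ≤ M)
    (hI : ∀ r : ℤ, ∑ b ∈ I.filter (fun b => (M : ℤ) ∣ b - r), c b = 0) {N : ℕ} (hN : 1 ≤ N)
    {h : ℕ} (hh : N / Nat.gcd h N ∣ M) : i5F c I ((h : ℝ) / N) = 0 := by
  have hN0 : 0 < N := hN
  have hM0 : (0 : ℤ) < M := by exact_mod_cast hM
  have hg : 0 < Nat.gcd h N := Nat.gcd_pos_of_pos_right _ hN0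
  obtain ⟨s, hs⟩ := Nat.gcd_dvd_left h N
  obtain ⟨t, ht⟩ := Nat.gcd_dvd_right h N
  have h2 : N / Nat.gcd h N = t := Nat.div_eq_of_eq_mul_right hg ht
  rw [h2] at hh
  obtain ⟨l, hl⟩ := hh
  have ht0 : (t : ℝ) ≠ 0 := by
    intro h0
    have : t = 0 := by exact_mod_cast h0
    rw [this, mul_zero] at ht
    omega
  have h5 : ((Nat.gcd h N : ℕ) : ℝ) ≠ 0 := by positivity
  have h6 : (h : ℝ) / N = s / t := by
    have h3 : (h : ℝ) = Nat.gcd h N * s := by exact_mod_cast hs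
    have h4 : (N : ℝ) = Nat.gcd h N * t := by exact_mod_cast ht
    rw [h3]
    conv_lhs =>
      arg 2
      rw [h4]
    rw [mul_div_mul_left _ _ h5]
  rw [h6]
  unfold i5F
  have h7 : ∀ b ∈ I, b % (M : ℤ) ∈ Finset.Ico (0 : ℤ) M := fun b _ => by
    rw [Finset.mem_Ico]
    exact ⟨Int.emod_nonneg _ hM0.ne', Int.emod_lt_of_pos _ hM0⟩
  rw [← Finset.sum_fiberwise_of_maps_to h7]
  refine Finset.sum_eq_zero fun r hr => ?_
  rw [Finset.mem_Ico] at hr
  have h8 : I.filter (fun b => b % (M : ℤ) = r) = I.filter (fun b => (M : ℤ) ∣ b - r) := by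
    refine Finset.filter_congr fun b _ => ?_
    constructor
    · intro h9
      rw [← h9]
      exact Int.dvd_self_sub_emod
    · intro h9
      have h10 := (Int.emod_emod_of_dvd b (dvd_refl (M : ℤ)))
      have h11 : b % (M : ℤ) = r % (M : ℤ) := by
        exact (Int.ModEq.symm ((Int.modEq_iff_dvd).2 h9))
      rw [h11, Int.emod_eq_of_lt hr.1 hr.2]
  rw [h8]
  have h12 : ∀ b ∈ I.filter (fun b => (M : ℤ) ∣ b - r),
      (c b : ℂ) * ex ((s : ℝ) / t * b) = (c b : ℂ) * ex ((s : ℝ) / t * r) := by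
    intro b hb
    obtain ⟨k, hk⟩ := (Finset.mem_filter.1 hb).2
    have h13 : (s : ℝ) / t * b = (s : ℝ) / t * r + ((s * l * k : ℤ) : ℝ) := by
      have h14 : b = r + M * k := by linarith
      have h15 : (b : ℝ) = r + M * k := by exact_mod_cast h14
      have h16 : (M : ℝ) = t * l := by exact_mod_cast hl
      rw [h15, h16]
      push_cast
      field_simp
    rw [h13, i5_ex_add, i5_ex_int, mul_one]
  rw [Finset.sum_congr rfl h12, ← Finset.sum_mul]
  have h17 : ∑ b ∈ I.filter (fun b => (M : ℤ) ∣ b - r), (c b : ℂ) = 0 := by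
    have := hI r
    exact_mod_cast this
  rw [h17, zero_mul]

open Classical in
theorem i5_GG {D : ℤ} (hD : D ≠ 0) (c : ℤ → ℝ) (I : Finset ℤ) (M : ℕ) :
    GG c I M D = ∑ h ∈ (Finset.range D.natAbs).filter (fun h => ¬ D.natAbs / Nat.gcd h D.natAbs ∣ M),
      ‖i5F c I ((h : ℝ) / D.natAbs)‖ ^ 2 := by
  have hN : 1 ≤ D.natAbs := Int.natAbs_pos.2 hD
  have h1 := i5_denom hN M (fun t => ‖i5F c I t‖ ^ 2)
  unfold GG
  have h2 : ∀ q ∈ D.natAbs.divisors.filter (fun q => ¬ q ∣ M), AA c I q =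
      ∑ a ∈ Rd q, ‖i5F c I ((a : ℝ) / q)‖ ^ 2 := fun q _ => i5_AA c I q
  rw [Finset.sum_congr rfl h2]
  convert h1.symm

open Classical in
/-- `1_{D ∣ b' - κ b} = (1/|D|) ∑_{h mod D} ex (h (κ b - b')/D)`; for `h/D = a/q` with `q ∣ M` the
Fourier transform of `c` on `I'` vanishes; `h ↦ κ h` permutes the residues and preserves the
denominators; `|x y| ≤ (|x|² + |y|²)/2` -/
theorem fourier_cell_pr {D κ : ℤ} (hD : D ≠ 0) (hκ : IsCoprime κ D) (c : ℤ → ℝ) (I I' : Finset ℤ)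
    (M : ℕ) (hM : 1 ≤ M)
    (hI : ∀ r : ℤ, ∑ b ∈ I.filter (fun b => (M : ℤ) ∣ b - r), c b = 0)
    (hI' : ∀ r : ℤ, ∑ b ∈ I'.filter (fun b => (M : ℤ) ∣ b - r), c b = 0) :
    |∑ b ∈ I, ∑ b' ∈ I'.filter (fun b' => D ∣ b' - κ * b), c b * c b'| ≤
      1 / (2 * |(D : ℝ)|) * (GG c I M D + GG c I' M D) := by
  obtain ⟨N, hNd⟩ : ∃ N : ℕ, N = D.natAbs := ⟨_, rfl⟩
  have hN : 1 ≤ N := by
    rw [hNd]
    exact Int.natAbs_pos.2 hD
  have hN0 : (0 : ℝ) < N := by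
    have : 0 < N := hN
    positivity
  have hNC : (N : ℂ) ≠ 0 := by
    have : (N : ℝ) ≠ 0 := hN0.ne'
    exact_mod_cast this
  have hNZ : (0 : ℤ) < N := by exact_mod_cast hN
  have hDN : |(D : ℝ)| = N := by
    rw [hNd, Nat.cast_natAbs, Int.cast_abs]
  have hdvd : ∀ m : ℤ, D ∣ m ↔ (N : ℤ) ∣ m := fun m => by
    rw [hNd, Int.natAbs_dvd]
  -- a natural number congruent to `-κ`
  obtain ⟨κ', hκ'⟩ : ∃ κ' : ℕ, κ' = ((-κ) % (N : ℤ)).toNat := ⟨_, rfl⟩
  have hκZ : (κ' : ℤ) = (-κ) % (N : ℤ) := by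
    rw [hκ', Int.toNat_of_nonneg (Int.emod_nonneg _ hNZ.ne')]
  have hκd : (N : ℤ) ∣ -κ - κ' := by
    rw [hκZ]
    exact Int.dvd_self_sub_emod
  have hκN : Nat.Coprime κ' N := by
    have h1 : IsCoprime (-κ) (N : ℤ) := by
      rw [IsCoprime.neg_left_iff]
      refine hκ.of_isCoprime_of_dvd_right ?_
      rw [hNd]
      exact Int.natAbs_dvd.2 (dvd_refl D)
    obtain ⟨k, hk⟩ := hκd
    have h2 : -κ = (κ' : ℤ) + N * k := by linarith
    rw [h2] at h1
    have h3 : IsCoprime (κ' : ℤ) (N : ℤ) := IsCoprime.of_add_mul_left_left h1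
    exact Nat.isCoprime_iff_coprime.1 h3
  -- the identity
  have key : ((∑ b ∈ I, ∑ b' ∈ I'.filter (fun b' => D ∣ b' - κ * b), c b * c b' : ℝ) : ℂ) =
      (1 / (N : ℂ)) * ∑ h ∈ Finset.range N, i5F c I' ((h : ℝ) / N) *
        i5F c I (((-κ * h : ℤ) : ℝ) / N) := by
    have h1 : ∀ b b' : ℤ, (if D ∣ b' - κ * b then (1 : ℂ) else 0) =
        (1 / (N : ℂ)) * ∑ h ∈ Finset.range N, ex ((h : ℝ) * (((b' - κ * b : ℤ) : ℝ) / N)) := by
      intro b b'
      rw [i5_orth hN]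
      by_cases h2 : D ∣ b' - κ * b
      · rw [if_pos h2, if_pos ((hdvd _).1 h2)]
        field_simp
      · rw [if_neg h2, if_neg (fun h3 => h2 ((hdvd _).2 h3)), mul_zero]
    have h4 : ((∑ b ∈ I, ∑ b' ∈ I'.filter (fun b' => D ∣ b' - κ * b), c b * c b' : ℝ) : ℂ) =
        ∑ b ∈ I, ∑ b' ∈ I', (c b : ℂ) * c b' * (if D ∣ b' - κ * b then (1 : ℂ) else 0) := by
      push_cast
      refine Finset.sum_congr rfl fun b _ => ?_
      rw [Finset.sum_filter]
      refine Finset.sum_congr rfl fun b' _ => ?_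
      split_ifs
      · rw [mul_one]
      · rw [mul_zero]
    rw [h4]
    have h5 : ∀ b ∈ I, ∀ b' ∈ I', (c b : ℂ) * c b' * (if D ∣ b' - κ * b then (1 : ℂ) else 0) =
        ∑ h ∈ Finset.range N, (1 / (N : ℂ)) * (((c b' : ℂ) * ex ((h : ℝ) / N * b')) *
          ((c b : ℂ) * ex (((-κ * h : ℤ) : ℝ) / N * b))) := by
      intro b _ b' _
      rw [h1, Finset.mul_sum, Finset.mul_sum]
      refine Finset.sum_congr rfl fun h _ => ?_
      have h6 : (h : ℝ) * (((b' - κ * b : ℤ) : ℝ) / N) =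
          (h : ℝ) / N * b' + ((-κ * h : ℤ) : ℝ) / N * b := by
        push_cast
        ring
      rw [h6, i5_ex_add]
      ring
    rw [Finset.sum_congr rfl fun b hb => Finset.sum_congr rfl fun b' hb' => h5 b hb b' hb']
    have h7 : ∀ b ∈ I, ∑ b' ∈ I', ∑ h ∈ Finset.range N, (1 / (N : ℂ)) *
        (((c b' : ℂ) * ex ((h : ℝ) / N * b')) * ((c b : ℂ) * ex (((-κ * h : ℤ) : ℝ) / N * b))) =
        ∑ h ∈ Finset.range N, (1 / (N : ℂ)) * (i5F c I' ((h : ℝ) / N) *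
          ((c b : ℂ) * ex (((-κ * h : ℤ) : ℝ) / N * b))) := by
      intro b _
      rw [Finset.sum_comm]
      refine Finset.sum_congr rfl fun h _ => ?_
      rw [← Finset.mul_sum, ← Finset.sum_mul]
      rfl
    rw [Finset.sum_congr rfl h7, Finset.sum_comm, Finset.mul_sum]
    refine Finset.sum_congr rfl fun h _ => ?_
    rw [← Finset.mul_sum, ← Finset.mul_sum]
    rfl
  -- the estimate
  have e1 : |∑ b ∈ I, ∑ b' ∈ I'.filter (fun b' => D ∣ b' - κ * b), c b * c b'| ≤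
      (1 / (N : ℝ)) * ∑ h ∈ Finset.range N, ‖i5F c I' ((h : ℝ) / N)‖ *
        ‖i5F c I (((κ' * h : ℤ) : ℝ) / N)‖ := by
    rw [← Real.norm_eq_abs, ← Complex.norm_real, key, norm_mul]
    have h1 : ‖(1 / (N : ℂ))‖ = 1 / (N : ℝ) := by
      rw [norm_div, norm_one, Complex.norm_natCast]
    rw [h1]
    refine mul_le_mul_of_nonneg_left ?_ (by positivity)
    refine (norm_sum_le _ _).trans (le_of_eq ?_)
    refine Finset.sum_congr rfl fun h _ => ?_
    rw [norm_mul, i5_per hN c I (m := -κ * h) (m' := κ' * h) ?_]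
    obtain ⟨k, hk⟩ := hκd
    exact ⟨k * h, by rw [← sub_mul, hk]; ring⟩
  obtain ⟨T, hT⟩ : ∃ T : Finset ℕ,
    T = (Finset.range N).filter (fun h => ¬ N / Nat.gcd h N ∣ M) := ⟨_, rfl⟩
  have e2 : ∑ h ∈ Finset.range N, ‖i5F c I' ((h : ℝ) / N)‖ *
      ‖i5F c I (((κ' * h : ℤ) : ℝ) / N)‖ = ∑ h ∈ T, ‖i5F c I' ((h : ℝ) / N)‖ *
      ‖i5F c I (((κ' * h : ℤ) : ℝ) / N)‖ := by
    rw [hT]
    symm
    refine Finset.sum_subset (Finset.filter_subset _ _) fun h hh hh' => ?_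
    have h1 : N / Nat.gcd h N ∣ M := by
      by_contra h2
      exact hh' (Finset.mem_filter.2 ⟨hh, h2⟩)
    rw [i5_zero c I' hM hI' hN h1, norm_zero, zero_mul]
  have e3 : ∑ h ∈ T, ‖i5F c I' ((h : ℝ) / N)‖ * ‖i5F c I (((κ' * h : ℤ) : ℝ) / N)‖ ≤
      (1 / 2) * (∑ h ∈ T, ‖i5F c I (((κ' * h : ℤ) : ℝ) / N)‖ ^ 2 +
        ∑ h ∈ T, ‖i5F c I' ((h : ℝ) / N)‖ ^ 2) := by
    rw [← Finset.sum_add_distrib, Finset.mul_sum]
    refine Finset.sum_le_sum fun h _ => ?_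
    nlinarith [sq_nonneg (‖i5F c I' ((h : ℝ) / N)‖ - ‖i5F c I (((κ' * h : ℤ) : ℝ) / N)‖)]
  have e4 : ∑ h ∈ T, ‖i5F c I (((κ' * h : ℤ) : ℝ) / N)‖ ^ 2 = GG c I M D := by
    rw [i5_GG hD, ← hNd]
    have h1 := i5_perm hN hκN M (fun m => ‖i5F c I ((m : ℝ) / N)‖ ^ 2)
      (fun m m' hm => by rw [i5_per hN c I hm])
    rw [hT]
    refine Eq.trans ?_ (Eq.trans h1 ?_)
    · rfl
    · rfl
  have e5 : ∑ h ∈ T, ‖i5F c I' ((h : ℝ) / N)‖ ^ 2 = GG c I' M D := by
    rw [i5_GG hD, ← hNd, hT]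
  rw [e4, e5] at e3
  rw [hDN]
  calc _ ≤ (1 / (N : ℝ)) * ∑ h ∈ Finset.range N, ‖i5F c I' ((h : ℝ) / N)‖ *
        ‖i5F c I (((κ' * h : ℤ) : ℝ) / N)‖ := e1
    _ ≤ (1 / (N : ℝ)) * ((1 / 2) * (GG c I M D + GG c I' M D)) := by
        rw [e2]
        exact mul_le_mul_of_nonneg_left e3 (by positivity)
    _ = 1 / (2 * (N : ℝ)) * (GG c I M D + GG c I' M D) := by
        field_simp

end Pool.Agent.TF

namespace Pool.Agent.TF

theorem fourier_cell : type_of% @fourier_cell_pr := @fourier_cell_pr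

end Pool.Agent.TF
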