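import Mathlib
import Pool.Agent.Lib_helper18.TF.Defs
import Pool.Agent.Lib_helper10.T2F.BAS
import Pool.Agent.Lib_helper10.T2F.PEL
import Pool.Agent.Lib_helper10.T2F.CNT
import Pool.Agent.Lib_helper10.T2F.SLW
import Pool.Agent.Lib_helper10.T2F.SLG
import Pool.Agent.Lib_helper10.T2F.MER
import Pool.Agent.Lib_helper10.T2F.DSR
import Pool.Agent.Lib_helper73.Var.LS

/-!
# Thin families: block I6, the additive large sieve
-/

namespace Pool.Agent.TF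

open Pool.Agent.T2

theorem i6_ex (t : ℝ) : ex t = Pool.Agent.Var35.e t := by
  unfold ex Pool.Agent.Var35.e
  congr 1
  push_cast
  ring

theorem i6_sum (c : ℤ → ℝ) (I : Finset ℤ) (H q a : ℕ)
    (hI : ∀ b ∈ I, 0 ≤ b ∧ b < (H : ℤ)) :
    ∑ b ∈ I, (c b : ℂ) * ex ((a : ℝ) * b / q) =
      ∑ m ∈ Finset.range H, (if (m : ℤ) ∈ I then (c (m : ℤ) : ℂ) else 0) *
        Pool.Agent.Var35.e (m * ((a : ℝ) / q)) := by
  classical
  have h1 : ∀ m : ℕ, (if (m : ℤ) ∈ I then (c (m : ℤ) : ℂ) else 0) *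
      Pool.Agent.Var35.e (m * ((a : ℝ) / q)) =
      if (m : ℤ) ∈ I then (c (m : ℤ) : ℂ) * Pool.Agent.Var35.e (m * ((a : ℝ) / q)) else 0 := by
    intro m
    split_ifs <;> simp
  simp_rw [h1]
  rw [← Finset.sum_filter]
  symm
  refine Finset.sum_nbij' (fun m => (m : ℤ)) (fun b => b.toNat) ?_ ?_ ?_ ?_ ?_
  · intro m hm
    exact (Finset.mem_filter.1 hm).2
  · intro b hb
    obtain ⟨h2, h3⟩ := hI b hb
    rw [Finset.mem_filter, Finset.mem_range]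
    have h4 : ((b.toNat : ℕ) : ℤ) = b := Int.toNat_of_nonneg h2
    refine ⟨by omega, ?_⟩
    rw [h4]
    exact hb
  · intro m _
    simp
  · intro b hb
    exact Int.toNat_of_nonneg (hI b hb).1
  · intro m _
    rw [i6_ex]
    congr 2
    push_cast
    ring

theorem ls_AA_pr : ∃ C : ℝ, 1 ≤ C ∧ ∀ (c : ℤ → ℝ) (B : ℝ) (I : Finset ℤ) (Q : ℕ), 1 ≤ B → 1 ≤ Q →
    (∀ b, |c b| ≤ 2) → (∀ b ∈ I, 1 ≤ b ∧ (b : ℝ) ≤ B) →
    ∑ q ∈ Finset.Icc 1 Q, AA c I q ≤ C * (B + (Q : ℝ) ^ 2) * B := by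
  classical
  refine ⟨176, by norm_num, fun c B I Q hB hQ hc hI => ?_⟩
  have hB0 : 0 ≤ B := by linarith
  have hQ1 : (1 : ℝ) ≤ Q := by exact_mod_cast hQ
  set H : ℕ := ⌊B⌋₊ + 1 with hH
  have hIH : ∀ b ∈ I, 0 ≤ b ∧ b < (H : ℤ) := by
    intro b hb
    obtain ⟨h1, h2⟩ := hI b hb
    refine ⟨by omega, ?_⟩
    have h3 : (b.toNat : ℝ) ≤ B := by
      have : ((b.toNat : ℕ) : ℤ) = b := Int.toNat_of_nonneg (by omega)
      have h4 : ((b.toNat : ℕ) : ℝ) = (b : ℝ) := by exact_mod_cast this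
      rw [h4]
      exact h2
    have h5 : b.toNat ≤ ⌊B⌋₊ := Nat.le_floor h3
    omega
  set a : ℕ → ℂ := fun m => if (m : ℤ) ∈ I then (c (m : ℤ) : ℂ) else 0 with ha
  have h1 : ∑ q ∈ Finset.Icc 1 Q, AA c I q =
      ∑ x ∈ (Finset.Icc 1 Q).sigma (fun d => Pool.Agent.Var73.Cd d),
        ‖∑ m ∈ Finset.range H, a m * Pool.Agent.Var35.e (m * ((x.2 : ℝ) / x.1))‖ ^ 2 := by
    rw [Finset.sum_sigma]
    refine Finset.sum_congr rfl fun q _ => ?_
    unfold AA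
    refine Finset.sum_congr rfl fun r _ => ?_
    rw [i6_sum c I H q r hIH]
  rw [h1]
  have h2 := Pool.Agent.Var35.large_sieve
    ((Finset.Icc 1 Q).sigma (fun d => Pool.Agent.Var73.Cd d))
    (fun x : (Σ _ : ℕ, ℕ) => (x.2 : ℝ) / x.1) (1 / (Q : ℝ) ^ 2) (by positivity)
    (by rw [div_le_one (by positivity)]; nlinarith)
    (Pool.Agent.Var73.farey_sep_gen (Finset.Icc 1 Q) Q
      (fun d hd => Finset.mem_Icc.1 hd) hQ) a H
  refine h2.trans ?_
  rw [one_div_one_div]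
  have hHB : (H : ℝ) ≤ 2 * B := by
    have : (⌊B⌋₊ : ℝ) ≤ B := Nat.floor_le hB0
    rw [hH]
    push_cast
    linarith
  have h3 : ∑ m ∈ Finset.range H, ‖a m‖ ^ 2 ≤ 4 * B := by
    have h4 : ∀ m ∈ Finset.range H, ‖a m‖ ^ 2 ≤ if m = 0 then 0 else 4 := by
      intro m _
      simp only [ha]
      by_cases hm : (m : ℤ) ∈ I
      · have h5 := (hI _ hm).1
        rw [if_pos hm, if_neg (by omega)]
        rw [Complex.norm_real, Real.norm_eq_abs]
        have := hc (m : ℤ)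
        have h6 := abs_nonneg (c (m : ℤ))
        nlinarith
      · rw [if_neg hm]
        split_ifs <;> simp
    refine (Finset.sum_le_sum h4).trans ?_
    rw [hH, Finset.sum_range_succ']
    simp only [Nat.add_eq_zero_iff, one_ne_zero, and_false, if_false, if_true, Finset.sum_const,
      Finset.card_range, nsmul_eq_mul, add_zero]
    have : (⌊B⌋₊ : ℝ) ≤ B := Nat.floor_le hB0
    linarith
  have h5 : 22 * ((H : ℝ) + (Q : ℝ) ^ 2) ≤ 44 * (B + (Q : ℝ) ^ 2) := by nlinarith [sq_nonneg (Q : ℝ)]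
  calc 22 * ((H : ℝ) + (Q : ℝ) ^ 2) * ∑ m ∈ Finset.range H, ‖a m‖ ^ 2
      ≤ 44 * (B + (Q : ℝ) ^ 2) * (4 * B) := by
        refine mul_le_mul h5 h3 ?_ ?_
        · exact Finset.sum_nonneg fun _ _ => by positivity
        · positivity
    _ = 176 * (B + (Q : ℝ) ^ 2) * B := by ring



end Pool.Agent.TF

namespace Pool.Agent.TF

theorem ls_AA : type_of% @ls_AA_pr := @ls_AA_pr

end Pool.Agent.TF
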