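import Mathlib
import Pool.Agent.Lib_helper18.TF.Defs
import Pool.Agent.Lib_helper10.T2F.BAS
import Pool.Agent.Lib_helper10.T2F.PEL
import Pool.Agent.Lib_helper10.T2F.CNT
import Pool.Agent.Lib_helper10.T2F.SLW
import Pool.Agent.Lib_helper10.T2F.SLG
import Pool.Agent.Lib_helper10.T2F.MER
import Pool.Agent.Lib_helper10.T2F.DSR
import Pool.Agent.Lib_helper73.Var.LS
import Pool.Agent.Lib_helper18.TFF.I6

namespace Pool.Agent.TF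

open Pool.Agent.T2

theorem i7_AA_nonneg (c : ℤ → ℝ) (I : Finset ℤ) (q : ℕ) : 0 ≤ AA c I q :=
  Finset.sum_nonneg fun _ _ => by positivity

theorem i7_abel (a g : ℕ → ℝ) (q₁ : ℕ) : ∀ Q : ℕ, q₁ ≤ Q →
    ∑ q ∈ Finset.Ioc q₁ Q, a q * g q =
      (∑ q ∈ Finset.Ioc q₁ Q, a q) * g Q +
        ∑ m ∈ Finset.Ico q₁ Q, (∑ q ∈ Finset.Ioc q₁ m, a q) * (g m - g (m + 1)) := by
  intro Q hQ
  induction Q, hQ using Nat.le_induction with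
  | base => simp
  | succ Q hQ ih =>
    rw [Finset.sum_Ioc_succ_top hQ, Finset.sum_Ioc_succ_top hQ, Finset.sum_Ico_succ_top hQ, ih]
    ring

theorem i7_tel (g : ℕ → ℝ) (q₁ : ℕ) : ∀ Q : ℕ, q₁ ≤ Q →
    ∑ m ∈ Finset.Ico q₁ Q, (g m - g (m + 1)) = g q₁ - g Q := by
  intro Q hQ
  induction Q, hQ using Nat.le_induction with
  | base => simp
  | succ Q hQ ih =>
    rw [Finset.sum_Ico_succ_top hQ, ih]
    ring

/-- the abstract bound -/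
theorem i7_gen (a g : ℕ → ℝ) (K B E : ℝ) (q₁ Q : ℕ) (hq₁ : 1 ≤ q₁) (hQ : q₁ ≤ Q) (hK : 0 ≤ K)
    (ha : ∀ q, 0 ≤ a q)
    (hS : ∀ m : ℕ, 1 ≤ m → ∑ q ∈ Finset.Icc 1 m, a q ≤ K * (B + (m : ℝ) ^ 2))
    (hg : ∀ m : ℕ, 1 ≤ m → g (m + 1) ≤ g m) (hg0 : ∀ m : ℕ, 1 ≤ m → 0 ≤ g m)
    (hE : (Q : ℝ) ^ 2 * g Q + ∑ m ∈ Finset.Ico q₁ Q, (m : ℝ) ^ 2 * (g m - g (m + 1)) ≤ E) :
    ∑ q ∈ Finset.Ioc q₁ Q, a q * g q ≤ K * (B * g q₁ + E) := by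
  have hT : ∀ m : ℕ, 1 ≤ m → ∑ q ∈ Finset.Ioc q₁ m, a q ≤ K * (B + (m : ℝ) ^ 2) := by
    intro m hm
    refine le_trans ?_ (hS m hm)
    apply Finset.sum_le_sum_of_subset_of_nonneg
    · intro q hq
      rw [Finset.mem_Ioc] at hq
      rw [Finset.mem_Icc]
      omega
    · intro q _ _
      exact ha q
  rw [i7_abel a g q₁ Q hQ]
  have h1 : (∑ q ∈ Finset.Ioc q₁ Q, a q) * g Q ≤ K * (B + (Q : ℝ) ^ 2) * g Q :=
    mul_le_mul_of_nonneg_right (hT Q (by omega)) (hg0 Q (by omega))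
  have h2 : ∑ m ∈ Finset.Ico q₁ Q, (∑ q ∈ Finset.Ioc q₁ m, a q) * (g m - g (m + 1)) ≤
      ∑ m ∈ Finset.Ico q₁ Q, K * (B + (m : ℝ) ^ 2) * (g m - g (m + 1)) := by
    apply Finset.sum_le_sum
    intro m hm
    rw [Finset.mem_Ico] at hm
    exact mul_le_mul_of_nonneg_right (hT m (by omega)) (by linarith [hg m (by omega)])
  have h3 : ∑ m ∈ Finset.Ico q₁ Q, K * (B + (m : ℝ) ^ 2) * (g m - g (m + 1)) =
      K * (B * (g q₁ - g Q) + ∑ m ∈ Finset.Ico q₁ Q, (m : ℝ) ^ 2 * (g m - g (m + 1))) := by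
    rw [← i7_tel g q₁ Q hQ, Finset.mul_sum, ← Finset.sum_add_distrib, Finset.mul_sum]
    apply Finset.sum_congr rfl
    intro m _
    ring
  have h4 : K * ((Q : ℝ) ^ 2 * g Q + ∑ m ∈ Finset.Ico q₁ Q, (m : ℝ) ^ 2 * (g m - g (m + 1))) ≤
      K * E := mul_le_mul_of_nonneg_left hE hK
  calc _ ≤ K * (B + (Q : ℝ) ^ 2) * g Q +
        K * (B * (g q₁ - g Q) + ∑ m ∈ Finset.Ico q₁ Q, (m : ℝ) ^ 2 * (g m - g (m + 1))) := by
        rw [← h3]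
        exact add_le_add h1 h2
    _ = K * B * g q₁ +
        K * ((Q : ℝ) ^ 2 * g Q + ∑ m ∈ Finset.Ico q₁ Q, (m : ℝ) ^ 2 * (g m - g (m + 1))) := by
        ring
    _ ≤ K * B * g q₁ + K * E := by linarith
    _ = _ := by ring

theorem i7_card (q₁ Q : ℕ) (u : ℕ → ℝ) (X : ℝ) (hX : 0 ≤ X)
    (h : ∀ m ∈ Finset.Ico q₁ Q, u m ≤ X) : ∑ m ∈ Finset.Ico q₁ Q, u m ≤ Q * X := by
  calc ∑ m ∈ Finset.Ico q₁ Q, u m ≤ ∑ m ∈ Finset.Ico q₁ Q, X := Finset.sum_le_sum h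
    _ = ((Q - q₁ : ℕ) : ℝ) * X := by simp
    _ ≤ Q * X := by
        apply mul_le_mul_of_nonneg_right _ hX
        exact_mod_cast Nat.sub_le Q q₁

theorem i7_low (q₁ Q : ℕ) (hq₁ : 1 ≤ q₁) (hQ : q₁ ≤ Q) :
    (Q : ℝ) ^ 2 * (1 / Real.sqrt Q) +
      ∑ m ∈ Finset.Ico q₁ Q, (m : ℝ) ^ 2 * (1 / Real.sqrt m - 1 / Real.sqrt ((m + 1 : ℕ) : ℝ)) ≤
      2 * (Q : ℝ) ^ 2 := by
  have hQ1 : (1 : ℝ) ≤ Q := by exact_mod_cast hq₁.trans hQ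
  have h1 : (Q : ℝ) ^ 2 * (1 / Real.sqrt Q) ≤ (Q : ℝ) ^ 2 := by
    have : 1 / Real.sqrt Q ≤ 1 := by
      rw [div_le_one (by positivity)]
      exact Real.one_le_sqrt.mpr hQ1
    nlinarith [sq_nonneg (Q : ℝ)]
  have h2 : ∑ m ∈ Finset.Ico q₁ Q, (m : ℝ) ^ 2 *
      (1 / Real.sqrt m - 1 / Real.sqrt ((m + 1 : ℕ) : ℝ)) ≤ (Q : ℝ) * (Q : ℝ) := by
    apply i7_card _ _ _ _ (by positivity)
    intro m hm
    rw [Finset.mem_Ico] at hm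
    have hm1 : (1 : ℝ) ≤ m := by exact_mod_cast (by omega : 1 ≤ m)
    have hmQ : (m : ℝ) ≤ Q := by exact_mod_cast (by omega : m ≤ Q)
    have ha : 1 ≤ Real.sqrt m := Real.one_le_sqrt.mpr hm1
    have hb : Real.sqrt m ≤ Real.sqrt ((m + 1 : ℕ) : ℝ) := by
      apply Real.sqrt_le_sqrt
      push_cast
      linarith
    have hc : Real.sqrt ((m + 1 : ℕ) : ℝ) ≤ Real.sqrt m + 1 := by
      rw [Real.sqrt_le_left (by positivity)]
      push_cast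
      nlinarith [Real.sq_sqrt (by positivity : (0 : ℝ) ≤ (m : ℝ))]
    have hd : 1 / Real.sqrt m - 1 / Real.sqrt ((m + 1 : ℕ) : ℝ) ≤ 1 / m := by
      have h0 : 0 < Real.sqrt m := by linarith
      have h0' : 0 < Real.sqrt ((m + 1 : ℕ) : ℝ) := by linarith
      rw [div_sub_div _ _ h0.ne' h0'.ne', div_le_div_iff₀ (by positivity) (by positivity)]
      have hs : Real.sqrt m * Real.sqrt m = m := Real.mul_self_sqrt (by positivity)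
      have e1 : (1 * Real.sqrt ((m + 1 : ℕ) : ℝ) - Real.sqrt m * 1) * (m : ℝ) ≤ 1 * (m : ℝ) := by
        apply mul_le_mul_of_nonneg_right _ (by positivity)
        linarith
      have e2 : (m : ℝ) ≤ Real.sqrt m * Real.sqrt ((m + 1 : ℕ) : ℝ) := by
        calc (m : ℝ) = Real.sqrt m * Real.sqrt m := hs.symm
          _ ≤ _ := mul_le_mul_of_nonneg_left hb h0.le
      linarith
    calc (m : ℝ) ^ 2 * (1 / Real.sqrt m - 1 / Real.sqrt ((m + 1 : ℕ) : ℝ)) ≤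
        (m : ℝ) ^ 2 * (1 / m) := mul_le_mul_of_nonneg_left hd (by positivity)
      _ = m := by field_simp
      _ ≤ Q := hmQ
  nlinarith

theorem i7_high (q₁ Q : ℕ) (hq₁ : 1 ≤ q₁) (hQ : q₁ ≤ Q) :
    (Q : ℝ) ^ 2 * (1 / (Q : ℝ)) +
      ∑ m ∈ Finset.Ico q₁ Q, (m : ℝ) ^ 2 * (1 / (m : ℝ) - 1 / ((m + 1 : ℕ) : ℝ)) ≤
      2 * (Q : ℝ) := by
  have hQ1 : (1 : ℝ) ≤ Q := by exact_mod_cast hq₁.trans hQ
  have h1 : (Q : ℝ) ^ 2 * (1 / (Q : ℝ)) = Q := by field_simp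
  have h2 : ∑ m ∈ Finset.Ico q₁ Q, (m : ℝ) ^ 2 *
      (1 / (m : ℝ) - 1 / ((m + 1 : ℕ) : ℝ)) ≤ (Q : ℝ) * 1 := by
    apply i7_card _ _ _ _ (by positivity)
    intro m hm
    rw [Finset.mem_Ico] at hm
    have hm1 : (1 : ℝ) ≤ m := by exact_mod_cast (by omega : 1 ≤ m)
    push_cast
    rw [div_sub_div _ _ (by positivity) (by positivity), mul_div_assoc', div_le_one (by positivity)]
    nlinarith
  linarith

theorem ls_low_pr : ∃ C : ℝ, 1 ≤ C ∧ ∀ (c : ℤ → ℝ) (B : ℝ) (I : Finset ℤ) (q₁ Q : ℕ), 1 ≤ B →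
    1 ≤ q₁ → 1 ≤ Q → (∀ b, |c b| ≤ 2) → (∀ b ∈ I, 1 ≤ b ∧ (b : ℝ) ≤ B) →
    ∑ q ∈ Finset.Ioc q₁ Q, AA c I q / Real.sqrt q ≤
      C * (B ^ 2 / Real.sqrt q₁ + (Q : ℝ) ^ 2 * B) := by
  obtain ⟨C, hC, h⟩ := ls_AA
  refine ⟨2 * C, by linarith, ?_⟩
  intro c B I q₁ Q hB hq₁ hQ hc hI
  rcases Nat.lt_or_ge Q q₁ with hlt | hge
  · rw [Finset.Ioc_eq_empty (by omega), Finset.sum_empty]
    positivity
  have hkey := i7_gen (fun q => AA c I q) (fun q => 1 / Real.sqrt q) (C * B) B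
    (2 * (Q : ℝ) ^ 2) q₁ Q hq₁ hge (by positivity) (fun q => i7_AA_nonneg c I q)
    (fun m hm => by
      have := h c B I m hB hm hc hI
      calc ∑ q ∈ Finset.Icc 1 m, AA c I q ≤ C * (B + (m : ℝ) ^ 2) * B := this
        _ = C * B * (B + (m : ℝ) ^ 2) := by ring)
    (fun m hm => by
      apply one_div_le_one_div_of_le
      · apply Real.sqrt_pos.mpr
        exact_mod_cast hm
      · apply Real.sqrt_le_sqrt
        push_cast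
        linarith)
    (fun m _ => by positivity)
    (i7_low q₁ Q hq₁ hge)
  calc ∑ q ∈ Finset.Ioc q₁ Q, AA c I q / Real.sqrt q =
      ∑ q ∈ Finset.Ioc q₁ Q, AA c I q * (1 / Real.sqrt q) := by
        apply Finset.sum_congr rfl
        intro q _
        rw [mul_one_div]
    _ ≤ C * B * (B * (1 / Real.sqrt q₁) + 2 * (Q : ℝ) ^ 2) := hkey
    _ ≤ 2 * C * (B ^ 2 / Real.sqrt q₁ + (Q : ℝ) ^ 2 * B) := by
        have h0 : 0 ≤ C * (B ^ 2 / Real.sqrt q₁) := by positivity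
        have e1 : C * B * (B * (1 / Real.sqrt q₁) + 2 * (Q : ℝ) ^ 2) =
            C * (B ^ 2 / Real.sqrt q₁) + 2 * C * ((Q : ℝ) ^ 2 * B) := by ring
        rw [e1]
        linarith

theorem ls_high_pr : ∃ C : ℝ, 1 ≤ C ∧ ∀ (c : ℤ → ℝ) (B : ℝ) (I : Finset ℤ) (q₁ Q : ℕ), 1 ≤ B →
    1 ≤ q₁ → 1 ≤ Q → (∀ b, |c b| ≤ 2) → (∀ b ∈ I, 1 ≤ b ∧ (b : ℝ) ≤ B) →
    ∑ q ∈ Finset.Ioc q₁ Q, AA c I q / q ≤ C * (B ^ 2 / q₁ + Q * B) := by
  obtain ⟨C, hC, h⟩ := ls_AA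
  refine ⟨2 * C, by linarith, ?_⟩
  intro c B I q₁ Q hB hq₁ hQ hc hI
  rcases Nat.lt_or_ge Q q₁ with hlt | hge
  · rw [Finset.Ioc_eq_empty (by omega), Finset.sum_empty]
    positivity
  have hkey := i7_gen (fun q => AA c I q) (fun q => 1 / (q : ℝ)) (C * B) B
    (2 * (Q : ℝ)) q₁ Q hq₁ hge (by positivity) (fun q => i7_AA_nonneg c I q)
    (fun m hm => by
      have := h c B I m hB hm hc hI
      calc ∑ q ∈ Finset.Icc 1 m, AA c I q ≤ C * (B + (m : ℝ) ^ 2) * B := this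
        _ = C * B * (B + (m : ℝ) ^ 2) := by ring)
    (fun m hm => by
      apply one_div_le_one_div_of_le
      · exact_mod_cast hm
      · push_cast
        linarith)
    (fun m _ => by positivity)
    (i7_high q₁ Q hq₁ hge)
  calc ∑ q ∈ Finset.Ioc q₁ Q, AA c I q / q =
      ∑ q ∈ Finset.Ioc q₁ Q, AA c I q * (1 / (q : ℝ)) := by
        apply Finset.sum_congr rfl
        intro q _
        rw [mul_one_div]
    _ ≤ C * B * (B * (1 / (q₁ : ℝ)) + 2 * (Q : ℝ)) := hkey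
    _ ≤ 2 * C * (B ^ 2 / q₁ + Q * B) := by
        have h0 : 0 ≤ C * (B ^ 2 / (q₁ : ℝ)) := by positivity
        have e1 : C * B * (B * (1 / (q₁ : ℝ)) + 2 * (Q : ℝ)) =
            C * (B ^ 2 / q₁) + 2 * C * (Q * B) := by ring
        rw [e1]
        linarith

end Pool.Agent.TF

namespace Pool.Agent.TF

theorem ls_low : type_of% @ls_low_pr := @ls_low_pr
theorem ls_high : type_of% @ls_high_pr := @ls_high_pr

end Pool.Agent.TF
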