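import Mathlib
import Pool.Agent.Lib_helper18.TF.Defs
import Pool.Agent.Lib_helper10.T2F.BAS
import Pool.Agent.Lib_helper10.T2F.PEL
import Pool.Agent.Lib_helper10.T2F.CNT
import Pool.Agent.Lib_helper10.T2F.SLW
import Pool.Agent.Lib_helper10.T2F.SLG
import Pool.Agent.Lib_helper10.T2F.MER
import Pool.Agent.Lib_helper10.T2F.DSR

/-! TF, block P13: the trivial bound for pairs. -/

namespace Pool.Agent.TF

open Pool.Agent.T2

/-- two elements with the same determinant and nearly the same inner product are equal -/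
theorem p13_inj {v w w' : G} {p : ℕ} (hp : p.Prime) (hv : nn v = p) (h0 : 0 < v.im)
    (_h1 : v.im < v.re) (hd : det v w = det v w') (hi : |ip v w - ip v w'| < (p : ℤ)) :
    w = w' := by
  have hn := nn_cast v
  rw [hv] at hn
  have hp2 : 2 ≤ (p : ℤ) := by exact_mod_cast hp.two_le
  have e1 : v.re * (w.im - w'.im) = v.im * (w.re - w'.re) := by
    unfold det at hd; linarith
  have e2 : ip v w - ip v w' = v.re * (w.re - w'.re) + v.im * (w.im - w'.im) := by
    unfold ip; ring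
  set t := ip v w - ip v w' with ht
  have e3 : t * v.re = p * (w.re - w'.re) := by
    rw [e2, hn]; linear_combination v.im * e1
  have e4 : t * v.im = p * (w.im - w'.im) := by
    rw [e2, hn]; linear_combination -v.re * e1
  have hpi : Prime (p : ℤ) := Nat.prime_iff_prime_int.mp hp
  have h5 : (p : ℤ) ∣ t := by
    have h6 : (p : ℤ) ∣ t * v.im := ⟨_, e4⟩
    rcases hpi.dvd_or_dvd h6 with h | h
    · exact h
    · exfalso
      have h7 := Int.le_of_dvd h0 h
      nlinarith
  have h6 : t = 0 := Int.eq_zero_of_abs_lt_dvd h5 hi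
  rw [h6, zero_mul] at e3 e4
  have hp0 : (p : ℤ) ≠ 0 := by omega
  have h7 : w.re - w'.re = 0 := by
    rcases mul_eq_zero.mp e3.symm with h | h
    · exact absurd h hp0
    · exact h
  have h8 : w.im - w'.im = 0 := by
    rcases mul_eq_zero.mp e4.symm with h | h
    · exact absurd h hp0
    · exact h
  exact Zsqrtd.ext (by omega) (by omega)

/-- the inner product of two prime elements -/
theorem p13_ip {v w : G} {p p' : ℕ} {Y : ℝ} (hY : 1 ≤ Y) (hv : nn v = p) (hw : nn w = p')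
    (h0 : 0 < v.im) (h1 : v.im < v.re) (h2 : 0 < w.im) (h3 : w.im < w.re)
    (hp : (p : ℝ) ≤ 2 * Y) (hp' : (p' : ℝ) ≤ 2 * Y) :
    0 ≤ ⌊(ip v w : ℝ) / Y⌋ ∧ ⌊(ip v w : ℝ) / Y⌋ ≤ 2 := by
  have hpos : 0 < ip v w := by
    unfold ip
    have a1 : 0 < v.re * w.re := mul_pos (by omega) (by omega)
    have a2 : 0 < v.im * w.im := mul_pos h0 h2
    omega
  have hposR : (0 : ℝ) < ip v w := by exact_mod_cast hpos
  have hn := nn_cast v
  have hm := nn_cast w
  rw [hv] at hn
  rw [hw] at hm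
  have hsq : (ip v w) ^ 2 ≤ (p : ℤ) * p' := by
    rw [hn, hm]; unfold ip
    nlinarith [sq_nonneg (v.re * w.im - v.im * w.re)]
  have hsqR : (ip v w : ℝ) ^ 2 ≤ (p : ℝ) * p' := by exact_mod_cast hsq
  have hle : (ip v w : ℝ) ≤ 2 * Y := by
    have h4 : (ip v w : ℝ) ^ 2 ≤ (2 * Y) ^ 2 := by
      refine hsqR.trans ?_
      rw [sq]
      exact mul_le_mul hp hp' (by positivity) (by linarith)
    exact abs_le_of_sq_le_sq' h4 (by linarith) |>.2
  constructor
  · exact Int.floor_nonneg.mpr (by positivity)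
  · have h5 : (ip v w : ℝ) / Y ≤ 2 := by
      rw [div_le_iff₀ (by linarith)]; exact hle
    have h6 := Int.floor_le_floor h5
    have h7 : ⌊(2 : ℝ)⌋ = 2 := by norm_num
    omega

theorem pair_trivial_pr : ∃ C : ℝ, 1 ≤ C ∧ ∀ (Y D : ℝ) (q : ℕ), 1 ≤ Y → 0 ≤ D → 1 ≤ q →
    Np Y D q ≤ C * Y * D / q := by
  classical
  refine ⟨12, by norm_num, ?_⟩
  intro Y D q hY hD hq
  have hq0 : (0 : ℝ) < q := by exact_mod_cast hq
  have hqi : (0 : ℤ) < q := by exact_mod_cast hq
  set K : ℕ := ⌊D / q⌋₊ with hK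
  set M : Finset ℤ := (Finset.Icc (-(K : ℤ)) K).erase 0 with hM
  have hMc : M.card = 2 * K := by
    rw [hM, Finset.card_erase_of_mem (by simp), Int.card_Icc]
    omega
  set S : Finset (ℕ × ℕ) := (pr1 Y (2 * Y) ×ˢ pr1 Y (2 * Y)).filter (fun t =>
    det (pel t.1) (pel t.2) ≠ 0 ∧ |(det (pel t.1) (pel t.2) : ℝ)| ≤ D ∧
      (q : ℤ) ∣ det (pel t.1) (pel t.2)) with hS
  have hcard : S.card ≤ (pr1 Y (2 * Y) ×ˢ (M ×ˢ Finset.Icc (0 : ℤ) 2)).card := by
    refine Finset.card_le_card_of_injOn (fun t => (t.1, (det (pel t.1) (pel t.2) / q,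
      ⌊(ip (pel t.1) (pel t.2) : ℝ) / Y⌋))) ?_ ?_
    · intro t ht
      have ht' := Finset.mem_coe.mp ht
      rw [hS, Finset.mem_filter, Finset.mem_product] at ht'
      obtain ⟨⟨h1, h2⟩, h3, h4, h5⟩ := ht'
      have m1 := mer_mem.mp h1
      have m2 := mer_mem.mp h2
      obtain ⟨s1, s2, s3⟩ := pel_spec m1.1 m1.2.1
      obtain ⟨r1, r2, r3⟩ := pel_spec m2.1 m2.2.1
      have hip := p13_ip hY s1 r1 s2 s3 r2 r3 m1.2.2.2 m2.2.2.2
      obtain ⟨k, hk⟩ := h5
      have hdiv : det (pel t.1) (pel t.2) / q = k := by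
        rw [hk]; exact Int.mul_ediv_cancel_left _ hqi.ne'
      simp only [Finset.coe_product, Set.mem_prod, Finset.mem_coe, Finset.mem_Icc]
      refine ⟨h1, ?_, hip⟩
      rw [hdiv, hM, Finset.mem_erase, Finset.mem_Icc]
      have hk0 : k ≠ 0 := by
        rintro rfl
        exact h3 (by rw [hk, mul_zero])
      refine ⟨hk0, ?_⟩
      have habs : |(k : ℝ)| ≤ D / q := by
        rw [le_div_iff₀ hq0]
        have h6 : |(det (pel t.1) (pel t.2) : ℝ)| = |(k : ℝ)| * q := by
          rw [hk]; push_cast; rw [abs_mul, abs_of_pos hq0, mul_comm]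
        rw [← h6]; exact h4
      have hkn : k.natAbs ≤ K := by
        rw [hK]
        refine Nat.le_floor ?_
        rw [Nat.cast_natAbs, Int.cast_abs]; exact habs
      omega
    · intro t ht t' ht' he
      have ht1 := Finset.mem_coe.mp ht
      have ht2 := Finset.mem_coe.mp ht'
      rw [hS, Finset.mem_filter, Finset.mem_product] at ht1 ht2
      obtain ⟨⟨h1, h2⟩, h3, h4, h5⟩ := ht1
      obtain ⟨⟨h1', h2'⟩, h3', h4', h5'⟩ := ht2
      simp only [Prod.mk.injEq] at he
      obtain ⟨e1, e2, e3⟩ := he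
      obtain ⟨p, a⟩ := t
      obtain ⟨p', b⟩ := t'
      simp only at *
      subst e1
      have m1 := mer_mem.mp h1
      have m2 := mer_mem.mp h2
      have m3 := mer_mem.mp h2'
      obtain ⟨s1, s2, s3⟩ := pel_spec m1.1 m1.2.1
      have hdet : det (pel p) (pel a) = det (pel p) (pel b) := by
        obtain ⟨k, hk⟩ := h5
        obtain ⟨k', hk'⟩ := h5'
        rw [hk, hk', Int.mul_ediv_cancel_left _ hqi.ne', Int.mul_ediv_cancel_left _ hqi.ne'] at e2
        rw [hk, hk', e2]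
      have hip : |ip (pel p) (pel a) - ip (pel p) (pel b)| < (p : ℤ) := by
        have h6 := Int.abs_sub_lt_one_of_floor_eq_floor e3
        have h7 : |(ip (pel p) (pel a) : ℝ) - ip (pel p) (pel b)| < Y := by
          have h8 : (ip (pel p) (pel a) : ℝ) / Y - (ip (pel p) (pel b) : ℝ) / Y =
            ((ip (pel p) (pel a) : ℝ) - ip (pel p) (pel b)) / Y := by ring
          rw [h8, abs_div, abs_of_pos (by linarith : (0:ℝ) < Y), div_lt_one (by linarith)] at h6
          exact h6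
        have h9 : |(ip (pel p) (pel a) : ℝ) - ip (pel p) (pel b)| < p := h7.trans m1.2.2.1
        have h10 : ((|ip (pel p) (pel a) - ip (pel p) (pel b)| : ℤ) : ℝ) < ((p : ℤ) : ℝ) := by
          push_cast; exact h9
        exact_mod_cast h10
      have hw := p13_inj m1.1 s1 s2 s3 hdet hip
      have h11 : a = b := by
        rw [← (pel_spec m2.1 m2.2.1).1, ← (pel_spec m3.1 m3.2.1).1, hw]
      rw [h11]
  have hpr : ((pr1 Y (2 * Y)).card : ℝ) ≤ 2 * Y := by
    have h1 : (pr1 Y (2 * Y)).card ≤ (Finset.Icc 1 ⌊2 * Y⌋₊).card := by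
      refine Finset.card_le_card fun p hp => ?_
      have m := mer_mem.mp hp
      exact Finset.mem_Icc.mpr ⟨m.1.one_le, Nat.le_floor m.2.2.2⟩
    rw [Nat.card_Icc, Nat.add_sub_cancel] at h1
    calc ((pr1 Y (2 * Y)).card : ℝ) ≤ (⌊2 * Y⌋₊ : ℝ) := by exact_mod_cast h1
      _ ≤ 2 * Y := Nat.floor_le (by linarith)
  have hKr : (K : ℝ) ≤ D / q := Nat.floor_le (by positivity)
  have htot : (S.card : ℝ) ≤ (pr1 Y (2 * Y)).card * ((2 * K) * 3) := by
    rw [Finset.card_product, Finset.card_product, hMc] at hcard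
    have h3 : (Finset.Icc (0 : ℤ) 2).card = 3 := by rfl
    rw [h3] at hcard
    exact_mod_cast hcard
  have hNp : Np Y D q = (S.card : ℝ) := by
    unfold Np
    rw [hS]
  rw [hNp]
  calc (S.card : ℝ) ≤ (pr1 Y (2 * Y)).card * ((2 * K) * 3) := htot
    _ ≤ (2 * Y) * ((2 * (D / q)) * 3) := by
        refine mul_le_mul hpr ?_ (by positivity) (by linarith)
        linarith
    _ = 12 * Y * D / q := by ring



end Pool.Agent.TF

namespace Pool.Agent.TF

theorem pair_trivial : type_of% @pair_trivial_pr := @pair_trivial_pr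

end Pool.Agent.TF
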